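import Pool.Agent.MP_536a45_ag.Setup

set_option linter.all false

section

/-!
# The 2-adic valuation of the point counts of an ordinary elliptic curve
-/

namespace Pool.Agent.MP_536a45_ag

namespace Ell

/-- `z = 2 ^ a * odd`. -/
def V2 (z : ℤ) (a : ℕ) : Prop := 2 ^ a ∣ z ∧ ¬ 2 ^ (a + 1) ∣ z

section Group

variable {E : Type*} [AddCommGroup E]

lemma mem_of_dvd {T : E} (hT : ∀ P : E, 2 • P = 0 → P = 0 ∨ P = T) (hT0 : T ≠ 0) (p : ℕ → E)
    (h0 : p 0 = 0) (hp : ∀ n, 2 • p (n + 1) = p n) :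
    ∀ (n : ℕ) (G : AddSubgroup E), Finite G → 2 ^ n ∣ Nat.card G → p n ∈ G := by
  intro n
  induction n with
  | zero => intro G _ _; rw [h0]; exact G.zero_mem
  | succ n ih =>
    intro G hG hd
    have hTG : T ∈ G := by
      obtain ⟨x, hx⟩ := exists_prime_addOrderOf_dvd_card' (G := G) 2
        ((dvd_pow_self 2 (Nat.succ_ne_zero n)).trans hd)
      have h2 : 2 • (x : E) = 0 := by
        have := addOrderOf_nsmul_eq_zero x
        rw [hx] at this
        exact congrArg Subtype.val this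
      rcases hT _ h2 with h | h
      · have : x = 0 := Subtype.ext h
        rw [this, addOrderOf_zero] at hx; omega
      · rw [← h]; exact x.2
    let f : G →+ E := (nsmulAddMonoidHom 2).comp G.subtype
    have hker : Nat.card f.ker ∣ 2 := by
      have h1 : Nat.card f.ker ≤ 2 := by
        have : Nat.card f.ker ≤ Nat.card ({0, T} : Set E) := by
          refine Nat.card_le_card_of_injective (fun x => ⟨x.1.1, hT _ x.2⟩) ?_
          intro x y h
          exact Subtype.ext (Subtype.ext (congrArg (fun z : ({0, T} : Set E) => z.1) h))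
        rw [Nat.card_coe_set_eq, Set.ncard_pair hT0.symm] at this
        exact this
      have h2 : 0 < Nat.card f.ker := Nat.card_pos
      interval_cases Nat.card f.ker <;> simp
    have hc : Nat.card f.ker * Nat.card f.range = Nat.card G := by
      rw [← AddSubgroup.index_ker, AddSubgroup.card_mul_index]
    have hfin : Finite f.range := Finite.of_surjective _ f.rangeRestrict_surjective
    have hd2 : 2 ^ n ∣ Nat.card f.range := by
      have : 2 * 2 ^ n ∣ 2 * Nat.card f.range := by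
        rw [← pow_succ']; exact hd.trans (hc ▸ Nat.mul_dvd_mul_right hker _)
      exact Nat.dvd_of_mul_dvd_mul_left two_pos this
    obtain ⟨Q, hQ⟩ := ih _ hfin hd2
    have h3 : 2 • (p (n + 1) - Q) = 0 := by
      rw [smul_sub, hp, ← hQ]; exact sub_self _
    rcases hT _ h3 with h | h
    · rw [sub_eq_zero.mp h]; exact Q.2
    · rw [sub_eq_iff_eq_add.mp h]; exact G.add_mem hTG Q.2

lemma dvd_of_mem {T : E} (hT0 : T ≠ 0) (p : ℕ → E) (h0 : p 0 = 0) (h1 : p 1 = T)
    (hp : ∀ n, 2 • p (n + 1) = p n) (n : ℕ) (G : AddSubgroup E) (h : p n ∈ G) :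
    2 ^ n ∣ Nat.card G := by
  have hk : ∀ k m, 2 ^ k • p (m + k) = p m := by
    intro k
    induction k with
    | zero => intro m; simp
    | succ k ih => intro m; rw [pow_succ, mul_smul, ← add_assoc, hp, ih]
  rcases n with _ | n
  · simp
  have ho : addOrderOf (p (n + 1)) = 2 ^ (n + 1) := by
    refine addOrderOf_eq_prime_pow ?_ ?_
    · have := hk n 1
      rw [add_comm 1 n] at this
      rw [this, h1]; exact hT0
    · have := hk (n + 1) 0
      rw [zero_add] at this
      rw [this, h0]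
  rw [← ho]
  exact AddSubgroup.addOrderOf_dvd_natCard G h

lemma val_step {T : E} (hT : ∀ P : E, 2 • P = 0 → P = 0 ∨ P = T) (hT0 : T ≠ 0) (hT2 : 2 • T = 0)
    (hdiv : ∀ Q : E, ∃ P, 2 • P = Q) (φ : E →+ E) (h4 : ∀ P : E, 4 • P = 0 → φ P = P)
    (G1 G2 : AddSubgroup E) (hG1 : ∀ P, P ∈ G1 ↔ φ P = P) (hG2 : ∀ P, P ∈ G2 ↔ φ (φ P) = P)
    [Finite G1] [Finite G2] : ∃ a, V2 (Nat.card G1) a ∧ V2 (Nat.card G2) (a + 1) := by
  choose d hd using hdiv
  let p : ℕ → E := fun n => Nat.casesOn n 0 fun k => d^[k] T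
  have h0 : p 0 = 0 := rfl
  have h1 : p 1 = T := rfl
  have hp : ∀ n, 2 • p (n + 1) = p n := by
    rintro (_ | n)
    · exact hT2
    · change 2 • d^[n + 1] T = d^[n] T
      rw [Function.iterate_succ_apply', hd]
  have hiff : ∀ n (G : AddSubgroup E), Finite G → ((2 : ℤ) ^ n ∣ (Nat.card G : ℤ) ↔ p n ∈ G) := by
    intro n G hG
    rw [show ((2 : ℤ) ^ n) = ((2 ^ n : ℕ) : ℤ) by simp, Int.natCast_dvd_natCast]
    exact ⟨mem_of_dvd hT hT0 p h0 hp n G hG, dvd_of_mem hT0 p h0 h1 hp n G⟩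
  obtain ⟨a, u, hu, ha⟩ := Nat.exists_eq_two_pow_mul_odd (Nat.card_pos (α := G1)).ne'
  have v1 : V2 (Nat.card G1) a := by
    rw [ha]
    refine ⟨by simp, fun h => ?_⟩
    rw [pow_succ, Nat.cast_mul, Nat.cast_pow, Nat.cast_ofNat,
      mul_dvd_mul_iff_left (by positivity)] at h
    exact (Int.not_even_iff_odd.mpr hu.natCast) (even_iff_two_dvd.mpr h)
  refine ⟨a, v1, ?_⟩
  have k1 := (hG1 _).mp ((hiff _ _ inferInstance).mp v1.1)
  have k2 : φ (p (a + 1)) ≠ p (a + 1) := fun h =>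
    v1.2 ((hiff _ _ inferInstance).mpr ((hG1 _).mpr h))
  set Q := φ (p (a + 2)) - p (a + 2) with hQ
  have q2 : 2 • Q = φ (p (a + 1)) - p (a + 1) := by rw [hQ, smul_sub, ← map_nsmul, hp]
  have q4 : 4 • Q = 0 := by
    rw [show 4 = 2 * 2 from rfl, mul_smul, q2, smul_sub, ← map_nsmul, hp, k1, sub_self]
  have e : φ (φ (p (a + 2))) - p (a + 2) = 2 • Q := by
    have := h4 Q q4
    rw [hQ, map_sub] at this
    rw [two_nsmul, hQ]
    rw [sub_eq_iff_eq_add] at this
    rw [this]; abel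
  refine ⟨(hiff _ _ inferInstance).mpr ((hG2 _).mpr ?_), fun h => k2 ?_⟩
  · have := congrArg (2 • ·) e
    simp only [smul_sub, ← map_nsmul, hp, ← mul_smul] at this
    exact sub_eq_zero.mp (this.trans q4)
  · have := (hG2 _).mp ((hiff _ _ inferInstance).mp h)
    rw [this, sub_self, q2] at e
    exact sub_eq_zero.mp e.symm

end Group

open WeierstrassCurve WeierstrassCurve.Affine

/-- The curve `y^2 + x y = x^3 + x`. -/
def EW : WeierstrassCurve.Affine (ZMod 2) := ⟨1, 0, 0, 1, 0⟩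

noncomputable abbrev EK : WeierstrassCurve.Affine kk := EW.baseChange kk

noncomputable instance decEqkk : DecidableEq kk := Classical.decEq _

lemma a1 : EK.a₁ = 1 := by simp [EW]
lemma a2 : EK.a₂ = 0 := by simp [EW]
lemma a3 : EK.a₃ = 0 := by simp [EW]
lemma a4 : EK.a₄ = 1 := by simp [EW]
lemma a6 : EK.a₆ = 0 := by simp [EW]

lemma two0 : (2 : kk) = 0 := CharTwo.two_eq_zero

lemma ns_iff (x y : kk) : EK.Nonsingular x y ↔ y ^ 2 + x * y = x ^ 3 + x := by
  rw [nonsingular_iff, equation_iff, a1, a2, a3, a4, a6]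
  constructor
  · rintro ⟨h, -⟩; linear_combination h
  · intro h
    refine ⟨by linear_combination h, ?_⟩
    by_contra hc
    push Not at hc
    obtain ⟨h1, h2⟩ := hc
    have hx : x = 0 := by linear_combination h2 - y * two0
    subst hx
    have hy : y = 0 := pow_eq_zero_iff (two_ne_zero) |>.mp (by linear_combination h)
    subst hy
    simp at h1

lemma negY_eq (x y : kk) : EK.negY x y = y + x := by
  rw [negY, a1, a3]; linear_combination (-x - y) * two0

/-- The point of order two. -/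
noncomputable def TT : EK.Point := .some 0 0 ((ns_iff 0 0).mpr (by simp))

lemma dbl {x y : kk} (h : EK.Nonsingular x y) (hx : x ≠ 0) :
    ∃ y' h', 2 • Point.some x y h = Point.some (x ^ 2 + x⁻¹ ^ 2) y' h' := by
  have hy : y ≠ EK.negY x y := by rw [negY_eq]; simpa using hx
  have he : EK.addX x x (EK.slope x x y y) = x ^ 2 + x⁻¹ ^ 2 := by
    have h1 := (ns_iff x y).mp h
    rw [slope_of_Y_ne rfl hy, addX, negY_eq, a1, a2, a4,
      show y - (y + x) = x by linear_combination (-x) * two0,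
      show 3 * x ^ 2 + 2 * 0 * x + 1 - 1 * y = x ^ 2 + 1 + y by
        linear_combination (x ^ 2 - y) * two0]
    field_simp
    linear_combination h1 + (x ^ 2 + x ^ 2 * y + y + x) * two0
  rw [two_nsmul, Point.add_self_of_Y_ne hy]
  have h2 := nonsingular_add h h (fun hxy => hy hxy.right)
  refine ⟨EK.addY x x y (EK.slope x x y y), he ▸ h2, ?_⟩
  simp only [Point.some.injEq, and_true]
  exact he

lemma two_tors (P : EK.Point) (h : 2 • P = 0) : P = 0 ∨ P = TT := by
  rcases P with _ | ⟨x, y, hP⟩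
  · exact Or.inl rfl
  by_cases hx : x = 0
  · subst hx
    have h1 := (ns_iff _ _).mp hP
    have hy : y = 0 := pow_eq_zero_iff (two_ne_zero) |>.mp (by linear_combination h1)
    subst hy
    exact Or.inr rfl
  · obtain ⟨y', h', e⟩ := dbl hP hx
    rw [e] at h
    exact absurd h (Point.some_ne_zero _)

lemma TT_two : 2 • TT = 0 := by
  rw [two_nsmul, TT]
  exact Point.add_self_of_Y_eq (by rw [negY_eq]; simp)

lemma exists_quad (b c : kk) : ∃ y : kk, y ^ 2 + b * y = c := by
  obtain ⟨y, hy⟩ := IsAlgClosed.exists_root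
    (Polynomial.C 1 * Polynomial.X ^ 2 + Polynomial.C b * Polynomial.X + Polynomial.C (-c))
    (by rw [Polynomial.degree_quadratic one_ne_zero]; decide)
  refine ⟨y, ?_⟩
  simp only [Polynomial.IsRoot, Polynomial.eval_add, Polynomial.eval_mul, Polynomial.eval_C,
    Polynomial.eval_pow, Polynomial.eval_X] at hy
  linear_combination hy

lemma two_div (Q : EK.Point) : ∃ P, 2 • P = Q := by
  rcases Q with _ | ⟨u, v, hQ⟩
  · exact ⟨0, nsmul_zero 2⟩
  obtain ⟨s, hs⟩ := exists_quad 0 u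
  obtain ⟨x, hx⟩ := exists_quad s 1
  have hx0 : x ≠ 0 := by rintro rfl; simp at hx
  obtain ⟨y, hy⟩ := exists_quad x (x ^ 3 + x)
  obtain ⟨y', h', e⟩ := dbl ((ns_iff x y).mpr hy) hx0
  have hu : x ^ 2 + x⁻¹ ^ 2 = u := by
    field_simp
    linear_combination (x ^ 2 + s * x + 1) * hx + x ^ 2 * hs +
      (1 - s * x ^ 3 - s ^ 2 * x ^ 2) * two0
  rcases (Point.X_eq_iff (h₁ := h') (h₂ := hQ)).mp hu with h | h
  · exact ⟨_, e.trans h⟩
  · exact ⟨-Point.some x y ((ns_iff x y).mpr hy), by rw [neg_nsmul, e, h, neg_neg]⟩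

/-- The `2 ^ m`-power Frobenius. -/
noncomputable def frA (m : ℕ) : kk →ₐ[ZMod 2] kk :=
  { iterateFrobenius kk 2 m with
    commutes' := fun r => DFunLike.congr_fun
      (RingHom.ext_zmod ((iterateFrobenius kk 2 m).comp (algebraMap _ _)) (algebraMap _ _)) r }

lemma frA_apply (m : ℕ) (x : kk) : frA m x = x ^ 2 ^ m := rfl

noncomputable def phi (m : ℕ) : EK.Point →+ EK.Point := Point.map (frA m)

lemma phi_fix {m : ℕ} {x y : kk} (h : EK.Nonsingular x y) :
    phi m (.some x y h) = .some x y h ↔ x ^ 2 ^ m = x ∧ y ^ 2 ^ m = y := by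
  rw [phi, Point.map_some, Point.some.injEq]; rfl

lemma four_tors (m : ℕ) (P : EK.Point) (h : 4 • P = 0) : phi m P = P := by
  rcases P with _ | ⟨x, y, hP⟩
  · rfl
  have h1 := (ns_iff _ _).mp hP
  have hq : 2 ^ m ≠ 0 := by positivity
  rw [phi_fix]
  by_cases hx : x = 0
  · subst hx
    have hy : y = 0 := pow_eq_zero_iff (two_ne_zero) |>.mp (by linear_combination h1)
    simp [hy]
  obtain ⟨y', h', e⟩ := dbl hP hx
  rw [show 4 = 2 * 2 from rfl, mul_smul, e] at h
  rcases two_tors _ h with h | h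
  · exact absurd h (Point.some_ne_zero _)
  have h2 : x ^ 2 + x⁻¹ ^ 2 = 0 := (Point.some.inj h).1
  have h3 : (x + 1) ^ 4 = 0 := by
    field_simp at h2
    linear_combination h2 + (2 * x ^ 3 + 3 * x ^ 2 + 2 * x) * two0
  have h4 : x = 1 := by
    have := pow_eq_zero_iff (by norm_num) |>.mp h3
    linear_combination this - two0
  subst h4
  have h5 : y * (y - 1) = 0 := by linear_combination h1 + (1 - y) * two0
  rcases mul_eq_zero.mp h5 with h | h
  · simp [h]
  · simp [sub_eq_zero.mp h]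

/-- Affine points over the field with `2 ^ m` elements. -/
def aff (m : ℕ) : Set (kk × kk) :=
  {p | p.1 ^ 2 ^ m = p.1 ∧ p.2 ^ 2 ^ m = p.2 ∧ p.2 ^ 2 + p.1 * p.2 = p.1 ^ 3 + p.1}

lemma card_fix (m : ℕ) (G : AddSubgroup EK.Point) (hG : ∀ P, P ∈ G ↔ phi m P = P)
    (hf : (aff m).Finite) : Finite G ∧ Nat.card G = (aff m).ncard + 1 := by
  have e : G ≃ Option (aff m) := (nonsingularPointEquivSubtype (W' := EK) (p := fun P => P ∈ G)
    G.zero_mem).trans (Equiv.optionCongr (Equiv.subtypeEquivRight fun xy => by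
      constructor
      · rintro ⟨h, h'⟩
        have := (phi_fix h).mp ((hG _).mp h')
        exact ⟨this.1, this.2, (ns_iff _ _).mp h⟩
      · rintro ⟨h1, h2, h3⟩
        exact ⟨(ns_iff _ _).mpr h3, (hG _).mpr ((phi_fix _).mpr ⟨h1, h2⟩)⟩))
  have := hf.to_subtype
  exact ⟨Finite.of_equiv _ e.symm, by
    rw [Nat.card_congr e, Finite.card_option, Nat.card_coe_set_eq]⟩

lemma val_aff (m : ℕ) (h1 : (aff m).Finite) (h2 : (aff (2 * m)).Finite) :
    ∃ a, V2 ((aff m).ncard + 1) a ∧ V2 ((aff (2 * m)).ncard + 1) (a + 1) := by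
  have k1 := card_fix m ((phi m).eqLocus (AddMonoidHom.id _)) (fun P => Iff.rfl) h1
  have k2 := card_fix (2 * m) ((phi (2 * m)).eqLocus (AddMonoidHom.id _)) (fun P => Iff.rfl) h2
  have := k1.1
  have := k2.1
  obtain ⟨a, ha⟩ := val_step two_tors (Point.some_ne_zero _) TT_two two_div (phi m) (four_tors m)
    ((phi m).eqLocus (AddMonoidHom.id _)) ((phi (2 * m)).eqLocus (AddMonoidHom.id _))
    (fun P => Iff.rfl) (fun P => by
      have : phi m (phi m P) = phi (2 * m) P := by
        rw [phi, Point.map_map]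
        congr 2
        ext x
        simp only [AlgHom.comp_apply, frA_apply, ← pow_mul, ← pow_add, two_mul]
      rw [this]; rfl)
  rw [k1.2, k2.2] at ha
  exact ⟨a, by exact_mod_cast ha⟩

end Ell

end Pool.Agent.MP_536a45_ag

end

section

/-!
# A determinantal cubic and the count of kernel vectors
-/

namespace Pool.Agent.MP_536a45_ag

namespace Ell

section Lin

variable {K : Type} [Field K]

/-- `M(b) w = 0` for the matrix `[[x, y, 0], [x + y, z, x], [0, x, z]]`, `b = (x, y, z)`. -/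
def Mv (b w : Fin 3 → K) : Prop :=
  b 0 * w 0 + b 1 * w 1 = 0 ∧ (b 0 + b 1) * w 0 + b 2 * w 1 + b 0 * w 2 = 0 ∧
    b 0 * w 1 + b 2 * w 2 = 0

/-- The determinant of `M(b)`. -/
def dt (b : Fin 3 → K) : K := b 0 * b 2 ^ 2 - b 0 ^ 3 - b 0 * b 1 * b 2 - b 1 ^ 2 * b 2

/-- Vanishing of the cross product. -/
def Par (u v : Fin 3 → K) : Prop :=
  u 1 * v 2 = u 2 * v 1 ∧ u 2 * v 0 = u 0 * v 2 ∧ u 0 * v 1 = u 1 * v 0

lemma vec_zero {u : Fin 3 → K} (h0 : u 0 = 0) (h1 : u 1 = 0) (h2 : u 2 = 0) : u = 0 := by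
  funext i; fin_cases i <;> simp [h0, h1, h2]

lemma perp {r s u v : Fin 3 → K} (h1 : r 0 * u 0 + r 1 * u 1 + r 2 * u 2 = 0)
    (h2 : r 0 * v 0 + r 1 * v 1 + r 2 * v 2 = 0) (h3 : s 0 * u 0 + s 1 * u 1 + s 2 * u 2 = 0)
    (h4 : s 0 * v 0 + s 1 * v 1 + s 2 * v 2 = 0) : Par r s ∨ Par u v := by
  by_contra h
  rw [not_or] at h
  obtain ⟨ha, hb⟩ := h
  apply ha
  set n0 := u 1 * v 2 - u 2 * v 1 with hn0
  set n1 := u 2 * v 0 - u 0 * v 2 with hn1
  set n2 := u 0 * v 1 - u 1 * v 0 with hn2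
  have a0 : n1 * r 2 = n2 * r 1 := by rw [hn1, hn2]; linear_combination v 0 * h1 - u 0 * h2
  have a1 : n2 * r 0 = n0 * r 2 := by rw [hn0, hn2]; linear_combination v 1 * h1 - u 1 * h2
  have a2 : n0 * r 1 = n1 * r 0 := by rw [hn0, hn1]; linear_combination v 2 * h1 - u 2 * h2
  have b0 : n1 * s 2 = n2 * s 1 := by rw [hn1, hn2]; linear_combination v 0 * h3 - u 0 * h4
  have b1 : n2 * s 0 = n0 * s 2 := by rw [hn0, hn2]; linear_combination v 1 * h3 - u 1 * h4
  have b2 : n0 * s 1 = n1 * s 0 := by rw [hn0, hn1]; linear_combination v 2 * h3 - u 2 * h4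
  have hn : n0 ≠ 0 ∨ n1 ≠ 0 ∨ n2 ≠ 0 := by
    by_contra hh
    push Not at hh
    exact hb ⟨sub_eq_zero.mp hh.1, sub_eq_zero.mp hh.2.1, sub_eq_zero.mp hh.2.2⟩
  clear_value n0 n1 n2
  rcases hn with h | h | h
  · refine ⟨mul_left_cancel₀ h ?_, mul_left_cancel₀ h ?_, mul_left_cancel₀ h ?_⟩
    · linear_combination s 2 * a2 + s 1 * a1 + r 0 * b0
    · linear_combination r 0 * b1 - s 0 * a1
    · linear_combination r 0 * b2 - s 0 * a2
  · refine ⟨mul_left_cancel₀ h ?_, mul_left_cancel₀ h ?_, mul_left_cancel₀ h ?_⟩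
    · linear_combination r 1 * b0 - s 1 * a0
    · linear_combination s 0 * a0 + s 2 * a2 + r 1 * b1
    · linear_combination r 1 * b2 - s 1 * a2
  · refine ⟨mul_left_cancel₀ h ?_, mul_left_cancel₀ h ?_, mul_left_cancel₀ h ?_⟩
    · linear_combination r 2 * b0 - s 2 * a0
    · linear_combination r 2 * b1 - s 2 * a1
    · linear_combination s 1 * a1 + s 0 * a0 + r 2 * b2

lemma Par.exists_smul {u v : Fin 3 → K} (h : Par u v) (hu : u ≠ 0) : ∃ t : K, v = t • u := by
  obtain ⟨h0, h1, h2⟩ := h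
  by_cases a0 : u 0 = 0
  · by_cases a1 : u 1 = 0
    · have a2 : u 2 ≠ 0 := fun a2 => hu (vec_zero a0 a1 a2)
      refine ⟨v 2 / u 2, ?_⟩
      funext i; fin_cases i <;> simp <;> field_simp <;> grind
    · refine ⟨v 1 / u 1, ?_⟩
      funext i; fin_cases i <;> simp <;> field_simp <;> grind
  · refine ⟨v 0 / u 0, ?_⟩
    funext i; fin_cases i <;> simp <;> field_simp <;> grind

lemma par_b {b b' w : Fin 3 → K} (h : Mv b w) (h' : Mv b' w) (hw : w ≠ 0) : Par b b' := by
  obtain ⟨h0, h1, h2⟩ := h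
  obtain ⟨k0, k1, k2⟩ := h'
  by_contra hp
  have e1 := (perp (r := ![w 0, w 1, 0]) (s := ![w 1, 0, w 2]) (u := b) (v := b')
    (by simp; linear_combination h0) (by simp; linear_combination k0)
    (by simp; linear_combination h2) (by simp; linear_combination k2)).resolve_right hp
  have e2 := (perp (r := ![w 0, w 1, 0]) (s := ![w 0 + w 2, w 0, w 1]) (u := b) (v := b')
    (by simp; linear_combination h0) (by simp; linear_combination k0)
    (by simp; linear_combination h1) (by simp; linear_combination k1)).resolve_right hp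
  have e3 := (perp (r := ![w 1, 0, w 2]) (s := ![w 0 + w 2, w 0, w 1]) (u := b) (v := b')
    (by simp; linear_combination h2) (by simp; linear_combination k2)
    (by simp; linear_combination h1) (by simp; linear_combination k1)).resolve_right hp
  simp only [Par, Matrix.cons_val_zero, Matrix.cons_val_one, Matrix.cons_val] at e1 e2 e3
  have w1 : w 1 = 0 := by grind
  have w0 : w 0 = 0 := by grind
  have w2 : w 2 = 0 := by grind
  exact hw (vec_zero w0 w1 w2)

lemma par_w {b w w' : Fin 3 → K} (h : Mv b w) (h' : Mv b w') (hb : b ≠ 0) : Par w w' := by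
  obtain ⟨h0, h1, h2⟩ := h
  obtain ⟨k0, k1, k2⟩ := h'
  by_contra hp
  have e1 := (perp (r := ![b 0, b 1, 0]) (s := ![0, b 0, b 2]) (u := w) (v := w')
    (by simp; linear_combination h0) (by simp; linear_combination k0)
    (by simp; linear_combination h2) (by simp; linear_combination k2)).resolve_right hp
  have e2 := (perp (r := ![b 0, b 1, 0]) (s := ![b 0 + b 1, b 2, b 0]) (u := w) (v := w')
    (by simp; linear_combination h0) (by simp; linear_combination k0)
    (by simp; linear_combination h1) (by simp; linear_combination k1)).resolve_right hp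
  have e3 := (perp (r := ![0, b 0, b 2]) (s := ![b 0 + b 1, b 2, b 0]) (u := w) (v := w')
    (by simp; linear_combination h2) (by simp; linear_combination k2)
    (by simp; linear_combination h1) (by simp; linear_combination k1)).resolve_right hp
  simp only [Par, Matrix.cons_val_zero, Matrix.cons_val_one, Matrix.cons_val] at e1 e2 e3
  have w0 : b 0 = 0 := by grind
  have w1 : b 1 = 0 := by grind
  have w2 : b 2 = 0 := by grind
  exact hb (vec_zero w0 w1 w2)

lemma eq_zero_of_dt {b w : Fin 3 → K} (h : Mv b w) (hd : dt b ≠ 0) : w = 0 := by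
  obtain ⟨h0, h1, h2⟩ := h
  unfold dt at hd
  refine vec_zero (mul_left_cancel₀ hd ?_) (mul_left_cancel₀ hd ?_) (mul_left_cancel₀ hd ?_)
  · linear_combination (b 2 ^ 2 - b 0 ^ 2) * h0 - b 1 * b 2 * h1 + b 0 * b 1 * h2
  · linear_combination -(b 0 + b 1) * b 2 * h0 + b 0 * b 2 * h1 - b 0 ^ 2 * h2
  · linear_combination (b 0 + b 1) * b 0 * h0 - b 0 ^ 2 * h1 +
      (b 0 * b 2 - b 1 * (b 0 + b 1)) * h2

lemma exists_ker {b : Fin 3 → K} (hd : dt b = 0) : ∃ w, w ≠ 0 ∧ Mv b w := by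
  have : (!![b 0, b 1, 0; b 0 + b 1, b 2, b 0; 0, b 0, b 2] : Matrix (Fin 3) (Fin 3) K).det = 0 := by
    rw [Matrix.det_fin_three]; simp; unfold dt at hd; linear_combination hd
  obtain ⟨w, hw, h⟩ := Matrix.exists_mulVec_eq_zero_iff.mpr this
  refine ⟨w, hw, ?_, ?_, ?_⟩
  · have := congrFun h 0
    simpa [Matrix.mulVec, dotProduct, Fin.sum_univ_three] using this
  · have := congrFun h 1
    simpa [Matrix.mulVec, dotProduct, Fin.sum_univ_three] using this
  · have := congrFun h 2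
    simpa [Matrix.mulVec, dotProduct, Fin.sum_univ_three] using this

lemma Mv_smul {b w : Fin 3 → K} (h : Mv b w) (t : K) : Mv b (t • w) := by
  obtain ⟨h0, h1, h2⟩ := h
  refine ⟨?_, ?_, ?_⟩ <;> simp only [Pi.smul_apply, smul_eq_mul]
  · linear_combination t * h0
  · linear_combination t * h1
  · linear_combination t * h2

lemma Mv_zero (b : Fin 3 → K) : Mv b 0 := by simp [Mv]

lemma ker_zero [Finite K] : Nat.card {w // Mv (0 : Fin 3 → K) w} = Nat.card K ^ 3 := by
  rw [Nat.card_congr (Equiv.subtypeUnivEquiv (fun w => by simp [Mv]))]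
  simp [Nat.card_pi]

lemma ker_one {b : Fin 3 → K} (hd : dt b ≠ 0) : Nat.card {w // Mv b w} = 1 := by
  rw [Nat.card_eq_one_iff_exists]
  exact ⟨⟨0, Mv_zero b⟩, fun w => Subtype.ext (eq_zero_of_dt w.2 hd)⟩

lemma ker_two {b : Fin 3 → K} (hb : b ≠ 0) (hd : dt b = 0) :
    Nat.card {w // Mv b w} = Nat.card K := by
  obtain ⟨w, hw, h⟩ := exists_ker hd
  symm
  refine Nat.card_congr (Equiv.ofBijective (fun t => ⟨t • w, Mv_smul h t⟩) ⟨?_, ?_⟩)
  · intro s t hst
    exact smul_left_injective K hw (congrArg Subtype.val hst)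
  · intro v
    obtain ⟨t, ht⟩ := (par_w h v.2 hb).exists_smul hw
    exact ⟨t, Subtype.ext ht.symm⟩

lemma card_fib [Finite K] (b : Fin 3 → K) :
    (Nat.card {W : Fin 9 → Fin 3 → K // W ≠ 0 ∧ ∀ a, Mv b (W a)} : ℤ) =
      (Nat.card {w // Mv b w} : ℤ) ^ 9 - 1 := by
  have h1 : Nat.card {W : Fin 9 → Fin 3 → K // ∀ a, Mv b (W a)} = Nat.card {w // Mv b w} ^ 9 := by
    rw [Nat.card_congr (Equiv.subtypePiEquivPi (p := fun _ w => Mv b w))]
    simp [Nat.card_pi]
  have h2 := Set.ncard_sdiff_singleton_add_one (s := {W : Fin 9 → Fin 3 → K | ∀ a, Mv b (W a)})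
    (a := 0) (fun a => Mv_zero b)
  have h3 : {W : Fin 9 → Fin 3 → K | ∀ a, Mv b (W a)} \ {0} = {W | W ≠ 0 ∧ ∀ a, Mv b (W a)} := by
    ext W; simp [and_comm]
  rw [h3, ← Nat.card_coe_set_eq, ← Nat.card_coe_set_eq] at h2
  have h4 : Nat.card {W : Fin 9 → Fin 3 → K // W ≠ 0 ∧ ∀ a, Mv b (W a)} + 1 =
    Nat.card {w // Mv b w} ^ 9 := h2.trans h1
  have := congrArg (Nat.cast : ℕ → ℤ) h4
  push_cast at this
  linarith

/-- Points of the cone over the cubic. -/
lemma card_cone [Finite K] (h2 : (2 : K) = 0) :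
    (Nat.card {b : Fin 3 → K // b ≠ 0 ∧ dt b = 0} : ℤ) = (Nat.card K - 1) *
      (Nat.card {p : K × K // p.2 ^ 2 + p.1 * p.2 = p.1 ^ 3 + p.1} + 1) := by
  classical
  have e : Kˣ × Option {p : K × K // p.2 ^ 2 + p.1 * p.2 = p.1 ^ 3 + p.1} ≃
      {b : Fin 3 → K // b ≠ 0 ∧ dt b = 0} := by
    refine Equiv.ofBijective (fun x => match x with
      | (t, none) => ⟨![0, t, 0], fun h => t.ne_zero (by simpa using congrFun h 1), by simp [dt]⟩
      | (t, some p) => ⟨![t * p.1.1, t * p.1.2, t], fun h => t.ne_zero (by simpa using congrFun h 2),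
          by
            have := p.2
            simp only [dt, Matrix.cons_val_zero, Matrix.cons_val_one, Matrix.cons_val]
            linear_combination (-(t : K) ^ 3) * this - (t : K) ^ 3 * p.1.1 ^ 3 * h2⟩) ⟨?_, ?_⟩
    · rintro ⟨s, _ | p⟩ ⟨t, _ | p'⟩ h <;> simp only [Subtype.mk.injEq] at h
      · have := congrFun h 1
        simp only [Matrix.cons_val_one, Matrix.cons_val_zero, Units.val_inj] at this
        rw [this]
      · exact absurd (by simpa using (congrFun h 2).symm) t.ne_zero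
      · exact absurd (by simpa using (congrFun h 2)) s.ne_zero
      · have a2 : s = t := Units.ext (by simpa using congrFun h 2)
        subst a2
        have a0 : p.1.1 = p'.1.1 := by simpa using congrFun h 0
        have a1 : p.1.2 = p'.1.2 := by simpa using congrFun h 1
        rw [show p = p' from Subtype.ext (Prod.ext a0 a1)]
    · rintro ⟨b, hb, hd⟩
      unfold dt at hd
      by_cases a2 : b 2 = 0
      · have a0 : b 0 = 0 := by grind
        have a1 : b 1 ≠ 0 := fun a1 => hb (vec_zero a0 a1 a2)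
        refine ⟨(Units.mk0 _ a1, none), Subtype.ext ?_⟩
        funext i; fin_cases i <;> simp [a0, a2]
      · refine ⟨(Units.mk0 _ a2, some ⟨(b 0 / b 2, b 1 / b 2), ?_⟩), Subtype.ext ?_⟩
        · field_simp
          linear_combination -hd - b 0 ^ 3 * h2
        · funext i; fin_cases i <;> simp <;> field_simp
  rw [← Nat.card_congr e, Nat.card_prod, Finite.card_option, Nat.card_units]
  have : 1 ≤ Nat.card K := Nat.card_pos
  push_cast [this]
  rfl

/-- The coordinate change. -/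
def LL (om : K) (c : Fin 3 → K) : Fin 3 → K := ![c 1 + om * c 2, c 0 + c 1, om * c 0]

lemma LL_inj {om : K} (h : om ≠ 0) : Function.Injective (LL om) := by
  intro c d e
  have a0 := congrFun e 0
  have a1 := congrFun e 1
  have a2 := congrFun e 2
  simp only [LL, Matrix.cons_val_zero, Matrix.cons_val_one, Matrix.cons_val] at a0 a1 a2
  have b0 : c 0 = d 0 := mul_left_cancel₀ h a2
  have b1 : c 1 = d 1 := by linear_combination a1 - b0
  have b2 : c 2 = d 2 := mul_left_cancel₀ h (by linear_combination a0 - b1)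
  funext i; fin_cases i <;> assumption

lemma card_Z [Finite K] (h2 : (2 : K) = 0) {om : K} (h : om ≠ 0) :
    (Nat.card {p : (Fin 3 → K) × (Fin 9 → Fin 3 → K) //
      p.2 ≠ 0 ∧ ∀ a, Mv (LL om p.1) (p.2 a)} : ℤ) = (Nat.card K : ℤ) ^ 27 - 1 + (Nat.card K - 1) *
      (Nat.card {p : K × K // p.2 ^ 2 + p.1 * p.2 = p.1 ^ 3 + p.1} + 1) *
        ((Nat.card K : ℤ) ^ 9 - 1) := by
  classical
  have := Fintype.ofFinite K
  rw [Nat.card_congr (Equiv.subtypeProdEquivSigmaSubtype
    (fun c (W : Fin 9 → Fin 3 → K) => W ≠ 0 ∧ ∀ a, Mv (LL om c) (W a))), Nat.card_sigma]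
  push_cast
  simp only [card_fib]
  rw [(Finite.injective_iff_bijective.mp (LL_inj h)).sum_comp
    (fun b => (Nat.card {w // Mv b w} : ℤ) ^ 9 - 1), ← card_cone h2]
  have key : ∀ b : Fin 3 → K, (Nat.card {w // Mv b w} : ℤ) ^ 9 - 1 =
      (if b = 0 then (Nat.card K : ℤ) ^ 27 - 1 else 0) +
      (if b ≠ 0 ∧ dt b = 0 then (Nat.card K : ℤ) ^ 9 - 1 else 0) := by
    intro b
    by_cases hb : b = 0
    · subst hb
      rw [ker_zero]; simp; ring
    · by_cases hd : dt b = 0
      · rw [ker_two hb hd]; simp [hb, hd]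
      · rw [ker_one hd]; simp [hb, hd]
  simp only [key, Finset.sum_add_distrib, Finset.sum_ite_eq', Finset.mem_univ, if_true]
  rw [← Finset.sum_filter, Finset.sum_const, nsmul_eq_mul, Nat.card_eq_fintype_card,
    Nat.card_eq_fintype_card, Fintype.card_subtype]

lemma dt_LL (h2 : (2 : K) = 0) {om : K} (h : om ^ 2 + om + 1 = 0) {c : Fin 3 → K} (hc : c ≠ 0)
    (hp : Par (LL om c) (LL om fun l => c l ^ 2)) : dt (LL om c) ≠ 0 := by
  have h0 : om ≠ 0 := by rintro rfl; simp at h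
  obtain ⟨a0, a1, a2⟩ := hp
  simp only [LL, dt, Matrix.cons_val_zero, Matrix.cons_val_one, Matrix.cons_val] at a0 a1 a2 ⊢
  have b0 : c 0 * c 1 * (c 0 - c 1) = 0 := mul_left_cancel₀ h0 (by linear_combination a0)
  have b1 : c 0 * c 2 * (c 0 - c 2) = 0 :=
    mul_left_cancel₀ (mul_ne_zero h0 h0) (by linear_combination -a1 - om * b0)
  have b2 : c 1 * c 2 * (c 1 - c 2) = 0 :=
    mul_left_cancel₀ h0 (by linear_combination a2 - b0 - om * b1)
  intro hd
  apply hc
  have key : ∀ t u : K, u * t ^ 3 = 0 → u ^ 3 = 1 → t = 0 := by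
    intro t u h1 h2
    have : u ≠ 0 := by rintro rfl; simp at h2
    exact pow_eq_zero_iff (by norm_num) |>.mp ((mul_eq_zero.mp h1).resolve_left this)
  have h3 : om ^ 3 = 1 := by linear_combination (om - 1) * h
  by_cases c0 : c 0 = 0 <;> by_cases c1 : c 1 = 0 <;> by_cases c2 : c 2 = 0
  · exact vec_zero c0 c1 c2
  · exact absurd (key _ 1 (by grind) (by ring)) c2
  · exact absurd (key _ 1 (by grind) (by ring)) c1
  · have e : c 1 = c 2 := by grind
    exact absurd (key _ 1 (by grind) (by ring)) c1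
  · exact absurd (key _ om (by grind) h3) c0
  · have e : c 0 = c 2 := by grind
    exact absurd (key _ 1 (by grind) (by ring)) c0
  · have e : c 0 = c 1 := by grind
    exact absurd (key _ om (by grind) h3) c0
  · have e : c 0 = c 1 := by grind
    have e' : c 0 = c 2 := by grind
    exact absurd (key _ (om ^ 2) (by grind) (by grind)) c0

end Lin

end Ell

end Pool.Agent.MP_536a45_ag

end

section

/-!
# The pencil and its point count
-/

namespace Pool.Agent.MP_536a45_ag

namespace Ell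

open Polynomial

/-- A primitive cube root of unity. -/
noncomputable def om : kk := (exists_quad 1 (-1)).choose

lemma om_eq : om ^ 2 + om + 1 = 0 := by
  have := (exists_quad 1 (-1)).choose_spec
  unfold om
  linear_combination this

lemma om_ne : om ≠ 0 := by
  intro h
  have := om_eq
  rw [h] at this
  simp at this

lemma om_fix {m : ℕ} (h : 2 ∣ m) : om ^ 2 ^ m = om := by
  obtain ⟨k, rfl⟩ := h
  induction k with
  | zero => simp
  | succ k ih =>
    rw [Nat.mul_succ, pow_add, pow_mul, ih]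
    linear_combination (om ^ 2 - om) * om_eq

/-- The block structure of the index set. -/
def ee : Fin 9 × Fin 3 ≃ Fin 27 := finProdFinEquiv

/-- The three coefficient matrices. -/
noncomputable def CC : Fin 3 → Matrix (Fin 3) (Fin 3) kk :=
  ![!![0, 1, 0; 1, om, 0; 0, 0, om], !![1, 1, 0; 1 + 1, 0, 1; 0, 1, 0],
    !![om, 0, 0; om, 0, om; 0, om, 0]]

/-- The pencil. -/
noncomputable def AA (l : Fin 3) : Matrix (Fin 27) (Fin 27) kk := fun i j =>
  if (ee.symm j).1 = (ee.symm i).1 then CC l (ee.symm i).2 (ee.symm j).2 else 0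

lemma Aop_apply (c : Fin 3 → kk) (w : Fin 27 → kk) (a : Fin 9) (r : Fin 3) :
    Aop AA c w (ee (a, r)) = ∑ l, ∑ s, CC l r s * (c l * w (ee (a, s))) := by
  unfold Aop
  refine Finset.sum_congr rfl fun l _ => ?_
  rw [← ee.sum_comp, Fintype.sum_prod_type, Finset.sum_eq_single a]
  · simp [AA]
  · intro b _ hb
    simp [AA, hb]
  · simp

lemma Aop_iff (c : Fin 3 → kk) (w : Fin 27 → kk) :
    Aop AA c w = 0 ↔ ∀ a, Mv (LL om c) fun s => w (ee (a, s)) := by
  rw [funext_iff, ← ee.forall_congr_right, Prod.forall]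
  refine forall_congr' fun a => ?_
  simp only [Aop_apply, Fin.forall_fin_succ, Fin.sum_univ_three, Mv, LL, CC]
  simp
  refine and_congr ?_ (and_congr ?_ ?_) <;> constructor <;> intro h <;> linear_combination h

lemma h1_AA : H1 AA := by
  intro c w hc h h'
  rw [Aop_iff] at h h'
  funext i
  obtain ⟨⟨a, s⟩, rfl⟩ := ee.surjective i
  by_contra hw
  have hw' : (fun s => w (ee (a, s))) ≠ 0 := fun e => hw (congrFun e s)
  exact hw' (eq_zero_of_dt (h a) (dt_LL two0 om_eq hc (par_b (h a) (h' a) hw')))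

/-- The field with `2 ^ m` elements. -/
noncomputable def FF (m : ℕ) : Subfield kk := RingHom.eqLocusField (frA m).toRingHom (RingHom.id kk)

lemma mem_FF {m : ℕ} {x : kk} : x ∈ FF m ↔ x ^ 2 ^ m = x := Iff.rfl

lemma card_FF {m : ℕ} (hm : 0 < m) : Nat.card (FF m) = 2 ^ m := by
  have h := card_rootSet_eq_natDegree (K := kk)
    (galois_poly_separable (K := kk) 2 (2 ^ m) (dvd_pow_self 2 hm.ne')) (IsAlgClosed.splits _)
  rw [FiniteField.X_pow_card_pow_sub_X_natDegree_eq kk hm.ne' one_lt_two] at h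
  rw [← h, ← Nat.card_eq_fintype_card]
  refine Nat.card_congr (Equiv.subtypeEquivRight fun x => ?_)
  rw [mem_FF, mem_rootSet_of_ne (FiniteField.X_pow_card_pow_sub_X_ne_zero kk hm.ne' one_lt_two)]
  simp [sub_eq_zero]

lemma finite_FF {m : ℕ} (hm : 0 < m) : Finite (FF m) :=
  Nat.finite_of_card_ne_zero (by rw [card_FF hm]; positivity)

lemma aff_equiv (m : ℕ) :
    Nonempty ({p : FF m × FF m // p.2 ^ 2 + p.1 * p.2 = p.1 ^ 3 + p.1} ≃ aff m) := by
  refine ⟨Equiv.ofBijective (fun p => ⟨(p.1.1, p.1.2), p.1.1.2, p.1.2.2,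
    by simpa using congrArg Subtype.val p.2⟩) ⟨?_, ?_⟩⟩
  · intro p p' h
    simp only [Subtype.mk.injEq, Prod.mk.injEq] at h
    exact Subtype.ext (Prod.ext (Subtype.ext h.1) (Subtype.ext h.2))
  · rintro ⟨p, h1, h2, h3⟩
    exact ⟨⟨(⟨p.1, h1⟩, ⟨p.2, h2⟩), Subtype.ext (by simpa using h3)⟩, rfl⟩

lemma aff_finite {m : ℕ} (hm : 0 < m) : (aff m).Finite := by
  have := finite_FF hm
  obtain ⟨e⟩ := aff_equiv m
  exact Set.finite_coe_iff.mp (Finite.of_equiv _ e)

lemma Mv_coe {m : ℕ} (h : om ∈ FF m) (c w : Fin 3 → FF m) :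
    Mv (LL ⟨om, h⟩ c) w ↔ Mv (LL om fun l => (c l : kk)) fun s => (w s : kk) := by
  simp only [Mv, LL, Matrix.cons_val_zero, Matrix.cons_val_one, Matrix.cons_val, Subtype.ext_iff]
  simp

lemma Zc_eq {m : ℕ} (hm : 0 < m) (h2 : 2 ∣ m) : (Zc AA m : ℤ) = (2 ^ m) ^ 27 - 1 +
    (2 ^ m - 1) * ((aff m).ncard + 1) * ((2 ^ m) ^ 9 - 1) := by
  have := finite_FF hm
  have hom : om ∈ FF m := om_fix h2
  have key := card_Z (K := FF m) (Subtype.ext two0) (om := ⟨om, hom⟩)
    (fun h => om_ne (congrArg Subtype.val h))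
  obtain ⟨e⟩ := aff_equiv m
  rw [Nat.card_congr e, Nat.card_coe_set_eq, card_FF hm] at key
  push_cast at key
  rw [← key, Zc, ← Nat.card_coe_set_eq]
  congr 1
  symm
  refine Nat.card_congr (Equiv.ofBijective (fun p => ⟨(fun l => p.1.1 l,
    fun i => p.1.2 (ee.symm i).1 (ee.symm i).2), funext fun l => (p.1.1 l).2,
    funext fun i => (p.1.2 _ _).2, fun h => p.2.1 ?_, ?_⟩) ⟨?_, ?_⟩)
  · funext a s
    exact Subtype.ext (by simpa using congrFun h (ee (a, s)))
  · rw [Aop_iff]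
    intro a
    simpa using (Mv_coe hom _ _).mp (p.2.2 a)
  · intro p p' h
    simp only [Subtype.mk.injEq, Prod.mk.injEq] at h
    refine Subtype.ext (Prod.ext (funext fun l => Subtype.ext (congrFun h.1 l)) ?_)
    funext a s
    exact Subtype.ext (by simpa using congrFun h.2 (ee (a, s)))
  · rintro ⟨p, h1, h2, h3, h4⟩
    refine ⟨⟨(fun l => ⟨p.1 l, congrFun h1 l⟩, fun a s => ⟨p.2 (ee (a, s)), congrFun h2 _⟩),
      fun h => h3 ?_, fun a => (Mv_coe hom _ _).mpr ((Aop_iff _ _).mp h4 a)⟩, ?_⟩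
    · funext i
      simpa using congrArg Subtype.val (congrFun (congrFun h (ee.symm i).1) (ee.symm i).2)
    · simp

end Ell

end Pool.Agent.MP_536a45_ag

end
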