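import Pool.Agent.MP_536a45_ag.Dim
import Mathlib
import Pool.Agent.Mg.F536a45a.G3a35f9

set_option linter.all false

section

open Filter

namespace Pool.Agent.MP_536a45_ag

theorem Count_pos : ∀ᶠ m in dv, 0 < m := eventually_dv.2 ⟨1, one_pos, fun _ h _ => h⟩

theorem Count_fix (a : kk) : ∀ᶠ m in dv, a ^ 2 ^ m = a := by
  have hi : IsIntegral (ZMod 2) a := Algebra.IsIntegral.isIntegral a
  let K := IntermediateField.adjoin (ZMod 2) ({a} : Set kk)
  have : FiniteDimensional (ZMod 2) K := IntermediateField.adjoin.finiteDimensional hi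
  have : Finite K := Module.finite_of_finite (ZMod 2)
  let : Fintype K := Fintype.ofFinite K
  have : CharP K 2 := IntermediateField.charP K 2
  obtain ⟨n, -, hn⟩ := FiniteField.card K 2
  refine eventually_dv.2 ⟨n, n.pos, ?_⟩
  rintro m - ⟨j, rfl⟩
  have h := FiniteField.pow_card_pow j (IntermediateField.AdjoinSimple.gen (ZMod 2) a : K)
  rw [hn, ← pow_mul] at h
  exact congrArg Subtype.val h

theorem Count_eval {ι : Type} (p : MvPolynomial ι kk) :
    ∀ᶠ m in dv, ∀ x : ι → kk, MvPolynomial.eval (frob m x) p = MvPolynomial.eval x p ^ 2 ^ m := by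
  induction p using MvPolynomial.induction_on with
  | C a => filter_upwards [Count_fix a] with m h x; simp [h]
  | add p q hp hq =>
    filter_upwards [hp, hq] with m h1 h2 x
    rw [map_add, map_add, add_pow_char_pow, h1, h2]
  | mul_X p i hp =>
    filter_upwards [hp] with m h x
    rw [map_mul, map_mul, mul_pow, h, MvPolynomial.eval_X, MvPolynomial.eval_X]
    rfl

theorem Count_regular {ι κ : Type} [Finite κ] {A : Set (ι → kk)} {φ : (ι → kk) → (κ → kk)}
    (h : IsRegularOn A φ) : ∀ᶠ m in dv, ∀ x ∈ A, frob m x = x → frob m (φ x) = φ x := by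
  obtain ⟨P, Q, h⟩ := h
  filter_upwards [eventually_all.2 fun j => Count_eval (P j),
    eventually_all.2 fun j => Count_eval (Q j)] with m h1 h2 x hx hf
  funext j
  have e1 := h1 j x
  have e2 := h2 j x
  rw [hf] at e1 e2
  rw [frob, (h x hx j).2, div_pow, ← e1, ← e2]

theorem Count_roots {m : ℕ} (hm : 0 < m) :
    {a : kk | a ^ 2 ^ m = a}.Finite ∧ {a : kk | a ^ 2 ^ m = a}.ncard = 2 ^ m := by
  have hne : (Polynomial.X ^ 2 ^ m - Polynomial.X : Polynomial kk) ≠ 0 :=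
    FiniteField.X_pow_card_pow_sub_X_ne_zero kk hm.ne' one_lt_two
  have e : {a : kk | a ^ 2 ^ m = a} =
      (Polynomial.X ^ 2 ^ m - Polynomial.X : Polynomial kk).rootSet kk := by
    ext a
    rw [Polynomial.mem_rootSet_of_ne hne]
    simp [sub_eq_zero]
  rw [e]
  refine ⟨Polynomial.rootSet_finite _ _, ?_⟩
  rw [← Nat.card_coe_set_eq, Nat.card_eq_fintype_card,
    Polynomial.card_rootSet_eq_natDegree
      (galois_poly_separable 2 (2 ^ m) (dvd_pow_self 2 hm.ne')) (IsAlgClosed.splits _),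
    FiniteField.X_pow_card_pow_sub_X_natDegree_eq kk hm.ne' one_lt_two]

theorem Count_fixed_eq (m : ℕ) (ι : Type) :
    {x : ι → kk | frob m x = x} = Set.pi Set.univ fun _ => {a : kk | a ^ 2 ^ m = a} := by
  ext x
  simp [frob, funext_iff]

theorem Count_finite {m : ℕ} (hm : 0 < m) {ι : Type} [Finite ι] (A : Set (ι → kk)) :
    {x | x ∈ A ∧ frob m x = x}.Finite := by
  have : {x : ι → kk | frob m x = x}.Finite := by
    rw [Count_fixed_eq]
    exact Set.Finite.pi fun _ => (Count_roots hm).1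
  exact this.subset fun x hx => hx.2

theorem Count_univ {m : ℕ} (hm : 0 < m) (ι : Type) [Fintype ι] :
    cnt m (Set.univ : Set (ι → kk)) = (2 ^ m) ^ Fintype.card ι := by
  have e : {x : ι → kk | x ∈ (Set.univ : Set (ι → kk)) ∧ frob m x = x} =
      Set.pi Set.univ fun _ => {a : kk | a ^ 2 ^ m = a} := by
    rw [← Count_fixed_eq]; simp
  rw [cnt, e, ← Nat.card_coe_set_eq, Nat.card_congr (Equiv.Set.univPi _), Nat.card_pi]
  simp only [Nat.card_coe_set_eq, (Count_roots hm).2, Finset.prod_const, Finset.card_univ]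

theorem Count_union {m : ℕ} (hm : 0 < m) {ι : Type} [Finite ι] {A B : Set (ι → kk)}
    (hd : Disjoint A B) : cnt m (A ∪ B) = cnt m A + cnt m B := by
  have e : {x | x ∈ A ∪ B ∧ frob m x = x} =
      {x | x ∈ A ∧ frob m x = x} ∪ {x | x ∈ B ∧ frob m x = x} := by
    ext x; simp [or_and_right]
  rw [cnt, e, Set.ncard_union_eq (hd.mono (fun x hx => hx.1) (fun x hx => hx.1))
    (Count_finite hm A) (Count_finite hm B)]
  rfl

theorem Count_prod (m : ℕ) {ι κ : Type} (A : Set (ι → kk)) (B : Set (κ → kk)) :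
    cnt m {x : ι ⊕ κ → kk | x ∘ Sum.inl ∈ A ∧ x ∘ Sum.inr ∈ B} = cnt m A * cnt m B := by
  rw [cnt, cnt, cnt, ← Set.ncard_prod]
  refine Set.ncard_congr (fun x _ => (x ∘ Sum.inl, x ∘ Sum.inr)) ?_ ?_ ?_
  · rintro x ⟨⟨h1, h2⟩, h3⟩
    exact ⟨⟨h1, funext fun i => congrFun h3 _⟩, ⟨h2, funext fun i => congrFun h3 _⟩⟩
  · intro x y _ _ h
    rw [Prod.mk.injEq] at h
    funext i
    rcases i with i | i
    · exact congrFun h.1 i
    · exact congrFun h.2 i
  · rintro ⟨y, z⟩ ⟨⟨h1, h2⟩, h3, h4⟩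
    refine ⟨Sum.elim y z, ⟨⟨h1, h3⟩, ?_⟩, rfl⟩
    funext i
    rcases i with i | i
    · exact congrFun h2 i
    · exact congrFun h4 i

theorem Count_iso {ι κ : Type} [Finite ι] [Finite κ] {A : Set (ι → kk)} {B : Set (κ → kk)}
    {φ : (ι → kk) → (κ → kk)} {ψ : (κ → kk) → (ι → kk)} (hφ : IsRegularOn A φ)
    (hψ : IsRegularOn B ψ) (hAB : Set.MapsTo φ A B) (hBA : Set.MapsTo ψ B A)
    (hinv : Set.InvOn ψ φ A B) : ∀ᶠ m in dv, cnt m A = cnt m B := by
  filter_upwards [Count_regular hφ, Count_regular hψ] with m h1 h2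
  refine Set.ncard_congr (fun x _ => φ x) ?_ ?_ ?_
  · rintro x ⟨hx, hf⟩
    exact ⟨hAB hx, h1 x hx hf⟩
  · intro x y hx hy h
    exact hinv.1.injOn hx.1 hy.1 h
  · rintro y ⟨hy, hf⟩
    exact ⟨ψ y, ⟨hBA hy, h2 y hy hf⟩, hinv.2 hy⟩

theorem Count_bound {ι : Type} [Finite ι] {A : Set (ι → kk)} {D : ℕ} (h : dim A ≤ D) :
    ∃ C : ℕ, ∀ᶠ m in dv, cnt m A ≤ C * (2 ^ m) ^ D := by
  classical
  let := Fintype.ofFinite ι
  obtain ⟨y, hy⟩ := exists_normalization h
  choose p hp hpA using hy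
  refine ⟨∏ i, (p i).natDegree, ?_⟩
  filter_upwards [Count_pos, Count_regular (isRegularOn_polyMap A y)] with m hm h1
  have hS := Count_finite hm A
  have hT := Count_finite hm (Set.univ : Set (Fin D → kk))
  have e := Count_univ hm (Fin D)
  rw [Fintype.card_fin] at e
  rw [← e, cnt, cnt, Set.ncard_eq_toFinset_card _ hS, Set.ncard_eq_toFinset_card _ hT]
  refine Finset.card_le_mul_card_image_of_maps_to (f := polyMap y) ?_ _ ?_
  · intro x hx
    rw [Set.Finite.mem_toFinset] at hx ⊢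
    exact ⟨trivial, h1 x hx.1 hx.2⟩
  · intro z _
    have hsub : {x ∈ hS.toFinset | polyMap y x = z} ⊆
        Fintype.piFinset fun i => ((p i).map (MvPolynomial.eval z)).roots.toFinset := by
      intro x hx
      rw [Finset.mem_filter, Set.Finite.mem_toFinset] at hx
      rw [Fintype.mem_piFinset]
      intro i
      rw [Multiset.mem_toFinset, Polynomial.mem_roots ((hp i).map _).ne_zero,
        Polynomial.IsRoot.def, Polynomial.eval_map, ← hx.2]
      exact hpA i x hx.1.1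
    refine (Finset.card_le_card hsub).trans ?_
    rw [Fintype.card_piFinset]
    refine Finset.prod_le_prod' fun i _ => ?_
    exact (Multiset.toFinset_card_le _).trans
      ((Polynomial.card_roots' _).trans Polynomial.natDegree_map_le)

/-- the counting function on generators. -/
noncomputable def Count_gen : MvPolynomial (Constr kk) ℤ →+* Germ dv ℝ :=
  MvPolynomial.eval₂Hom (Int.castRingHom _)
    fun A : Constr kk => ((fun m => (cnt m A.carrier : ℝ) : ℕ → ℝ) : Germ dv ℝ)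

theorem Count_gen_X (A : Constr kk) :
    Count_gen (MvPolynomial.X A) = ((fun m => (cnt m A.carrier : ℝ) : ℕ → ℝ) : Germ dv ℝ) :=
  MvPolynomial.eval₂Hom_X' _ _ _

theorem Count_rel {r : MvPolynomial (Constr kk) ℤ} (h : Rel kk r) : Count_gen r = 0 := by
  cases h with
  | iso A B φ ψ hφ hψ hAB hBA hinv =>
    have := A.fin
    have := B.fin
    rw [map_sub, Count_gen_X, Count_gen_X, sub_eq_zero, Germ.coe_eq]
    filter_upwards [Count_iso hφ hψ hAB hBA hinv] with m hm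
    rw [hm]
  | add ι fin A B hA hB hAB hd =>
    rw [map_sub, map_sub, Count_gen_X, Count_gen_X, Count_gen_X, sub_sub, sub_eq_zero,
      ← Germ.coe_add, Germ.coe_eq]
    filter_upwards [Count_pos] with m hm
    simp only [Pi.add_apply]
    rw [Count_union hm hd, Nat.cast_add]
  | mul A B fin h =>
    rw [map_sub, map_mul, Count_gen_X, Count_gen_X, Count_gen_X, sub_eq_zero,
      ← Germ.coe_mul, Germ.coe_eq]
    filter_upwards with m
    simp only [Pi.mul_apply]
    rw [Count_prod, Nat.cast_mul]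
  | one fin h =>
    rw [map_sub, map_one, Count_gen_X, sub_eq_zero, ← Germ.coe_one, Germ.coe_eq]
    filter_upwards [Count_pos] with m hm
    simp only [Pi.one_apply]
    rw [Count_univ hm]
    simp

/-- the counting function on the Grothendieck ring. -/
noncomputable def Count_K0 : K0 kk →+* Germ dv ℝ :=
  Ideal.Quotient.lift _ Count_gen fun a ha => by
    have : Ideal.span {r | Rel kk r} ≤ RingHom.ker Count_gen :=
      Ideal.span_le.2 fun r hr => Count_rel hr
    exact this ha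

theorem Count_K0_cls {ι : Type} [Finite ι] {A : Set (ι → kk)} (h : IsConstr A) :
    Count_K0 (cls A) = ((fun m => (cnt m A : ℝ) : ℕ → ℝ) : Germ dv ℝ) := by
  rw [cls_eq h]
  exact (Ideal.Quotient.lift_mk _ _ _).trans (Count_gen_X _)

/-- the unit of real sequences. -/
noncomputable def Count_w (ρ : ℕ) : (ℕ → ℝ)ˣ where
  val := fun m => (2 : ℝ) ^ ((m : ℝ) / ρ)
  inv := fun m => ((2 : ℝ) ^ ((m : ℝ) / ρ))⁻¹
  val_inv := funext fun _ => mul_inv_cancel₀ (Real.rpow_pos_of_pos two_pos _).ne'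
  inv_val := funext fun _ => inv_mul_cancel₀ (Real.rpow_pos_of_pos two_pos _).ne'

theorem Count_w_zpow (ρ : ℕ) (i : ℤ) (m : ℕ) :
    ((Count_w ρ ^ i : (ℕ → ℝ)ˣ) : ℕ → ℝ) m = (2 : ℝ) ^ ((m : ℝ) / ρ * i) := by
  have h : ((Count_w ρ ^ i : (ℕ → ℝ)ˣ) : ℕ → ℝ) m =
      ((Units.map (Pi.evalMonoidHom (fun _ : ℕ => ℝ) m) (Count_w ρ ^ i) : ℝˣ) : ℝ) := rfl
  rw [h, map_zpow, Units.val_zpow_eq_zpow_val, Real.rpow_mul two_pos.le, Real.rpow_intCast]
  rfl

theorem Count_root (ρ : ℕ) (hρ : 0 < ρ) : (rootPoly kk ρ).eval₂ Count_K0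
    ((fun m : ℕ => (2 : ℝ) ^ ((m : ℝ) / ρ) : ℕ → ℝ) : Germ dv ℝ) = 0 := by
  rw [rootPoly, Polynomial.eval₂_sub, Polynomial.eval₂_X_pow, Polynomial.eval₂_C,
    Count_K0_cls isConstr_univ, sub_eq_zero, ← Germ.coe_pow, Germ.coe_eq]
  filter_upwards [Count_pos] with m hm
  have h0 : (ρ : ℝ) ≠ 0 := by positivity
  rw [Pi.pow_apply, Count_univ hm, ← Real.rpow_natCast, ← Real.rpow_mul two_pos.le,
    div_mul_cancel₀ _ h0]
  simp

/-- The point-counting realization along sufficiently divisible extensions of `𝔽_2`. -/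
theorem exists_realization (ρ : ℕ) (hρ : 0 < ρ) : ∃ χ : Mot kk ρ →+* Germ dv ℝ,
    (∀ (ι : Type) [Finite ι] (A : Set (ι → kk)), IsConstr A →
      χ (toMot kk ρ (cls A)) = ((fun m => (cnt m A : ℝ) : ℕ → ℝ) : Germ dv ℝ)) ∧
    χ ((rootL kk ρ : (Mot kk ρ)ˣ) : Mot kk ρ) =
      ((fun m : ℕ => (2 : ℝ) ^ ((m : ℝ) / ρ) : ℕ → ℝ) : Germ dv ℝ) ∧
    ∀ x ∈ filt kk ρ 0, ∀ g : ℕ → ℝ, χ x = (g : Germ dv ℝ) → ∃ C : ℝ, ∀ᶠ m in dv, |g m| ≤ C := by
  let χ₁ : AdjoinRoot (rootPoly kk ρ) →+* Germ dv ℝ :=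
    AdjoinRoot.lift Count_K0 _ (Count_root ρ hρ)
  have h1 : χ₁ (AdjoinRoot.root (rootPoly kk ρ)) =
      ((fun m : ℕ => (2 : ℝ) ^ ((m : ℝ) / ρ) : ℕ → ℝ) : Germ dv ℝ) := AdjoinRoot.lift_root _
  have hu : IsUnit (χ₁ (AdjoinRoot.root (rootPoly kk ρ))) := by
    rw [h1]
    exact (Count_w ρ).isUnit.map (Germ.coeRingHom dv)
  let χ : Mot kk ρ →+* Germ dv ℝ :=
    IsLocalization.Away.lift (S := Localization.Away (AdjoinRoot.root (rootPoly kk ρ)))
      (AdjoinRoot.root (rootPoly kk ρ)) hu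
  have h2 : ∀ a, χ (algebraMap (AdjoinRoot (rootPoly kk ρ))
      (Localization.Away (AdjoinRoot.root (rootPoly kk ρ))) a) = χ₁ a := fun a =>
    IsLocalization.Away.lift_eq (S := Localization.Away (AdjoinRoot.root (rootPoly kk ρ)))
      (AdjoinRoot.root (rootPoly kk ρ)) hu a
  have hA : ∀ (ι : Type) [Finite ι] (A : Set (ι → kk)), IsConstr A →
      χ (toMot kk ρ (cls A)) = ((fun m => (cnt m A : ℝ) : ℕ → ℝ) : Germ dv ℝ) := by
    intro ι _ A hA
    rw [← Count_K0_cls hA]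
    exact (h2 _).trans (AdjoinRoot.lift_of _)
  have hB : χ ((rootL kk ρ : (Mot kk ρ)ˣ) : Mot kk ρ) =
      ((fun m : ℕ => (2 : ℝ) ^ ((m : ℝ) / ρ) : ℕ → ℝ) : Germ dv ℝ) := (h2 _).trans h1
  refine ⟨χ, hA, hB, ?_⟩
  have hC : ∀ i : ℤ, χ ((rootL kk ρ ^ i : (Mot kk ρ)ˣ) : Mot kk ρ) =
      (((Count_w ρ ^ i : (ℕ → ℝ)ˣ) : ℕ → ℝ) : Germ dv ℝ) := by
    intro i
    have e : Units.map (χ : Mot kk ρ →* Germ dv ℝ) (rootL kk ρ) =
        Units.map (Germ.coeRingHom (R := ℝ) dv).toMonoidHom (Count_w ρ) := Units.ext hB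
    have e2 : Units.map (χ : Mot kk ρ →* Germ dv ℝ) (rootL kk ρ ^ i) =
        Units.map (Germ.coeRingHom (R := ℝ) dv).toMonoidHom (Count_w ρ ^ i) := by
      rw [map_zpow, map_zpow, e]
    exact congrArg Units.val e2
  have key : ∀ x ∈ filt kk ρ 0, ∃ (g : ℕ → ℝ) (C : ℝ), χ x = (g : Germ dv ℝ) ∧
      ∀ᶠ m in dv, |g m| ≤ C := by
    intro x hx
    induction hx using AddSubgroup.closure_induction with
    | mem x hx =>
      obtain ⟨ι, _, A, D, i, hc, hd, hi, rfl⟩ := hx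
      obtain ⟨C, hCb⟩ := Count_bound hd
      refine ⟨(fun m => (cnt m A : ℝ)) * ((Count_w ρ ^ i : (ℕ → ℝ)ˣ) : ℕ → ℝ), C, ?_, ?_⟩
      · rw [map_mul, hA ι A hc, hC, Germ.coe_mul]
      · filter_upwards [hCb] with m hm
        have h0 : (0 : ℝ) < ρ := by positivity
        have hpos : 0 < (2 : ℝ) ^ ((m : ℝ) / ρ * i) := Real.rpow_pos_of_pos two_pos _
        rw [Pi.mul_apply, Count_w_zpow, abs_of_nonneg (by positivity)]
        have h3 : (cnt m A : ℝ) ≤ C * (2 : ℝ) ^ ((m : ℝ) * D) := by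
          rw [Real.rpow_mul two_pos.le, Real.rpow_natCast, Real.rpow_natCast]
          exact_mod_cast hm
        have h4 : (2 : ℝ) ^ ((m : ℝ) * D) * (2 : ℝ) ^ ((m : ℝ) / ρ * i) ≤ 1 := by
          rw [← Real.rpow_add two_pos]
          apply Real.rpow_le_one_of_one_le_of_nonpos one_le_two
          have h5 : (ρ : ℝ) * D + i ≤ 0 := by
            rw [neg_zero] at hi
            exact_mod_cast hi
          have e : (m : ℝ) * D + m / ρ * i = m / ρ * (ρ * D + i) := by field_simp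
          rw [e]
          exact mul_nonpos_of_nonneg_of_nonpos (by positivity) h5
        calc (cnt m A : ℝ) * (2 : ℝ) ^ ((m : ℝ) / ρ * i)
            ≤ C * (2 : ℝ) ^ ((m : ℝ) * D) * (2 : ℝ) ^ ((m : ℝ) / ρ * i) :=
              mul_le_mul_of_nonneg_right h3 hpos.le
          _ = C * ((2 : ℝ) ^ ((m : ℝ) * D) * (2 : ℝ) ^ ((m : ℝ) / ρ * i)) := mul_assoc _ _ _
          _ ≤ C * 1 := mul_le_mul_of_nonneg_left h4 (by positivity)
          _ = C := mul_one _
    | zero => exact ⟨0, 0, by rw [map_zero, Germ.coe_zero], by simp⟩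
    | add x y _ _ hx hy =>
      obtain ⟨g, C, e, hg⟩ := hx
      obtain ⟨g', C', e', hg'⟩ := hy
      refine ⟨g + g', C + C', by rw [map_add, e, e', Germ.coe_add], ?_⟩
      filter_upwards [hg, hg'] with m h3 h4
      exact (abs_add_le _ _).trans (add_le_add h3 h4)
    | neg x _ hx =>
      obtain ⟨g, C, e, hg⟩ := hx
      refine ⟨-g, C, by rw [map_neg, e, Germ.coe_neg], ?_⟩
      filter_upwards [hg] with m h3
      rwa [Pi.neg_apply, abs_neg]
  intro x hx g hg
  obtain ⟨g', C, e, hb⟩ := key x hx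
  refine ⟨C, ?_⟩
  filter_upwards [hb, Germ.coe_eq.1 (hg.symm.trans e)] with m h3 h4
  rwa [h4]

end Pool.Agent.MP_536a45_ag

end

section

/-!
# Multiplicative independence of a family of Weil numbers
-/

namespace Pool.Agent.MP_536a45_ag.Tr

/-- The power sums of the roots of `X ^ 2 - t X + Q`. -/
def seqA (t Q : ℤ) : ℕ → ℤ
  | 0 => 2
  | 1 => t
  | n + 2 => t * seqA t Q (n + 1) - Q * seqA t Q n

theorem seqA_eq {K : Type} [Field K] {t r : ℤ} {g : K} (hg : g ≠ 0) (h : r * (g + g⁻¹) = t)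
    (n : ℕ) : (seqA t (r ^ 2) n : K) = (r : K) ^ n * (g ^ n + (g ^ n)⁻¹) := by
  induction n using Nat.twoStepInduction with
  | zero => simp [seqA]; norm_num
  | one => simp [seqA, h]
  | more n h1 h2 =>
    rw [seqA]
    push_cast
    rw [h1, h2, ← h]
    field_simp
    ring

theorem seqA_mod {t Q : ℤ} (hQ : 8 ∣ Q) (n : ℕ) : seqA t Q (n + 1) ≡ t ^ (n + 1) [ZMOD 8] := by
  induction n with
  | zero => simp [seqA]
  | succ n ih =>
    rw [seqA, pow_succ' t (n + 1), ← sub_zero (t * t ^ (n + 1))]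
    exact (ih.mul_left t).sub (Int.modEq_zero_iff_dvd.2 (hQ.mul_right _))

/-- The square root of the size of the field number `s`. -/
def rr (s : ℕ) : ℤ := 2 ^ 2 ^ (s + 1)

theorem rr_dvd (s : ℕ) : 8 ∣ rr s ^ 2 := by
  rw [rr, ← pow_mul]
  exact pow_dvd_pow 2 (show 3 ≤ 2 ^ (s + 1) * 2 by
    have := Nat.one_le_two_pow (n := s)
    rw [pow_succ]; omega)

theorem rr_pow (s j : ℕ) : rr s ^ 2 ^ j = rr (s + j) := by
  rw [rr, rr, ← pow_mul, ← pow_add]; congr 2; ring

theorem not_sq_aux {A B E : ℤ} {N : ℕ} (hA : A % 8 = 1) (hB : B % 8 = 5)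
    (hlt : B ^ 2 < 4 * 2 ^ N) (hE : E ^ 2 = (A ^ 2 - 4 * 2 ^ N) * (B ^ 2 - 4 * 2 ^ N)) {v : ℤ}
    (hv : A * B - E = 2 * v) (ho : Odd v) : False := by
  obtain ⟨a, rfl⟩ : ∃ a, A = 8 * a + 1 := ⟨A / 8, by omega⟩
  obtain ⟨b, rfl⟩ : ∃ b, B = 8 * b + 5 := ⟨B / 8, by omega⟩
  have h1 : (4 * 2 ^ N : ℤ) ∣ ((8 * a + 1) * (8 * b + 5) + E) * v :=
    ⟨32 * a ^ 2 + 8 * a + 32 * b ^ 2 + 40 * b + 13 - 2 * 2 ^ N, by
      have : 2 * (((8 * a + 1) * (8 * b + 5) + E) * v) = 2 * (4 * 2 ^ N *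
        (32 * a ^ 2 + 8 * a + 32 * b ^ 2 + 40 * b + 13 - 2 * 2 ^ N)) := by
        linear_combination (-((8 * a + 1) * (8 * b + 5) + E)) * hv - hE
      omega⟩
  have h2 : IsCoprime (4 * 2 ^ N : ℤ) v := by
    rw [show (4 * 2 ^ N : ℤ) = 2 ^ (N + 2) by ring]
    exact (Int.isCoprime_two_left.2 ho).pow_left
  obtain ⟨k, hk⟩ := h2.dvd_of_dvd_mul_right h1
  have hQ : (0 : ℤ) < 2 ^ N := by positivity
  generalize (2 : ℤ) ^ N = Q at *
  have h3 : (8 * a + 1 - k * (8 * b + 5)) ^ 2 + (k ^ 2 - 1) * (4 * Q - (8 * b + 5) ^ 2) = 0 := by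
    refine mul_left_cancel₀ (show 4 * Q ≠ 0 by omega) ?_
    have hE' : E = 4 * Q * k - (8 * a + 1) * (8 * b + 5) := by linarith
    rw [hE'] at hE
    linear_combination hE
  have h4 : k ^ 2 ≤ 1 := by nlinarith [sq_nonneg (8 * a + 1 - k * (8 * b + 5))]
  have h5 : -1 ≤ k := by nlinarith
  have h6 : k ≤ 1 := by nlinarith
  interval_cases k
  · have : 8 * a + 1 + (8 * b + 5) = 0 := pow_eq_zero_iff two_ne_zero |>.1 (by linear_combination h3)
    omega
  · have : 2 * (32 * a ^ 2 + 8 * a + 32 * b ^ 2 + 40 * b + 13) = 4 * Q := by linear_combination h3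
    omega
  · have : 8 * a + 1 - (8 * b + 5) = 0 := pow_eq_zero_iff two_ne_zero |>.1 (by linear_combination h3)
    omega

theorem not_sq {A B E : ℤ} {N : ℕ} (hA : A % 8 = 1) (hB : B % 8 = 5)
    (hlt : B ^ 2 < 4 * 2 ^ N) (hE : E ^ 2 = (A ^ 2 - 4 * 2 ^ N) * (B ^ 2 - 4 * 2 ^ N)) : False := by
  have hA' : Odd A := Int.odd_iff.2 (by omega)
  have hB' : Odd B := Int.odd_iff.2 (by omega)
  have h4 : Even (4 * 2 ^ N : ℤ) := ⟨2 * 2 ^ N, by ring⟩
  have hE' : Odd E := by
    have : Odd (E ^ 2) := hE ▸ (hA'.pow.sub_even h4).mul (hB'.pow.sub_even h4)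
    exact (Int.odd_pow' two_ne_zero).1 this
  obtain ⟨x, hx⟩ := hA'.mul hB'
  obtain ⟨y, hy⟩ := hE'
  rcases Int.even_or_odd (x - y) with h | h
  · refine not_sq_aux (E := -E) (v := x + y + 1) hA hB hlt (by rw [← hE]; ring) (by linarith) ?_
    obtain ⟨z, hz⟩ := h
    exact ⟨z + y, by linarith⟩
  · exact not_sq_aux (v := x - y) hA hB hlt hE (by linarith) h

theorem pow_mod8 {t : ℤ} (h : t % 8 = 5) (j : ℕ) : t ^ 2 ^ (j + 1) ≡ 1 [ZMOD 8] := by
  have h1 : t ^ 2 ≡ 1 [ZMOD 8] := (Int.ModEq.pow 2 (show t ≡ 5 [ZMOD 8] from h)).trans (by decide)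
  rw [pow_succ', pow_mul]
  simpa using h1.pow (2 ^ j)

section Gal

variable {L : Type} [Field L] [CharZero L] [Algebra ℚ L] {t : ℕ → ℤ} {g : ℕ → L}

theorem exists_sign (h0 : ∀ s, g s ≠ 0) (hg : ∀ s, rr s * (g s + (g s)⁻¹) = t s)
    (σ : L ≃ₐ[ℚ] L) (s : ℕ) :
    ∃ c : ℤ, (c = 1 ∨ c = -1) ∧ σ (g s) = g s ^ c := by
  have h1 := congrArg σ (hg s)
  rw [map_mul, map_add, map_inv₀, map_intCast, map_intCast, ← hg s] at h1
  have h2 := mul_left_cancel₀ (Int.cast_ne_zero.2 (show rr s ≠ 0 by unfold rr; positivity)) h1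
  have h3 : σ (g s) ≠ 0 := (map_ne_zero σ).2 (h0 s)
  have h4 := h0 s
  have h5 : (σ (g s) - g s) * (σ (g s) - (g s)⁻¹) = 0 := by
    field_simp at h2 ⊢
    linear_combination h2
  rcases mul_eq_zero.1 h5 with h | h
  · exact ⟨1, Or.inl rfl, by rw [zpow_one]; exact sub_eq_zero.1 h⟩
  · exact ⟨-1, Or.inr rfl, by rw [zpow_neg_one]; exact sub_eq_zero.1 h⟩

theorem exists_sep [IsGalois ℚ L] (h5 : ∀ s, t s % 8 = 5) (hlt : ∀ s, t s ^ 2 < 4 * rr s ^ 2)
    (h0 : ∀ s, g s ≠ 0) (hg : ∀ s, rr s * (g s + (g s)⁻¹) = t s) (s j : ℕ) :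
    ∃ (σ : L ≃ₐ[ℚ] L) (c : ℕ → ℤ),
      (∀ u, (c u = 1 ∨ c u = -1) ∧ σ (g u) = g u ^ c u) ∧ c s * c (s + (j + 1)) = -1 := by
  by_contra hc
  set G := g s ^ 2 ^ (j + 1) with hG
  set H := g (s + (j + 1)) with hH
  set r := rr (s + (j + 1)) with hr
  have hA := seqA_eq (h0 s) (hg s) (2 ^ (j + 1))
  rw [← Int.cast_pow, rr_pow, ← hG, ← hr] at hA
  have hB := hg (s + (j + 1))
  rw [← hH, ← hr] at hB
  have hG0 : G ≠ 0 := pow_ne_zero _ (h0 s)
  have hH0 : H ≠ 0 := h0 _
  obtain ⟨x, hx⟩ := (InfiniteGalois.mem_range_algebraMap_iff_fixed (k := ℚ)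
    ((r : L) ^ 2 * ((G - G⁻¹) * (H - H⁻¹)))).2 fun σ => by
      choose c hc' using exists_sign h0 hg σ
      have e1 : σ G = G ^ c s := by
        rw [hG, map_pow, (hc' s).2, ← zpow_natCast, ← zpow_natCast, ← zpow_mul, ← zpow_mul, mul_comm]
      have e2 : σ H = H ^ c (s + (j + 1)) := (hc' _).2
      have e3 : c s * c (s + (j + 1)) ≠ -1 := fun h => hc ⟨σ, c, hc', h⟩
      simp only [map_mul, map_sub, map_pow, map_inv₀, map_intCast, e1, e2]
      rcases (hc' s).1 with h | h <;> rcases (hc' (s + (j + 1))).1 with h' | h' <;>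
        rw [h, h'] at e3 ⊢
      · simp
      · simp at e3
      · simp at e3
      · simp only [zpow_neg_one, inv_inv]; ring
  have hr2 : r ^ 2 = 2 ^ (2 ^ (s + (j + 1) + 1) * 2) := by rw [hr, rr, pow_mul]
  have h1 : x * x = (((seqA (t s) (rr s ^ 2) (2 ^ (j + 1)) ^ 2 - 4 * r ^ 2) *
      (t (s + (j + 1)) ^ 2 - 4 * r ^ 2) : ℤ) : ℚ) := by
    apply (algebraMap ℚ L).injective
    rw [map_mul, hx, map_intCast]
    push_cast
    rw [hA, ← hB]
    field_simp
    ring
  obtain ⟨E, hE⟩ := Rat.isSquare_intCast_iff.1 ⟨x, h1.symm⟩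
  have h2 := seqA_mod (t := t s) (rr_dvd s) (2 ^ (j + 1) - 1)
  rw [Nat.sub_add_cancel Nat.one_le_two_pow] at h2
  rw [hr2] at hE
  exact not_sq (E := E) (h2.trans (pow_mod8 (h5 s) j)) (h5 _) (hr2 ▸ hlt _) (by rw [hE, sq])

omit [Algebra ℚ L] in
theorem not_root (h5 : ∀ s, t s % 8 = 5) (h0 : ∀ s, g s ≠ 0)
    (hg : ∀ s, rr s * (g s + (g s)⁻¹) = t s) (s : ℕ) {e : ℤ} (h : g s ^ e = 1) : e = 0 := by
  by_contra he
  obtain ⟨n, hn⟩ : ∃ n : ℕ, e.natAbs = n + 1 := ⟨e.natAbs - 1, by omega⟩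
  have h1 : g s ^ (n + 1) = 1 := by
    rw [← hn, ← zpow_natCast]
    rcases Int.natAbs_eq e with h' | h'
    · rwa [← h']
    · rw [h', zpow_neg, inv_eq_one] at h; exact h
  have h2 := seqA_eq (h0 s) (hg s) (n + 1)
  rw [h1, inv_one] at h2
  have h3 : seqA (t s) (rr s ^ 2) (n + 1) = 2 * rr s ^ (n + 1) := by
    apply Int.cast_injective (α := L)
    rw [h2]; push_cast; ring
  have h4 := (seqA_mod (t := t s) (rr_dvd s) n).of_dvd (show (2 : ℤ) ∣ 8 by decide)
  have h6 : Odd (t s ^ (n + 1)) := (Int.odd_iff.2 (by have := h5 s; omega)).pow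
  rw [h3, Int.ModEq, Int.odd_iff.1 h6] at h4
  omega

theorem indep_gal [IsGalois ℚ L] (h5 : ∀ s, t s % 8 = 5) (hlt : ∀ s, t s ^ 2 < 4 * rr s ^ 2)
    (h0 : ∀ s, g s ≠ 0) (hg : ∀ s, rr s * (g s + (g s)⁻¹) = t s) (S : Finset ℕ) :
    ∀ e : ℕ → ℤ, ∏ s ∈ S, g s ^ e s = 1 → ∀ s ∈ S, e s = 0 := by
  induction S using Finset.strongInduction with
  | H S ih =>
  intro e he s hs
  by_cases h : ∃ u ∈ S, u ≠ s
  · obtain ⟨u, hu, hus⟩ := h
    obtain ⟨σ, c, hc, hsu⟩ : ∃ (σ : L ≃ₐ[ℚ] L) (c : ℕ → ℤ),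
        (∀ u, (c u = 1 ∨ c u = -1) ∧ σ (g u) = g u ^ c u) ∧ c s * c u = -1 := by
      rcases lt_or_gt_of_ne hus with h | h
      · obtain ⟨j, rfl⟩ := Nat.exists_eq_add_of_lt h
        obtain ⟨σ, c, hc, h⟩ := exists_sep h5 hlt h0 hg u j
        exact ⟨σ, c, hc, by rw [mul_comm]; exact h⟩
      · obtain ⟨j, rfl⟩ := Nat.exists_eq_add_of_lt h
        exact exists_sep h5 hlt h0 hg s j
    have h1 := congrArg (fun z => σ z ^ c s) he
    simp only [map_prod, map_zpow₀, fun u => (hc u).2, map_one, one_zpow, ← Finset.prod_zpow,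
      ← zpow_mul] at h1
    have h2 : ∏ v ∈ S, g v ^ ((1 + c s * c v) * e v) = 1 := by
      have h3 := congrArg₂ (· * ·) he h1
      simp only [mul_one, ← Finset.prod_mul_distrib] at h3
      rw [← h3]
      exact Finset.prod_congr rfl fun v _ => by rw [← zpow_add₀ (h0 v)]; congr 1; ring
    rw [← Finset.mul_prod_erase S _ hu, hsu, add_neg_cancel, zero_mul, zpow_zero, one_mul] at h2
    have h3 := ih _ (Finset.erase_ssubset hu) _ h2 s (Finset.mem_erase.2 ⟨hus.symm, hs⟩)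
    rcases (hc s).1 with h | h <;> rw [h] at h3 <;> omega
  · push Not at h
    rw [Finset.prod_eq_single s (fun u hu hne => absurd (h u hu) hne) fun h => absurd hs h] at he
    exact not_root h5 h0 hg s he

end Gal

theorem norm_one {z : ℂ} {t r : ℤ} (hz : z ≠ 0) (h : r * (z + z⁻¹) = t) (hlt : t ^ 2 < 4 * r ^ 2) :
    ‖z‖ = 1 := by
  have h1 : (r : ℂ) * (z ^ 2 + 1) = t * z := by rw [← h]; field_simp
  have h2 := congrArg Complex.re h1
  have h3 := congrArg Complex.im h1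
  simp [sq] at h2 h3
  have h4 : (t : ℝ) ^ 2 < 4 * r ^ 2 := by exact_mod_cast hlt
  have hr : (r : ℝ) ≠ 0 := by rintro h; rw [h] at h4; nlinarith
  have h5 : z.im ≠ 0 := by
    intro h
    rw [h] at h2
    have : (2 * r * z.re - t) ^ 2 = t ^ 2 - 4 * r ^ 2 := by linear_combination (4 * r) * h2
    nlinarith [sq_nonneg (2 * r * z.re - t)]
  have h6 : (t : ℝ) = 2 * r * z.re := mul_right_cancel₀ h5 (by linarith)
  have h7 : z.re ^ 2 + z.im ^ 2 = 1 := mul_left_cancel₀ hr (by rw [h6] at h2; linarith)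
  rw [Complex.norm_eq_sqrt_sq_add_sq, h7, Real.sqrt_one]

theorem exists_gamma_aux (L : Type) [Field L] [CharZero L] [Algebra ℚ L] [IsAlgClosure ℚ L] (t : ℕ → ℤ) (h5 : ∀ s, t s % 8 = 5) (hlt : ∀ s, t s ^ 2 < 4 * rr s ^ 2) :
    ∃ γ : ℕ → ℂ, (∀ s, ‖γ s‖ = 1 ∧ rr s * (γ s + (γ s)⁻¹) = t s) ∧
      ∀ (S : Finset ℕ) (e : ℕ → ℤ), ∏ s ∈ S, γ s ^ e s = 1 → ∀ s ∈ S, e s = 0 := by
  have := IsAlgClosure.isAlgClosed ℚ (K := L)
  have : ∀ s, ∃ z : L, z ≠ 0 ∧ rr s * (z + z⁻¹) = t s := by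
    intro s
    have hr : (rr s : L) ≠ 0 := Int.cast_ne_zero.2 (by unfold rr; positivity)
    obtain ⟨z, hz⟩ := IsAlgClosed.exists_root
      (Polynomial.C (rr s : L) * Polynomial.X ^ 2 +
        Polynomial.C (-t s : L) * Polynomial.X +
        Polynomial.C (rr s : L))
      (by rw [Polynomial.degree_quadratic hr]; decide)
    simp only [Polynomial.IsRoot, Polynomial.eval_add, Polynomial.eval_mul, Polynomial.eval_C,
      Polynomial.eval_pow, Polynomial.eval_X] at hz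
    have h : z ≠ 0 := by rintro rfl; simp [hr] at hz
    exact ⟨z, h, by field_simp; linear_combination hz⟩
  choose g h0 hg using this
  let j : L →ₐ[ℚ] ℂ := IsAlgClosed.lift
  have h1 : ∀ s, rr s * (j (g s) + (j (g s))⁻¹) = t s := fun s => by
    simpa using congrArg j (hg s)
  refine ⟨fun s => j (g s), fun s => ⟨norm_one ((map_ne_zero j).2 (h0 s)) (h1 s) (hlt s), h1 s⟩,
    fun S e he => indep_gal h5 hlt h0 hg S e (j.injective ?_)⟩
  simpa [map_prod, map_zpow₀] using he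

theorem exists_gamma (t : ℕ → ℤ) (h5 : ∀ s, t s % 8 = 5) (hlt : ∀ s, t s ^ 2 < 4 * rr s ^ 2) :
    ∃ γ : ℕ → ℂ, (∀ s, ‖γ s‖ = 1 ∧ rr s * (γ s + (γ s)⁻¹) = t s) ∧
      ∀ (S : Finset ℕ) (e : ℕ → ℤ), ∏ s ∈ S, γ s ^ e s = 1 → ∀ s ∈ S, e s = 0 :=
  @exists_gamma_aux (AlgebraicClosure ℚ) _ _ (AlgebraicClosure.instAlgebra ℚ)
    (AlgebraicClosure.instIsAlgClosure ℚ) t h5 hlt

end Pool.Agent.MP_536a45_ag.Tr

end

section

/-!
# The `L`-function of Kloosterman sums in characteristic two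
-/

open Finset Polynomial

namespace Pool.Agent.MP_536a45_ag.Tr

open Ell

section Orbit

variable {α : Type} [DecidableEq α] {φ : α → α} {x : α} {R : Multiset α}

/-- The first `n` points of the orbit of `x`. -/
def orb (φ : α → α) (x : α) (n : ℕ) : Multiset α := (Multiset.range n).map (φ^[·] x)

omit [DecidableEq α] in
theorem orb_mul {p : ℕ} (h : φ^[p] x = x) (k : ℕ) : orb φ x (p * k) = k • orb φ x p := by
  induction k with
  | zero => simp [orb]
  | succ k ih =>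
    rw [Nat.mul_succ, succ_nsmul, ← ih, orb, Multiset.range_add, Multiset.map_add, Multiset.map_map]
    congr 1
    refine Multiset.map_congr rfl fun i _ => ?_
    rw [Function.comp, add_comm, Function.iterate_add_apply, Function.iterate_mul,
      Function.iterate_fixed h]

theorem count_iter (hφ : Function.Injective φ) (hR : R.map φ = R) (i : ℕ) :
    R.count (φ^[i] x) = R.count x := by
  induction i with
  | zero => rfl
  | succ i ih =>
    rw [Function.iterate_succ_apply', ← ih]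
    nth_rewrite 1 [← hR]
    exact Multiset.count_map_eq_count' φ R hφ _

theorem orb_le_iff (hφ : Function.Injective φ) (hR : R.map φ = R)
    (hx : x ∈ Function.periodicPts φ) (k : ℕ) :
    k • orb φ x (Function.minimalPeriod φ x) ≤ R ↔ k ≤ R.count x := by
  have hnd : (orb φ x (Function.minimalPeriod φ x)).Nodup :=
    (Multiset.nodup_range _).map_on fun i hi j hj h => Function.iterate_injOn_Iio_minimalPeriod
      (Multiset.mem_range.1 hi) (Multiset.mem_range.1 hj) h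
  rw [Multiset.le_iff_count]
  constructor
  · intro h
    have h1 := h x
    rwa [Multiset.count_nsmul, Multiset.count_eq_one_of_mem (a := x) hnd (Multiset.mem_map.2 ⟨0,
      Multiset.mem_range.2 (Function.minimalPeriod_pos_of_mem_periodicPts hx), rfl⟩), mul_one] at h1
  · intro h y
    rw [Multiset.count_nsmul]
    by_cases hy : y ∈ orb φ x (Function.minimalPeriod φ x)
    · rw [Multiset.count_eq_one_of_mem hnd hy, mul_one]
      obtain ⟨i, -, rfl⟩ := Multiset.mem_map.1 hy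
      rwa [count_iter hφ hR]
    · rw [Multiset.count_eq_zero_of_notMem hy, mul_zero]; exact Nat.zero_le _

theorem card_periods (hφ : Function.Injective φ) (hR : R.map φ = R)
    (hx : x ∈ Function.periodicPts φ) :
    ((Icc 1 R.card).filter fun n => φ^[n] x = x ∧ orb φ x n ≤ R).card = R.count x := by
  have hp := Function.minimalPeriod_pos_of_mem_periodicPts hx
  have h0 : φ^[Function.minimalPeriod φ x] x = x := Function.iterate_minimalPeriod
  rw [← Nat.add_sub_cancel (n := R.count x) (m := 1), ← Nat.card_Icc]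
  symm
  refine card_nbij (fun k => Function.minimalPeriod φ x * k) (fun k hk => ?_)
    (fun k _ k' _ h => Nat.eq_of_mul_eq_mul_left hp h) fun n hn => ?_
  · obtain ⟨h1, h2⟩ := mem_Icc.1 (mem_coe.1 hk)
    have h3 := (orb_le_iff hφ hR hx k).2 h2
    rw [← orb_mul h0] at h3
    have h4 := Multiset.card_le_card h3
    rw [orb, Multiset.card_map, Multiset.card_range] at h4
    exact mem_coe.2 (mem_filter.2 ⟨mem_Icc.2 ⟨Nat.mul_pos hp h1, h4⟩,
      by rw [Function.iterate_mul, Function.iterate_fixed h0], h3⟩)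
  · obtain ⟨h1, h2, h3⟩ := mem_filter.1 (mem_coe.1 hn)
    obtain ⟨k, rfl⟩ := Function.IsPeriodicPt.minimalPeriod_dvd (f := φ) (x := x) (n := n) h2
    rw [orb_mul h0, orb_le_iff hφ hR hx] at h3
    exact ⟨k, mem_coe.2 (mem_Icc.2 ⟨Nat.pos_of_mul_pos_left (mem_Icc.1 h1).1, h3⟩), rfl⟩

theorem sum_orb (hφ : Function.Injective φ) (hR : R.map φ = R)
    (hx : ∀ x, x ∈ Function.periodicPts φ) (T : ℕ → Finset α)
    (hT : ∀ n, 0 < n → ∀ x, x ∈ T n ↔ φ^[n] x = x) :
    ∑ n ∈ Icc 1 R.card, ((T n).filter fun x => orb φ x n ≤ R).card = R.card := by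
  have h1 : ∀ n ∈ Icc 1 R.card, ((T n).filter fun x => orb φ x n ≤ R).card =
      ∑ x ∈ R.toFinset, if φ^[n] x = x ∧ orb φ x n ≤ R then 1 else 0 := by
    intro n hn
    have hn1 : 0 < n := (mem_Icc.1 hn).1
    rw [← card_filter]
    congr 1
    ext x
    rw [mem_filter, mem_filter, hT n hn1, Multiset.mem_toFinset]
    exact ⟨fun h => ⟨Multiset.mem_of_le h.2 (Multiset.mem_map.2 ⟨0, Multiset.mem_range.2 hn1, rfl⟩),
      h⟩, fun h => h.2⟩
  rw [sum_congr rfl h1, sum_comm]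
  refine Eq.trans (sum_congr rfl fun x _ => ?_) R.toFinset_sum_count_eq
  rw [← card_filter, card_periods hφ hR (hx x)]

end Orbit

/-- The field with `2 ^ m` elements, as a finite set. -/
noncomputable def Fs (m : ℕ) : Finset kk := (X ^ 2 ^ m - X : kk[X]).roots.toFinset

variable {m : ℕ}

theorem mem_Fs (hm : 0 < m) {x : kk} : x ∈ Fs m ↔ x ∈ FF m := by
  rw [Fs, Multiset.mem_toFinset,
    mem_roots (FiniteField.X_pow_card_pow_sub_X_ne_zero kk hm.ne' one_lt_two), mem_FF]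
  simp [sub_eq_zero]

theorem card_Fs (hm : 0 < m) : (Fs m).card = 2 ^ m := by
  rw [← (Count_roots hm).2, ← Set.ncard_coe_finset]
  congr 1
  ext x
  exact mem_Fs hm

/-- The trace. -/
noncomputable def tr (m : ℕ) (y : kk) : kk := ∑ i ∈ range m, y ^ 2 ^ i

/-- The additive character. -/
noncomputable def ps (m : ℕ) (y : kk) : ℤ := if tr m y = 0 then 1 else -1

theorem tr_add (y z : kk) : tr m (y + z) = tr m y + tr m z := by
  simp only [tr, add_pow_char_pow, sum_add_distrib]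

theorem tr_zero : tr m 0 = 0 := by simp [tr]

theorem tr_as (z : kk) : tr m (z ^ 2 + z) = z ^ 2 ^ m + z := by
  induction m with
  | zero => simp [tr, CharTwo.add_self_eq_zero]
  | succ m ih =>
    rw [tr, sum_range_succ, ← tr, ih, add_pow_char_pow, ← pow_mul, ← pow_succ']
    linear_combination (z ^ 2 ^ m) * two0

theorem tr_sq (y : kk) : tr m (y ^ 2) = tr m y ^ 2 := by
  rw [tr, tr, CharTwo.sum_sq]
  exact sum_congr rfl fun i _ => by ring

theorem tr_sq_eq {y : kk} (hy : y ∈ FF m) : tr m (y ^ 2) = tr m y := by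
  have := tr_as (m := m) y
  rw [tr_add, mem_FF.1 hy] at this
  linear_combination this + (y - tr m y) * two0

theorem tr_cases {y : kk} (hy : y ∈ FF m) : tr m y = 0 ∨ tr m y = 1 := by
  have := tr_sq_eq hy
  rw [tr_sq] at this
  exact (mul_eq_zero.1 (show tr m y * (tr m y - 1) = 0 by linear_combination this)).imp_right
    sub_eq_zero.1

theorem ps_add {y z : kk} (hy : y ∈ FF m) (hz : z ∈ FF m) : ps m (y + z) = ps m y * ps m z := by
  rcases tr_cases hy with h | h <;> rcases tr_cases hz with h' | h' <;>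
    simp [ps, tr_add, h, h', CharTwo.add_self_eq_zero]

theorem ps_zero : ps m 0 = 1 := by simp [ps, tr_zero]

theorem exists_ps (hm : 0 < m) : ∃ y ∈ FF m, ps m y = -1 := by
  obtain ⟨z, hz⟩ := IsAlgClosed.exists_root (X ^ 2 ^ m + (X + 1) : kk[X]) (by
    have h : 1 < 2 ^ m := Nat.one_lt_two_pow hm.ne'
    rw [degree_add_eq_left_of_degree_lt, degree_X_pow]
    · exact_mod_cast (by omega : 2 ^ m ≠ 0)
    · rw [degree_X_pow, ← C_1, degree_X_add_C]; exact_mod_cast h)
  simp only [IsRoot, eval_add, eval_pow, eval_X, eval_one] at hz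
  refine ⟨z ^ 2 + z, ?_, ?_⟩
  · rw [mem_FF, add_pow_char_pow, ← pow_mul, mul_comm, pow_mul,
      show z ^ 2 ^ m = z + 1 by linear_combination hz - (z + 1) * two0]
    linear_combination (z + 1) * two0
  · rw [ps, tr_as, if_neg]
    rw [show z ^ 2 ^ m + z = 1 by linear_combination hz - two0]
    exact one_ne_zero

theorem sum_ps_mul (hm : 0 < m) {c : kk} (hc : c ∈ FF m) :
    ∑ y ∈ Fs m, ps m (y * c) = if c = 0 then 2 ^ m else 0 := by
  split_ifs with h
  · simp [h, ps_zero, card_Fs hm]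
  obtain ⟨y0, hy0, h0⟩ := exists_ps hm
  have h1 : ∑ y ∈ Fs m, ps m (y * c) = ∑ y ∈ Fs m, -ps m (y * c) := by
    refine sum_nbij' (· + y0 / c) (· - y0 / c) (fun y hy => ?_) (fun y hy => ?_) (by simp) (by simp)
      fun y hy => ?_
    · exact (mem_Fs hm).2 (add_mem ((mem_Fs hm).1 hy) (div_mem hy0 hc))
    · exact (mem_Fs hm).2 (sub_mem ((mem_Fs hm).1 hy) (div_mem hy0 hc))
    · rw [add_mul, div_mul_cancel₀ _ h, ps_add (mul_mem ((mem_Fs hm).1 hy) hc) hy0, h0]; ring
  rw [sum_neg_distrib] at h1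
  omega

/-- The Kloosterman sum. -/
noncomputable def Kl (m : ℕ) (a : kk) : ℤ := ∑ x ∈ (Fs m).erase 0, ps m (x + a / x)

/-- The Frobenius map. -/
noncomputable abbrev fr (m : ℕ) : kk →+* kk := iterateFrobenius kk 2 m

theorem fr_iter (n : ℕ) (x : kk) : (fr m)^[n] x = x ^ 2 ^ (m * n) := by
  rw [← coe_iterateFrobenius_mul]; rfl

theorem tr_mul (y : kk) (n : ℕ) : tr m (∑ i ∈ range n, (fr m)^[i] y) = tr (m * n) y := by
  induction n with
  | zero => simp [tr]
  | succ n ih =>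
    rw [sum_range_succ, tr_add, ih, Nat.mul_succ, tr, tr, tr, sum_range_add, fr_iter]
    congr 1
    exact sum_congr rfl fun i _ => by rw [← pow_mul, ← pow_add]

theorem coeff_mem {f : kk[X]} : f.map (fr m) = f ↔ ∀ i, f.coeff i ∈ FF m := by
  rw [Polynomial.ext_iff]
  exact forall_congr' fun i => by rw [coeff_map]; rfl

theorem mon_finite (hm : 0 < m) (d : ℕ) :
    {f : kk[X] | f.Monic ∧ f.natDegree = d ∧ f.map (fr m) = f}.Finite := by
  refine Set.Finite.of_finite_image (f := fun f (i : Fin (d + 1)) => f.coeff i)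
    ((Set.Finite.pi (fun _ : Fin (d + 1) => (Count_roots hm).1)).subset ?_) ?_
  · rintro _ ⟨f, hf, rfl⟩ i _
    exact coeff_mem.1 hf.2.2 i
  · intro f hf g hg h
    ext i
    by_cases hi : i < d + 1
    · exact congrFun h ⟨i, hi⟩
    · rw [coeff_eq_zero_of_natDegree_lt (by rw [hf.2.1]; omega),
        coeff_eq_zero_of_natDegree_lt (by rw [hg.2.1]; omega)]

/-- Monic polynomials of degree `d` over the field with `2 ^ m` elements. -/
noncomputable def Mon (hm : 0 < m) (d : ℕ) : Finset kk[X] := (mon_finite hm d).toFinset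

theorem mem_Mon (hm : 0 < m) {d : ℕ} {f : kk[X]} :
    f ∈ Mon hm d ↔ f.Monic ∧ f.natDegree = d ∧ f.map (fr m) = f := Set.Finite.mem_toFinset _

/-- The additive invariant of a polynomial. -/
noncomputable def sg (a : kk) (f : kk[X]) : kk := f.nextCoeff + a * f.coeff 1 / f.coeff 0

/-- The multiplicative function on polynomials. -/
noncomputable def lam (m : ℕ) (a : kk) (f : kk[X]) : ℤ := if f.coeff 0 = 0 then 0 else ps m (sg a f)

variable {a : kk}

theorem sg_mul {f g : kk[X]} (hf : f.Monic) (hg : g.Monic) (h1 : f.coeff 0 ≠ 0)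
    (h2 : g.coeff 0 ≠ 0) : sg a (f * g) = sg a f + sg a g := by
  rw [sg, sg, sg, hf.nextCoeff_mul hg, mul_coeff_zero, mul_coeff_one]
  field_simp
  ring

theorem sg_mem (ha : a ∈ FF m) {f : kk[X]} (hf : f.map (fr m) = f) : sg a f ∈ FF m := by
  have h := coeff_mem.1 hf
  refine add_mem ?_ (div_mem (mul_mem ha (h 1)) (h 0))
  rw [nextCoeff]
  split_ifs
  · exact zero_mem _
  · exact h _

theorem lam_mul (ha : a ∈ FF m) {f g : kk[X]} (hf : f.Monic) (hg : g.Monic)
    (hf' : f.map (fr m) = f) (hg' : g.map (fr m) = g) : lam m a (f * g) = lam m a f * lam m a g := by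
  by_cases h1 : f.coeff 0 = 0
  · simp [lam, h1]
  by_cases h2 : g.coeff 0 = 0
  · simp [lam, h2]
  rw [lam, lam, lam, if_neg h1, if_neg h2, if_neg (by rw [mul_coeff_zero]; exact mul_ne_zero h1 h2),
    sg_mul hf hg h1 h2, ps_add (sg_mem ha hf') (sg_mem ha hg')]

/-- The characteristic polynomial. -/
noncomputable def chi (m : ℕ) (x : kk) (n : ℕ) : kk[X] := ∏ i ∈ range n, (X - C ((fr m)^[i] x))

theorem chi_monic (x : kk) (n : ℕ) : (chi m x n).Monic :=
  monic_prod_of_monic _ _ fun _ _ => monic_X_sub_C _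

theorem chi_mem (hm : 0 < m) {x : kk} {n : ℕ} (hx : x ∈ FF (m * n)) : chi m x n ∈ Mon hm n := by
  refine (mem_Mon hm).2 ⟨chi_monic x n, by rw [chi, natDegree_finsetProd_X_sub_C_eq_card,
    card_range], ?_⟩
  have h1 := prod_range_succ (fun i => (X - C ((fr m)^[i] x) : kk[X])) n
  rw [prod_range_succ', fr_iter n, mem_FF.1 hx] at h1
  refine Eq.trans ?_ (mul_right_cancel₀ (X_sub_C_ne_zero x) h1)
  rw [chi, Polynomial.map_prod]
  exact prod_congr rfl fun i _ => by rw [Function.iterate_succ_apply']; simp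

theorem chi_sg (ha : a ∈ FF m) {x : kk} (hx : x ≠ 0) (n : ℕ) : (chi m x n).coeff 0 ≠ 0 ∧
    sg a (chi m x n) = ∑ i ∈ range n, (fr m)^[i] (x + a / x) := by
  induction n with
  | zero => simp [chi, sg, coeff_one, nextCoeff]
  | succ n ih =>
    have h1 : (fr m)^[n] x ≠ 0 := by rw [fr_iter]; exact pow_ne_zero _ hx
    have h2 : (X - C ((fr m)^[n] x) : kk[X]).coeff 0 ≠ 0 := by simpa using h1
    rw [chi, prod_range_succ, ← chi, mul_coeff_zero, sum_range_succ, ← ih.2,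
      sg_mul (chi_monic x n) (monic_X_sub_C _) ih.1 h2]
    refine ⟨mul_ne_zero ih.1 h2, ?_⟩
    congr 1
    have h3 := Function.iterate_fixed (f := fr m) (mem_FF.1 ha) n
    rw [fr_iter] at h3
    rw [fr_iter, fr_iter, add_pow_char_pow, div_pow, h3, sg, nextCoeff_X_sub_C]
    generalize x ^ 2 ^ (m * n) = y
    simp [CharTwo.neg_eq, coeff_X, coeff_C]

theorem sum_lam_chi (hm : 0 < m) (ha : a ∈ FF m) {n : ℕ} (hn : 0 < n) :
    ∑ x ∈ Fs (m * n), lam m a (chi m x n) = Kl (m * n) a := by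
  rw [Kl, ← add_sum_erase _ _ ((mem_Fs (Nat.mul_pos hm hn)).2 (zero_mem _)), lam, if_pos, zero_add]
  · refine sum_congr rfl fun x hx => ?_
    obtain ⟨h1, h2⟩ := chi_sg ha (mem_erase.1 hx).1 n
    rw [lam, if_neg h1, h2, ps, ps, tr_mul]
  · obtain ⟨n, rfl⟩ := Nat.exists_eq_succ_of_ne_zero hn.ne'
    rw [chi, prod_range_succ', mul_coeff_zero]
    simp

open Classical in
theorem sum_dvd (hm : 0 < m) (ha : a ∈ FF m) {n d : ℕ} (hn : n ≤ d) {h : kk[X]}
    (hh : h ∈ Mon hm n) : ∑ f ∈ Mon hm d, (if h ∣ f then lam m a f else 0) =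
      lam m a h * ∑ g ∈ Mon hm (d - n), lam m a g := by
  obtain ⟨h1, h2, h3⟩ := (mem_Mon hm).1 hh
  rw [← sum_filter, mul_sum]
  symm
  refine sum_nbij (h * ·) (fun g hg => ?_) (fun g _ g' _ e => mul_left_cancel₀ h1.ne_zero e)
    (fun f hf => ?_) fun g hg => ?_
  · obtain ⟨g1, g2, g3⟩ := (mem_Mon hm).1 hg
    exact mem_filter.2 ⟨(mem_Mon hm).2 ⟨h1.mul g1, by rw [h1.natDegree_mul g1]; omega,
      by rw [Polynomial.map_mul, h3, g3]⟩, dvd_mul_right _ _⟩
  · obtain ⟨hf, g, rfl⟩ := mem_filter.1 (mem_coe.1 hf)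
    obtain ⟨f1, f2, f3⟩ := (mem_Mon hm).1 hf
    have g1 := h1.of_mul_monic_left f1
    rw [h1.natDegree_mul g1] at f2
    rw [Polynomial.map_mul, h3] at f3
    exact ⟨g, mem_coe.2 ((mem_Mon hm).2 ⟨g1, by omega, mul_left_cancel₀ h1.ne_zero f3⟩), rfl⟩
  · obtain ⟨g1, -, g3⟩ := (mem_Mon hm).1 hg
    exact (lam_mul ha h1 g1 h3 g3).symm

theorem log_deriv (hm : 0 < m) (ha : a ∈ FF m) (d : ℕ) : d * ∑ f ∈ Mon hm d, lam m a f =
    ∑ n ∈ Icc 1 d, Kl (m * n) a * ∑ g ∈ Mon hm (d - n), lam m a g := by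
  classical
  have h1 : ∀ f ∈ Mon hm d, d * lam m a f =
      ∑ n ∈ Icc 1 d, ∑ x ∈ Fs (m * n), if chi m x n ∣ f then lam m a f else 0 := by
    intro f hf
    obtain ⟨f1, f2, f3⟩ := (mem_Mon hm).1 hf
    have := sum_orb (φ := fr m) (R := f.roots) (fr m).injective
      (by rw [← (IsAlgClosed.splits f).roots_map, f3]) (fun x => by
        obtain ⟨b, hb, h⟩ := eventually_dv.1 (Count_fix x)
        exact ⟨b, hb, (fr_iter b x).trans (h _ (Nat.mul_pos hm hb) (dvd_mul_left _ _))⟩)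
      (fun n => Fs (m * n)) fun n hn x => by rw [mem_Fs (Nat.mul_pos hm hn), fr_iter, mem_FF]
    rw [IsAlgClosed.card_roots_eq_natDegree, f2] at this
    nth_rewrite 1 [← this]
    rw [Nat.cast_sum, sum_mul]
    refine sum_congr rfl fun n _ => ?_
    rw [← sum_filter, sum_const, nsmul_eq_mul]
    congr 3
    ext x
    rw [mem_filter, mem_filter, ← Multiset.prod_X_sub_C_dvd_iff_le_roots f1.ne_zero, orb,
      Multiset.map_map]
    rfl
  rw [mul_sum, sum_congr rfl h1, sum_comm]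
  refine sum_congr rfl fun n hn => ?_
  obtain ⟨n1, n2⟩ := mem_Icc.1 hn
  rw [sum_comm, ← sum_lam_chi hm ha n1, sum_mul]
  exact sum_congr rfl fun x hx => sum_dvd hm ha n2 (chi_mem hm ((mem_Fs (Nat.mul_pos hm n1)).1 hx))

theorem sum_mon_zero (hm : 0 < m) : ∑ f ∈ Mon hm 0, lam m a f = 1 := by
  have : Mon hm 0 = {1} := by
    ext f
    rw [mem_Mon, mem_singleton]
    exact ⟨fun h => eq_one_of_monic_natDegree_zero h.1 h.2.1, fun h => by simp [h]⟩
  simp [this, lam, sg, nextCoeff, coeff_one, ps_zero]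

theorem sum_mon_two (hm : 0 < m) (ha : a ∈ FF m) (ha0 : a ≠ 0) :
    ∑ f ∈ Mon hm 2, lam m a f = 2 ^ m := by
  have h1 : ∑ f ∈ Mon hm 2, lam m a f =
      ∑ p ∈ Fs m ×ˢ Fs m, if p.1 = 0 then 0 else ps m (p.2 * (1 + a / p.1)) := by
    refine sum_nbij' (fun f => (f.coeff 0, f.coeff 1)) (fun p => X ^ 2 + C p.2 * X + C p.1)
      (fun f hf => ?_) (fun p hp => ?_) (fun f hf => ?_) (fun p _ => ?_) fun f hf => ?_
    · have := coeff_mem.1 ((mem_Mon hm).1 hf).2.2
      exact mem_product.2 ⟨(mem_Fs hm).2 (this 0), (mem_Fs hm).2 (this 1)⟩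
    · obtain ⟨h1, h2⟩ := mem_product.1 hp
      refine (mem_Mon hm).2 ⟨by monicity!, by compute_degree!, ?_⟩
      have e1 : fr m p.1 = p.1 := (mem_Fs hm).1 h1
      have e2 : fr m p.2 = p.2 := (mem_Fs hm).1 h2
      simp [e1, e2]
    · obtain ⟨f1, f2, -⟩ := (mem_Mon hm).1 hf
      have := f1.as_sum
      rw [f2, sum_range_succ, sum_range_one] at this
      linear_combination -this
    · simp [coeff_X, coeff_C]
    · obtain ⟨-, f2, -⟩ := (mem_Mon hm).1 hf
      rw [lam, sg, nextCoeff_of_natDegree_pos (by omega), f2]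
      congr 2
      ring
  rw [h1, sum_product, sum_eq_single a]
  · simp only [if_neg ha0]
    rw [sum_ps_mul hm (add_mem (one_mem _) (div_mem ha ha)), if_pos]
    rw [div_self ha0, CharTwo.add_self_eq_zero]
  · intro c hc hca
    by_cases h : c = 0
    · simp [h]
    simp only [if_neg h]
    rw [sum_ps_mul hm (add_mem (one_mem _) (div_mem ha ((mem_Fs hm).1 hc))), if_neg]
    intro e
    field_simp at e
    exact hca (by linear_combination e - a * two0)
  · exact fun h => absurd ((mem_Fs hm).2 ha) h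

theorem sum_mon_big (hm : 0 < m) (ha : a ∈ FF m) (d : ℕ) :
    ∑ f ∈ Mon hm (d + 3), lam m a f = 0 := by
  obtain ⟨y, hy, h0⟩ := exists_ps hm
  have hmem : ∀ f ∈ Mon hm (d + 3), f + C y * X ^ (d + 2) ∈ Mon hm (d + 3) := by
    intro f hf
    obtain ⟨f1, f2, f3⟩ := (mem_Mon hm).1 hf
    have h1 : (C y * X ^ (d + 2) : kk[X]).natDegree < f.natDegree :=
      (natDegree_C_mul_X_pow_le _ _).trans_lt (by omega)
    have e1 : fr m y = y := hy
    exact (mem_Mon hm).2 ⟨f1.add_of_left (degree_lt_degree h1),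
      by rw [natDegree_add_eq_left_of_natDegree_lt h1, f2], by simp [f3, e1]⟩
  have hinv : ∀ f : kk[X], f + C y * X ^ (d + 2) + C y * X ^ (d + 2) = f := fun f => by
    rw [add_assoc, ← add_mul, ← C_add, CharTwo.add_self_eq_zero, C_0, zero_mul, add_zero]
  have h1 : ∑ f ∈ Mon hm (d + 3), lam m a f = ∑ f ∈ Mon hm (d + 3), -lam m a f := by
    refine sum_nbij' (· + C y * X ^ (d + 2)) (· + C y * X ^ (d + 2)) hmem hmem (fun f _ => hinv f)
      (fun f _ => hinv f) fun f hf => ?_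
    obtain ⟨-, f2, f3⟩ := (mem_Mon hm).1 hf
    have e0 : (f + C y * X ^ (d + 2)).coeff 0 = f.coeff 0 := by simp
    have e1 : sg a (f + C y * X ^ (d + 2)) = sg a f + y := by
      have g2 := ((mem_Mon hm).1 (hmem f hf)).2.1
      rw [sg, sg, e0, nextCoeff_of_natDegree_pos (by omega), nextCoeff_of_natDegree_pos (by omega),
        g2, f2]
      simp [coeff_X_pow]
      ring
    rw [lam, lam, e0, e1, ps_add (sg_mem ha f3) hy, h0]
    split_ifs <;> ring
  rw [sum_neg_distrib] at h1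
  omega

/-- The Kloosterman sums over the extensions are power sums. -/
theorem Kl_eq (hm : 0 < m) (ha : a ∈ FF m) (ha0 : a ≠ 0) (n : ℕ) :
    Kl (m * (n + 1)) a = -seqA (-Kl m a) (2 ^ m) (n + 1) := by
  have h1 := log_deriv hm ha 1
  rw [Icc_self, sum_singleton, sum_mon_zero, mul_one, mul_one, Nat.cast_one, one_mul] at h1
  induction n using Nat.twoStepInduction with
  | zero => simp [seqA]
  | one =>
    have h2 := log_deriv hm ha 2
    rw [show Icc 1 2 = {1, 2} from rfl, sum_pair (by norm_num), sum_mon_zero, sum_mon_two hm ha ha0,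
      h1, mul_one] at h2
    simp only [seqA]
    push_cast at h2
    linear_combination -h2
  | more n i1 i2 =>
    have h2 := log_deriv hm ha (n + 3)
    rw [sum_Icc_succ_top (by omega), sum_Icc_succ_top (by omega), sum_Icc_succ_top (by omega),
      sum_mon_big hm ha, Nat.sub_self, sum_mon_zero, show n + 3 - (n + 2) = 1 by omega,
      show n + 3 - (n + 1) = 2 by omega, h1, sum_mon_two hm ha ha0, i1, i2,
      sum_eq_zero fun k hk => ?_] at h2
    · rw [seqA]
      linear_combination -h2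
    · obtain ⟨j, hj⟩ := Nat.exists_eq_add_of_le (mem_Icc.1 hk).2
      rw [show n + 3 - k = j + 3 by omega, sum_mon_big hm ha, mul_zero]

end Pool.Agent.MP_536a45_ag.Tr

end

section

/-!
# The choice of the parameters and the points of `y ^ 2 + x y = x ^ 3 + a x`
-/

open Finset

namespace Pool.Agent.MP_536a45_ag.Tr

open Ell

variable {m : ℕ} {a : kk}

theorem ps_cases (y : kk) : ps m y = 1 ∨ ps m y = -1 := by
  unfold ps; split_ifs <;> simp

theorem mem_erase_Fs (hm : 0 < m) {x : kk} (hx : x ∈ (Fs m).erase 0) : x ≠ 0 ∧ x ∈ FF m :=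
  ⟨(mem_erase.1 hx).1, (mem_Fs hm).1 (mem_erase.1 hx).2⟩

theorem card_erase_Fs (hm : 0 < m) : (((Fs m).erase 0).card : ℤ) = 2 ^ m - 1 := by
  rw [card_erase_of_mem ((mem_Fs hm).2 (zero_mem _)), card_Fs hm, Nat.cast_sub Nat.one_le_two_pow]
  simp

theorem second_moment (hm : 0 < m) : ∑ a ∈ Fs m, Kl m a ^ 2 = 2 ^ m * (2 ^ m - 1) := by
  have h1 : ∀ a ∈ Fs m, Kl m a ^ 2 = ∑ x ∈ (Fs m).erase 0, ∑ y ∈ (Fs m).erase 0,
      ps m (x + y) * ps m (a * (x⁻¹ + y⁻¹)) := by
    intro a ha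
    have ha := (mem_Fs hm).1 ha
    rw [sq, Kl, sum_mul_sum]
    refine sum_congr rfl fun x hx => sum_congr rfl fun y hy => ?_
    have hx := (mem_erase_Fs hm hx).2
    have hy := (mem_erase_Fs hm hy).2
    rw [← ps_add (add_mem hx (div_mem ha hx)) (add_mem hy (div_mem ha hy)),
      ← ps_add (add_mem hx hy) (mul_mem ha (add_mem (inv_mem hx) (inv_mem hy)))]
    congr 1
    ring
  rw [sum_congr rfl h1, sum_comm, ← card_erase_Fs hm, mul_comm, ← nsmul_eq_mul, ← sum_const]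
  refine sum_congr rfl fun x hx => ?_
  rw [sum_comm, sum_eq_single x]
  · rw [← mul_sum, CharTwo.add_self_eq_zero, CharTwo.add_self_eq_zero,
      sum_ps_mul hm (zero_mem _), ps_zero, if_pos rfl, one_mul]
  · intro y hy hne
    rw [← mul_sum, sum_ps_mul hm (add_mem (inv_mem (mem_erase_Fs hm hx).2)
      (inv_mem (mem_erase_Fs hm hy).2)), if_neg, mul_zero]
    intro h
    exact hne (inv_injective (by linear_combination h - x⁻¹ * two0))
  · exact fun h => absurd hx h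

theorem exists_small (hm : 0 < m) : ∃ a ∈ FF m, ps m a = -1 ∧ Kl m a ^ 2 < 2 * 2 ^ m := by
  by_contra h
  push Not at h
  have h1 : ∑ a ∈ Fs m, (2 ^ m - 2 ^ m * ps m (a * 1)) ≤ ∑ a ∈ Fs m, Kl m a ^ 2 := by
    refine sum_le_sum fun a ha => ?_
    rw [mul_one]
    rcases ps_cases (m := m) a with e | e
    · rw [e, mul_one, sub_self]; positivity
    · have := h a ((mem_Fs hm).1 ha) e
      rw [e]; linarith
  rw [second_moment hm, sum_sub_distrib, ← mul_sum, sum_ps_mul hm (one_mem _), if_neg one_ne_zero,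
    sum_const, card_Fs hm, nsmul_eq_mul] at h1
  push_cast at h1
  have : (0 : ℤ) < 2 ^ m := by positivity
  nlinarith

theorem sum_erase_ps (hm : 0 < m) : ∑ x ∈ (Fs m).erase 0, ps m x = -1 := by
  have := sum_ps_mul hm (one_mem _)
  rw [if_neg one_ne_zero, ← add_sum_erase _ _ ((mem_Fs hm).2 (zero_mem _))] at this
  simp only [mul_one, ps_zero] at this
  linarith

theorem Kl_mod (hm : 0 < m) (ha : a ∈ FF m) (h : ps m a = -1) : 8 ∣ Kl m a + 2 ^ m - 3 := by
  classical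
  have ha0 : a ≠ 0 := by rintro rfl; rw [ps_zero] at h; omega
  have hmem : ∀ x ∈ (Fs m).erase 0, a / x ∈ (Fs m).erase 0 := fun x hx =>
    mem_erase.2 ⟨div_ne_zero ha0 (mem_erase_Fs hm hx).1,
      (mem_Fs hm).2 (div_mem ha (mem_erase_Fs hm hx).2)⟩
  have hinv : ∀ x ∈ (Fs m).erase 0, a / (a / x) = x := fun x hx => by field_simp
  have h1 : ∑ x ∈ (Fs m).erase 0, ps m (a / x) = -1 := by
    rw [← sum_erase_ps hm]
    exact sum_nbij' (a / ·) (a / ·) hmem hmem hinv hinv fun _ _ => rfl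
  set S := ((Fs m).erase 0).filter fun x => ps m x = 1 ∧ ps m (a / x) = 1 with hS
  have h2 : ∑ x ∈ (Fs m).erase 0, (1 + ps m x + ps m (a / x) + ps m (x + a / x)) = 4 * S.card := by
    rw [hS, card_filter, Nat.cast_sum, mul_sum]
    refine sum_congr rfl fun x hx => ?_
    have hx := (mem_erase_Fs hm hx).2
    rw [ps_add hx (div_mem ha hx)]
    rcases ps_cases (m := m) x with e | e <;> rcases ps_cases (m := m) (a / x) with e' | e' <;>
      simp [e, e']
  have h3 : ∑ _x ∈ S, (1 : ZMod 2) = 0 := by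
    refine sum_involution (fun x _ => a / x) (fun _ _ => by decide) (fun x hx _ e => ?_)
      (fun x hx => ?_) fun x hx => hinv x (mem_filter.1 hx).1
    · obtain ⟨h1, h2, -⟩ := mem_filter.1 hx
      obtain ⟨h3, h4⟩ := mem_erase_Fs hm h1
      have : a = x ^ 2 := by field_simp at e; exact e
      rw [this, ps, tr_sq_eq h4, ← ps, h2] at h
      omega
    · obtain ⟨h1, h2, h3⟩ := mem_filter.1 hx
      exact mem_filter.2 ⟨hmem x h1, h3, by rw [hinv x h1]; exact h2⟩
  rw [sum_const, nsmul_eq_mul, mul_one, ZMod.natCast_eq_zero_iff] at h3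
  rw [sum_add_distrib, sum_add_distrib, sum_add_distrib, h1, sum_erase_ps hm, ← Kl, sum_const,
    nsmul_eq_mul, card_erase_Fs hm] at h2
  omega

theorem exists_param (s : ℕ) : ∃ a ∈ FF (2 ^ (s + 2)), a ≠ 0 ∧ -Kl (2 ^ (s + 2)) a % 8 = 5 ∧
    (-Kl (2 ^ (s + 2)) a) ^ 2 < 4 * rr s ^ 2 := by
  have hm : 0 < 2 ^ (s + 2) := by positivity
  obtain ⟨a, ha, h1, h2⟩ := exists_small hm
  have e : rr s ^ 2 = 2 ^ 2 ^ (s + 2) := by rw [rr, ← pow_mul, ← pow_succ]
  have h3 := Kl_mod hm ha h1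
  have h4 := rr_dvd s
  have h5 : (0 : ℤ) < 2 ^ 2 ^ (s + 2) := by positivity
  rw [e] at h4 ⊢
  refine ⟨a, ha, ?_, by omega, by rw [neg_sq]; linarith⟩
  rintro rfl
  rw [ps_zero] at h1
  omega

theorem card_fibre (hm : 0 < m) {x : kk} (hx : x ∈ (Fs m).erase 0) :
    (((Fs m).filter fun y => y ^ 2 + x * y = x ^ 3 + a * x).card : ℤ) = 1 + ps m (x + a / x) := by
  obtain ⟨h0, hx⟩ := mem_erase_Fs hm hx
  obtain ⟨z, hz⟩ := exists_quad 1 (x + a / x)
  rw [one_mul] at hz
  have h1 : ∀ y, y ^ 2 + x * y = x ^ 3 + a * x ↔ y = x * z ∨ y = x * z + x := by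
    intro y
    rw [← sub_eq_zero (a := y), ← sub_eq_zero (a := y), ← mul_eq_zero, ← sub_eq_zero]
    have : x ^ 3 + a * x = x ^ 2 * (z ^ 2 + z) := by rw [hz]; field_simp
    rw [this, show y ^ 2 + x * y - x ^ 2 * (z ^ 2 + z) = (y - x * z) * (y - (x * z + x)) by
      linear_combination (x * y + x * y * z - x ^ 2 * z - x ^ 2 * z ^ 2) * two0]
  rw [← hz, ps, tr_as]
  split_ifs with h
  · have hz' : z ∈ FF m := mem_FF.2 (by linear_combination h - z * two0)
    have : (Fs m).filter (fun y => y ^ 2 + x * y = x ^ 3 + a * x) = {x * z, x * z + x} := by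
      ext y
      rw [mem_filter, h1, mem_insert, mem_singleton, mem_Fs hm, and_iff_right_iff_imp]
      rintro (rfl | rfl)
      · exact mul_mem hx hz'
      · exact add_mem (mul_mem hx hz') hx
    rw [this, card_pair (by simpa using h0)]
    rfl
  · rw [filter_eq_empty_iff.2]
    · rfl
    intro y hy e
    have hy := (mem_Fs hm).1 hy
    have hz' : z ∈ FF m := by
      rcases (h1 y).1 e with rfl | rfl
      · simpa [h0] using div_mem hy hx
      · simpa [h0] using div_mem (sub_mem hy hx) hx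
    exact h (by rw [mem_FF.1 hz', CharTwo.add_self_eq_zero])

theorem card_aff (hm : 0 < m) (ha : a ∈ FF m) :
    (Nat.card {p : FF m × FF m // p.2 ^ 2 + p.1 * p.2 = p.1 ^ 3 + ⟨a, ha⟩ * p.1} : ℤ) =
      2 ^ m + Kl m a := by
  have e : {p : FF m × FF m // p.2 ^ 2 + p.1 * p.2 = p.1 ^ 3 + ⟨a, ha⟩ * p.1} ≃
      ((Fs m ×ˢ Fs m).filter fun p => p.2 ^ 2 + p.1 * p.2 = p.1 ^ 3 + a * p.1) :=
    { toFun := fun p => ⟨(p.1.1, p.1.2), mem_filter.2 ⟨mem_product.2
        ⟨(mem_Fs hm).2 p.1.1.2, (mem_Fs hm).2 p.1.2.2⟩, by simpa using congrArg Subtype.val p.2⟩⟩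
      invFun := fun p => ⟨(⟨p.1.1, (mem_Fs hm).1 (mem_product.1 (mem_filter.1 p.2).1).1⟩,
        ⟨p.1.2, (mem_Fs hm).1 (mem_product.1 (mem_filter.1 p.2).1).2⟩),
          Subtype.ext (by simpa using (mem_filter.1 p.2).2)⟩
      left_inv := fun _ => rfl
      right_inv := fun _ => rfl }
  have h1 : ∀ x ∈ (Fs m).erase 0, ((∑ y ∈ Fs m,
      if y ^ 2 + x * y = x ^ 3 + a * x then 1 else 0 : ℕ) : ℤ) = 1 + ps m (x + a / x) :=
    fun x hx => by rw [← card_filter, card_fibre hm hx]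
  rw [Nat.card_congr e, Nat.card_eq_fintype_card, Fintype.card_coe, card_filter, sum_product,
    Nat.cast_sum, ← add_sum_erase _ _ ((mem_Fs hm).2 (zero_mem _)), sum_congr rfl h1,
    sum_add_distrib, ← Kl, sum_const, nsmul_eq_mul, card_erase_Fs hm,
    sum_eq_single 0 (fun y _ hy => by simp [hy]) fun h => absurd ((mem_Fs hm).2 (zero_mem _)) h]
  simp
  ring

end Pool.Agent.MP_536a45_ag.Tr

end

section

/-!
# The pencils attached to the curves `y ^ 2 + x y = x ^ 3 + a x`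
-/

namespace Pool.Agent.MP_536a45_ag.Tr

open Ell hiding Mv dt par_b par_w eq_zero_of_dt exists_ker Mv_smul Mv_zero ker_zero ker_one ker_two
  card_fib card_cone LL LL_inj card_Z dt_LL CC AA Aop_apply Aop_iff h1_AA Mv_coe Zc_eq

section Lin

variable {K : Type} [Field K] {a : K}

/-- `M(b) w = 0` for the matrix `[[x, y, 0], [x + y, a z, x], [0, x, z]]`, `b = (x, y, z)`. -/
def Mv (a : K) (b w : Fin 3 → K) : Prop :=
  b 0 * w 0 + b 1 * w 1 = 0 ∧ (b 0 + b 1) * w 0 + a * b 2 * w 1 + b 0 * w 2 = 0 ∧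
    b 0 * w 1 + b 2 * w 2 = 0

/-- The determinant of `M(b)`. -/
def dt (a : K) (b : Fin 3 → K) : K := a * b 0 * b 2 ^ 2 - b 0 ^ 3 - b 0 * b 1 * b 2 - b 1 ^ 2 * b 2

lemma par_b {b b' w : Fin 3 → K} (h : Mv a b w) (h' : Mv a b' w) (hw : w ≠ 0) : Par b b' := by
  obtain ⟨h0, h1, h2⟩ := h
  obtain ⟨k0, k1, k2⟩ := h'
  by_contra hp
  have e1 := (perp (r := ![w 0, w 1, 0]) (s := ![w 1, 0, w 2]) (u := b) (v := b')
    (by simp; linear_combination h0) (by simp; linear_combination k0)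
    (by simp; linear_combination h2) (by simp; linear_combination k2)).resolve_right hp
  have e2 := (perp (r := ![w 0, w 1, 0]) (s := ![w 0 + w 2, w 0, a * w 1]) (u := b) (v := b')
    (by simp; linear_combination h0) (by simp; linear_combination k0)
    (by simp; linear_combination h1) (by simp; linear_combination k1)).resolve_right hp
  have e3 := (perp (r := ![w 1, 0, w 2]) (s := ![w 0 + w 2, w 0, a * w 1]) (u := b) (v := b')
    (by simp; linear_combination h2) (by simp; linear_combination k2)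
    (by simp; linear_combination h1) (by simp; linear_combination k1)).resolve_right hp
  simp only [Par, Matrix.cons_val_zero, Matrix.cons_val_one, Matrix.cons_val] at e1 e2 e3
  have w1 : w 1 = 0 := by grind
  have w0 : w 0 = 0 := by grind
  have w2 : w 2 = 0 := by grind
  exact hw (vec_zero w0 w1 w2)

lemma par_w (ha : a ≠ 0) {b w w' : Fin 3 → K} (h : Mv a b w) (h' : Mv a b w') (hb : b ≠ 0) : Par w w' := by
  obtain ⟨h0, h1, h2⟩ := h
  obtain ⟨k0, k1, k2⟩ := h'
  by_contra hp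
  have e1 := (perp (r := ![b 0, b 1, 0]) (s := ![0, b 0, b 2]) (u := w) (v := w')
    (by simp; linear_combination h0) (by simp; linear_combination k0)
    (by simp; linear_combination h2) (by simp; linear_combination k2)).resolve_right hp
  have e2 := (perp (r := ![b 0, b 1, 0]) (s := ![b 0 + b 1, a * b 2, b 0]) (u := w) (v := w')
    (by simp; linear_combination h0) (by simp; linear_combination k0)
    (by simp; linear_combination h1) (by simp; linear_combination k1)).resolve_right hp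
  have e3 := (perp (r := ![0, b 0, b 2]) (s := ![b 0 + b 1, a * b 2, b 0]) (u := w) (v := w')
    (by simp; linear_combination h2) (by simp; linear_combination k2)
    (by simp; linear_combination h1) (by simp; linear_combination k1)).resolve_right hp
  simp only [Par, Matrix.cons_val_zero, Matrix.cons_val_one, Matrix.cons_val] at e1 e2 e3
  have w0 : b 0 = 0 := by grind
  have w1 : b 1 = 0 := by grind
  have w2 : b 2 = 0 := by grind
  exact hb (vec_zero w0 w1 w2)

lemma eq_zero_of_dt {b w : Fin 3 → K} (h : Mv a b w) (hd : dt a b ≠ 0) : w = 0 := by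
  obtain ⟨h0, h1, h2⟩ := h
  unfold dt at hd
  refine vec_zero (mul_left_cancel₀ hd ?_) (mul_left_cancel₀ hd ?_) (mul_left_cancel₀ hd ?_)
  · linear_combination (a * b 2 ^ 2 - b 0 ^ 2) * h0 - b 1 * b 2 * h1 + b 0 * b 1 * h2
  · linear_combination -(b 0 + b 1) * b 2 * h0 + b 0 * b 2 * h1 - b 0 ^ 2 * h2
  · linear_combination (b 0 + b 1) * b 0 * h0 - b 0 ^ 2 * h1 +
      (a * b 0 * b 2 - b 1 * (b 0 + b 1)) * h2

lemma exists_ker {b : Fin 3 → K} (hd : dt a b = 0) : ∃ w, w ≠ 0 ∧ Mv a b w := by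
  have : (!![b 0, b 1, 0; b 0 + b 1, a * b 2, b 0; 0, b 0, b 2] :
      Matrix (Fin 3) (Fin 3) K).det = 0 := by
    rw [Matrix.det_fin_three]; simp; unfold dt at hd; linear_combination hd
  obtain ⟨w, hw, h⟩ := Matrix.exists_mulVec_eq_zero_iff.mpr this
  refine ⟨w, hw, ?_, ?_, ?_⟩
  · have := congrFun h 0
    simpa [Matrix.mulVec, dotProduct, Fin.sum_univ_three] using this
  · have := congrFun h 1
    simpa [Matrix.mulVec, dotProduct, Fin.sum_univ_three] using this
  · have := congrFun h 2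
    simpa [Matrix.mulVec, dotProduct, Fin.sum_univ_three] using this

lemma Mv_smul {b w : Fin 3 → K} (h : Mv a b w) (t : K) : Mv a b (t • w) := by
  obtain ⟨h0, h1, h2⟩ := h
  refine ⟨?_, ?_, ?_⟩ <;> simp only [Pi.smul_apply, smul_eq_mul]
  · linear_combination t * h0
  · linear_combination t * h1
  · linear_combination t * h2

lemma Mv_zero (b : Fin 3 → K) : Mv a b 0 := by simp [Mv]

lemma ker_zero [Finite K] : Nat.card {w // Mv a (0 : Fin 3 → K) w} = Nat.card K ^ 3 := by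
  rw [Nat.card_congr (Equiv.subtypeUnivEquiv (fun w => by simp [Mv]))]
  simp [Nat.card_pi]

lemma ker_one {b : Fin 3 → K} (hd : dt a b ≠ 0) : Nat.card {w // Mv a b w} = 1 := by
  rw [Nat.card_eq_one_iff_exists]
  exact ⟨⟨0, Mv_zero b⟩, fun w => Subtype.ext (eq_zero_of_dt w.2 hd)⟩

lemma ker_two (ha : a ≠ 0) {b : Fin 3 → K} (hb : b ≠ 0) (hd : dt a b = 0) :
    Nat.card {w // Mv a b w} = Nat.card K := by
  obtain ⟨w, hw, h⟩ := exists_ker hd
  symm
  refine Nat.card_congr (Equiv.ofBijective (fun t => ⟨t • w, Mv_smul h t⟩) ⟨?_, ?_⟩)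
  · intro s t hst
    exact smul_left_injective K hw (congrArg Subtype.val hst)
  · intro v
    obtain ⟨t, ht⟩ := (par_w ha h v.2 hb).exists_smul hw
    exact ⟨t, Subtype.ext ht.symm⟩

lemma card_fib [Finite K] (b : Fin 3 → K) :
    (Nat.card {W : Fin 9 → Fin 3 → K // W ≠ 0 ∧ ∀ i, Mv a b (W i)} : ℤ) =
      (Nat.card {w // Mv a b w} : ℤ) ^ 9 - 1 := by
  have h1 : Nat.card {W : Fin 9 → Fin 3 → K // ∀ i, Mv a b (W i)} = Nat.card {w // Mv a b w} ^ 9 := by
    rw [Nat.card_congr (Equiv.subtypePiEquivPi (p := fun _ w => Mv a b w))]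
    simp [Nat.card_pi]
  have h2 := Set.ncard_sdiff_singleton_add_one (s := {W : Fin 9 → Fin 3 → K | ∀ i, Mv a b (W i)})
    (a := 0) (fun _ => Mv_zero b)
  have h3 : {W : Fin 9 → Fin 3 → K | ∀ i, Mv a b (W i)} \ {0} = {W | W ≠ 0 ∧ ∀ i, Mv a b (W i)} := by
    ext W; simp [and_comm]
  rw [h3, ← Nat.card_coe_set_eq, ← Nat.card_coe_set_eq] at h2
  have h4 : Nat.card {W : Fin 9 → Fin 3 → K // W ≠ 0 ∧ ∀ i, Mv a b (W i)} + 1 =
    Nat.card {w // Mv a b w} ^ 9 := h2.trans h1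
  have := congrArg (Nat.cast : ℕ → ℤ) h4
  push_cast at this
  linarith

/-- Points of the cone over the cubic. -/
lemma card_cone [Finite K] (h2 : (2 : K) = 0) :
    (Nat.card {b : Fin 3 → K // b ≠ 0 ∧ dt a b = 0} : ℤ) = (Nat.card K - 1) *
      (Nat.card {p : K × K // p.2 ^ 2 + p.1 * p.2 = p.1 ^ 3 + a * p.1} + 1) := by
  classical
  have e : Kˣ × Option {p : K × K // p.2 ^ 2 + p.1 * p.2 = p.1 ^ 3 + a * p.1} ≃
      {b : Fin 3 → K // b ≠ 0 ∧ dt a b = 0} := by
    refine Equiv.ofBijective (fun x => match x with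
      | (t, none) => ⟨![0, t, 0], fun h => t.ne_zero (by simpa using congrFun h 1), by simp [dt]⟩
      | (t, some p) => ⟨![t * p.1.1, t * p.1.2, t], fun h => t.ne_zero (by simpa using congrFun h 2),
          by
            have := p.2
            simp only [dt, Matrix.cons_val_zero, Matrix.cons_val_one, Matrix.cons_val]
            linear_combination (-(t : K) ^ 3) * this - (t : K) ^ 3 * p.1.1 ^ 3 * h2⟩) ⟨?_, ?_⟩
    · rintro ⟨s, _ | p⟩ ⟨t, _ | p'⟩ h <;> simp only [Subtype.mk.injEq] at h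
      · have := congrFun h 1
        simp only [Matrix.cons_val_one, Matrix.cons_val_zero, Units.val_inj] at this
        rw [this]
      · exact absurd (by simpa using (congrFun h 2).symm) t.ne_zero
      · exact absurd (by simpa using (congrFun h 2)) s.ne_zero
      · have a2 : s = t := Units.ext (by simpa using congrFun h 2)
        subst a2
        have a0 : p.1.1 = p'.1.1 := by simpa using congrFun h 0
        have a1 : p.1.2 = p'.1.2 := by simpa using congrFun h 1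
        rw [show p = p' from Subtype.ext (Prod.ext a0 a1)]
    · rintro ⟨b, hb, hd⟩
      unfold dt at hd
      by_cases a2 : b 2 = 0
      · have a0 : b 0 = 0 := by grind
        have a1 : b 1 ≠ 0 := fun a1 => hb (vec_zero a0 a1 a2)
        refine ⟨(Units.mk0 _ a1, none), Subtype.ext ?_⟩
        funext i; fin_cases i <;> simp [a0, a2]
      · refine ⟨(Units.mk0 _ a2, some ⟨(b 0 / b 2, b 1 / b 2), ?_⟩), Subtype.ext ?_⟩
        · field_simp
          linear_combination -hd - b 0 ^ 3 * h2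
        · funext i; fin_cases i <;> simp <;> field_simp
  rw [← Nat.card_congr e, Nat.card_prod, Finite.card_option, Nat.card_units]
  have : 1 ≤ Nat.card K := Nat.card_pos
  push_cast [this]
  rfl

/-- The coordinate change. -/
def LL (om u : K) (c : Fin 3 → K) : Fin 3 → K := ![c 0 + om * c 1 + u * c 2, c 1, c 2]

lemma LL_inj (om u : K) : Function.Injective (LL om u) := by
  intro c d e
  have a0 := congrFun e 0
  have a1 := congrFun e 1
  have a2 := congrFun e 2
  simp only [LL, Matrix.cons_val_zero, Matrix.cons_val_one, Matrix.cons_val] at a0 a1 a2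
  have b0 : c 0 = d 0 := by linear_combination a0 - om * a1 - u * a2
  funext i; fin_cases i <;> assumption

lemma card_Z [Finite K] (h2 : (2 : K) = 0) (ha : a ≠ 0) (om u : K) :
    (Nat.card {p : (Fin 3 → K) × (Fin 9 → Fin 3 → K) //
      p.2 ≠ 0 ∧ ∀ i, Mv a (LL om u p.1) (p.2 i)} : ℤ) = (Nat.card K : ℤ) ^ 27 - 1 + (Nat.card K - 1) *
      (Nat.card {p : K × K // p.2 ^ 2 + p.1 * p.2 = p.1 ^ 3 + a * p.1} + 1) *
        ((Nat.card K : ℤ) ^ 9 - 1) := by
  classical
  have := Fintype.ofFinite K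
  rw [Nat.card_congr (Equiv.subtypeProdEquivSigmaSubtype
    (fun c (W : Fin 9 → Fin 3 → K) => W ≠ 0 ∧ ∀ i, Mv a (LL om u c) (W i))), Nat.card_sigma]
  push_cast
  simp only [card_fib]
  rw [(Finite.injective_iff_bijective.mp (LL_inj om u)).sum_comp
    (fun b => (Nat.card {w // Mv a b w} : ℤ) ^ 9 - 1), ← card_cone h2]
  have key : ∀ b : Fin 3 → K, (Nat.card {w // Mv a b w} : ℤ) ^ 9 - 1 =
      (if b = 0 then (Nat.card K : ℤ) ^ 27 - 1 else 0) +
      (if b ≠ 0 ∧ dt a b = 0 then (Nat.card K : ℤ) ^ 9 - 1 else 0) := by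
    intro b
    by_cases hb : b = 0
    · subst hb
      rw [ker_zero]; simp; ring
    · by_cases hd : dt a b = 0
      · rw [ker_two ha hb hd]; simp [hb, hd]
      · rw [ker_one hd]; simp [hb, hd]
  simp only [key, Finset.sum_add_distrib, Finset.sum_ite_eq', Finset.mem_univ, if_true]
  rw [← Finset.sum_filter, Finset.sum_const, nsmul_eq_mul, Nat.card_eq_fintype_card,
    Nat.card_eq_fintype_card, Fintype.card_subtype]

lemma dt_LL (h2 : (2 : K) = 0) {om u : K} (h : om ^ 2 + om + 1 = 0)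
    (hu : ∀ x y : K, (x = 0 ∨ x = 1) → (y = 0 ∨ y = 1) → dt a (LL om u ![x, y, 1]) ≠ 0)
    {c : Fin 3 → K} (hc : c ≠ 0) (hp : Par (LL om u c) (LL om u fun l => c l ^ 2)) :
    dt a (LL om u c) ≠ 0 := by
  obtain ⟨a0, a1, a2⟩ := hp
  simp only [LL, Matrix.cons_val_zero, Matrix.cons_val_one, Matrix.cons_val] at a0 a1 a2
  have b2 : c 1 * c 2 * (c 1 - c 2) = 0 := by linear_combination -a0
  have b1 : c 0 * c 2 * (c 0 - c 2) = 0 := by linear_combination a1 - om * b2
  have b0 : c 0 * c 1 * (c 0 - c 1) = 0 := by linear_combination -a2 + u * b2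
  intro hd
  by_cases c2 : c 2 = 0
  · have h3 : c 0 + om * c 1 = 0 := by
      refine pow_eq_zero_iff three_ne_zero |>.1 ?_
      simp only [LL, dt, Matrix.cons_val_zero, Matrix.cons_val_one, Matrix.cons_val, c2] at hd
      linear_combination -hd
    have h4 : c 0 = -om * c 1 := by linear_combination h3
    rw [h4] at b0
    have h5 : c 1 = 0 := pow_eq_zero_iff three_ne_zero |>.1 (by
      linear_combination -b0 + c 1 ^ 3 * h)
    exact hc (vec_zero (by rw [h4, h5, mul_zero]) h5 c2)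
  · refine hu (c 0 / c 2) (c 1 / c 2) ?_ ?_ (mul_left_cancel₀ (pow_ne_zero 3 c2) ?_)
    · rw [div_eq_zero_iff, div_eq_one_iff_eq c2]; grind
    · rw [div_eq_zero_iff, div_eq_one_iff_eq c2]; grind
    · simp only [LL, dt, Matrix.cons_val_zero, Matrix.cons_val_one, Matrix.cons_val] at hd ⊢
      field_simp
      linear_combination hd

end Lin

open Polynomial in
lemma exists_shift (a : kk) : ∃ u : kk,
    ∀ x y : kk, (x = 0 ∨ x = 1) → (y = 0 ∨ y = 1) → dt a (LL om u ![x, y, 1]) ≠ 0 := by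
  have h : ∀ x y : kk, {u | dt a (LL om u ![x, y, 1]) = 0}.Finite := by
    intro x y
    have h1 : ((X + C (x + om * y)) ^ 3 + C (y - a) * (X + C (x + om * y)) + C (y ^ 2) :
      kk[X]).Monic := by monicity!
    refine (finite_setOf_isRoot h1.ne_zero).subset fun u hu => ?_
    simp only [LL, dt, Matrix.cons_val_zero, Matrix.cons_val_one, Matrix.cons_val,
      Set.mem_ofPred_eq] at hu
    simp only [Set.mem_ofPred_eq, IsRoot, eval_add, eval_pow, eval_mul, eval_X, eval_C]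
    linear_combination -hu
  obtain ⟨u, hu⟩ := (((h 0 0).union (h 0 1)).union ((h 1 0).union (h 1 1))).exists_notMem
  simp only [Set.mem_union, Set.mem_ofPred_eq, not_or] at hu
  refine ⟨u, ?_⟩
  rintro x y (rfl | rfl) (rfl | rfl)
  exacts [hu.1.1, hu.1.2, hu.2.1, hu.2.2]

/-- The three coefficient matrices. -/
noncomputable def CC (a u : kk) : Fin 3 → Matrix (Fin 3) (Fin 3) kk :=
  ![!![1, 0, 0; 1, 0, 1; 0, 1, 0], !![om, 1, 0; om + 1, 0, om; 0, om, 0],
    !![u, 0, 0; u, a, u; 0, u, 1]]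

/-- The pencil. -/
noncomputable def AA (a u : kk) (l : Fin 3) : Matrix (Fin 27) (Fin 27) kk := fun i j =>
  if (ee.symm j).1 = (ee.symm i).1 then CC a u l (ee.symm i).2 (ee.symm j).2 else 0

variable {a u : kk}

lemma Aop_apply (c : Fin 3 → kk) (w : Fin 27 → kk) (i : Fin 9) (r : Fin 3) :
    Aop (AA a u) c w (ee (i, r)) = ∑ l, ∑ s, CC a u l r s * (c l * w (ee (i, s))) := by
  unfold Aop
  refine Finset.sum_congr rfl fun l _ => ?_
  rw [← ee.sum_comp, Fintype.sum_prod_type, Finset.sum_eq_single i]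
  · simp [AA]
  · intro b _ hb
    simp [AA, hb]
  · simp

lemma Aop_iff (c : Fin 3 → kk) (w : Fin 27 → kk) :
    Aop (AA a u) c w = 0 ↔ ∀ i, Mv a (LL om u c) fun s => w (ee (i, s)) := by
  rw [funext_iff, ← ee.forall_congr_right, Prod.forall]
  refine forall_congr' fun i => ?_
  simp only [Aop_apply, Fin.forall_fin_succ, Fin.sum_univ_three, Mv, LL, CC]
  simp
  refine and_congr ?_ (and_congr ?_ ?_) <;> constructor <;> intro h <;> linear_combination h

lemma h1_AA
    (hu : ∀ x y : kk, (x = 0 ∨ x = 1) → (y = 0 ∨ y = 1) → dt a (LL om u ![x, y, 1]) ≠ 0) :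
    H1 (AA a u) := by
  intro c w hc h h'
  rw [Aop_iff] at h h'
  funext i
  obtain ⟨⟨j, s⟩, rfl⟩ := ee.surjective i
  by_contra hw
  have hw' : (fun s => w (ee (j, s))) ≠ 0 := fun e => hw (congrFun e s)
  exact hw' (eq_zero_of_dt (h j) (dt_LL two0 om_eq hu hc (par_b (h j) (h' j) hw')))

lemma Mv_coe {m : ℕ} (ha : a ∈ FF m) (h : om ∈ FF m) (hu : u ∈ FF m) (c w : Fin 3 → FF m) :
    Mv ⟨a, ha⟩ (LL ⟨om, h⟩ ⟨u, hu⟩ c) w ↔
      Mv a (LL om u fun l => (c l : kk)) fun s => (w s : kk) := by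
  simp only [Mv, LL, Matrix.cons_val_zero, Matrix.cons_val_one, Matrix.cons_val, Subtype.ext_iff]
  simp

lemma Zc_eq {m : ℕ} (hm : 0 < m) (ha0 : a ≠ 0) (ha : a ∈ FF m) (hom : om ∈ FF m)
    (hu : u ∈ FF m) : (Zc (AA a u) m : ℤ) = (2 ^ m) ^ 27 - 1 +
      (2 ^ m - 1) * (2 ^ m + Kl m a + 1) * ((2 ^ m) ^ 9 - 1) := by
  have := finite_FF hm
  have key := card_Z (K := FF m) (a := ⟨a, ha⟩) (Subtype.ext two0)
    (fun h => ha0 (congrArg Subtype.val h)) ⟨om, hom⟩ ⟨u, hu⟩
  rw [card_aff hm ha, card_FF hm] at key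
  push_cast at key
  rw [← key, Zc, ← Nat.card_coe_set_eq]
  congr 1
  symm
  refine Nat.card_congr (Equiv.ofBijective (fun p => ⟨(fun l => p.1.1 l,
    fun i => p.1.2 (ee.symm i).1 (ee.symm i).2), funext fun l => (p.1.1 l).2,
    funext fun i => (p.1.2 _ _).2, fun h => p.2.1 ?_, ?_⟩) ⟨?_, ?_⟩)
  · funext a s
    exact Subtype.ext (by simpa using congrFun h (ee (a, s)))
  · rw [Aop_iff]
    intro i
    simpa using (Mv_coe ha hom hu _ _).mp (p.2.2 i)
  · intro p p' h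
    simp only [Subtype.mk.injEq, Prod.mk.injEq] at h
    refine Subtype.ext (Prod.ext (funext fun l => Subtype.ext (congrFun h.1 l)) ?_)
    funext a s
    exact Subtype.ext (by simpa using congrFun h.2 (ee (a, s)))
  · rintro ⟨p, h1, h2, h3, h4⟩
    refine ⟨⟨(fun l => ⟨p.1 l, congrFun h1 l⟩, fun a s => ⟨p.2 (ee (a, s)), congrFun h2 _⟩),
      fun h => h3 ?_, fun i => (Mv_coe ha hom hu _ _).mpr ((Aop_iff _ _).mp h4 i)⟩, ?_⟩
    · funext i
      simpa using congrArg Subtype.val (congrFun (congrFun h (ee.symm i).1) (ee.symm i).2)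
    · simp

end Pool.Agent.MP_536a45_ag.Tr

end
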