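import Mathlib
import Pool.Agent.MP_536a45_ag.Cls

set_option linter.all false

section

open Module

namespace Pool.Agent.MP_536a45_ag

open PowerSeries

/-- A surjection with kernel `N` identifies the quotient by `N` with the target. -/
theorem detDim_equiv {k R M V : Type} [Field k] [CommRing R] [Algebra k R] [AddCommGroup M]
    [Module k M] [Module R M] [IsScalarTower k R M] [AddCommGroup V] [Module k V]
    (N : Submodule R M) (f : M →ₗ[k] V) (hf : Function.Surjective f)
    (hker : ∀ x, f x = 0 ↔ x ∈ N) : Nonempty ((M ⧸ N) ≃ₗ[k] V) := by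
  have h : N.restrictScalars k = LinearMap.ker f := by
    ext x; simp [hker]
  exact ⟨(Submodule.Quotient.restrictScalarsEquiv k N).symm.trans
    ((Submodule.quotEquivOfEq _ _ h).trans (f.quotKerEquivOfSurjective hf))⟩

theorem detDim_unit {k : Type} [Field k] {x : PowerSeries k} {n : ℕ} (hx : x.order = n) :
    ∃ v : PowerSeries k, IsUnit v ∧ x = X ^ n * v := by
  have h0 : x ≠ 0 := by
    rintro rfl
    simp at hx
  refine ⟨divXPowOrder x, isUnit_divided_by_X_pow_order h0, ?_⟩
  have := X_pow_order_mul_divXPowOrder (f := x)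
  rw [hx] at this
  simpa using this.symm

theorem detDim_cyclic {k : Type} [Field k] {x : PowerSeries k} {n : ℕ} (hx : x.order = n) :
    Nonempty ((PowerSeries k ⧸ Ideal.span ({x} : Set (PowerSeries k))) ≃ₗ[k] (Fin n → k)) := by
  obtain ⟨v, hv, rfl⟩ := detDim_unit hx
  refine detDim_equiv _ (LinearMap.pi fun i : Fin n => coeff (R := k) (i : ℕ)) ?_ ?_
  · intro g
    refine ⟨PowerSeries.mk fun i => if h : i < n then g ⟨i, h⟩ else 0, ?_⟩
    funext i
    simp
  · intro y
    rw [Ideal.mem_span_singleton, hv.mul_right_dvd, X_pow_dvd_iff, funext_iff]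
    exact ⟨fun h i hi => h ⟨i, hi⟩, fun h i => h i i.2⟩

theorem detDim_coker {k : Type} [Field k] {σ : Type} [Fintype σ] [DecidableEq σ]
    (B : Matrix σ σ (PowerSeries k)) (e : ℕ) (he : B.det.order = e) :
    finrank k ((σ → PowerSeries k) ⧸ LinearMap.range (Matrix.toLin' B)) = e := by
  have h0 : B.det ≠ 0 := by
    intro h
    simp [h] at he
  set N := LinearMap.range (Matrix.toLin' B) with hN
  have hinj : Function.Injective (Matrix.toLin' B) := by
    rw [← LinearMap.ker_eq_bot, Matrix.ker_toLin'_eq_bot_iff]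
    exact fun v hv => Matrix.eq_zero_of_mulVec_eq_zero h0 hv
  let e0 : (σ → PowerSeries k) ≃ₗ[PowerSeries k] N := LinearEquiv.ofInjective _ hinj
  have h : finrank (PowerSeries k) N = finrank (PowerSeries k) (σ → PowerSeries k) :=
    e0.symm.finrank_eq
  let b := Pi.basisFun (PowerSeries k) σ
  let a := Submodule.smithNormalFormCoeffs b h
  let b' := Submodule.smithNormalFormTopBasis b h
  let ab := Submodule.smithNormalFormBotBasis b h
  have ab_eq := Submodule.smithNormalFormBotBasis_def b h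
  let e' : (σ → PowerSeries k) ≃ₗ[PowerSeries k] N := b'.equiv ab (Equiv.refl _)
  let f := N.subtype.comp (e' : (σ → PowerSeries k) →ₗ[PowerSeries k] N)
  have ha : ∀ i, f (b' i) = a i • b' i := by
    intro i
    change ((b'.equiv ab (Equiv.refl _) (b' i) : N) : σ → PowerSeries k) = _
    rw [b'.equiv_apply, Equiv.refl_apply]
    exact ab_eq i
  have hf : LinearMap.det f = ∏ i, a i := by
    rw [← LinearMap.det_toMatrix b', ← Matrix.det_diagonal]
    congr 1
    ext i j : 2
    rw [LinearMap.toMatrix_apply, ha, map_smul, Basis.repr_self, Finsupp.smul_single,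
      smul_eq_mul, mul_one]
    by_cases h : i = j
    · rw [h, Matrix.diagonal_apply_eq, Finsupp.single_eq_same]
    · rw [Matrix.diagonal_apply_ne _ h, Finsupp.single_eq_of_ne h]
  have hass : Associated B.det (∏ i, a i) := by
    rw [← hf, ← LinearMap.det_toLin']
    exact LinearMap.associated_det_comp_equiv N.subtype e0 e'
  have hord : ∑ i, (a i).order = e := by
    obtain ⟨v, hv⟩ := hass
    rw [← order_prod, ← hv, order_mul, he, order_zero_of_unit v.isUnit, add_zero]
  have hfin : ∀ i, (a i).order = ((a i).order.toNat : ℕ) := fun i =>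
    (coe_toNat_order (Submodule.smithNormalFormCoeffs_ne_zero b h i)).symm
  have eq := fun i => (detDim_cyclic (hfin i)).some
  have := fun i => Module.Finite.equiv (eq i).symm
  rw [Submodule.finrank_quotient_eq_sum k b h]
  have h2 : ∀ i, finrank k (PowerSeries k ⧸ Ideal.span ({a i} : Set (PowerSeries k))) =
      (a i).order.toNat := fun i => by rw [(eq i).finrank_eq]; simp
  rw [Finset.sum_congr rfl fun i _ => h2 i]
  rw [Finset.sum_congr rfl fun i _ => hfin i] at hord
  exact_mod_cast hord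

theorem finrank_ker_trunc {k : Type} [Field k] {σ : Type} [Fintype σ] [DecidableEq σ]
    (B : Matrix σ σ (PowerSeries k)) (e a n' : ℕ) (he : B.det.order = e) (hea : e ≤ a)
    (han : a ≤ n') (Y : Submodule k (σ × Fin n' → k))
    (hY : ∀ δ, δ ∈ Y ↔ ∀ i, (a : ℕ∞) ≤
      (B.mulVec (fun m => ∑ t : Fin n', PowerSeries.monomial (t : ℕ) (δ (m, t))) i).order) :
    finrank k Y = Fintype.card σ * (n' - a) + e := by
  let τ : (σ → PowerSeries k) →ₗ[k] (σ × Fin a → k) :=
    LinearMap.pi fun p => (coeff (R := k) (p.2 : ℕ)).comp (LinearMap.proj p.1)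
  have hτ : ∀ v, τ v = 0 ↔ ∀ i, X ^ a ∣ v i := by
    intro v
    simp only [X_pow_dvd_iff, funext_iff]
    exact ⟨fun h i s hs => h (i, ⟨s, hs⟩), fun h p => h p.1 p.2 p.2.2⟩
  have hτs : Function.Surjective τ := by
    intro g
    refine ⟨fun i => PowerSeries.mk fun s => if h : s < a then g (i, ⟨s, h⟩) else 0, ?_⟩
    funext p
    simp [τ]
  let poly : (σ × Fin n' → k) →ₗ[k] (σ → PowerSeries k) :=
    LinearMap.pi fun m => ∑ t : Fin n', (monomial (t : ℕ)).comp (LinearMap.proj (m, t))
  have hpoly : ∀ δ, poly δ = fun m => ∑ t : Fin n', monomial (t : ℕ) (δ (m, t)) := by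
    intro δ
    funext m
    simp [poly]
  let Bk : (σ → PowerSeries k) →ₗ[k] (σ → PowerSeries k) := (Matrix.toLin' B).restrictScalars k
  let φ := τ ∘ₗ Bk ∘ₗ poly
  have hker : Y = LinearMap.ker φ := by
    ext δ
    rw [hY, LinearMap.mem_ker]
    change _ ↔ τ (B.mulVec (poly δ)) = 0
    rw [hτ, hpoly]
    refine forall_congr' fun i => ?_
    rw [X_pow_dvd_iff]
    exact ⟨fun h s hs => coeff_of_lt_order s (lt_of_lt_of_le (by exact_mod_cast hs) h),
      fun h => nat_le_order _ _ h⟩
  set N := LinearMap.range (Matrix.toLin' B) with hN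
  have hKN : ∀ v, τ v = 0 → v ∈ N := by
    intro v hv
    rw [hτ] at hv
    choose w hw using hv
    obtain ⟨u, hu, hdet⟩ := detDim_unit he
    obtain ⟨u', hu'⟩ := hu.exists_right_inv
    refine ⟨B.adjugate.mulVec fun i => u' * X ^ (a - e) * w i, ?_⟩
    rw [Matrix.toLin'_apply, Matrix.mulVec_mulVec, Matrix.mul_adjugate, Matrix.smul_mulVec,
      Matrix.one_mulVec]
    funext i
    rw [Pi.smul_apply, smul_eq_mul, hdet, hw i]
    obtain ⟨c, rfl⟩ := Nat.exists_eq_add_of_le hea
    rw [Nat.add_sub_cancel_left, pow_add]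
    linear_combination (X ^ e * X ^ c * w i) * hu'
  have hrange : ∀ v, τ v ∈ LinearMap.range φ ↔ v ∈ N := by
    intro v
    constructor
    · rintro ⟨δ, hδ⟩
      have h1 : v - B.mulVec (poly δ) ∈ N := hKN _ (by rw [map_sub, ← hδ]; exact sub_self _)
      have h2 : B.mulVec (poly δ) ∈ N := ⟨poly δ, rfl⟩
      simpa using N.add_mem h1 h2
    · rintro ⟨w, rfl⟩
      refine ⟨fun p => coeff (p.2 : ℕ) (w p.1), ?_⟩
      change τ (B.mulVec (poly _)) = τ (B.mulVec w)
      rw [← sub_eq_zero, ← map_sub, ← Matrix.mulVec_sub, hτ]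
      intro i
      refine Finset.dvd_sum fun j _ => Dvd.dvd.mul_left ?_ _
      rw [X_pow_dvd_iff]
      intro s hs
      have hs' : s < n' := hs.trans_le han
      rw [Pi.sub_apply, map_sub, hpoly, map_sum, Finset.sum_eq_single (⟨s, hs'⟩ : Fin n')]
      · simp
      · intro t _ ht
        rw [coeff_monomial, if_neg]
        exact fun h => ht (Fin.ext h.symm)
      · simp
  obtain ⟨E⟩ := detDim_equiv N ((LinearMap.range φ).mkQ ∘ₗ τ)
    ((Submodule.mkQ_surjective _).comp hτs) (fun v => by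
      rw [← hrange]; simp)
  have h1 := detDim_coker B e he
  rw [← hN, E.finrank_eq] at h1
  have h2 := Submodule.finrank_quotient_add_finrank (LinearMap.range φ)
  have h3 := φ.finrank_range_add_finrank_ker
  rw [← hker] at h3
  rw [h1] at h2
  simp only [finrank_fintype_fun_eq_card, Fintype.card_prod, Fintype.card_fin] at h2 h3
  obtain ⟨c, rfl⟩ := Nat.exists_eq_add_of_le han
  rw [Nat.add_sub_cancel_left]
  rw [mul_add] at h3
  omega

end Pool.Agent.MP_536a45_ag

end

section

/-!
# Piecewise trivial fibrations, chain rule, Taylor lemma, and the key relation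
-/

open MvPolynomial

namespace Pool.Agent.MP_536a45_ag

variable {k : Type} [Field k]

theorem stable_fib {ι ι' σ α : Type} [Finite ι] [Finite ι'] [Fintype σ] [Finite α]
    {A : Set (ι → k)} {B : Set (ι' → k)} (hA : IsConstr A) (hB : IsConstr B) (p : ι → ι')
    (U : α → Set (ι → k)) (hU : ∀ a, IsConstr (U a)) (jm : α → σ → ι')
    (h1 : ∀ z ∈ B, z ∘ p ∈ A) (h2 : ∀ z ∈ A, ∃ a, z ∈ U a)
    (h3 : ∀ a m, ∃ P Q : MvPolynomial (ι ⊕ σ) k, ∀ z ∈ B, z ∘ p ∈ U a →
      eval (Sum.elim (z ∘ p) (z ∘ jm a)) Q ≠ 0 ∧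
      z m = eval (Sum.elim (z ∘ p) (z ∘ jm a)) P / eval (Sum.elim (z ∘ p) (z ∘ jm a)) Q)
    (h4 : ∀ a, ∀ z ∈ A, z ∈ U a → ∀ v : σ → k, ∃ z' ∈ B, z' ∘ p = z ∧ z' ∘ jm a = v) :
    cls B = cls A * cls (Set.univ : Set (Unit → k)) ^ Fintype.card σ := by
  classical
  choose P Q h3 using h3
  have one : ∀ a (W : Set (ι → k)), IsConstr W → W ⊆ U a → cls (B ∩ {z | z ∘ p ∈ W}) =
      cls (A ∩ W) * cls (Set.univ : Set (Unit → k)) ^ Fintype.card σ := by
    intro a W hW hWU
    rw [← cls_univ, ← cls_prod (hA.inter hW) isConstr_univ]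
    have key : ∀ x : ι ⊕ σ → k, x ∘ Sum.inl ∈ A ∩ W →
        ∃ z ∈ B ∩ {z | z ∘ p ∈ W}, Sum.elim (z ∘ p) (z ∘ jm a) = x := by
      intro x hx
      obtain ⟨z, hz, e1, e2⟩ := h4 a _ hx.1 (hWU hx.2) (x ∘ Sum.inr)
      refine ⟨z, ⟨hz, ?_⟩, ?_⟩
      · show z ∘ p ∈ W
        rw [e1]; exact hx.2
      · rw [e1, e2]; exact Sum.elim_comp_inl_inr x
    have inv : ∀ z ∈ B ∩ {z | z ∘ p ∈ W}, (fun m => eval (Sum.elim (z ∘ p) (z ∘ jm a)) (P a m) /
        eval (Sum.elim (z ∘ p) (z ∘ jm a)) (Q a m)) = z := fun z hz =>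
      funext fun m => (h3 a m z hz.1 (hWU hz.2)).2.symm
    have e : ∀ z : ι' → k, z ∘ Sum.elim p (jm a) = Sum.elim (z ∘ p) (z ∘ jm a) := fun z =>
      Sum.comp_elim _ _ _
    refine cls_iso (hB.inter (hW.comp p)) ((hA.inter hW).prod isConstr_univ)
      (fun z => z ∘ Sum.elim p (jm a)) (fun x m => eval x (P a m) / eval x (Q a m))
      (isRegularOn_comp _ _) ⟨P a, Q a, fun x hx m => ⟨?_, rfl⟩⟩ (fun z hz => ?_) (fun x hx => ?_)
      ⟨fun z hz => ?_, fun x hx => ?_⟩
    · obtain ⟨z, hz, rfl⟩ := key x hx.1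
      exact (h3 a m z hz.1 (hWU hz.2)).1
    · exact ⟨⟨h1 z hz.1, hz.2⟩, trivial⟩
    · obtain ⟨z, hz, rfl⟩ := key x hx.1
      simp only [inv z hz]; exact hz
    · simp only [e]; exact inv z hz
    · obtain ⟨z, hz, rfl⟩ := key x hx.1
      simp only [inv z hz, e]
  have all : ∀ (s : Finset α) (W : Set (ι → k)), IsConstr W → (∀ z ∈ A ∩ W, ∃ a ∈ s, z ∈ U a) →
      cls (B ∩ {z | z ∘ p ∈ W}) =
        cls (A ∩ W) * cls (Set.univ : Set (Unit → k)) ^ Fintype.card σ := by
    intro s
    induction s using Finset.induction_on with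
    | empty =>
      intro W _ h
      have e1 : A ∩ W = ∅ := Set.eq_empty_of_forall_notMem fun z hz => by simpa using h z hz
      have e2 : B ∩ {z | z ∘ p ∈ W} = ∅ := Set.eq_empty_of_forall_notMem fun z hz => by
        have : z ∘ p ∈ A ∩ W := ⟨h1 z hz.1, hz.2⟩
        rw [e1] at this; exact this
      rw [e1, e2, cls_empty, cls_empty, zero_mul]
    | insert a s _ ih =>
      intro W hW h
      have e1 : A ∩ W = A ∩ (W ∩ U a) ∪ A ∩ (W \ U a) := by
        rw [← Set.inter_union_distrib_left, Set.inter_union_diff]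
      have e2 : B ∩ {z | z ∘ p ∈ W} =
          B ∩ {z | z ∘ p ∈ W ∩ U a} ∪ B ∩ {z | z ∘ p ∈ W \ U a} := by
        ext z
        simp only [Set.mem_inter_iff, Set.mem_setOf_eq, Set.mem_union, Set.mem_diff]
        tauto
      rw [e1, e2, cls_union (hA.inter (hW.inter (hU a))) (hA.inter (hW.diff (hU a))),
        cls_union (hB.inter ((hW.inter (hU a)).comp p)) (hB.inter ((hW.diff (hU a)).comp p)),
        one a _ (hW.inter (hU a)) Set.inter_subset_right, ih _ (hW.diff (hU a)), add_mul]
      · intro z hz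
        obtain ⟨b, hb, e⟩ := h z ⟨hz.1, hz.2.1⟩
        rcases Finset.mem_insert.1 hb with rfl | hb
        · exact absurd e hz.2.2
        · exact ⟨b, hb, e⟩
      · exact Set.disjoint_left.2 fun z hz hz' => hz'.2.2 hz.2.2
      · exact Set.disjoint_left.2 fun z hz hz' => hz'.2.2 hz.2.2
  haveI := Fintype.ofFinite α
  simpa using all Finset.univ Set.univ isConstr_univ fun z hz => by simpa using h2 z hz.1

theorem stable_chain {τ σ : Type} [Fintype τ] [DecidableEq τ] (g : τ → MvPolynomial σ k) (m : σ)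
    (F : MvPolynomial τ k) :
    pderiv m (aeval g F) = ∑ l, aeval g (pderiv l F) * pderiv m (g l) := by
  induction F using MvPolynomial.induction_on with
  | C a => simp
  | add p q hp hq => simp only [map_add, hp, hq, add_mul, Finset.sum_add_distrib]
  | mul_X p i hp =>
    simp only [map_mul, aeval_X, Derivation.leibniz, smul_eq_mul, hp, pderiv_X, map_add,
      add_mul, Finset.sum_add_distrib, Pi.single_apply, apply_ite (aeval g), map_one, map_zero,
      mul_ite, mul_one, mul_zero, ite_mul, zero_mul, Finset.sum_ite_eq, Finset.mem_univ, if_true,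
      Finset.mul_sum, mul_assoc]

theorem stable_taylor {τ A : Type} [Fintype τ] [DecidableEq τ] [CommRing A] [Algebra k A]
    (al be : MvPolynomial τ k →ₐ[k] A) (u : A) (h : ∀ m, u ∣ be (X m) - al (X m))
    (F : MvPolynomial τ k) :
    u ^ 2 ∣ be F - al F - ∑ m, al (pderiv m F) * (be (X m) - al (X m)) := by
  induction F using MvPolynomial.induction_on with
  | C a => simp [← algebraMap_eq]
  | add p q hp hq =>
    convert dvd_add hp hq using 1
    simp only [map_add, add_mul, Finset.sum_add_distrib]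
    ring
  | mul_X p i hp =>
    have h1 : u ∣ ∑ m, al (pderiv m p) * (be (X m) - al (X m)) :=
      Finset.dvd_sum fun m _ => (h m).mul_left _
    convert dvd_add (hp.mul_right (be (X i))) (pow_two u ▸ mul_dvd_mul h1 (h i)) using 1
    simp only [map_mul, Derivation.leibniz, smul_eq_mul, pderiv_X, map_add,
      add_mul, Finset.sum_add_distrib, Pi.single_apply, apply_ite al, map_one, map_zero,
      mul_ite, mul_one, mul_zero, ite_mul, zero_mul, Finset.sum_ite_eq, Finset.mem_univ, if_true,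
      mul_assoc, ← Finset.mul_sum]
    ring

theorem stable_dvd {τ A : Type} [CommRing A] [Algebra k A]
    (al be : MvPolynomial τ k →ₐ[k] A) (u : A) (h : ∀ m, u ∣ be (X m) - al (X m))
    (F : MvPolynomial τ k) : u ∣ be F - al F := by
  induction F using MvPolynomial.induction_on with
  | C a => simp [← algebraMap_eq]
  | add p q hp hq =>
    convert dvd_add hp hq using 1
    simp only [map_add]
    ring
  | mul_X p i hp =>
    convert dvd_add (hp.mul_right (be (X i))) ((h i).mul_left (al p)) using 1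
    simp only [map_mul]
    ring

theorem stable_key {τ σ : Type} [Fintype τ] [DecidableEq τ] [Fintype σ] [DecidableEq σ]
    (f : τ → MvPolynomial σ k) (H : σ → MvPolynomial τ k) (h : σ → MvPolynomial σ k)
    (hH : ∀ l, aeval f (H l) = h l) (M0 : MvPolynomial σ k) (F : τ → MvPolynomial σ k)
    (hF : ∀ j, aeval h M0 * f j = aeval h (F j)) (D : (σ → τ) → MvPolynomial τ k)
    (hD : ∀ J, aeval f (D J) = jac fun i => f (J i)) (J : σ → τ) (j : τ)
    (hM : aeval h M0 ≠ 0) (hJ : (jac fun i => f (J i)) ≠ 0) :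
    ∃ ρ : MvPolynomial τ k, aeval f ρ = 0 ∧ ∀ m, aeval f (pderiv m ρ) =
      (if j = m then aeval h M0 * jac fun i => f (J i) else 0) -
        ∑ i, if J i = m then aeval h M0 * jac fun i' => f (Function.update J i j i') else 0 := by
  have hc : ∀ q : MvPolynomial σ k, aeval f (aeval H q) = aeval h q := fun q => by
    rw [comp_aeval_apply]; simp only [hH]
  let R : τ → MvPolynomial τ k := fun j => aeval H M0 * X j - aeval H (F j)
  let G : τ → σ → MvPolynomial σ k := fun j l =>
    aeval h (pderiv l (F j)) - f j * aeval h (pderiv l M0)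
  have hR : ∀ j, aeval f (R j) = 0 := fun j => by
    simp only [R, map_sub, map_mul, hc, aeval_X, hF, sub_self]
  have hR' : ∀ j m, aeval f (pderiv m (R j)) =
      (if j = m then aeval h M0 else 0) - ∑ l, G j l * aeval f (pderiv m (H l)) := fun j m => by
    simp only [R, G, map_sub, Derivation.leibniz, smul_eq_mul, stable_chain H, map_add, map_mul,
      map_sum, hc, aeval_X, pderiv_X, Pi.single_apply, apply_ite (aeval f), map_one, map_zero,
      mul_ite, mul_one, mul_zero, sub_mul, Finset.sum_sub_distrib, Finset.mul_sum, mul_assoc]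
    ring
  have hG : ∀ j m, aeval h M0 * pderiv m (f j) = ∑ l, G j l * pderiv m (h l) := fun j m => by
    have := congrArg (pderiv m) (hF j)
    simp only [Derivation.leibniz, smul_eq_mul, stable_chain h] at this
    simp only [G, sub_mul, Finset.sum_sub_distrib, mul_assoc, ← Finset.mul_sum]
    rw [← this]
    ring
  let Df : Matrix σ σ (MvPolynomial σ k) := Matrix.of fun i m => pderiv m (f (J i))
  let Dh : Matrix σ σ (MvPolynomial σ k) := Matrix.of fun l m => pderiv m (h l)
  have hDh : Dh.det ≠ 0 := by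
    intro e
    have e1 : aeval h M0 • Df = Matrix.of (fun i l => G (J i) l) * Dh := by
      ext1 i m
      simp only [Df, Dh, Matrix.smul_apply, Matrix.of_apply, smul_eq_mul, Matrix.mul_apply, hG]
    have e2 := congrArg Matrix.det e1
    rw [Matrix.det_smul, Matrix.det_mul, e, mul_zero] at e2
    exact mul_ne_zero (pow_ne_zero _ hM) hJ e2
  let Cc : σ → MvPolynomial σ k := fun i => jac fun i' => f (Function.update J i j i')
  have hC : ∀ m, ∑ i, Cc i * pderiv m (f (J i)) = (jac fun i => f (J i)) * pderiv m (f j) := by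
    intro m
    have e1 := congrFun (Matrix.mulVec_cramer Df.transpose fun m => pderiv m (f j)) m
    rw [Matrix.det_transpose] at e1
    refine Eq.trans ?_ e1
    simp only [Matrix.mulVec, dotProduct, Matrix.cramer_transpose_apply, Matrix.transpose_apply]
    refine Finset.sum_congr rfl fun i _ => ?_
    rw [mul_comm]
    congr 1
    simp only [Cc, jac]
    congr 1
    ext1 i' m'
    by_cases e : i' = i
    · subst e; simp
    · simp [Df, Matrix.updateRow_ne e, Function.update_of_ne e]
  have hz : (fun l => (jac fun i => f (J i)) * G j l - ∑ i, Cc i * G (J i) l) = 0 := by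
    refine Matrix.eq_zero_of_vecMul_eq_zero hDh ?_
    funext m
    simp only [Matrix.vecMul, dotProduct, Dh, Matrix.of_apply, sub_mul, Finset.sum_sub_distrib,
      Finset.sum_mul, mul_assoc, Pi.zero_apply]
    rw [Finset.sum_comm]
    simp only [← Finset.mul_sum, ← hG]
    simp only [mul_left_comm _ (aeval h M0), ← Finset.mul_sum, hC, sub_self]
  refine ⟨D J * R j - ∑ i, D (Function.update J i j) * R (J i), ?_, fun m => ?_⟩
  · simp only [map_sub, map_mul, map_sum, hR, mul_zero, Finset.sum_const_zero, sub_self]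
  · simp only [map_sub, map_sum, Derivation.leibniz, smul_eq_mul, map_add, map_mul, hR, hR', hD,
      zero_mul, add_zero, mul_sub, Finset.sum_sub_distrib, mul_ite, mul_zero, Finset.mul_sum]
    have e1 : ∑ l, (jac fun i => f (J i)) * (G j l * aeval f (pderiv m (H l))) =
        ∑ i, ∑ l, Cc i * (G (J i) l * aeval f (pderiv m (H l))) := by
      rw [Finset.sum_comm]
      refine Finset.sum_congr rfl fun l _ => ?_
      have := sub_eq_zero.1 (congrFun hz l)
      simp only [← mul_assoc, ← Finset.sum_mul, this]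
    rw [e1]
    simp only [mul_comm (aeval h M0), Cc]
    ring

end Pool.Agent.MP_536a45_ag

end

section

/-!
# Stability of the sets `{ord I = s}` in the Grothendieck ring
-/

open MvPolynomial Filter

namespace Pool.Agent.MP_536a45_ag

section
variable {k : Type} [Field k] {N : ℕ}

/-- The universal truncated arc. -/
noncomputable def stableUni (k : Type) [Field k] (N n : ℕ) :
    MvPolynomial (Fin N) k →ₐ[k] PowerSeries (MvPolynomial (Fin N × Fin (n + 1)) k) :=
  aeval fun j => PowerSeries.mk fun i => if h : i < n + 1 then X (j, ⟨i, h⟩) else 0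

/-- The truncated arc with coefficients `z`. -/
noncomputable def stableArc {n : ℕ} (z : Fin N × Fin (n + 1) → k) :
    MvPolynomial (Fin N) k →ₐ[k] PowerSeries k :=
  (PowerSeries.mapAlgHom (aeval z)).comp (stableUni k N n)

theorem stable_coeff {n : ℕ} (z : Fin N × Fin (n + 1) → k) (F : MvPolynomial (Fin N) k) (i : ℕ) :
    PowerSeries.coeff i (stableArc z F) = eval z (PowerSeries.coeff i (stableUni k N n F)) := by
  simp only [stableArc, AlgHom.comp_apply, PowerSeries.mapAlgHom_apply, PowerSeries.coeff_map]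
  rfl

theorem stable_coeff_X {n : ℕ} (z : Fin N × Fin (n + 1) → k) (j : Fin N) (i : ℕ) :
    PowerSeries.coeff i (stableArc z (X j)) = if h : i < n + 1 then z (j, ⟨i, h⟩) else 0 := by
  rw [stable_coeff, stableUni, aeval_X, PowerSeries.coeff_mk]
  split_ifs <;> simp

theorem stable_constr (n : ℕ) (F : MvPolynomial (Fin N) k) (r : ℕ) :
    IsConstr {z : Fin N × Fin (n + 1) → k | (stableArc z F).order = r} := by
  have := (isConstr_ne (PowerSeries.coeff r (stableUni k N n F))).inter
    (isConstr_zeros fun i : Fin r => PowerSeries.coeff (i : ℕ) (stableUni k N n F))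
  convert this using 1
  ext z
  simp only [Set.mem_setOf_eq, PowerSeries.order_eq_nat, stable_coeff, Set.mem_inter_iff]
  exact and_congr_right fun _ => ⟨fun h i => h i i.2, fun h i hi => h ⟨i, hi⟩⟩

variable {S : Type} [CommRing S] [Algebra k S]

theorem stable_X_dvd (f : Fin N → S) (n : ℕ) (γ : S →ₐ[k] PowerSeries k) (j : Fin N) :
    PowerSeries.X ^ (n + 1) ∣ stableArc (jet f n γ) (X j) - (γ.comp (aeval f)) (X j) := by
  rw [PowerSeries.X_pow_dvd_iff]
  intro i hi
  rw [map_sub, stable_coeff_X, dif_pos hi, AlgHom.comp_apply, aeval_X]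
  exact sub_self _

theorem stable_coeff_jet (f : Fin N → S) (n : ℕ) (γ : S →ₐ[k] PowerSeries k)
    (F : MvPolynomial (Fin N) k) {i : ℕ} (hi : i ≤ n) :
    PowerSeries.coeff i (stableArc (jet f n γ) F) = PowerSeries.coeff i (γ (aeval f F)) := by
  have := PowerSeries.X_pow_dvd_iff.1 (stable_dvd _ _ _ (stable_X_dvd f n γ) F) i (by omega)
  rwa [map_sub, sub_eq_zero] at this

theorem stable_order_jet (f : Fin N → S) (n : ℕ) (γ : S →ₐ[k] PowerSeries k)
    (F : MvPolynomial (Fin N) k) {r : ℕ} (hr : r ≤ n) :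
    (stableArc (jet f n γ) F).order = r ↔ (γ (aeval f F)).order = r := by
  simp only [PowerSeries.order_eq_nat, stable_coeff_jet f n γ F hr]
  refine and_congr_right fun _ => forall₂_congr fun i hi => ?_
  rw [stable_coeff_jet f n γ F (by omega)]

theorem stable_le_order {x : PowerSeries k} {r : ℕ} :
    (r : ℕ∞) ≤ x.order ↔ PowerSeries.X ^ r ∣ x := by
  rw [PowerSeries.X_pow_dvd_iff]
  exact ⟨fun h i hi => PowerSeries.coeff_of_lt_order i (lt_of_lt_of_le (by exact_mod_cast hi) h),
    PowerSeries.nat_le_order _ _⟩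

theorem stable_arcOrd {α : Type} (g : α → S) (γ : S →ₐ[k] PowerSeries k) :
    arcOrd (Ideal.span (Set.range g)) γ = ⨅ a, (γ (g a)).order := by
  refine le_antisymm (le_iInf fun a => iInf₂_le (g a) (Ideal.subset_span (Set.mem_range_self a)))
    (le_iInf₂ fun x hx => ?_)
  induction hx using Submodule.span_induction with
  | mem x hx => obtain ⟨a, rfl⟩ := hx; exact iInf_le _ a
  | zero => simp
  | add x y _ _ hx hy =>
    rw [map_add]
    exact (le_min hx hy).trans (PowerSeries.min_order_le_order_add _ _)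
  | smul a x _ hx =>
    rw [smul_eq_mul, map_mul]
    exact (hx.trans le_add_self).trans (PowerSeries.le_order_mul _ _)

theorem stable_arcOrd_iff {α : Type} (g : α → S) (γ : S →ₐ[k] PowerSeries k) (s : ℕ) :
    arcOrd (Ideal.span (Set.range g)) γ = s ↔
      (∀ a, (s : ℕ∞) ≤ (γ (g a)).order) ∧ ∃ a, (γ (g a)).order = s := by
  rw [stable_arcOrd]
  refine ⟨fun h => ⟨fun a => h ▸ iInf_le _ a, ?_⟩, fun ⟨h1, a, h2⟩ =>
    le_antisymm (h2 ▸ iInf_le _ a) (le_iInf h1)⟩
  rcases isEmpty_or_nonempty α with e | e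
  · rw [iInf_of_empty] at h
    exact absurd h (ENat.top_ne_coe _)
  · obtain ⟨a, ha⟩ := ciInf_mem fun a => (γ (g a)).order
    exact ⟨a, ha.trans h⟩

theorem stable_coeff_mul {x y : PowerSeries k} {e n : ℕ} (hx : PowerSeries.X ^ e ∣ x)
    (hy : PowerSeries.X ^ n ∣ y) :
    PowerSeries.coeff (e + n) (x * y) = PowerSeries.coeff e x * PowerSeries.coeff n y := by
  obtain ⟨x, rfl⟩ := hx
  obtain ⟨y, rfl⟩ := hy
  rw [mul_mul_mul_comm, ← pow_add]
  simp [PowerSeries.coeff_X_pow_mul']

theorem stable_next {σ : Type} [Fintype σ] (f : Fin N → S) (n : ℕ) (γ : S →ₐ[k] PowerSeries k)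
    (J : σ → Fin N) (j : Fin N) (ρ P : MvPolynomial (Fin N) k) (Q : σ → MvPolynomial (Fin N) k)
    (h0 : aeval f ρ = 0) (h1 : ∀ m, aeval f (pderiv m ρ) =
      (if j = m then aeval f P else 0) - ∑ i, if J i = m then aeval f (Q i) else 0)
    {e : ℕ} (he : e ≤ n) (hP : PowerSeries.X ^ e ∣ γ (aeval f P))
    (hQ : ∀ i, PowerSeries.X ^ e ∣ γ (aeval f (Q i))) :
    PowerSeries.coeff e (γ (aeval f P)) * PowerSeries.coeff (n + 1) (γ (f j)) =
      ∑ i, PowerSeries.coeff e (γ (aeval f (Q i))) * PowerSeries.coeff (n + 1) (γ (f (J i))) -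
        PowerSeries.coeff (e + (n + 1)) (stableArc (jet f n γ) ρ) := by
  have hd := stable_X_dvd f n γ
  have h2 := stable_taylor _ _ _ hd ρ
  rw [← pow_mul, PowerSeries.X_pow_dvd_iff] at h2
  have h3 := h2 (e + (n + 1)) (by omega)
  have h4 : ∀ m, PowerSeries.coeff (n + 1) (stableArc (jet f n γ) (X m) -
      (γ.comp (aeval f)) (X m)) = - PowerSeries.coeff (n + 1) (γ (f m)) := fun m => by
    rw [map_sub, stable_coeff_X, dif_neg (lt_irrefl _), zero_sub, AlgHom.comp_apply, aeval_X]
  obtain ⟨d, hd'⟩ : ∃ d : Fin N → PowerSeries k, ∀ m,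
    stableArc (jet f n γ) (X m) - (γ.comp (aeval f)) (X m) = d m := ⟨_, fun _ => rfl⟩
  simp only [hd'] at hd h3 h4
  have h5 : ∑ m, (γ.comp (aeval f)) (pderiv m ρ) * d m =
      γ (aeval f P) * d j - ∑ i, γ (aeval f (Q i)) * d (J i) := by
    simp only [AlgHom.comp_apply, h1, map_sub, map_sum, apply_ite γ, map_zero, sub_mul,
      Finset.sum_sub_distrib, Finset.sum_mul, ite_mul, zero_mul, Finset.sum_ite_eq,
      Finset.mem_univ, if_true]
    rw [Finset.sum_comm]
    simp only [Finset.sum_ite_eq, Finset.mem_univ, if_true]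
  rw [h5, AlgHom.comp_apply, h0, map_zero, sub_zero] at h3
  simp only [map_sub, map_sum, stable_coeff_mul hP (hd _), stable_coeff_mul (hQ _) (hd _), h4,
    mul_neg, Finset.sum_neg_distrib] at h3
  linear_combination h3

end

/-- Stability of the sets `{ord I = s}` in the Grothendieck ring. -/
theorem cls_jetSet_succ {k : Type} [Field k] {σ : Type} [Fintype σ] [DecidableEq σ]
    (S : Subalgebra k (MvPolynomial σ k))
    (hjac : ∀ a : σ → S, jac (fun i => (a i : MvPolynomial σ k)) ∈ S)
    {Λ : Type} [Finite Λ] (M : Λ → S) (h : Λ → σ → S)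
    (hM : ∀ l, M l ∈ Algebra.adjoin k (Set.range (h l)))
    (chart : ∀ l (p : S), ∃ a : ℕ, M l ^ a * p ∈ Algebra.adjoin k (Set.range (h l)))
    {N : ℕ} (f : Fin N → S) (hf : Algebra.adjoin k (Set.range f) = ⊤) (I : Ideal S)
    (hI : I = Ideal.span (Set.range fun J : σ → Fin N =>
      (⟨jac fun i => (f (J i) : MvPolynomial σ k), hjac fun i => f (J i)⟩ : S)))
    (s c n₁ : ℕ)
    (cover : ∀ γ : S →ₐ[k] PowerSeries k, arcOrd I γ = s → ∃ l, (γ (M l)).order ≤ c)
    (surj : ∀ n, n₁ ≤ n → ∀ γ : S →ₐ[k] PowerSeries k, arcOrd I γ = s → ∀ J : σ → Fin N,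
      (γ ⟨jac fun i => (f (J i) : MvPolynomial σ k), hjac fun i => f (J i)⟩).order = s →
      ∀ v : σ → k, ∃ γ' : S →ₐ[k] PowerSeries k, jet f n γ' = jet f n γ ∧
        ∀ i, PowerSeries.coeff (n + 1) (γ' (f (J i))) = v i)
    (constr : ∀ n, n₁ ≤ n → IsConstr (jetSet (k := k) f I s n)) :
    ∀ᶠ n in atTop, cls (jetSet (k := k) f I s (n + 1)) =
      cls (jetSet (k := k) f I s n) * cls (Set.univ : Set (Unit → k)) ^ Fintype.card σ := by
  classical
  obtain ⟨Δ, hΔ⟩ : ∃ Δ : (σ → Fin N) → S, Δ = fun J : σ → Fin N =>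
    (⟨jac fun i => (f (J i) : MvPolynomial σ k), hjac fun i => f (J i)⟩ : S) := ⟨_, rfl⟩
  have hΔ' : ∀ J, (Δ J : MvPolynomial σ k) = jac fun i => (f (J i) : MvPolynomial σ k) :=
    fun J => by rw [hΔ]
  replace surj : ∀ n, n₁ ≤ n → ∀ γ : S →ₐ[k] PowerSeries k, arcOrd I γ = s → ∀ J : σ → Fin N,
      (γ (Δ J)).order = s → ∀ v : σ → k, ∃ γ' : S →ₐ[k] PowerSeries k, jet f n γ' = jet f n γ ∧
        ∀ i, PowerSeries.coeff (n + 1) (γ' (f (J i))) = v i := by rw [hΔ]; exact surj
  rw [← hΔ] at hI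
  have lift : ∀ x : S, ∃ F : MvPolynomial (Fin N) k, aeval f F = x := fun x => by
    have : x ∈ Algebra.adjoin k (Set.range f) := by rw [hf]; exact Algebra.mem_top
    rwa [Algebra.adjoin_range_eq_range_aeval] at this
  choose L hL using lift
  have hval : ∀ {τ : Type} (g : τ → S) (F : MvPolynomial τ k),
      aeval (fun j => (g j : MvPolynomial σ k)) F = (aeval g F : S) := fun g F =>
    (comp_aeval_apply g S.val F).symm
  have ha : ∀ l, ∃ a : ℕ, ∀ j, ∃ F, aeval (h l) F = M l ^ a * f j := fun l => by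
    choose a ha using chart l
    refine ⟨∑ j, a (f j), fun j => ?_⟩
    obtain ⟨b, hb⟩ := Nat.exists_eq_add_of_le' (Finset.single_le_sum (f := fun j => a (f j))
      (fun _ _ => Nat.zero_le _) (Finset.mem_univ j))
    have := mul_mem (pow_mem (hM l) b) (ha (f j))
    rwa [Algebra.adjoin_range_eq_range_aeval, ← mul_assoc, ← pow_add, ← hb] at this
  choose a F hF using ha
  have hρ : ∀ l J j, ∃ ρ : MvPolynomial (Fin N) k, M l ≠ 0 → Δ J ≠ 0 → aeval f ρ = 0 ∧
      ∀ m, aeval f (pderiv m ρ) = (if j = m then aeval f (L (M l ^ a l * Δ J)) else 0) -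
        ∑ i, if J i = m then aeval f (L (M l ^ a l * Δ (Function.update J i j))) else 0 := by
    intro l J j
    by_cases h0 : M l ≠ 0 ∧ Δ J ≠ 0
    · have := hM l
      rw [Algebra.adjoin_range_eq_range_aeval] at this
      obtain ⟨M0, hM0⟩ := this
      have e : aeval (fun j => (h l j : MvPolynomial σ k)) (M0 ^ a l) = (M l ^ a l : S) := by
        rw [hval, map_pow]; exact congrArg (fun x : S => ((x ^ a l : S) : MvPolynomial σ k)) hM0
      obtain ⟨ρ, h1, h2⟩ := stable_key (fun j => (f j : MvPolynomial σ k)) (fun i => L (h l i))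
        (fun i => h l i) (fun i => by rw [hval, hL]) (M0 ^ a l) (F l)
        (fun j => by rw [e, hval, hF]; rfl) (fun J => L (Δ J)) (fun J => by rw [hval, hL, hΔ'])
        J j (by rw [e]; exact fun e => pow_ne_zero _ h0.1 (Subtype.ext e))
        (by rw [← hΔ']; exact fun e => h0.2 (Subtype.ext e))
      refine ⟨ρ, fun _ _ => ⟨Subtype.ext (by rw [← hval]; exact h1), fun m => Subtype.ext ?_⟩⟩
      rw [← hval, h2, e]
      simp only [hL, ← hΔ', AddSubgroupClass.coe_sub, AddSubmonoidClass.coe_finset_sum,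
        apply_ite (fun x : S => (x : MvPolynomial σ k)), MulMemClass.coe_mul, ZeroMemClass.coe_zero]
    · exact ⟨0, fun h1 h2 => absurd ⟨h1, h2⟩ h0⟩
  choose ρ hρ using hρ
  filter_upwards [eventually_ge_atTop n₁, eventually_ge_atTop s, eventually_ge_atTop c,
    eventually_all.2 fun l => eventually_ge_atTop (a l * c + s)] with n hn hs hc hac
  refine stable_fib (α := (σ → Fin N) × Λ × Fin (c + 1)) (constr n hn) (constr (n + 1) (by omega))
    (fun q => (q.1, q.2.castSucc)) (fun b => {z | (stableArc z (L (Δ b.1))).order = s} ∩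
      {z | (stableArc z (L (M b.2.1))).order = (b.2.2 : ℕ)})
    (fun b => (stable_constr _ _ _).inter (stable_constr _ _ _))
    (fun b i => (b.1 i, Fin.last _)) ?_ ?_ ?_ ?_
  · rintro _ ⟨γ, hγ, rfl⟩
    exact ⟨γ, hγ, rfl⟩
  · rintro _ ⟨γ, hγ, rfl⟩
    obtain ⟨l, hl⟩ := cover γ hγ
    obtain ⟨r, hr, hr'⟩ := ENat.le_coe_iff.1 hl
    obtain ⟨-, J, hJ⟩ := (stable_arcOrd_iff Δ γ s).1 (hI ▸ hγ)
    refine ⟨(J, l, ⟨r, by omega⟩), ?_, ?_⟩
    · exact (stable_order_jet f n γ _ hs).2 (by rw [hL]; exact hJ)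
    · exact (stable_order_jet f n γ _ (by simp only; omega)).2 (by rw [hL]; exact hr)
  · rintro ⟨J, l, r⟩ ⟨j, i⟩
    induction i using Fin.lastCases with
    | cast i => exact ⟨X (Sum.inl (j, i)), 1, fun z _ _ => by simp⟩
    | last =>
      refine ⟨∑ i, rename Sum.inl (PowerSeries.coeff (a l * r + s)
        (stableUni k N n (L (M l ^ a l * Δ (Function.update J i j))))) * X (Sum.inr i) -
        rename Sum.inl (PowerSeries.coeff (a l * r + s + (n + 1)) (stableUni k N n (ρ l J j))),
        rename Sum.inl (PowerSeries.coeff (a l * r + s) (stableUni k N n (L (M l ^ a l * Δ J)))),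
        ?_⟩
      rintro _ ⟨γ, hγ, rfl⟩ ⟨h1, h2⟩
      have hr : (r : ℕ) ≤ c := by omega
      have he : a l * r + s ≤ n := le_trans (by gcongr) (hac l)
      replace h1 : (γ (Δ J)).order = s := hL (Δ J) ▸ (stable_order_jet f n γ _ hs).1 h1
      replace h2 : (γ (M l)).order = (r : ℕ) :=
        hL (M l) ▸ (stable_order_jet f n γ _ (hr.trans hc)).1 h2
      have h3 : ∀ J', (γ (aeval f (L (M l ^ a l * Δ J')))).order =
          (a l * r : ℕ) + (γ (Δ J')).order := fun J' => by
        rw [hL, map_mul, map_pow, PowerSeries.order_mul, PowerSeries.order_pow, h2]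
        simp
      have h4 : ∀ J', PowerSeries.X ^ (a l * r + s) ∣ γ (aeval f (L (M l ^ a l * Δ J'))) :=
        fun J' => stable_le_order.1 (by
          rw [h3, Nat.cast_add]
          exact add_le_add le_rfl (((stable_arcOrd_iff Δ γ s).1 (hI ▸ hγ)).1 J'))
      have h5 : PowerSeries.coeff (a l * r + s) (γ (aeval f (L (M l ^ a l * Δ J)))) ≠ 0 :=
        (PowerSeries.order_eq_nat.1 (by rw [h3, h1, Nat.cast_add])).1
      obtain ⟨h6, h7⟩ := hρ l J j (fun e => by simp [e] at h2) (fun e => by simp [e] at h1)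
      have h8 := stable_next f n γ J j _ _ _ h6 h7 he (h4 _) fun i => h4 _
      have e : ∀ (x : MvPolynomial (Fin N) k) (i : ℕ) (v : σ → k),
          eval (Sum.elim (jet f (n + 1) γ ∘ fun q : Fin N × Fin (n + 1) => (q.1, q.2.castSucc)) v)
          (rename Sum.inl (PowerSeries.coeff i (stableUni k N n x))) =
          PowerSeries.coeff i (stableArc (jet f n γ) x) := fun x i v => by
        rw [eval_rename, stable_coeff]; rfl
      simp only [map_sub, map_sum, map_mul, e, stable_coeff_jet f n γ _ he, eval_X]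
      refine ⟨h5, ?_⟩
      rw [eq_div_iff h5, mul_comm]
      exact h8
  · rintro ⟨J, l, r⟩ _ ⟨γ, hγ, rfl⟩ ⟨h1, -⟩ v
    replace h1 : (γ (Δ J)).order = s := hL (Δ J) ▸ (stable_order_jet f n γ _ hs).1 h1
    obtain ⟨γ', h2, h3⟩ := surj n hn γ hγ J h1 v
    have h4 : ∀ x : S, ∀ i ≤ n, PowerSeries.coeff i (γ' x) = PowerSeries.coeff i (γ x) := by
      intro x i hi
      rw [← hL x, ← stable_coeff_jet f n γ _ hi, ← stable_coeff_jet f n γ' _ hi, h2]
    refine ⟨jet f (n + 1) γ', ⟨γ', ?_, rfl⟩, h2, funext h3⟩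
    show arcOrd I γ' = s
    rw [hI, stable_arcOrd_iff]
    refine ⟨fun J' => PowerSeries.nat_le_order _ _ fun i hi => ?_, J, ?_⟩
    · rw [h4 _ _ (by omega)]
      exact PowerSeries.coeff_of_lt_order i (lt_of_lt_of_le (by exact_mod_cast hi)
        (((stable_arcOrd_iff Δ γ s).1 (hI ▸ hγ)).1 J'))
    · rw [PowerSeries.order_eq_nat] at h1 ⊢
      exact ⟨by rw [h4 _ _ hs]; exact h1.1, fun i hi => by rw [h4 _ _ (by omega)]; exact h1.2 i hi⟩

end Pool.Agent.MP_536a45_ag

end

section

/-!
# Exponential polynomials with independent unimodular bases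
-/

open Filter Topology

namespace Pool.Agent.MP_536a45_ag.Tr

/-- An exponential polynomial with distinct unimodular bases that tends to zero vanishes. -/
theorem exp_zero {κ : Type} (S : Finset κ) (lam : κ → ℂ) (h1 : ∀ e, ‖lam e‖ = 1)
    (hinj : Function.Injective lam) : ∀ c : κ → ℂ,
    Tendsto (fun n : ℕ => ∑ e ∈ S, c e * lam e ^ n) atTop (𝓝 0) → ∀ e ∈ S, c e = 0 := by
  classical
  induction S using Finset.induction_on with
  | empty => simp
  | insert a S ha ih =>
    intro c hc
    have h2 := ((tendsto_add_atTop_iff_nat 1).2 hc).sub (hc.const_mul (lam a))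
    rw [mul_zero, sub_zero] at h2
    have h3 := ih (fun e => c e * (lam e - lam a)) (h2.congr fun n => by
      rw [Finset.sum_insert ha, Finset.sum_insert ha, mul_add, Finset.mul_sum, add_sub_add_comm,
        ← Finset.sum_sub_distrib, show c a * lam a ^ (n + 1) - lam a * (c a * lam a ^ n) = 0 by ring,
        zero_add]
      exact Finset.sum_congr rfl fun e _ => by ring)
    have h4 : ∀ e ∈ S, c e = 0 := fun e he => (mul_eq_zero.1 (h3 e he)).resolve_right
      (sub_ne_zero.2 fun h => ha (hinj h ▸ he))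
    have h5 : Tendsto (fun _ : ℕ => ‖c a‖) atTop (𝓝 ‖(0 : ℂ)‖) := hc.norm.congr fun n => by
      rw [Finset.sum_insert ha, Finset.sum_eq_zero fun e he => by rw [h4 e he, zero_mul], add_zero,
        norm_mul, norm_pow, h1, one_pow, mul_one]
    intro e he
    rcases Finset.mem_insert.1 he with rfl | he
    · simpa using tendsto_const_nhds_iff.1 h5
    · exact h4 e he

variable {ι : Type} [Fintype ι]

/-- The character of `ℤ^ι` attached to a point of the torus. -/
noncomputable def chr (z : ι → ℂ) (hz : ∀ i, z i ≠ 0) : Multiplicative (ι → ℤ) →* ℂ where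
  toFun e := ∏ i, z i ^ e.toAdd i
  map_one' := by simp
  map_mul' e e' := by
    rw [← Finset.prod_mul_distrib]
    exact Finset.prod_congr rfl fun i _ => by rw [toAdd_mul, Pi.add_apply, zpow_add₀ (hz i)]

theorem torus_zero (γ : ι → ℂ) (h1 : ∀ i, ‖γ i‖ = 1)
    (hind : ∀ e : ι → ℤ, ∏ i, γ i ^ e i = 1 → e = 0) (q : MvPolynomial ι ℂ)
    (hq : Tendsto (fun n : ℕ => MvPolynomial.eval (fun i => γ i ^ n + (γ i ^ n)⁻¹) q) atTop
      (𝓝 0)) : q = 0 := by
  classical
  have h0 : ∀ i, γ i ≠ 0 := fun i h => by simpa [h] using h1 i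
  set Q : AddMonoidAlgebra ℂ (ι → ℤ) := MvPolynomial.aeval (fun i =>
    AddMonoidAlgebra.single (Pi.single i (1 : ℤ) : ι → ℤ) (1 : ℂ) +
      AddMonoidAlgebra.single (Pi.single i (-1 : ℤ) : ι → ℤ) (1 : ℂ)) q with hQ
  have key : ∀ (z : ι → ℂ) (hz : ∀ i, z i ≠ 0), MvPolynomial.eval (fun i => z i + (z i)⁻¹) q =
      ∑ e ∈ Q.coeff.support, Q.coeff e * ∏ i, z i ^ e i := by
    intro z hz
    have e1 := AddMonoidAlgebra.lift_apply (R := ℂ) (chr z hz) Q
    have e2 : ∀ (i : ι) (k : ℤ), chr z hz (Multiplicative.ofAdd (Pi.single i k)) = z i ^ k := by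
      intro i k
      change ∏ j, z j ^ (Pi.single i k : ι → ℤ) j = _
      rw [Finset.prod_eq_single i (fun j _ hj => by simp [hj]) (by simp), Pi.single_eq_same]
    rw [hQ, ← AlgHom.comp_apply, MvPolynomial.comp_aeval, ← hQ] at e1
    simp only [map_add, AddMonoidAlgebra.lift_single, e2, one_smul, zpow_one, zpow_neg_one] at e1
    exact e1
  have hz : ∀ e ∈ Q.coeff.support, Q.coeff e = 0 := by
    refine exp_zero _ (fun e : ι → ℤ => ∏ i, γ i ^ e i) (fun e => by simp [h1]) (fun e e' h => ?_) _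
      (hq.congr fun n => ?_)
    · refine sub_eq_zero.1 (hind _ ?_)
      simp only [Pi.sub_apply, zpow_sub₀ (h0 _), Finset.prod_div_distrib]
      rw [show ∏ i, γ i ^ e i = ∏ i, γ i ^ e' i from h]
      exact div_self (Finset.prod_ne_zero_iff.2 fun i _ => zpow_ne_zero _ (h0 i))
    · rw [key _ fun i => pow_ne_zero n (h0 i)]
      refine Finset.sum_congr rfl fun e _ => ?_
      rw [← Finset.prod_pow]
      congr 1
      exact Finset.prod_congr rfl fun i _ => by
        rw [← zpow_natCast, ← zpow_natCast, ← zpow_mul, ← zpow_mul, mul_comm]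
  refine MvPolynomial.funext fun x => ?_
  have : ∀ i, ∃ z : ℂ, z ≠ 0 ∧ z + z⁻¹ = x i := by
    intro i
    obtain ⟨z, hz⟩ := IsAlgClosed.exists_root
      (Polynomial.C 1 * Polynomial.X ^ 2 + Polynomial.C (-x i) * Polynomial.X + Polynomial.C 1)
      (by rw [Polynomial.degree_quadratic one_ne_zero]; decide)
    simp only [Polynomial.IsRoot, Polynomial.eval_add, Polynomial.eval_mul, Polynomial.eval_C,
      Polynomial.eval_pow, Polynomial.eval_X] at hz
    have h : z ≠ 0 := by rintro rfl; simp at hz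
    exact ⟨z, h, by field_simp; linear_combination hz⟩
  choose z hz0 hzx using this
  rw [← funext hzx, key z hz0, map_zero]
  exact Finset.sum_eq_zero fun e he => by rw [hz e he, zero_mul]

omit [Fintype ι] in
theorem eval_close (x y : ℕ → ι → ℝ) (hy : ∀ n i, |y n i| ≤ 2)
    (h : ∀ i, Tendsto (fun n => x n i - y n i) atTop (𝓝 0)) (q : MvPolynomial ι ℝ) :
    IsBoundedUnder (· ≤ ·) atTop (norm ∘ fun n => MvPolynomial.eval (x n) q) ∧
      Tendsto (fun n => MvPolynomial.eval (x n) q - MvPolynomial.eval (y n) q) atTop (𝓝 0) := by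
  have by' : ∀ i, IsBoundedUnder (· ≤ ·) atTop (norm ∘ fun n => y n i) := fun i =>
    isBoundedUnder_of ⟨2, fun n => hy n i⟩
  have bx : ∀ i, (fun n => x n i) =O[atTop] fun _ => (1 : ℝ) := fun i => by
    have := ((h i).isBigO_one ℝ).add ((Asymptotics.isBigO_one_iff ℝ).2 (by' i))
    simpa using this
  induction q using MvPolynomial.induction_on with
  | C a => exact ⟨isBoundedUnder_of ⟨‖a‖, fun n => by simp⟩, by simp⟩
  | add p q hp hq =>
    refine ⟨(Asymptotics.isBigO_one_iff ℝ).1 ?_, ?_⟩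
    · simpa using ((Asymptotics.isBigO_one_iff ℝ).2 hp.1).add ((Asymptotics.isBigO_one_iff ℝ).2 hq.1)
    · have := hp.2.add hq.2
      rw [add_zero] at this
      exact this.congr fun n => by simp only [map_add]; ring
  | mul_X p i hp =>
    refine ⟨(Asymptotics.isBigO_one_iff ℝ).1 ?_, ?_⟩
    · simpa using ((Asymptotics.isBigO_one_iff ℝ).2 hp.1).mul (bx i)
    · have := (isBoundedUnder_le_mul_tendsto_zero hp.1 (h i)).add
        (hp.2.zero_mul_isBoundedUnder_le (by' i))
      rw [add_zero] at this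
      exact this.congr fun n => by simp only [map_mul, MvPolynomial.eval_X]; ring

omit [Fintype ι] in
theorem top_zero (x : ℕ → ι → ℝ) (u : ℕ → ℝ) (hu : Tendsto u atTop atTop)
    (hb : ∀ q : MvPolynomial ι ℝ,
      IsBoundedUnder (· ≤ ·) atTop (norm ∘ fun n => MvPolynomial.eval (x n) q))
    (R : Polynomial (MvPolynomial ι ℝ))
    (hR : Tendsto (fun n => R.eval₂ (MvPolynomial.eval (x n)) (u n)) atTop (𝓝 0)) :
    Tendsto (fun n => MvPolynomial.eval (x n) R.leadingCoeff) atTop (𝓝 0) := by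
  have hi : Tendsto (fun n => (u n)⁻¹) atTop (𝓝 0) := hu.inv_tendsto_atTop
  have h1 := hR.mul (hi.pow R.natDegree)
  rw [zero_mul] at h1
  have h2 : Tendsto (fun n => ∑ k ∈ Finset.range R.natDegree,
      MvPolynomial.eval (x n) (R.coeff k) * (u n)⁻¹ ^ (R.natDegree - k)) atTop (𝓝 0) := by
    have := tendsto_finsetSum (Finset.range R.natDegree) (a := fun _ => (0 : ℝ))
      (f := fun k n => MvPolynomial.eval (x n) (R.coeff k) * (u n)⁻¹ ^ (R.natDegree - k))
      (x := atTop) fun k hk => isBoundedUnder_le_mul_tendsto_zero (hb _) (by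
        have := hi.pow (R.natDegree - k)
        rwa [zero_pow (by have := Finset.mem_range.1 hk; omega)] at this)
    simpa using this
  have h3 := h1.sub h2
  rw [sub_zero] at h3
  refine h3.congr' ?_
  filter_upwards [hu.eventually_gt_atTop 0] with n hn
  rw [Polynomial.eval₂_eq_sum_range, Finset.sum_range_succ, add_mul, Finset.sum_mul,
    Finset.sum_congr rfl (g := fun k => MvPolynomial.eval (x n) (R.coeff k) *
      (u n)⁻¹ ^ (R.natDegree - k)) fun k hk => ?_, Polynomial.leadingCoeff]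
  · rw [add_sub_cancel_left, mul_assoc, ← mul_pow, mul_inv_cancel₀ hn.ne', one_pow, mul_one]
  · obtain ⟨j, hj⟩ := Nat.exists_eq_add_of_le (Finset.mem_range.1 hk).le
    rw [hj, Nat.add_sub_cancel_left, pow_add, mul_assoc, ← mul_assoc (u n ^ k), ← mul_pow,
      mul_inv_cancel₀ hn.ne', one_pow, one_mul]

/-- The analytic step. -/
theorem ana (γ : ι → ℂ) (h1 : ∀ i, ‖γ i‖ = 1)
    (hind : ∀ e : ι → ℤ, ∏ i, γ i ^ e i = 1 → e = 0) (F G : Polynomial ℝ)
    (hG : ∀ v : ℝ, 1 < v → G.eval v ≠ 0) (u : ℕ → ℝ) (hu : Tendsto u atTop atTop)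
    (W τ : ℕ → ι → ℝ) (hτ : ∀ n i, (τ n i : ℂ) = γ i ^ n + (γ i ^ n)⁻¹)
    (hW : ∀ i, Tendsto (fun n => W n i - τ n i) atTop (𝓝 0)) (P : MvPolynomial (Option ι) ℤ)
    (hP : Tendsto (fun n => MvPolynomial.aeval (fun o : Option ι => o.elim (u n ^ 2)
      fun i => F.eval (u n) - G.eval (u n) * W n i) P) atTop (𝓝 0)) : P = 0 := by
  set R : Polynomial (MvPolynomial ι ℝ) := MvPolynomial.aeval (fun o : Option ι => o.elim
    (Polynomial.X ^ 2) fun i => F.map MvPolynomial.C - G.map MvPolynomial.C *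
      Polynomial.C (MvPolynomial.X i)) P with hR
  have key : ∀ (v : ℝ) (w : ι → ℝ), R.eval₂ (MvPolynomial.eval w) v =
      MvPolynomial.aeval (fun o : Option ι => o.elim (v ^ 2)
        fun i => F.eval v - G.eval v * w i) P := by
    intro v w
    have e : ∀ H : Polynomial ℝ, (H.map MvPolynomial.C).eval₂ (MvPolynomial.eval w) v =
        H.eval v := fun H => by
      rw [Polynomial.eval₂_map, show (MvPolynomial.eval w).comp MvPolynomial.C = RingHom.id ℝ from
        RingHom.ext fun a => by simp]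
      rfl
    have := MvPolynomial.comp_aeval_apply (R := ℤ) (f := fun o : Option ι => o.elim
      (Polynomial.X ^ 2) fun i => F.map MvPolynomial.C - G.map MvPolynomial.C *
        Polynomial.C (MvPolynomial.X i))
      (Polynomial.eval₂RingHom (MvPolynomial.eval w) v).toIntAlgHom P
    refine this.trans (congrArg (fun g => MvPolynomial.aeval g P) (funext fun o => ?_))
    rcases o with _ | i
    · simp
    · simp [e]
  have hτ2 : ∀ n i, |τ n i| ≤ 2 := fun n i => by
    have := norm_add_le (γ i ^ n) (γ i ^ n)⁻¹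
    rw [← hτ, norm_inv, norm_pow, h1, Complex.norm_real] at this
    norm_num at this
    exact this
  have h2 := top_zero W u hu (fun q => (eval_close W τ hτ2 hW q).1) R
    (hP.congr fun n => (key _ _).symm)
  have h3 := h2.sub (eval_close W τ hτ2 hW R.leadingCoeff).2
  simp only [sub_sub_cancel, sub_zero] at h3
  have h4 := torus_zero γ h1 hind (R.leadingCoeff.map Complex.ofRealHom) (by
    have := Complex.continuous_ofReal.tendsto 0 |>.comp h3
    refine this.congr fun n => ?_
    rw [MvPolynomial.eval_map, ← funext (hτ n)]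
    exact (MvPolynomial.eval₂_comp Complex.ofRealHom (τ n) _))
  have h5 : R = 0 := Polynomial.leadingCoeff_eq_zero.1
    (MvPolynomial.map_injective _ Complex.ofReal_injective (by rw [h4, map_zero]))
  refine MvPolynomial.map_injective (algebraMap ℤ ℝ) (algebraMap ℤ ℝ).injective_int ?_
  refine MvPolynomial.funext_set (fun o : Option ι => o.elim (Set.Ioi 1) fun _ => Set.univ)
    (fun o => ?_) fun x hx => ?_
  · rcases o with _ | i
    · exact Set.Ioi_infinite 1
    · exact Set.infinite_univ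
  have hx0 : (1 : ℝ) < x none := hx none trivial
  have hv : 1 < √(x none) := Real.lt_sqrt_of_sq_lt (by simpa using hx0)
  have := key (√(x none)) fun i => (F.eval (√(x none)) - x (some i)) / G.eval (√(x none))
  rw [h5, Polynomial.eval₂_zero] at this
  rw [map_zero, map_zero, MvPolynomial.eval_map, ← MvPolynomial.aeval_def, this]
  congr 2
  funext o
  rcases o with _ | i
  · exact (Real.sq_sqrt (by linarith)).symm
  · have := hG _ hv
    simp only [Option.elim]
    field_simp
    ring

end Pool.Agent.MP_536a45_ag.Tr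

end
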