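import Pool.Agent.Mg.F536a45a.Gad8181
import Pool.Agent.Mg.F536a45a.G3a35f9

set_option linter.all false

section

/-! Lang's lemma for vector groups and a Burnside-type count of twisted points. -/

open Module

namespace Pool.Agent.MP_536a45_ag

theorem exists_coord_compl {k : Type} [Field k] {I : Type} [Fintype I] [DecidableEq I]
    (Y : Submodule k (I → k)) (Z : Finset I) (hZ : ∀ δ ∈ Y, ∀ i ∈ Z, δ i = 0) :
    ∃ C : Finset I, C.card = finrank k Y ∧ Disjoint C Z ∧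
      ∀ v : I → k, ∃! δ, δ ∈ Y ∧ ∀ i ∈ C, δ i = v i := by
  classical
  obtain ⟨C, hC, hmin⟩ := Finset.exists_min_image
    (Finset.univ.filter fun C : Finset I => ∀ δ ∈ Y, (∀ i ∈ C, δ i = 0) → δ = 0) Finset.card
    ⟨Finset.univ, by
      simp only [Finset.mem_filter, Finset.mem_univ, true_and]
      exact fun δ _ h => funext fun i => h i trivial⟩
  simp only [Finset.mem_filter, Finset.mem_univ, true_and] at hC hmin
  have key : ∀ i ∈ C, ∃ δ ∈ Y, δ i = 1 ∧ ∀ j ∈ C, j ≠ i → δ j = 0 := fun i hi => by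
    have : ¬ ∀ δ ∈ Y, (∀ j ∈ C.erase i, δ j = 0) → δ = 0 := fun h => by
      have h1 := hmin _ h
      have h2 := Finset.card_erase_lt_of_mem hi
      omega
    push Not at this
    obtain ⟨δ, h1, h2, h3⟩ := this
    have h4 : δ i ≠ 0 := fun h => h3 (hC δ h1 fun j hj => by
      by_cases e : j = i
      · exact e ▸ h
      · exact h2 j (Finset.mem_erase.2 ⟨e, hj⟩))
    exact ⟨(δ i)⁻¹ • δ, Y.smul_mem _ h1, by simp [h4], fun j hj e => by
      simp [h2 j (Finset.mem_erase.2 ⟨e, hj⟩)]⟩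
  choose! b hb1 hb2 hb3 using key
  have hex : ∀ v : I → k, ∃ δ, δ ∈ Y ∧ ∀ i ∈ C, δ i = v i := fun v =>
    ⟨∑ i ∈ C, v i • b i, Y.sum_mem fun i hi => Y.smul_mem _ (hb1 i hi), fun j hj => by
      rw [Finset.sum_apply, Finset.sum_eq_single j]
      · simp [hb2 j hj]
      · intro i hi e
        simp [hb3 i hi j hj e.symm]
      · exact fun h => absurd hj h⟩
  refine ⟨C, ?_, Finset.disjoint_left.2 fun i hi hz => ?_, fun v => ?_⟩
  · let r : Y →ₗ[k] (C → k) :=
      { toFun := fun δ i => δ.1 i.1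
        map_add' := fun _ _ => rfl
        map_smul' := fun _ _ => rfl }
    have hr : Function.Bijective r := by
      constructor
      · refine (injective_iff_map_eq_zero r).2 fun δ h => Subtype.ext (hC _ δ.2 fun i hi => ?_)
        exact congrFun h ⟨i, hi⟩
      · intro y
        obtain ⟨δ, h1, h2⟩ := hex fun i => if h : i ∈ C then y ⟨i, h⟩ else 0
        exact ⟨⟨δ, h1⟩, funext fun i => (h2 i.1 i.2).trans (dif_pos i.2)⟩
    rw [(LinearEquiv.ofBijective r hr).finrank_eq]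
    simp
  · have := hZ _ (hb1 i hi) i hz
    rw [hb2 i hi] at this
    exact one_ne_zero this
  · obtain ⟨δ, h⟩ := hex v
    refine ⟨δ, h, fun δ' h' => sub_eq_zero.1 (hC _ (Y.sub_mem h'.1 h.1) fun i hi => ?_)⟩
    rw [Pi.sub_apply, h.2 i hi, h'.2 i hi, sub_self]

theorem pairs_roots {m : ℕ} (hm : 0 < m) (c : kk) :
    ∃ R : Finset kk, R.card = 2 ^ m ∧ ∀ y, y ∈ R ↔ y ^ 2 ^ m - y = c := by
  classical
  have hq : 1 < 2 ^ m := Nat.one_lt_two_pow hm.ne'
  let p : Polynomial kk := Polynomial.X ^ 2 ^ m - (Polynomial.X + Polynomial.C c)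
  have hdeg : p.natDegree = 2 ^ m := by
    rw [Polynomial.natDegree_sub_eq_left_of_natDegree_lt] <;>
      simp only [Polynomial.natDegree_X_pow, Polynomial.natDegree_X_add_C, hq]
  have hp : p ≠ 0 := fun h => by
    rw [h, Polynomial.natDegree_zero] at hdeg
    omega
  have hder : Polynomial.derivative p = -1 := by
    have h2 : ((2 ^ m : ℕ) : kk) = 0 := by
      rw [Nat.cast_pow, show ((2 : ℕ) : kk) = 0 from CharP.cast_eq_zero kk 2, zero_pow hm.ne']
    simp only [p, map_sub, map_add, Polynomial.derivative_X_pow, Polynomial.derivative_X,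
      Polynomial.derivative_C, h2, map_zero, zero_mul, add_zero, zero_sub]
  have hsep : p.Separable := by
    rw [Polynomial.separable_def, hder]
    exact isCoprime_one_right.neg_right
  refine ⟨p.roots.toFinset, ?_, fun y => ?_⟩
  · rw [Multiset.toFinset_card_of_nodup (Polynomial.nodup_roots hsep), ← hdeg]
    exact (IsAlgClosed.splits p).natDegree_eq_card_roots.symm
  · rw [Multiset.mem_toFinset, Polynomial.mem_roots hp]
    simp only [p, Polynomial.IsRoot.def, Polynomial.eval_sub, Polynomial.eval_pow,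
      Polynomial.eval_X, Polynomial.eval_add, Polynomial.eval_C]
    constructor <;> intro h <;> linear_combination h

theorem pairs_frob_add (m : ℕ) {ι : Type} (x y : ι → kk) :
    frob m (x + y) = frob m x + frob m y :=
  funext fun i => add_pow_char_pow (x i) (y i) 2 m

theorem pairs_frob_bits (m : ℕ) {c : Fin 3 → kk} (hc : c ∈ bits kk) : frob m c = c := by
  funext l
  change c l ^ 2 ^ m = c l
  induction m with
  | zero => simp
  | succ m ih => rw [pow_succ, pow_mul, ih, hc l]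

theorem pairs_add_self {ι : Type} (x : ι → kk) : x + x = 0 :=
  funext fun _ => CharTwo.add_self_eq_zero _

theorem pairs_exists_tau {m : ℕ} (hm : 0 < m) {ι : Type} (c : ι → kk) :
    ∃ τ : ι → kk, frob m τ = τ + c := by
  have : ∀ l, ∃ y : kk, y ^ 2 ^ m = y + c l := fun l => by
    obtain ⟨R, h1, h2⟩ := pairs_roots hm (c l)
    obtain ⟨y, hy⟩ : R.Nonempty := Finset.card_pos.1 (by rw [h1]; positivity)
    exact ⟨y, by linear_combination (h2 y).1 hy⟩
  choose τ hτ using this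
  exact ⟨τ, funext hτ⟩

theorem pairs_ncard_bits : (bits kk).ncard = 8 := by
  rw [← coe_bitsF, Set.ncard_coe_finset, card_bitsF]

theorem pairs_finite_bits : (bits kk).Finite := by
  rw [← coe_bitsF]; exact Finset.finite_toSet _

variable {I : Type} [Fintype I] {m : ℕ}

theorem finite_fixed (hm : 0 < m) : {x : I → kk | frob m x = x}.Finite := by
  classical
  obtain ⟨R, -, h2⟩ := pairs_roots hm 0
  refine (Fintype.piFinset fun _ : I => R).finite_toSet.subset fun x hx => ?_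
  exact Fintype.mem_piFinset.2 fun i => (h2 _).2 (sub_eq_zero.2 (congrFun hx i))

/-- Lang's theorem for a Frobenius-stable vector group. -/
theorem ncard_frob_sub (hm : 0 < m) (V : Submodule kk (I → kk)) (hV : ∀ v ∈ V, frob m v ∈ V)
    {v₀ : I → kk} (h₀ : v₀ ∈ V) :
    {v | v ∈ V ∧ frob m v - v = v₀}.ncard = (2 ^ m) ^ finrank kk V := by
  classical
  obtain ⟨C, hC, -, hex⟩ := exists_coord_compl V ∅ (by simp)
  choose R hR1 hR2 using pairs_roots hm
  have hcard : (Fintype.piFinset fun i : C => R (v₀ i.1)).card = (2 ^ m) ^ finrank kk V := by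
    simp [Fintype.card_piFinset, hR1, hC]
  rw [← hcard, ← Set.ncard_coe_finset]
  refine Set.ncard_congr (fun v _ => fun i : C => v i.1) (fun v hv => ?_)
    (fun v w hv hw e => ?_) (fun y hy => ?_)
  · exact Fintype.mem_piFinset.2 fun i => (hR2 _ _).2 (congrFun hv.2 i.1)
  · exact (hex v).unique ⟨hv.1, fun _ _ => rfl⟩ ⟨hw.1, fun i hi => (congrFun e ⟨i, hi⟩).symm⟩
  · obtain ⟨δ, ⟨h1, h2⟩, -⟩ := hex fun i => if h : i ∈ C then y ⟨i, h⟩ else 0
    have h3 : ∀ i : C, δ i.1 = y i := fun i => by simpa [i.2] using h2 i.1 i.2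
    refine ⟨δ, ⟨h1, (hex v₀).unique ⟨V.sub_mem (hV δ h1) h1, fun i hi => ?_⟩
      ⟨h₀, fun _ _ => rfl⟩⟩, funext h3⟩
    have := (hR2 _ _).1 (Fintype.mem_piFinset.1 hy ⟨i, hi⟩)
    rw [← h3 ⟨i, hi⟩] at this
    exact this

theorem cnt_coord (hm : 0 < m) (Z : Finset I) :
    cnt m {x : I → kk | ∀ i ∈ Z, x i = 0} = (2 ^ m) ^ (Fintype.card I - Z.card) := by
  classical
  obtain ⟨R, h1, h2⟩ := pairs_roots hm 0
  have hcard : (Fintype.piFinset fun i : I => if i ∈ Z then ({0} : Finset kk) else R).card =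
      (2 ^ m) ^ (Fintype.card I - Z.card) := by
    rw [Fintype.card_piFinset, ← Finset.card_compl, ← Finset.prod_const,
      ← Finset.prod_mul_prod_compl Z, Finset.prod_eq_one fun i hi => by simp [hi], one_mul]
    exact Finset.prod_congr rfl fun i hi => by simp [Finset.mem_compl.1 hi, h1]
  rw [← hcard, ← Set.ncard_coe_finset, cnt]
  congr 1
  ext x
  simp only [Set.mem_ofPred_eq, Finset.mem_coe, Fintype.mem_piFinset]
  constructor
  · rintro ⟨a, b⟩ i
    split_ifs with hi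
    · exact Finset.mem_singleton.2 (a i hi)
    · exact (h2 _).2 (sub_eq_zero.2 (congrFun b i))
  · intro h
    have a : ∀ i ∈ Z, x i = 0 := fun i hi => by simpa [hi] using h i
    refine ⟨a, funext fun i => ?_⟩
    by_cases hi : i ∈ Z
    · simp [frob, a i hi]
    · exact sub_eq_zero.1 ((h2 _).1 (by simpa [hi] using h i))

variable (T : (Fin 3 → kk) → (I → kk) →ₗ[kk] (I → kk))

omit [Fintype I] in
theorem pairs_TT (hT0 : ∀ p, T 0 p = p) (hTadd : ∀ τ τ' p, T (τ + τ') p = T τ (T τ' p))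
    (τ : Fin 3 → kk) (p : I → kk) : T τ (T τ p) = p := by
  rw [← hTadd, pairs_add_self, hT0]

omit [Fintype I] in
theorem pairs_fix_iff (hT0 : ∀ p, T 0 p = p) (hTadd : ∀ τ τ' p, T (τ + τ') p = T τ (T τ' p))
    (hTf : ∀ τ p, frob m (T τ p) = T (frob m τ) (frob m p)) {τ c : Fin 3 → kk}
    (hτ : frob m τ = τ + c) (p : I → kk) :
    frob m (T τ p) = T τ p ↔ frob m p = T c p := by
  rw [hTf, hτ, hTadd]
  constructor
  · intro h
    have := congrArg (fun x => T c (T τ x)) h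
    simpa only [pairs_TT T hT0 hTadd] using this
  · intro h
    rw [h, pairs_TT T hT0 hTadd]

theorem pairs_finite (hm : 0 < m) (hT0 : ∀ p, T 0 p = p)
    (hTadd : ∀ τ τ' p, T (τ + τ') p = T τ (T τ' p))
    (hTf : ∀ τ p, frob m (T τ p) = T (frob m τ) (frob m p)) (P : Set (I → kk)) :
    (pairs T m P).Finite := by
  choose τ hτ using fun c : Fin 3 → kk => pairs_exists_tau hm c
  refine ((pairs_finite_bits.prod (finite_fixed (I := I) hm)).image
    fun cp => (cp.1, T (τ cp.1) cp.2)).subset fun cp h => ?_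
  exact ⟨(cp.1, T (τ cp.1) cp.2), ⟨h.1, (pairs_fix_iff T hT0 hTadd hTf (hτ _) _).2 h.2.2⟩,
    by simp only [pairs_TT T hT0 hTadd]⟩

theorem pairs_twist (hm : 0 < m) (hT0 : ∀ p, T 0 p = p)
    (hTadd : ∀ τ τ' p, T (τ + τ') p = T τ (T τ' p))
    (hTf : ∀ τ p, frob m (T τ p) = T (frob m τ) (frob m p)) (P : Set (I → kk))
    (hP : ∀ τ, ∀ p ∈ P, T τ p ∈ P) : (pairs T m P).ncard = 8 * cnt m P := by
  choose τ hτ using fun c : Fin 3 → kk => pairs_exists_tau hm c
  rw [← pairs_ncard_bits, cnt, ← Set.ncard_prod]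
  refine Set.ncard_congr (fun cp _ => (cp.1, T (τ cp.1) cp.2)) (fun cp h => ?_)
    (fun cp cq _ _ e => ?_) (fun cp h => ?_)
  · exact ⟨h.1, hP _ _ h.2.1, (pairs_fix_iff T hT0 hTadd hTf (hτ _) _).2 h.2.2⟩
  · obtain ⟨e1, e2⟩ := Prod.mk.inj e
    refine Prod.ext e1 ?_
    rw [← e1] at e2
    rw [← pairs_TT T hT0 hTadd (τ cp.1) cp.2, e2, pairs_TT T hT0 hTadd]
  · refine ⟨(cp.1, T (τ cp.1) cp.2), ⟨h.1, hP _ _ h.2.1, ?_⟩,
      by simp only [pairs_TT T hT0 hTadd]⟩
    refine (pairs_fix_iff T hT0 hTadd hTf (hτ cp.1) _).1 ?_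
    simp only [pairs_TT T hT0 hTadd]
    exact h.2.2

theorem pairs_fibre (hm : 0 < m) (hT0 : ∀ p, T 0 p = p)
    (hTadd : ∀ τ τ' p, T (τ + τ') p = T τ (T τ' p))
    (hTf : ∀ τ p, frob m (T τ p) = T (frob m τ) (frob m p)) (P : Set (I → kk))
    {ι : Type} (π : (I → kk) → (ι → kk)) (U : Submodule kk (I → kk)) (D : ℕ)
    (hPf : ∀ p ∈ P, frob m p ∈ P) (hPT : ∀ c ∈ bits kk, ∀ p ∈ P, T c p ∈ P)
    (hπf : ∀ p ∈ P, π (frob m p) = frob m (π p))
    (hπT : ∀ c ∈ bits kk, ∀ p ∈ P, π (T c p) = π p)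
    (hUf : ∀ δ ∈ U, frob m δ ∈ U) (hUT : ∀ τ, ∀ δ ∈ U, T τ δ ∈ U)
    (F1 : ∀ p ∈ P, ∀ p' ∈ P, π p = π p' → ∃ c ∈ bits kk, T c p' - p ∈ U)
    (F2 : ∀ p ∈ P, ∃ Y : Submodule kk (I → kk), finrank kk Y = D ∧
      ∀ δ, δ ∈ Y ↔ δ ∈ U ∧ p + δ ∈ P ∧ π (p + δ) = π p)
    (F3 : ∀ p ∈ P, ∀ c ∈ bits kk, T c p - p ∈ U → c = 0)
    {p₀ : I → kk} (hp₀ : p₀ ∈ P) (hz : frob m (π p₀) = π p₀) :
    {cp | cp ∈ pairs T m P ∧ π cp.2 = π p₀}.ncard = 8 * (2 ^ m) ^ D := by
  have TT := pairs_TT T hT0 hTadd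
  have Tc : ∀ c c' p, T c (T c' p) = T c' (T c p) := fun c c' p => by
    rw [← hTadd, add_comm, hTadd]
  obtain ⟨c₀, hc₀, hd₀⟩ := F1 p₀ hp₀ _ (hPf p₀ hp₀) (by rw [hπf p₀ hp₀, hz])
  obtain ⟨Y, hD, hY⟩ := F2 p₀ hp₀
  obtain ⟨τ, hτ⟩ := pairs_exists_tau hm c₀
  have hψ : ∀ δ ∈ Y, T c₀ (frob m (p₀ + δ)) - p₀ ∈ Y := fun δ hδ => by
    obtain ⟨h1, h2, h3⟩ := (hY δ).1 hδ
    refine (hY _).2 ⟨?_, ?_, ?_⟩
    · rw [pairs_frob_add, map_add, add_sub_right_comm]
      exact U.add_mem hd₀ (hUT _ _ (hUf _ h1))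
    · rw [add_sub_cancel]
      exact hPT _ hc₀ _ (hPf _ h2)
    · rw [add_sub_cancel, hπT _ hc₀ _ (hPf _ h2), hπf _ h2, h3, hz]
  have hd : T c₀ (frob m p₀) - p₀ ∈ Y := by simpa using hψ 0 Y.zero_mem
  have hψ' : ∀ δ ∈ Y, T c₀ (frob m δ) ∈ Y := fun δ hδ => by
    have := Y.sub_mem (hψ δ hδ) hd
    rwa [pairs_frob_add, map_add, sub_sub_sub_cancel_right, add_sub_cancel_left] at this
  have hinj : Function.Injective (T τ) := Function.LeftInverse.injective (TT τ)
  have hS : {δ | δ ∈ Y ∧ frob m (p₀ + δ) = T c₀ (p₀ + δ)}.ncard = (2 ^ m) ^ D := by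
    have hV : ∀ v ∈ Y.map (T τ), frob m v ∈ Y.map (T τ) := by
      rintro _ ⟨δ, hδ, rfl⟩
      exact ⟨_, hψ' δ hδ, by rw [hTf, hτ, hTadd]⟩
    have h₀ : T τ (-(T c₀ (frob m p₀) - p₀)) ∈ Y.map (T τ) := ⟨_, Y.neg_mem hd, rfl⟩
    have hn := ncard_frob_sub hm _ hV h₀
    rw [← (Submodule.equivMapOfInjective _ hinj Y).finrank_eq, hD] at hn
    rw [← hn]
    have hiff : ∀ δ, frob m (T τ δ) - T τ δ = T τ (-(T c₀ (frob m p₀) - p₀)) ↔
        frob m (p₀ + δ) = T c₀ (p₀ + δ) := fun δ => by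
      rw [hTf, hτ, hTadd, ← map_sub, hinj.eq_iff]
      constructor
      · intro h
        have : T c₀ (frob m (p₀ + δ)) = p₀ + δ := by
          rw [pairs_frob_add, map_add]
          linear_combination (exp := 1) h
        have h' := congrArg (T c₀) this
        rwa [TT] at h'
      · intro h
        have := congrArg (T c₀) h
        rw [TT, pairs_frob_add, map_add] at this
        linear_combination (exp := 1) this
    refine Set.ncard_congr (fun δ _ => T τ δ) (fun δ h => ⟨⟨δ, h.1, rfl⟩, (hiff δ).2 h.2⟩)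
      (fun _ _ _ _ e => hinj e) ?_
    rintro _ ⟨⟨δ, hδ, rfl⟩, h⟩
    exact ⟨δ, ⟨hδ, (hiff δ).1 h⟩, rfl⟩
  rw [← hS, ← pairs_ncard_bits, ← Set.ncard_prod]
  symm
  refine Set.ncard_congr (fun cd _ => (c₀, T cd.1 (p₀ + cd.2))) (fun cd h => ?_)
    (fun cd ce h h' e => ?_) (fun cp h => ?_)
  · obtain ⟨h1, h2, h3⟩ := h
    obtain ⟨-, h4, h5⟩ := (hY _).1 h2
    refine ⟨⟨hc₀, hPT _ h1 _ h4, ?_⟩, by simp only [hπT _ h1 _ h4, h5]⟩
    simp only [hTf, pairs_frob_bits m h1, h3]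
    exact Tc _ _ _
  · have e2 := (Prod.mk.inj e).2
    have e3 : T (ce.1 + cd.1) (p₀ + cd.2) = p₀ + ce.2 := by rw [hTadd, e2, TT]
    have e4 := F3 _ ((hY _).1 h.2.1).2.1 _ (add_mem_bits h'.1 h.1) (by
      rw [e3, add_sub_add_left_eq_sub]
      exact U.sub_mem ((hY _).1 h'.2.1).1 ((hY _).1 h.2.1).1)
    rw [e4, hT0] at e3
    refine Prod.ext ?_ (add_left_cancel e3)
    have := pairs_add_self ce.1
    exact add_left_cancel (e4.trans this.symm)
  · obtain ⟨⟨h1, h2, h3⟩, h4⟩ := h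
    obtain ⟨c, hc, hu⟩ := F1 p₀ hp₀ _ h2 h4.symm
    have hδ : T c cp.2 - p₀ ∈ Y := (hY _).2 ⟨hu, by
      rw [add_sub_cancel]; exact hPT _ hc _ h2, by rw [add_sub_cancel, hπT _ hc _ h2, h4]⟩
    have e1 : frob m (T c cp.2) = T cp.1 (T c cp.2) := by
      rw [hTf, pairs_frob_bits m hc, h3, Tc]
    have e2 := F3 _ (hPT _ hc _ h2) _ (add_mem_bits hc₀ h1) (by
      have := U.sub_mem ((hY _).1 (hψ _ hδ)).1 hu
      rwa [add_sub_cancel, sub_sub_sub_cancel_right, e1, ← hTadd] at this)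
    have e3 : cp.1 = c₀ := add_left_cancel (e2.trans (pairs_add_self c₀).symm)
    refine ⟨(c, T c cp.2 - p₀), ⟨hc, hδ, ?_⟩, Prod.ext e3.symm ?_⟩
    · simp only [add_sub_cancel, e1, e3]
    · simp only [add_sub_cancel, TT]

theorem pairs_count (hm : 0 < m) (hT0 : ∀ p, T 0 p = p)
    (hTadd : ∀ τ τ' p, T (τ + τ') p = T τ (T τ' p))
    (hTf : ∀ τ p, frob m (T τ p) = T (frob m τ) (frob m p)) (P : Set (I → kk))
    {ι : Type} [Finite ι] (π : (I → kk) → (ι → kk)) (U : Submodule kk (I → kk)) (D : ℕ)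
    (hPf : ∀ p ∈ P, frob m p ∈ P) (hPT : ∀ c ∈ bits kk, ∀ p ∈ P, T c p ∈ P)
    (hπf : ∀ p ∈ P, π (frob m p) = frob m (π p))
    (hπT : ∀ c ∈ bits kk, ∀ p ∈ P, π (T c p) = π p)
    (hUf : ∀ δ ∈ U, frob m δ ∈ U) (hUT : ∀ τ, ∀ δ ∈ U, T τ δ ∈ U)
    (F1 : ∀ p ∈ P, ∀ p' ∈ P, π p = π p' → ∃ c ∈ bits kk, T c p' - p ∈ U)
    (F2 : ∀ p ∈ P, ∃ Y : Submodule kk (I → kk), finrank kk Y = D ∧
      ∀ δ, δ ∈ Y ↔ δ ∈ U ∧ p + δ ∈ P ∧ π (p + δ) = π p)
    (F3 : ∀ p ∈ P, ∀ c ∈ bits kk, T c p - p ∈ U → c = 0) :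
    (pairs T m P).ncard = cnt m (π '' P) * 8 * (2 ^ m) ^ D := by
  classical
  have := Fintype.ofFinite ι
  have hfin := pairs_finite T hm hT0 hTadd hTf P
  have hZ : {x | x ∈ π '' P ∧ frob m x = x}.Finite := (finite_fixed hm).subset fun _ h => h.2
  rw [cnt, Set.ncard_eq_toFinset_card _ hfin, Set.ncard_eq_toFinset_card _ hZ,
    Finset.card_eq_sum_card_fiberwise (f := fun cp => π cp.2) (t := hZ.toFinset), mul_assoc,
    ← smul_eq_mul, ← Finset.sum_const]
  · refine Finset.sum_congr rfl fun z hz => ?_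
    obtain ⟨⟨p₀, hp₀, rfl⟩, hz'⟩ := hZ.mem_toFinset.1 hz
    rw [← pairs_fibre T hm hT0 hTadd hTf P π U D hPf hPT hπf hπT hUf hUT F1 F2 F3 hp₀ hz',
      ← Set.ncard_coe_finset]
    congr 1
    ext cp
    simp
  · intro cp hcp
    obtain ⟨h1, h2, h3⟩ := hfin.mem_toFinset.1 hcp
    refine hZ.mem_toFinset.2 ⟨⟨_, h2, rfl⟩, ?_⟩
    change frob m (π cp.2) = π cp.2
    rw [← hπf _ h2, h3, hπT _ h1 _ h2]

end Pool.Agent.MP_536a45_ag

end

section

namespace Pool.Agent.MP_536a45_ag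

variable {J u n' m : ℕ}

theorem Tw_zero (A : Fin 3 → Matrix (Fin u) (Fin u) kk) (p : PI J u n' → kk) :
    Tw A 0 p = p := by
  funext a
  rcases a with a | ⟨i | i, t⟩
  · rfl
  · rfl
  · simp [Tw, pt, Aop]

theorem Tw_add (A : Fin 3 → Matrix (Fin u) (Fin u) kk) (τ τ' : Fin 3 → kk) (p : PI J u n' → kk) :
    Tw A (τ + τ') p = Tw A τ (Tw A τ' p) := by
  funext a
  rcases a with a | ⟨i | i, t⟩
  · rfl
  · rfl
  · simp only [Tw, pt, Aop, LinearMap.coe_mk, AddHom.coe_mk, Sum.elim_inr, Sum.elim_inl,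
      Pi.add_apply, add_mul, smul_add, Finset.sum_add_distrib]
    ring

theorem Tw_frob (A : Fin 3 → Matrix (Fin u) (Fin u) kk) (hA : ∀ l i j, A l i j ^ 2 ^ m = A l i j)
    (τ : Fin 3 → kk) (p : PI J u n' → kk) :
    frob m (Tw A τ p) = Tw A (frob m τ) (frob m p) := by
  funext a
  rcases a with a | ⟨i | i, t⟩
  · rfl
  · rfl
  · simp only [Tw, pt, Aop, LinearMap.coe_mk, AddHom.coe_mk, Sum.elim_inr, frob,
      Pi.add_apply, smul_eq_mul, add_pow_char_pow, sum_pow_char_pow, mul_pow, hA]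

theorem est_bco (A : Fin 3 → Matrix (Fin u) (Fin u) kk) (τ : Fin 3 → kk) (p : PI J u n' → kk) :
    bco (Tw A τ p) = bco p := rfl

theorem est_xco (A : Fin 3 → Matrix (Fin u) (Fin u) kk) (τ : Fin 3 → kk) (p : PI J u n' → kk)
    (i : Fin u) : xco (Tw A τ p) (Sum.inl i) = xco p (Sum.inl i) := rfl

theorem est_finite {I : Type} [Fintype I] (hm : 0 < m) (A : Set (I → kk)) :
    {x | x ∈ A ∧ frob m x = x}.Finite :=
  (finite_fixed hm).subset fun _ h => h.2

theorem est_cnt_union {I : Type} [Fintype I] (hm : 0 < m) {A B : Set (I → kk)}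
    (h : Disjoint A B) : cnt m (A ∪ B) = cnt m A + cnt m B := by
  unfold cnt
  rw [← Set.ncard_union_eq _ (est_finite hm A) (est_finite hm B)]
  · congr 1
    ext x
    simp only [Set.mem_ofPred_eq, Set.mem_union]
    tauto
  · exact h.mono (fun _ h => h.1) fun _ h => h.1

theorem est_cnt_extend {I K : Type} [Fintype I] [Fintype K] (hm : 0 < m) (e : K → I)
    (he : Function.Injective e) (Z : Finset I) (hZ : ∀ k, e k ∉ Z) (B : Set (K → kk)) :
    cnt m {x : I → kk | (∀ i ∈ Z, x i = 0) ∧ x ∘ e ∈ B} =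
      cnt m B * (2 ^ m) ^ (Fintype.card I - (Z.card + Fintype.card K)) := by
  classical
  have hd : Disjoint Z (Finset.univ.image e) := by
    rw [Finset.disjoint_right]
    intro i hi
    obtain ⟨k, -, rfl⟩ := Finset.mem_image.1 hi
    exact hZ k
  have hc : Z.card + Fintype.card K = (Z ∪ Finset.univ.image e).card := by
    rw [Finset.card_union_of_disjoint hd, Finset.card_image_of_injective _ he, Finset.card_univ]
  rw [hc, ← cnt_coord hm]
  unfold cnt
  rw [← Set.ncard_prod]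
  symm
  refine Set.ncard_congr (fun p _ => Function.extend e p.1 p.2) ?_ ?_ ?_
  · rintro ⟨b, y⟩ ⟨⟨hb, hb'⟩, hy, hy'⟩
    refine ⟨⟨fun i hi => ?_, ?_⟩, ?_⟩
    · rw [Function.extend_apply' _ _ _ (by rintro ⟨k, rfl⟩; exact hZ k hi)]
      exact hy i (Finset.mem_union_left _ hi)
    · rw [Function.extend_comp he]
      exact hb
    · funext i
      by_cases hi : ∃ k, e k = i
      · obtain ⟨k, rfl⟩ := hi
        simp only [frob, he.extend_apply]
        exact congrFun hb' k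
      · simp only [frob, Function.extend_apply' _ _ _ hi]
        exact congrFun hy' i
  · rintro ⟨b, y⟩ ⟨b', y'⟩ ⟨-, hy, -⟩ ⟨-, hy', -⟩ h
    refine Prod.ext ?_ ?_
    · have := congrArg (· ∘ e) h
      simpa only [Function.extend_comp he] using this
    · funext i
      by_cases hi : ∃ k, e k = i
      · obtain ⟨k, rfl⟩ := hi
        have hk : e k ∈ Z ∪ Finset.univ.image e :=
          Finset.mem_union_right _ (Finset.mem_image_of_mem _ (Finset.mem_univ k))
        exact (hy _ hk).trans (hy' _ hk).symm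
      · have := congrFun h i
        simpa only [Function.extend_apply' _ _ _ hi] using this
  · rintro x ⟨⟨hx, hxB⟩, hx'⟩
    refine ⟨(x ∘ e, fun i => if ∃ k, e k = i then 0 else x i), ⟨⟨hxB, ?_⟩, ?_, ?_⟩, ?_⟩
    · funext k
      exact congrFun hx' (e k)
    · intro i hi
      dsimp only
      split_ifs with h
      · rfl
      · rcases Finset.mem_union.1 hi with hi | hi
        · exact hx i hi
        · obtain ⟨k, -, rfl⟩ := Finset.mem_image.1 hi
          exact absurd ⟨k, rfl⟩ h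
    · funext i
      simp only [frob]
      split_ifs with h
      · simp
      · exact congrFun hx' i
    · funext i
      by_cases hi : ∃ k, e k = i
      · obtain ⟨k, rfl⟩ := hi
        simp only [he.extend_apply, Function.comp]
      · simp only [Function.extend_apply' _ _ _ hi, if_neg hi]

/-- The coordinates `b_j` with `j ≥ a` and `w_t` with `t < r`. -/
def estZ (J u n' a r : ℕ) : Finset (PI J u n') :=
  (Finset.univ ×ˢ Finset.univ.filter fun j : Fin J => ¬ (j : ℕ) < a).disjSum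
    ((Finset.univ.map ⟨Sum.inl, Sum.inl_injective⟩) ×ˢ
      Finset.univ.filter fun t : Fin n' => (t : ℕ) < r)

theorem estZ_card {a r : ℕ} (ha : a ≤ J) (hr : r ≤ n') :
    (estZ J u n' a r).card + 3 * a = 3 * J + u * r := by
  have h := Finset.card_filter_add_card_filter_not (s := (Finset.univ : Finset (Fin J)))
    fun j : Fin J => (j : ℕ) < a
  rw [Fin.card_filter_val_lt, min_eq_right ha, Finset.card_univ, Fintype.card_fin] at h
  simp only [estZ, Finset.card_disjSum, Finset.card_product, Finset.card_univ, Fintype.card_fin,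
    Finset.card_map, Fin.card_filter_val_lt, min_eq_right hr]
  omega

theorem estZ_iff {a r : ℕ} (p : PI J u n' → kk) :
    (∀ i ∈ estZ J u n' a r, p i = 0) ↔
      (∀ l j, a ≤ j → bco p l j = 0) ∧ ∀ i t, t < r → xco p (Sum.inl i) t = 0 := by
  constructor
  · intro h
    refine ⟨fun l j hj => ?_, fun i t ht => ?_⟩
    · unfold bco
      split_ifs with h'
      · exact h _ (by simp [estZ, hj])
      · rfl
    · unfold xco
      split_ifs with h'
      · exact h _ (by simp [estZ, ht])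
      · rfl
  · rintro ⟨h1, h2⟩ (⟨l, j⟩ | ⟨i | i, t⟩) hi
    · have := h1 l j (by simpa [estZ] using hi)
      simpa [bco] using this
    · have := h2 i t (by simpa [estZ] using hi)
      simpa [xco] using this
    · simp [estZ] at hi

theorem est_card : Fintype.card (PI J u n') = 3 * J + 2 * u * n' := by
  simp [two_mul]

theorem est_cnt_box (hm : 0 < m) {r : ℕ} (h1 : 2 * r ≤ J) (h2 : r ≤ n') :
    cnt m (Box J 27 n' r) = (2 ^ m) ^ (54 * n' - 21 * r) := by
  have h : Box J 27 n' r = {p | ∀ i ∈ estZ J 27 n' (2 * r) r, p i = 0} := by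
    ext p
    exact (estZ_iff p).symm
  have hc := estZ_card (u := 27) h1 h2
  rw [h, cnt_coord hm, est_card]
  congr 1
  omega

theorem est_cnt_ne (hm : 0 < m) :
    cnt m {w : Fin u → kk | w ≠ 0} + 1 = (2 ^ m) ^ u := by
  have h1 := cnt_coord (I := Fin u) hm ∅
  have h2 := cnt_coord (I := Fin u) hm Finset.univ
  have h3 := est_cnt_union (I := Fin u) hm (A := {w | w ≠ 0})
    (B := {x | ∀ i ∈ (Finset.univ : Finset (Fin u)), x i = 0})
    (Set.disjoint_left.2 fun w hw hw' => hw (funext fun i => hw' i (Finset.mem_univ i)))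
  rw [h2] at h3
  simp only [Finset.card_univ, Nat.sub_self, pow_zero, Finset.card_empty, Nat.sub_zero,
    Fintype.card_fin] at h1 h3
  rw [← h3, ← h1]
  congr 1
  ext w
  simp only [Set.mem_union, Set.mem_ofPred_eq, Finset.mem_univ, forall_true_left,
    Finset.notMem_empty, false_imp_iff, implies_true, iff_true]
  by_cases h : w = 0
  · exact Or.inr fun i => congrFun h i
  · exact Or.inl h

theorem est_sq_inj {x y : kk} (h : x ^ 2 = y ^ 2) : x = y :=
  frobenius_inj kk 2 h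

theorem est_cnt_Zc (A : Fin 3 → Matrix (Fin u) (Fin u) kk) :
    cnt m {v : Fin 3 ⊕ Fin u → kk | v ∘ Sum.inr ≠ 0 ∧
      ∃ β : Fin 3 → kk, (∀ l, β l ^ 2 = v (Sum.inl l)) ∧ Aop A β (v ∘ Sum.inr) = 0} = Zc A m := by
  unfold cnt Zc
  symm
  refine Set.ncard_congr (fun p _ => Sum.elim (fun l => p.1 l ^ 2) p.2) ?_ ?_ ?_
  · rintro ⟨β, w⟩ ⟨h1, h2, h3, h4⟩
    refine ⟨⟨h3, β, fun l => rfl, h4⟩, ?_⟩
    funext i
    rcases i with l | i
    · change (β l ^ 2) ^ 2 ^ m = β l ^ 2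
      rw [pow_right_comm]
      exact congrArg (· ^ 2) (congrFun h1 l)
    · exact congrFun h2 i
  · rintro ⟨β, w⟩ ⟨β', w'⟩ - - h
    exact Prod.ext (funext fun l => est_sq_inj (congrFun h (Sum.inl l)))
      (funext fun i => congrFun h (Sum.inr i))
  · rintro v ⟨⟨h1, β, h2, h3⟩, h4⟩
    refine ⟨(β, v ∘ Sum.inr), ⟨?_, ?_, h1, h3⟩, ?_⟩
    · funext l
      refine est_sq_inj ?_
      change (β l ^ 2 ^ m) ^ 2 = β l ^ 2
      rw [pow_right_comm, h2]
      exact congrFun h4 (Sum.inl l)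
    · funext i
      exact congrFun h4 (Sum.inr i)
    · funext i
      rcases i with l | i
      · exact h2 l
      · rfl

theorem est_cnt_main (A : Fin 3 → Matrix (Fin 27) (Fin 27) kk) (hm : 0 < m) (hJ : 2 ≤ J)
    (hn : 2 ≤ n') :
    cnt m (MainSet A J n') + (2 ^ m) ^ (54 * n' - 27) =
      (2 ^ m) ^ (54 * n') + Zc A m * (2 ^ m) ^ (54 * n' - 51) := by
  unfold MainSet
  rw [est_cnt_union hm (Set.disjoint_left.2 fun p h h' => h.2 h'.2.1)]
  have a1 := est_cnt_extend (I := PI J 27 n') hm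
    (fun i : Fin 27 => Sum.inr (Sum.inl i, ⟨0, by omega⟩)) (fun i j h => by simpa using h)
    (estZ J 27 n' 0 0) (by simp [estZ]) {w | w ≠ 0}
  have a2 := est_cnt_extend (I := PI J 27 n') hm
    (Sum.elim (fun l : Fin 3 => Sum.inl (l, ⟨1, by omega⟩))
      fun i : Fin 27 => Sum.inr (Sum.inl i, ⟨1, by omega⟩))
    (by rintro (i | i) (j | j) h <;> simp_all)
    (estZ J 27 n' 2 1) (by rintro (i | i) <;> simp [estZ])
    {v | v ∘ Sum.inr ≠ 0 ∧
      ∃ β : Fin 3 → kk, (∀ l, β l ^ 2 = v (Sum.inl l)) ∧ Aop A β (v ∘ Sum.inr) = 0}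
  have c1 := estZ_card (J := J) (u := 27) (n' := n') (Nat.zero_le _) (Nat.zero_le _)
  have c2 := estZ_card (u := 27) hJ (show 1 ≤ n' by omega)
  rw [est_cnt_Zc] at a2
  rw [est_card] at a1 a2
  simp only [Fintype.card_sum, Fintype.card_fin] at a1 a2
  rw [show 3 * J + 2 * 27 * n' - ((estZ J 27 n' 0 0).card + 27) = 54 * n' - 27 by omega] at a1
  rw [show 3 * J + 2 * 27 * n' - ((estZ J 27 n' 2 1).card + (3 + 27)) = 54 * n' - 51 by omega]
    at a2
  have x0 : ∀ (p : PI J 27 n' → kk) (i : Fin 27),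
      xco p (Sum.inl i) 0 = p (Sum.inr (Sum.inl i, ⟨0, by omega⟩)) := fun p i => dif_pos _
  have x1 : ∀ (p : PI J 27 n' → kk) (i : Fin 27),
      xco p (Sum.inl i) 1 = p (Sum.inr (Sum.inl i, ⟨1, by omega⟩)) := fun p i => dif_pos _
  have b1 : ∀ (p : PI J 27 n' → kk) (l : Fin 3),
      bco p l 1 = p (Sum.inl (l, ⟨1, by omega⟩)) := fun p i => dif_pos _
  have e3 := est_cnt_ne (u := 27) hm
  have e4 : (2 ^ m) ^ (54 * n') = (2 ^ m) ^ 27 * (2 ^ m) ^ (54 * n' - 27) := by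
    rw [← pow_add]
    congr 1
    omega
  rw [e4, ← e3, ← a2, add_mul, one_mul, ← a1, add_right_comm]
  congr 3
  · ext p
    simp only [Set.mem_ofPred_eq, estZ_iff, x0]
    simp [Function.comp_def]
  · ext p
    simp only [Set.mem_ofPred_eq, estZ_iff, x1, b1]
    simp [Function.comp_def, funext_iff, and_assoc]

/-- The numerical estimate for the point count of a truncated sum of the stringy motive. -/
theorem estimate (A : Fin 3 → Matrix (Fin 27) (Fin 27) kk) (S n n' m : ℕ) (hm : 0 < m)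
    (hA : ∀ l i j, A l i j ^ 2 ^ m = A l i j) (hS : 2 ≤ S) (hSn : S ≤ n') (hn : n + 1 ≤ n')
    (P : ℕ → Set (PI (2 * S) 27 n' → kk)) (hd : Pairwise fun s s' => Disjoint (P s) (P s'))
    (h1 : MainSet A (2 * S) n' ⊆ ⋃ s ∈ Finset.range (S + 1), P s)
    (h2 : ∀ s ∈ Finset.range (S + 1), P s ⊆
      MainSet A (2 * S) n' ∪ ⋃ r ∈ Finset.Icc 2 S, Box (2 * S) 27 n' r)
    (c : ℕ → ℕ)
    (hc : ∀ s ∈ Finset.range (S + 1),
      (pairs (Tw A) m (P s)).ncard = c s * 8 * (2 ^ m) ^ (54 * (n' - (n + 1)) + s)) :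
    |(∑ s ∈ Finset.range (S + 1), (c s : ℝ) * (2 ^ m) ^ s) / (2 ^ m) ^ (54 * n) -
        (((2 : ℝ) ^ m) ^ 54 - (2 ^ m) ^ 27 + (2 ^ m) ^ 3 * Zc A m)| ≤ S * ((2 : ℝ) ^ m) ^ 12 := by
  have fin := pairs_finite (I := PI (2 * S) 27 n') (Tw A) hm (Tw_zero A) (Tw_add A) (Tw_frob A hA)
  have tw := pairs_twist (I := PI (2 * S) 27 n') (Tw A) hm (Tw_zero A) (Tw_add A) (Tw_frob A hA)
  set U := ⋃ s ∈ Finset.range (S + 1), pairs (Tw A) m (P s) with hU
  have hUfin : U.Finite := (fin Set.univ).subset (by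
    simp only [hU, Set.iUnion_subset_iff]
    exact fun s _ x hx => ⟨hx.1, trivial, hx.2.2⟩)
  have hsum : U.ncard = ∑ s ∈ Finset.range (S + 1), (pairs (Tw A) m (P s)).ncard := by
    rw [← finsum_mem_coe_finset, ← (Finset.range (S + 1)).finite_toSet.ncard_biUnion
      (fun s _ => fin _)]
    · rfl
    · intro s _ s' _ hs
      exact Set.disjoint_left.2 fun x hx hx' => Set.disjoint_left.1 (hd hs) hx.2.1 hx'.2.1
  have hmain : (pairs (Tw A) m (MainSet A (2 * S) n')).ncard = 8 * cnt m (MainSet A (2 * S) n') :=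
    tw _ fun τ p hp => hp
  have hlow : 8 * cnt m (MainSet A (2 * S) n') ≤ U.ncard := by
    rw [← hmain]
    refine Set.ncard_le_ncard (fun x hx => ?_) hUfin
    obtain ⟨s, hs, hx'⟩ := Set.mem_iUnion₂.1 (h1 hx.2.1)
    exact Set.mem_iUnion₂.2 ⟨s, hs, hx.1, hx', hx.2.2⟩
  have hbox : ∀ r ∈ Finset.Icc 2 S,
      (pairs (Tw A) m (Box (2 * S) 27 n' r)).ncard ≤ 8 * (2 ^ m) ^ (54 * n' - 42) := by
    intro r hr
    rw [Finset.mem_Icc] at hr
    rw [tw _ fun τ p hp => hp, est_cnt_box hm (by omega) (by omega)]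
    exact Nat.mul_le_mul_left _ (Nat.pow_le_pow_right (by positivity) (by omega))
  have hup : U.ncard ≤ 8 * cnt m (MainSet A (2 * S) n') + S * (8 * (2 ^ m) ^ (54 * n' - 42)) := by
    have hsub : U ⊆ pairs (Tw A) m (MainSet A (2 * S) n') ∪
        ⋃ r ∈ Finset.Icc 2 S, pairs (Tw A) m (Box (2 * S) 27 n' r) := by
      intro x hx
      obtain ⟨s, hs, hx⟩ := Set.mem_iUnion₂.1 hx
      rcases h2 s hs hx.2.1 with h | h
      · exact Or.inl ⟨hx.1, h, hx.2.2⟩
      · obtain ⟨r, hr, h⟩ := Set.mem_iUnion₂.1 h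
        exact Or.inr (Set.mem_iUnion₂.2 ⟨r, hr, hx.1, h, hx.2.2⟩)
    refine (Set.ncard_le_ncard hsub ((fin _).union
      ((Finset.Icc 2 S).finite_toSet.biUnion fun r _ => fin _))).trans ?_
    refine (Set.ncard_union_le _ _).trans ?_
    rw [hmain]
    refine Nat.add_le_add_left ((Finset.set_ncard_biUnion_le _ _).trans ?_) _
    refine (Finset.sum_le_card_nsmul _ _ _ hbox).trans ?_
    rw [Nat.card_Icc, smul_eq_mul]
    exact Nat.mul_le_mul_right _ (by omega)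
  have hM := est_cnt_main (J := 2 * S) (n' := n') A hm (by omega) (by omega)
  rw [Finset.sum_congr rfl hc] at hsum
  obtain ⟨d, rfl⟩ := Nat.exists_eq_add_of_le hn
  rw [Nat.add_sub_cancel_left] at hsum
  rw [show 54 * (n + 1 + d) - 27 = 27 + (54 * n + 54 * d) by omega,
    show 54 * (n + 1 + d) - 51 = 3 + (54 * n + 54 * d) by omega,
    show 54 * (n + 1 + d) = 54 + (54 * n + 54 * d) by omega] at hM
  rw [show 54 * (n + 1 + d) - 42 = 12 + (54 * n + 54 * d) by omega] at hup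
  set q : ℝ := 2 ^ m with hq
  have hq0 : 0 < q := by positivity
  have hsum' : (U.ncard : ℝ) =
      8 * q ^ (54 * d) * ∑ s ∈ Finset.range (S + 1), (c s : ℝ) * q ^ s := by
    rw [hsum, Finset.mul_sum]
    push_cast
    exact Finset.sum_congr rfl fun s _ => by rw [pow_add]; ring
  have hM' : (cnt m (MainSet A (2 * S) (n + 1 + d)) : ℝ) =
      (q ^ 54 - q ^ 27 + q ^ 3 * Zc A m) * (q ^ (54 * n) * q ^ (54 * d)) := by
    have : ((cnt m (MainSet A (2 * S) (n + 1 + d)) : ℝ)) + q ^ (27 + (54 * n + 54 * d)) =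
        q ^ (54 + (54 * n + 54 * d)) + Zc A m * q ^ (3 + (54 * n + 54 * d)) := by
      rw [hq]
      exact_mod_cast hM
    simp only [pow_add] at this
    linear_combination this
  have hlow' : 8 * (cnt m (MainSet A (2 * S) (n + 1 + d)) : ℝ) ≤ U.ncard := by exact_mod_cast hlow
  have hup' : (U.ncard : ℝ) ≤ 8 * (cnt m (MainSet A (2 * S) (n + 1 + d)) : ℝ) +
      S * (8 * q ^ (12 + (54 * n + 54 * d))) := by
    rw [hq]
    exact_mod_cast hup
  rw [hsum', hM'] at hlow' hup'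
  simp only [pow_add] at hup'
  have hd0 : 0 < 8 * q ^ (54 * d) := by positivity
  have hn0 : 0 < q ^ (54 * n) := by positivity
  generalize ∑ s ∈ Finset.range (S + 1), (c s : ℝ) * q ^ s = T at *
  generalize q ^ 54 - q ^ 27 + q ^ 3 * Zc A m = W at *
  have l1 : W * q ^ (54 * n) ≤ T := le_of_mul_le_mul_left (by linarith) hd0
  have l2 : T ≤ (W + S * q ^ 12) * q ^ (54 * n) := le_of_mul_le_mul_left (by linarith) hd0
  rw [← le_div_iff₀ hn0] at l1
  rw [← div_le_iff₀ hn0] at l2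
  rw [abs_of_nonneg (by linarith)]
  linarith

end Pool.Agent.MP_536a45_ag

end

section

/-!
# Numeric lemmas: integer sequences close to rational functions
-/

namespace Pool.Agent.MP_536a45_ag

namespace Ell

open Polynomial Filter Topology

lemma V2_iff {z : ℤ} {a : ℕ} : V2 z a ↔ emultiplicity 2 z = a := emultiplicity_eq_coe.symm

lemma V2.mul {x y : ℤ} {a b : ℕ} (h : V2 x a) (h' : V2 y b) : V2 (x * y) (a + b) := by
  rw [V2_iff] at *
  rw [emultiplicity_mul Int.prime_two, h, h', Nat.cast_add]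

lemma V2.unique {x : ℤ} {a b : ℕ} (h : V2 x a) (h' : V2 x b) : a = b := by
  rw [V2_iff] at *
  exact_mod_cast h.symm.trans h'

lemma V2_exists {x : ℤ} (h : x ≠ 0) : ∃ a, V2 x a :=
  ⟨_, V2_iff.mpr (Int.finiteMultiplicity_iff.mpr ⟨by norm_num, h⟩).emultiplicity_eq_multiplicity⟩

lemma V2.congr {x y : ℤ} {a : ℕ} (h : V2 x a) (hd : 2 ^ (a + 1) ∣ y - x) : V2 y a :=
  ⟨by simpa using dvd_add (((pow_dvd_pow 2 a.le_succ)).trans hd) h.1,
    fun h' => h.2 (by simpa using dvd_sub h' hd)⟩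

lemma V2_pow (a : ℕ) : V2 (2 ^ a) a :=
  ⟨dvd_rfl, fun h => by
    have := (pow_dvd_pow_iff (by norm_num) (by simp [Int.isUnit_iff])).mp h
    omega⟩

lemma num_val (R : ℤ[X]) {D : ℤ} (hD : D ≠ 0) (E : ℕ → ℤ) {a : ℕ} (ha : 0 < a)
    (h1 : ∀ᶠ s in atTop, D * E s = R.eval (2 ^ (a * s)))
    (h2 : ∀ s, 0 < s → ∃ v, V2 (E s) v ∧ V2 (E (2 * s)) (v + 1)) : False := by
  obtain ⟨T, hT⟩ := eventually_atTop.mp h1
  have hR : R ≠ 0 := by
    rintro rfl
    obtain ⟨v, hv, -⟩ := h2 (T + 1) T.succ_pos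
    have := hT (T + 1) T.le_succ
    rw [eval_zero, mul_eq_zero] at this
    exact hv.2 (by rw [this.resolve_left hD]; exact dvd_zero _)
  obtain ⟨R0, e, h0⟩ := exists_eq_pow_rootMultiplicity_mul_and_not_dvd R hR 0
  generalize rootMultiplicity 0 R = j at e
  rw [dvd_iff_isRoot] at h0
  obtain ⟨k, hk⟩ := V2_exists h0
  obtain ⟨d, hd⟩ := V2_exists hD
  have key : ∀ s v, T ≤ s → k + 1 ≤ s → V2 (E s) v → d + v = a * s * j + k := by
    intro s v hs hs' hv
    have a1 := hd.mul hv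
    rw [hT s hs, e] at a1
    refine a1.unique ?_
    simp only [map_zero, sub_zero, eval_mul, eval_pow, eval_X, ← pow_mul]
    refine (V2_pow _).mul (hk.congr ((pow_dvd_pow 2
      (show k + 1 ≤ a * s by nlinarith)).trans ?_))
    simpa using sub_dvd_eval_sub (2 ^ (a * s)) 0 R0
  obtain ⟨v, hv, hv'⟩ := h2 (T + k + 2) (by omega)
  have b1 := key _ _ (by omega) (by omega) hv
  have b2 := key _ _ (by omega) (by omega) hv'
  have b3 : (T + k + 2) * (a * j) = 1 := by nlinarith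
  have := Nat.eq_one_of_mul_eq_one_right b3
  omega

lemma num_div (P Q : ℤ[X]) (hQ : Q ≠ 0) : ∃ (D : ℤ) (R : ℤ[X]), D ≠ 0 ∧
    Tendsto (fun x : ℝ => D * (aeval x P / aeval x Q) - aeval x R) atTop (𝓝 0) := by
  set p := P.map (algebraMap ℤ ℚ) with hp
  set q := Q.map (algebraMap ℤ ℚ) with hq
  have hq0 : q ≠ 0 := (Polynomial.map_ne_zero_iff (algebraMap ℤ ℚ).injective_int).mpr hQ
  obtain ⟨D, hD, hR⟩ := IsLocalization.integerNormalization_spec (nonZeroDivisors ℤ) (p / q)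
  refine ⟨D, IsLocalization.integerNormalization (nonZeroDivisors ℤ) (p / q),
    nonZeroDivisors.ne_zero hD, ?_⟩
  have h1 := div_tendsto_atTop_zero_of_degree_lt ((p % q).map (algebraMap ℚ ℝ))
    (q.map (algebraMap ℚ ℝ)) (by rw [degree_map, degree_map]; exact degree_mod_lt _ hq0)
  have h2 := eventually_atTop_not_isRoot (q.map (algebraMap ℚ ℝ)) (Polynomial.map_ne_zero hq0)
  have h3 := h1.const_mul (D : ℝ)
  rw [mul_zero] at h3
  refine h3.congr' ?_
  filter_upwards [h2] with x hx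
  rw [IsRoot.def, eval_map_algebraMap] at hx
  rw [eval_map_algebraMap, eval_map_algebraMap, ← aeval_map_algebraMap ℚ x P,
    ← aeval_map_algebraMap ℚ x Q, ← aeval_map_algebraMap ℚ x (IsLocalization.integerNormalization _ _),
    hR, ← hp, ← hq, map_zsmul, zsmul_eq_mul]
  have := congrArg (aeval x) (EuclideanDomain.div_add_mod p q)
  rw [map_add, map_mul] at this
  rw [← this]
  field_simp
  ring

lemma num_bound {q Qx Px N E C : ℝ} (hq : 2 ≤ q) (hQ : 1 ≤ |Qx|)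
    (hA : |N - (q ^ 54 - q ^ 27 + q ^ 3 * (q ^ 27 - 1 + (q - 1) * E * (q ^ 9 - 1)))| ≤ C * q ^ 12)
    (hB : |Qx * N - Px| ≤ C) :
    |E - (Px - Qx * (q ^ 54 - q ^ 27 + q ^ 30 - q ^ 3)) / (Qx * (q ^ 3 * (q - 1) * (q ^ 9 - 1)))| ≤
      8 * C / q := by
  have hC : 0 ≤ C := (abs_nonneg _).trans hB
  have h9 : 2 ≤ q ^ 9 := hq.trans (le_self_pow₀ (by linarith) (by norm_num))
  have h12 : 1 ≤ q ^ 12 := one_le_pow₀ (by linarith)
  have hq0 : 0 < q := by linarith
  have hW : q ^ 13 ≤ 4 * (q ^ 3 * (q - 1) * (q ^ 9 - 1)) := by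
    have : q * q ^ 9 ≤ (2 * (q - 1)) * (2 * (q ^ 9 - 1)) :=
      mul_le_mul (by linarith) (by linarith) (by positivity) (by linarith)
    have h3 : 0 < q ^ 3 := by positivity
    nlinarith
  set W := q ^ 3 * (q - 1) * (q ^ 9 - 1) with hWd
  have hW0 : 0 < W := by have : 0 < q ^ 13 := by positivity
                         linarith
  have hQ0 : Qx ≠ 0 := by rintro rfl; norm_num at hQ
  set M := q ^ 54 - q ^ 27 + q ^ 3 * (q ^ 27 - 1 + (q - 1) * E * (q ^ 9 - 1)) with hM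
  have e : E - (Px - Qx * (q ^ 54 - q ^ 27 + q ^ 30 - q ^ 3)) / (Qx * W) =
      (Qx * N - Px - Qx * (N - M)) / (Qx * W) := by
    field_simp
    rw [hM, hWd]
    ring
  have b : |Qx * N - Px - Qx * (N - M)| ≤ 2 * |Qx| * C * q ^ 12 := by
    refine (abs_sub _ _).trans ?_
    rw [abs_mul]
    have b1 : |Qx| * |N - M| ≤ |Qx| * (C * q ^ 12) := mul_le_mul_of_nonneg_left hA (abs_nonneg _)
    have b2 : 1 * (C * 1) ≤ |Qx| * (C * q ^ 12) :=
      mul_le_mul hQ (mul_le_mul_of_nonneg_left h12 hC) (by positivity) (abs_nonneg _)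
    linarith
  rw [e, abs_div, abs_mul, abs_of_pos hW0, div_le_div_iff₀ (by positivity) hq0]
  calc _ ≤ 2 * |Qx| * C * q ^ 12 * q := mul_le_mul_of_nonneg_right b hq0.le
    _ = 2 * |Qx| * C * q ^ 13 := by ring
    _ ≤ 2 * |Qx| * C * (4 * W) := mul_le_mul_of_nonneg_left hW (by positivity)
    _ = _ := by ring

end Ell

end Pool.Agent.MP_536a45_ag

end
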