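import Pool.Agent.Mg.F536a45a.Gad8181

set_option linter.all false

open MvPolynomial

namespace Pool.Agent.MP_536a45_ag

variable {k : Type} [Field k] [CharP k 2] {u : ℕ} {A : Fin 3 → Matrix (Fin u) (Fin u) k}

/-- The product of the linear forms `ℓ_a (A(c) w)` over `c ∈ 𝔽_2³ ∖ 0`. -/
noncomputable def Mpoly (A : Fin 3 → Matrix (Fin u) (Fin u) k) (a : k) :
    MvPolynomial (Fin u ⊕ Fin u) k :=
  ∏ c ∈ bitsNZ k, vand a (Aop A (fun l => (C (c l) : MvPolynomial (Fin u ⊕ Fin u) k))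
    fun i => X (Sum.inl i))

namespace StructB

section alg

variable {Ω Ω' : Type} [CommRing Ω] [CommRing Ω']

/-- The Moore determinant. -/
def moore (a b c : Ω) : Ω :=
  a * (b ^ 2 * c ^ 4 - c ^ 2 * b ^ 4) - b * (a ^ 2 * c ^ 4 - c ^ 2 * a ^ 4) +
    c * (a ^ 2 * b ^ 4 - b ^ 2 * a ^ 4)

/-- The Cramer numerators. -/
def th (c : Fin 3 → Ω) (z : Ω) : Fin 3 → Ω :=
  ![moore z (c 1) (c 2), moore (c 0) z (c 2), moore (c 0) (c 1) z]

/-- The Moore determinant of a vector. -/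
def mo (c : Fin 3 → Ω) : Ω := moore (c 0) (c 1) (c 2)

theorem th_sum (c : Fin 3 → Ω) (z : Ω) :
    ∑ l, th c z l * c l = mo c * z ∧ ∑ l, th c z l * c l ^ 2 = mo c * z ^ 2 ∧
      ∑ l, th c z l * c l ^ 4 = mo c * z ^ 4 := by
  simp only [Fin.sum_univ_three, th, mo, moore, Matrix.cons_val_zero, Matrix.cons_val_one,
    Matrix.cons_val]
  refine ⟨?_, ?_, ?_⟩ <;> ring

theorem moore_eq [CharP Ω 2] (a b c : Ω) :
    moore a b c = a * b * c * (a + b) * (a + c) * (b + c) * (a + b + c) := by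
  have : moore a b c = a * b * c * (b - a) * (c - a) * (c - b) * (a + b + c) := by
    unfold moore; ring
  rw [this]
  simp only [CharTwo.sub_eq_add]
  ring

theorem moore_sq [CharP Ω 2] (a b c : Ω) :
    moore (a ^ 2) (b ^ 2) (c ^ 2) = moore a b c ^ 2 := by
  simp only [moore_eq, mul_pow, CharTwo.add_sq]

theorem th_shift [CharP Ω 2] (c g : Fin 3 → Ω) (hg : ∀ l, g l ^ 2 = g l) (z : Ω) (l : Fin 3) :
    th c (z + ∑ l, g l * c l) l = th c z l + mo c * g l := by
  have h2 : (z + ∑ l, g l * c l) ^ 2 = z ^ 2 + ∑ l, g l * c l ^ 2 := by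
    simp only [Fin.sum_univ_three, CharTwo.add_sq, mul_pow, hg]
  have h4 : (z + ∑ l, g l * c l) ^ 4 = z ^ 4 + ∑ l, g l * c l ^ 4 := by
    rw [show (4 : ℕ) = 2 * 2 from rfl, pow_mul, h2]
    simp only [Fin.sum_univ_three, CharTwo.add_sq, mul_pow, hg, ← pow_mul]
  fin_cases l <;>
    simp only [th, mo, moore, h2, h4, Fin.zero_eta, Fin.mk_one, Fin.reduceFinMk,
      Matrix.cons_val_zero, Matrix.cons_val_one, Matrix.cons_val] <;>
    simp only [Fin.sum_univ_three] <;> ring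

theorem cramer2 [CharP Ω 2] (c F : Fin 3 → Ω) (h1 : ∑ l, F l * c l ^ 2 = 0)
    (h2 : ∑ l, F l * c l ^ 4 = 0) (l : Fin 3) :
    mo c ^ 2 * F l = ![c 1 ^ 2 * c 2 ^ 4 - c 2 ^ 2 * c 1 ^ 4, c 2 ^ 2 * c 0 ^ 4 - c 0 ^ 2 * c 2 ^ 4,
      c 0 ^ 2 * c 1 ^ 4 - c 1 ^ 2 * c 0 ^ 4] l * ∑ l, F l * c l ^ 8 := by
  rw [mo, ← moore_sq]
  simp only [Fin.sum_univ_three] at h1 h2 ⊢
  fin_cases l <;>
    simp only [moore, Fin.zero_eta, Fin.mk_one, Fin.reduceFinMk, Matrix.cons_val_zero,
      Matrix.cons_val_one, Matrix.cons_val]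
  · linear_combination (c 1 ^ 4 * c 2 ^ 8 - c 2 ^ 4 * c 1 ^ 8) * h1 -
      (c 1 ^ 2 * c 2 ^ 8 - c 2 ^ 2 * c 1 ^ 8) * h2
  · linear_combination (c 2 ^ 4 * c 0 ^ 8 - c 0 ^ 4 * c 2 ^ 8) * h1 -
      (c 2 ^ 2 * c 0 ^ 8 - c 0 ^ 2 * c 2 ^ 8) * h2
  · linear_combination (c 0 ^ 4 * c 1 ^ 8 - c 1 ^ 4 * c 0 ^ 8) * h1 -
      (c 0 ^ 2 * c 1 ^ 8 - c 1 ^ 2 * c 0 ^ 8) * h2

theorem F_sum [CharP Ω 2] (c : Fin 3 → Ω) (z : Ω) :
    ∑ l, (th c z l ^ 2 + mo c * th c z l) * c l ^ 2 = 0 ∧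
      ∑ l, (th c z l ^ 2 + mo c * th c z l) * c l ^ 4 = 0 := by
  obtain ⟨h1, h2, h4⟩ := th_sum c z
  have e1 := congrArg (· ^ 2) h1
  have e2 := congrArg (· ^ 2) h2
  simp only [Fin.sum_univ_three, CharTwo.add_sq] at h1 h2 h4 e1 e2 ⊢
  have t : (2 : Ω) = 0 := CharTwo.two_eq_zero
  constructor
  · linear_combination e1 + mo c * h2 + mo c ^ 2 * z ^ 2 * t
  · linear_combination e2 + mo c * h4 + mo c ^ 2 * z ^ 4 * t

omit [CharP k 2]

variable [Algebra k Ω] [Algebra k Ω']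

theorem map_moore (φ : Ω →ₐ[k] Ω') (a b c : Ω) : φ (moore a b c) = moore (φ a) (φ b) (φ c) := by
  simp [moore]

theorem map_mo (φ : Ω →ₐ[k] Ω') (c : Fin 3 → Ω) : φ (mo c) = mo fun l => φ (c l) :=
  map_moore φ _ _ _

theorem map_th (φ : Ω →ₐ[k] Ω') (c : Fin 3 → Ω) (z : Ω) (l : Fin 3) :
    φ (th c z l) = th (fun l => φ (c l)) (φ z) l := by
  fin_cases l <;> exact map_moore φ _ _ _

theorem map_vand (φ : Ω →ₐ[k] Ω') (a : k) (v : Fin u → Ω) :
    φ (vand a v) = vand a fun i => φ (v i) := by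
  simp [vand]

theorem map_Aop (φ : Ω →ₐ[k] Ω') (θ : Fin 3 → Ω) (w : Fin u → Ω) (i : Fin u) :
    φ (Aop A θ w i) = Aop A (fun l => φ (θ l)) (fun j => φ (w j)) i := by
  simp [Aop]

/-- The linear forms `ℓ_a (A_l w)`. -/
def cc (A : Fin 3 → Matrix (Fin u) (Fin u) k) (a : k) (w : Fin u → Ω) (l : Fin 3) : Ω :=
  ∑ i : Fin u, ∑ j, (a ^ (i : ℕ) * A l i j) • w j

theorem map_cc (φ : Ω →ₐ[k] Ω') (a : k) (w : Fin u → Ω) (l : Fin 3) :
    φ (cc A a w l) = cc A a (fun j => φ (w j)) l := by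
  simp [cc]

theorem vand_Aop (a : k) (θ : Fin 3 → Ω) (w : Fin u → Ω) :
    vand a (Aop A θ w) = ∑ l, θ l * cc A a w l := by
  simp only [vand, Aop, cc, Finset.smul_sum, Finset.mul_sum, mul_smul_comm, smul_smul]
  exact Finset.sum_comm

theorem vand_add (a : k) (v v' : Fin u → Ω) :
    vand a (fun i => v i + v' i) = vand a v + vand a v' := by
  simp [vand, Finset.sum_add_distrib]

theorem vand_mul (a : k) (x : Ω) (v : Fin u → Ω) :
    vand a (fun i => x * v i) = x * vand a v := by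
  simp [vand, Finset.mul_sum]

theorem Aop_add (θ θ' : Fin 3 → Ω) (w : Fin u → Ω) (i : Fin u) :
    Aop A (fun l => θ l + θ' l) w i = Aop A θ w i + Aop A θ' w i := by
  simp [Aop, add_mul, Finset.sum_add_distrib]

theorem Aop_mul (x : Ω) (θ : Fin 3 → Ω) (w : Fin u → Ω) (i : Fin u) :
    Aop A (fun l => x * θ l) w i = x * Aop A θ w i := by
  simp [Aop, Finset.mul_sum, mul_assoc]

omit [Algebra k Ω] in
theorem prod_bitsNZ (f : (Fin 3 → k) → Ω) : ∏ c ∈ bitsNZ k, f c =
    f ![1, 0, 0] * (f ![0, 1, 0] * (f ![0, 0, 1] * (f ![1, 1, 0] * (f ![1, 0, 1] *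
      (f ![0, 1, 1] * f ![1, 1, 1]))))) := by
  classical
  have : bitsNZ k = {![1, 0, 0], ![0, 1, 0], ![0, 0, 1], ![1, 1, 0], ![1, 0, 1], ![0, 1, 1],
      ![1, 1, 1]} := by
    ext c
    rw [mem_bitsNZ, ← mem_bitsF]
    simp only [bitsF, Fintype.mem_piFinset, Finset.mem_insert, Finset.mem_singleton, ne_eq,
      funext_iff, Fin.forall_fin_succ, IsEmpty.forall_iff, and_true]
    constructor
    · rintro ⟨h, h0 | h0, h1 | h1, h2 | h2⟩ <;> simp_all
    · rintro (h | h | h | h | h | h | h) <;> simp_all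
  rw [this]
  repeat rw [Finset.prod_insert (by simp [funext_iff, Fin.forall_fin_succ])]
  rw [Finset.prod_singleton]

/-- Clearing denominators. -/
theorem clear {S ι : Type} [CommRing S] [Algebra k S] (B : Subalgebra k S) (M : S) (hM : M ∈ B)
    (x : ι → S) (e : ι → ℕ) (hx : ∀ i, ∃ n : ℕ, M ^ n * x i ∈ B) (q : MvPolynomial ι k) :
    ∃ n : ℕ, ∃ r ∈ B, ∀ (Ω : Type) [CommRing Ω] [Algebra k Ω] (ψ : S →ₐ[k] Ω) (x' : ι → Ω),
      (∀ i, ψ M ^ e i * x' i = ψ (x i)) → ψ M ^ n * aeval x' q = ψ r := by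
  induction q using MvPolynomial.induction_on with
  | C a => exact ⟨0, algebraMap k S a, B.algebraMap_mem a, fun Ω _ _ ψ x' _ => by simp⟩
  | add p q hp hq =>
    obtain ⟨n, r, hr, h⟩ := hp
    obtain ⟨n', r', hr', h'⟩ := hq
    refine ⟨n + n', M ^ n' * r + M ^ n * r', B.add_mem (B.mul_mem (B.pow_mem hM _) hr)
      (B.mul_mem (B.pow_mem hM _) hr'), fun Ω _ _ ψ x' hx' => ?_⟩
    simp only [map_add, map_mul, map_pow, ← h Ω ψ x' hx', ← h' Ω ψ x' hx']
    ring
  | mul_X p i hp =>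
    obtain ⟨n, r, hr, h⟩ := hp
    obtain ⟨n', hn'⟩ := hx i
    refine ⟨n + e i + n', r * (M ^ n' * x i), B.mul_mem hr hn', fun Ω _ _ ψ x' hx' => ?_⟩
    simp only [map_mul, map_pow, ← h Ω ψ x' hx', ← hx' i, aeval_X]
    ring

theorem det_mem {σ : Type} [Fintype σ] [DecidableEq σ] (s : Set (σ → Ω)) (J : Ideal Ω)
    (hJ : ∀ v : σ → σ → Ω, (∀ i, v i ∈ s) → (Matrix.of v).det ∈ J) (v : σ → σ → Ω)
    (hv : ∀ i, v i ∈ Submodule.span Ω s) : (Matrix.of v).det ∈ J := by
  have key : ∀ T : Finset σ, ∀ v : σ → σ → Ω, (∀ i ∈ T, v i ∈ Submodule.span Ω s) →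
      (∀ i ∉ T, v i ∈ s) → (Matrix.of v).det ∈ J := by
    intro T
    induction T using Finset.induction_on with
    | empty => exact fun v _ h => hJ v fun i => h i (by simp)
    | insert i T hi ih =>
      intro v h1 h2
      let f : (σ → Ω) →ₗ[Ω] Ω :=
        (Matrix.detRowAlternating (n := σ) (R := Ω)).toMultilinearMap.toLinearMap v i
      have hf : ∀ x, f x = (Matrix.of (Function.update v i x)).det := fun x => rfl
      have : Submodule.span Ω s ≤ Submodule.comap f J := Submodule.span_le.2 fun x hx => by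
        change f x ∈ J
        rw [hf]
        refine ih _ (fun j hj => ?_) fun j hj => ?_
        · rw [Function.update_of_ne (fun e : j = i => hi (e ▸ hj))]
          exact h1 j (Finset.mem_insert_of_mem hj)
        · by_cases e : j = i
          · rw [e, Function.update_self]; exact hx
          · rw [Function.update_of_ne e]
            exact h2 j (by simp [e, hj])
      have := this (h1 i (Finset.mem_insert_self _ _))
      rw [Submodule.mem_comap, hf, Function.update_eq_self] at this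
      exact this
  exact key Finset.univ v (fun i _ => hv i) (by simp)

end alg

/-- The forms `c_l` in the polynomial ring. -/
noncomputable def cR (A : Fin 3 → Matrix (Fin u) (Fin u) k) (a : k) :
    Fin 3 → MvPolynomial (Fin u ⊕ Fin u) k := cc A a fun i => X (Sum.inl i)

/-- The numerators `Θ_l` in the polynomial ring. -/
noncomputable def TR (A : Fin 3 → Matrix (Fin u) (Fin u) k) (a : k) :
    Fin 3 → MvPolynomial (Fin u ⊕ Fin u) k := th (cR A a) (vand a fun i => X (Sum.inr i))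

theorem Mpoly_eq (a : k) : Mpoly A a = mo (cR A a) := by
  rw [Mpoly, prod_bitsNZ, mo, moore_eq]
  simp only [vand_Aop, Fin.sum_univ_three, cR, Matrix.cons_val_zero, Matrix.cons_val_one,
    Matrix.cons_val, map_one, map_zero]
  ring

/-- The substitution by a group element. -/
noncomputable def sg (A : Fin 3 → Matrix (Fin u) (Fin u) k) (c : Fin 3 → k) :
    MvPolynomial (Fin u ⊕ Fin u) k →ₐ[k] MvPolynomial (Fin u ⊕ Fin u) k :=
  aeval (pt A (fun l => (C (c l) : MvPolynomial (Fin u ⊕ Fin u) k))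
    (fun i => X (Sum.inl i)) (fun i => X (Sum.inr i)))

omit [CharP k 2] in
theorem sg_inl (c : Fin 3 → k) (i : Fin u) : sg A c (X (Sum.inl i)) = X (Sum.inl i) := by
  simp [sg, pt]

omit [CharP k 2] in
theorem sg_inr (c : Fin 3 → k) (i : Fin u) : sg A c (X (Sum.inr i)) = X (Sum.inr i) +
    Aop A (fun l => (C (c l) : MvPolynomial (Fin u ⊕ Fin u) k)) (fun i => X (Sum.inl i)) i := by
  simp [sg, pt]

omit [CharP k 2] in
theorem sg_c (c : Fin 3 → k) (a : k) (l : Fin 3) : sg A c (cR A a l) = cR A a l := by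
  simp only [cR, map_cc, sg_inl]

omit [CharP k 2] in
theorem sg_M (c : Fin 3 → k) (a : k) : sg A c (mo (cR A a)) = mo (cR A a) := by
  simp only [map_mo, sg_c]

theorem sg_T {c : Fin 3 → k} (hc : c ∈ bits k) (a : k) (l : Fin 3) :
    sg A c (TR A a l) = TR A a l + mo (cR A a) * C (c l) := by
  simp only [TR, map_th, sg_c, map_vand, sg_inr, vand_add, vand_Aop]
  exact th_shift _ _ (fun l => by rw [← map_pow, hc l]) _ l

theorem M_mem (a : k) : mo (cR A a) ∈ Inv A := mem_Inv_iff.2 fun c _ => sg_M c a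

theorem F_mem (a : k) (l : Fin 3) : TR A a l ^ 2 + mo (cR A a) * TR A a l ∈ Inv A :=
  mem_Inv_iff.2 fun c hc => by
    change sg A c _ = _
    have h : (C (c l) : MvPolynomial (Fin u ⊕ Fin u) k) ^ 2 = C (c l) := by rw [← map_pow, hc l]
    have t : (2 : MvPolynomial (Fin u ⊕ Fin u) k) = 0 := CharTwo.two_eq_zero
    rw [map_add, map_pow, map_mul, sg_M, sg_T hc]
    linear_combination mo (cR A a) ^ 2 * h +
      (mo (cR A a) * TR A a l * C (c l) + mo (cR A a) ^ 2 * C (c l)) * t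

theorem Y_mem (a : k) (i : Fin u) :
    mo (cR A a) * X (Sum.inr i) + Aop A (TR A a) (fun j => X (Sum.inl j)) i ∈ Inv A :=
  mem_Inv_iff.2 fun c hc => by
    change sg A c _ = _
    have t : (2 : MvPolynomial (Fin u ⊕ Fin u) k) = 0 := CharTwo.two_eq_zero
    rw [map_add, map_mul, sg_M, sg_inr, map_Aop]
    simp only [sg_T hc, sg_inl, Aop_add, Aop_mul]
    linear_combination (mo (cR A a) * Aop A (fun l => (C (c l) : MvPolynomial (Fin u ⊕ Fin u) k))
      (fun i => X (Sum.inl i)) i) * t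

theorem vand_Y (a : k) : vand a (fun i => mo (cR A a) * X (Sum.inr i) +
    Aop A (TR A a) (fun j => X (Sum.inl j)) i) = 0 := by
  rw [vand_add, vand_mul, vand_Aop]
  change _ + ∑ l, TR A a l * cR A a l = 0
  rw [TR, (th_sum _ _).1]
  exact CharTwo.add_self_eq_zero _

theorem jac_clause (a : k) :
    mo (cR A a) ^ (2 * Fintype.card (Fin u ⊕ Fin u)) ∈ Ideal.span (Set.range
      fun b : Fin u ⊕ Fin u → Inv A => jac fun i => (b i : MvPolynomial (Fin u ⊕ Fin u) k)) := by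
  set M := mo (cR A a) with hM
  let D : MvPolynomial (Fin u ⊕ Fin u) k → Fin u ⊕ Fin u → MvPolynomial (Fin u ⊕ Fin u) k :=
    fun p m => pderiv m p
  have Dadd : ∀ p q, D (p + q) = D p + D q := fun p q => funext fun m => by simp [D]
  have Dmul : ∀ p q, D (p * q) = p • D q + q • D p := fun p q => funext fun m => by
    simp [D, Derivation.leibniz]
  have DC : ∀ c, D (algebraMap k _ c) = 0 := fun c => funext fun m => by simp [D]
  have DX : ∀ m, D (X m) = Pi.single m 1 := fun m => funext fun m' => by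
    simp only [D, pderiv_X, Pi.single_apply, eq_comm]
  let W := Submodule.span (MvPolynomial (Fin u ⊕ Fin u) k)
    (Set.range fun b : Inv A => D (b : MvPolynomial (Fin u ⊕ Fin u) k))
  have hW : ∀ p ∈ Inv A, D p ∈ W := fun p hp => Submodule.subset_span ⟨⟨p, hp⟩, rfl⟩
  let U : Subalgebra k (MvPolynomial (Fin u ⊕ Fin u) k) :=
    { carrier := {p | M • D p ∈ W}
      mul_mem' := fun {p q} hp hq => by
        change M • D (p * q) ∈ W
        rw [Dmul, smul_add, smul_comm M p, smul_comm M q]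
        exact W.add_mem (W.smul_mem _ hq) (W.smul_mem _ hp)
      add_mem' := fun {p q} hp hq => by
        change M • D (p + q) ∈ W
        rw [Dadd, smul_add]
        exact W.add_mem hp hq
      algebraMap_mem' := fun c => by
        change M • D _ ∈ W
        rw [DC, smul_zero]
        exact W.zero_mem }
  have hU : ∀ p ∈ Inv A, p ∈ U := fun p hp => W.smul_mem _ (hW p hp)
  have hT : ∀ l, TR A a l ∈ U := fun l => by
    have h1 := hW _ (F_mem (A := A) a l)
    rw [Dadd, sq, Dmul, Dmul, ← add_smul, CharTwo.add_self_eq_zero, zero_smul, zero_add] at h1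
    exact (W.add_mem_iff_left (W.smul_mem _ (hW _ (M_mem a)))).1 h1
  have he : ∀ m, M ^ 2 • (Pi.single m 1 : Fin u ⊕ Fin u → MvPolynomial (Fin u ⊕ Fin u) k) ∈ W := by
    rintro (i | i)
    · rw [← DX]
      exact W.smul_mem _ (hW _ (X_inl_mem i))
    · have h1 : Aop A (TR A a) (fun j => X (Sum.inl j)) i ∈ U :=
        U.sum_mem fun l _ => U.sum_mem fun j _ =>
          U.smul_mem (U.mul_mem (hT l) (hU _ (X_inl_mem j))) _
      have h2 := U.sub_mem (hU _ (Y_mem (A := A) a i)) h1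
      rw [add_sub_cancel_right] at h2
      change M • D (M * _) ∈ W at h2
      rw [Dmul, smul_add, smul_smul, ← sq, DX] at h2
      exact (W.add_mem_iff_left (W.smul_mem _ (W.smul_mem _ (hW _ (M_mem a))))).1 h2
  have := det_mem _ (Ideal.span (Set.range
      fun b : Fin u ⊕ Fin u → Inv A => jac fun i => (b i : MvPolynomial (Fin u ⊕ Fin u) k)))
    (fun v hv => by
      choose b hb using hv
      exact Ideal.subset_span ⟨b, by rw [← funext hb]; rfl⟩) _ he
  have e : (Matrix.of fun m => M ^ 2 •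
      (Pi.single m 1 : Fin u ⊕ Fin u → MvPolynomial (Fin u ⊕ Fin u) k)) = M ^ 2 • 1 := by
    ext1 i j
    simp [Matrix.one_apply, Pi.single_apply, eq_comm]
  rwa [e, Matrix.det_smul, Matrix.det_one, mul_one, ← pow_mul] at this

end StructB

open StructB

/-- The explicit chart of `X` on `{M ≠ 0}`. -/
theorem exists_chart (hu : 0 < u) (a : k) :
    ∃ (M : Inv A) (F : Fin 3 → Inv A) (Y : Fin u → Inv A)
      (Θ : Fin 3 → MvPolynomial (Fin u ⊕ Fin u) k) (h : Fin u ⊕ Fin u → Inv A) (e : ℕ),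
      (M : MvPolynomial (Fin u ⊕ Fin u) k) = Mpoly A a ∧
      (∀ l, (F l : MvPolynomial (Fin u ⊕ Fin u) k) =
        Θ l ^ 2 + (M : MvPolynomial (Fin u ⊕ Fin u) k) * Θ l) ∧
      (∀ i, (Y i : MvPolynomial (Fin u ⊕ Fin u) k) =
        (M : MvPolynomial (Fin u ⊕ Fin u) k) * X (Sum.inr i) + Aop A Θ (fun j => X (Sum.inl j)) i) ∧
      M ∈ Algebra.adjoin k (Set.range h) ∧
      (∀ p : Inv A, ∃ n : ℕ, M ^ n * p ∈ Algebra.adjoin k (Set.range h)) ∧
      (M : MvPolynomial (Fin u ⊕ Fin u) k) ^ e ∈ Ideal.span (Set.range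
        fun b : Fin u ⊕ Fin u → Inv A => jac fun i => (b i : MvPolynomial (Fin u ⊕ Fin u) k)) ∧
      ∀ (Ω : Type) [Field Ω] [Algebra k Ω] (γ : Inv A →ₐ[k] Ω) (θ : Fin 3 → Ω) (y : Fin u → Ω),
        γ M ≠ 0 → (∀ l, γ M ^ 2 * (θ l ^ 2 + θ l) = γ (F l)) → (∀ i, γ M * y i = γ (Y i)) →
        ∀ p : Inv A, γ p = aeval (pt A θ (fun i => γ ⟨X (Sum.inl i), X_inl_mem i⟩) y)
          (p : MvPolynomial (Fin u ⊕ Fin u) k) := by
  have : CharP (Inv A) 2 := charP_of_injective_algebraMap (algebraMap k (Inv A)).injective 2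
  let w : Fin u → Inv A := fun i => ⟨X (Sum.inl i), X_inl_mem i⟩
  let c : Fin 3 → Inv A := cc A a w
  have hc : ∀ l, (c l : MvPolynomial (Fin u ⊕ Fin u) k) = cR A a l := fun l =>
    map_cc (Inv A).val a w l
  let M : Inv A := ⟨_, M_mem (A := A) a⟩
  have hM : M = mo c := Subtype.ext (by
    have := map_mo (Inv A).val c
    simp only [Subalgebra.coe_val, hc] at this
    exact this.symm)
  let F : Fin 3 → Inv A := fun l => ⟨_, F_mem (A := A) a l⟩
  let Y : Fin u → Inv A := fun i => ⟨_, Y_mem (A := A) a i⟩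
  let i0 : Fin u := ⟨0, hu⟩
  let h : Fin u ⊕ Fin u → Inv A := Sum.elim w (Function.update Y i0 (∑ l, F l * c l ^ 8))
  set B := Algebra.adjoin k (Set.range h) with hB
  have hh : ∀ m, h m ∈ B := fun m => Algebra.subset_adjoin ⟨m, rfl⟩
  have hw : ∀ i, w i ∈ B := fun i => hh (Sum.inl i)
  have hcB : ∀ l, c l ∈ B := fun l =>
    B.sum_mem fun i _ => B.sum_mem fun j _ => B.smul_mem (hw j) _
  have hN : ∑ l, F l * c l ^ 8 ∈ B := by
    have : Function.update Y i0 (∑ l, F l * c l ^ 8) i0 ∈ B := hh (Sum.inr i0)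
    rwa [Function.update_self] at this
  have hMB : M ∈ B := by
    rw [hM, mo, moore_eq]
    have h0 := hcB 0
    have h1 := hcB 1
    have h2 := hcB 2
    exact B.mul_mem (B.mul_mem (B.mul_mem (B.mul_mem (B.mul_mem (B.mul_mem h0 h1) h2)
      (B.add_mem h0 h1)) (B.add_mem h0 h2)) (B.add_mem h1 h2)) (B.add_mem (B.add_mem h0 h1) h2)
  have hFB : ∀ l, M ^ 2 * F l ∈ B := fun l => by
    have e1 : ∑ l, F l * c l ^ 2 = 0 := Subtype.ext (by
      simpa [hc, F, TR] using (F_sum (cR A a) (vand a fun i => X (Sum.inr i))).1)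
    have e2 : ∑ l, F l * c l ^ 4 = 0 := Subtype.ext (by
      simpa [hc, F, TR] using (F_sum (cR A a) (vand a fun i => X (Sum.inr i))).2)
    rw [hM, cramer2 c F e1 e2]
    refine B.mul_mem ?_ hN
    fin_cases l <;>
      exact B.sub_mem (B.mul_mem (B.pow_mem (hcB _) _) (B.pow_mem (hcB _) _))
        (B.mul_mem (B.pow_mem (hcB _) _) (B.pow_mem (hcB _) _))
  have hY' : ∀ i, i ≠ i0 → Y i ∈ B := fun i hi => by
    have : Function.update Y i0 (∑ l, F l * c l ^ 8) i ∈ B := hh (Sum.inr i)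
    rwa [Function.update_of_ne hi] at this
  have hYB : ∀ i, Y i ∈ B := fun i => by
    by_cases hi : i = i0
    · have e1 : vand a Y = 0 := Subtype.ext ((map_vand (Inv A).val a Y).trans (vand_Y a))
      rw [vand, ← Finset.add_sum_erase _ _ (Finset.mem_univ i0)] at e1
      simp only [i0, pow_zero, one_smul] at e1
      rw [hi, eq_neg_of_add_eq_zero_left e1]
      exact B.neg_mem (B.sum_mem fun j hj => B.smul_mem (hY' j (Finset.ne_of_mem_erase hj)) _)
    · exact hY' i hi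
  have key : M ≠ 0 → ∀ p : Inv A, ∃ n : ℕ, M ^ n * p ∈ B ∧
      ∀ (Ω : Type) [Field Ω] [Algebra k Ω] (γ : Inv A →ₐ[k] Ω) (θ : Fin 3 → Ω) (y : Fin u → Ω),
        (∀ l, γ M ^ 2 * (θ l ^ 2 + θ l) = γ (F l)) → (∀ i, γ M * y i = γ (Y i)) →
        γ M ^ n * aeval (pt A θ (fun i => γ (w i)) y) (p : MvPolynomial (Fin u ⊕ Fin u) k) =
          γ (M ^ n * p) := by
    intro hM0 p
    obtain ⟨q, hq⟩ := exists_sharp p.2
    obtain ⟨n, r, hr, hn⟩ := clear B M hMB (Sum.elim (Sum.elim w Y) F)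
      (Sum.elim (Sum.elim (fun _ => 0) fun _ => 1) fun _ => 2) (by
        rintro ((i | i) | l)
        · exact ⟨0, by simpa using hw i⟩
        · exact ⟨0, by simpa using hYB i⟩
        · exact ⟨2, hFB l⟩) q
    have gen : ∀ (Ω : Type) [Field Ω] [Algebra k Ω] (γ : Inv A →ₐ[k] Ω) (θ : Fin 3 → Ω)
        (y : Fin u → Ω), (∀ l, γ M ^ 2 * (θ l ^ 2 + θ l) = γ (F l)) → (∀ i, γ M * y i = γ (Y i)) →
        γ M ^ n * aeval (pt A θ (fun i => γ (w i)) y) (p : MvPolynomial (Fin u ⊕ Fin u) k) =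
          γ r := by
      intro Ω _ _ γ θ y h1 h2
      rw [(hq Ω θ _ y).1]
      refine hn Ω γ _ ?_
      rintro ((i | i) | l)
      · simp
      · simpa using h2 i
      · simpa using h1 l
    have er : M ^ n * p = r := by
      let K := FractionRing (MvPolynomial (Fin u ⊕ Fin u) k)
      let ι : MvPolynomial (Fin u ⊕ Fin u) k →ₐ[k] K := IsScalarTower.toAlgHom k _ K
      have hι : Function.Injective ι := IsFractionRing.injective _ K
      have : CharP K 2 := charP_of_injective_algebraMap (algebraMap k K).injective 2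
      let γ : Inv A →ₐ[k] K := ι.comp (Inv A).val
      have hγ : Function.Injective γ := hι.comp Subtype.val_injective
      have m0 : γ M ≠ 0 := fun e => hM0 (hγ (e.trans (map_zero γ).symm))
      have g := gen K γ (fun l => (γ M)⁻¹ * ι (TR A a l)) (fun i => (γ M)⁻¹ * γ (Y i))
        (fun l => by
          have : γ (F l) = ι (TR A a l) ^ 2 + γ M * ι (TR A a l) := by simp [γ, F, M]
          rw [this]
          linear_combination (ι (TR A a l) ^ 2 * (γ M * (γ M)⁻¹ + 1) + γ M * ι (TR A a l)) *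
            mul_inv_cancel₀ m0)
        (fun i => mul_inv_cancel_left₀ m0 _)
      have e1 : pt A (fun l => (γ M)⁻¹ * ι (TR A a l)) (fun i => γ (w i))
          (fun i => (γ M)⁻¹ * γ (Y i)) = fun m => ι (X m) := by
        funext m
        rcases m with i | i
        · rfl
        · have : γ (Y i) = γ M * ι (X (Sum.inr i)) +
              Aop A (fun l => ι (TR A a l)) (fun i => γ (w i)) i := by
            change ι (_ + _) = _
            rw [map_add, map_mul, map_Aop]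
            rfl
          simp only [pt, Sum.elim_inr, Pi.add_apply, Aop_mul]
          rw [this, mul_add, add_assoc, CharTwo.add_self_eq_zero, add_zero,
            inv_mul_cancel_left₀ m0]
      have e2 : (aeval fun m => ι (X m) : MvPolynomial (Fin u ⊕ Fin u) k →ₐ[k] K) = ι :=
        algHom_ext fun m => aeval_X _ _
      rw [e1, e2] at g
      exact hγ (by rw [map_mul, map_pow]; exact g)
    exact ⟨n, er ▸ hr, fun Ω _ _ γ θ y h1 h2 => er ▸ gen Ω γ θ y h1 h2⟩
  refine ⟨M, F, Y, TR A a, h, _, (Mpoly_eq a).symm, fun l => rfl, fun i => rfl, hMB,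
    fun p => ?_, jac_clause a, fun Ω _ _ γ θ y h0 h1 h2 p => ?_⟩
  · by_cases h0 : M = 0
    · exact ⟨1, by rw [h0, pow_one, zero_mul]; exact Subalgebra.zero_mem _⟩
    · obtain ⟨n, hn, -⟩ := key h0 p
      exact ⟨n, hn⟩
  · obtain ⟨n, -, hn⟩ := key (fun e => h0 (by rw [e, map_zero])) p
    have := hn Ω γ θ y h1 h2
    rw [map_mul, map_pow] at this
    exact (mul_left_cancel₀ (pow_ne_zero n h0) this).symm

omit [CharP k 2] in
theorem exists_vand {D : Type} [CommRing D] [IsDomain D] [Algebra k D] (Λ : Finset k)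
    {α : Type} (s : Finset α) (v : α → Fin u → D) (hv : ∀ c ∈ s, v c ≠ 0)
    (hΛ : s.card * u < Λ.card) : ∃ a ∈ Λ, ∀ c ∈ s, vand a (v c) ≠ 0 := by
  classical
  let P : α → Polynomial D := fun c => ∑ i : Fin u, Polynomial.monomial (i : ℕ) (v c i)
  have h0 : ∀ c ∈ s, P c ≠ 0 := fun c hc e => hv c hc (funext fun i => by
    have := congrArg (fun p => Polynomial.coeff p i) e
    simpa [P, Polynomial.finsetSum_coeff, Polynomial.coeff_monomial, Fin.val_inj] using this)
  have h1 : ∀ c ∈ s, (P c).natDegree ≤ u := fun c _ =>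
    Polynomial.natDegree_sum_le_of_forall_le _ _ fun i _ =>
      (Polynomial.natDegree_monomial_le _).trans i.2.le
  have h2 : ∀ c a, (P c).eval (algebraMap k D a) = vand a (v c) := fun c a => by
    simp [P, vand, Polynomial.eval_finsetSum, Algebra.smul_def, mul_comm]
  by_contra h
  push Not at h
  refine Finset.prod_ne_zero_iff.2 h0 (Polynomial.eq_zero_of_natDegree_lt_card_of_eval_eq_zero'
    _ (Λ.image (algebraMap k D)) (fun x hx => ?_) ?_)
  · obtain ⟨a, ha, rfl⟩ := Finset.mem_image.1 hx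
    obtain ⟨c, hc, e⟩ := h a ha
    rw [Polynomial.eval_prod]
    exact Finset.prod_eq_zero hc (by rw [h2, e])
  · rw [Finset.card_image_of_injective _ (algebraMap k D).injective]
    refine lt_of_le_of_lt ((Polynomial.natDegree_prod_le _ _).trans ?_) hΛ
    rw [← smul_eq_mul]
    exact Finset.sum_le_card_nsmul _ _ _ h1

omit [CharP k 2] in
theorem StructB_exists [Infinite k] (hA : H1 A) {D : Type} [CommRing D] [IsDomain D] [Algebra k D]
    (φ : MvPolynomial (Fin u ⊕ Fin u) k →ₐ[k] D) (hφ : ∃ i, φ (X (Sum.inl i)) ≠ 0) :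
    ∃ a, φ (Mpoly A a) ≠ 0 := by
  obtain ⟨Λ, hΛ⟩ := Infinite.exists_subset_card_eq k ((bitsNZ k).card * u + 1)
  obtain ⟨a, -, ha⟩ := exists_vand Λ (bitsNZ k)
    (fun c => Aop A (fun l => algebraMap k D (c l)) fun i => φ (X (Sum.inl i)))
    (fun c hc e => by
      obtain ⟨i, hi⟩ := hφ
      rw [mem_bitsNZ] at hc
      exact hi (mem_of_Aop_mem hA hc.2 hc.1 (⊥ : Submodule k D) (fun i => φ (X (Sum.inl i)))
        (fun i => by rw [e]; rfl) i)) (by omega)
  refine ⟨a, ?_⟩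
  rw [Mpoly, map_prod]
  refine Finset.prod_ne_zero_iff.2 fun c hc => ?_
  simpa only [map_vand, map_Aop, algHom_C] using ha c hc

theorem exists_Mpoly_ne_zero [Infinite k] (hA : H1 A) (hu : 0 < u) : ∃ a, Mpoly A a ≠ 0 :=
  StructB_exists hA (AlgHom.id k _) ⟨⟨0, hu⟩, X_ne_zero _⟩

theorem exists_not_dvd_jac [Infinite k] (hA : H1 A) (hu : 2 ≤ u)
    (π : MvPolynomial (Fin u ⊕ Fin u) k) (hπ : Prime π) :
    ∃ b : Fin u ⊕ Fin u → Inv A, ¬ π ∣ jac fun i => (b i : MvPolynomial (Fin u ⊕ Fin u) k) := by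
  have : (Ideal.span {π}).IsPrime := (Ideal.span_singleton_prime hπ.ne_zero).2 hπ
  have hz : ∀ p, Ideal.Quotient.mkₐ k (Ideal.span {π}) p = 0 ↔ π ∣ p := fun p => by
    rw [Ideal.Quotient.mkₐ_eq_mk, Ideal.Quotient.eq_zero_iff_mem, Ideal.mem_span_singleton]
  obtain ⟨a, ha⟩ := StructB_exists hA (Ideal.Quotient.mkₐ k (Ideal.span {π})) (by
    by_contra h
    push Not at h
    have h0 := (hz _).1 (h ⟨0, by omega⟩)
    have h1 := (hz _).1 (h ⟨1, by omega⟩)
    have := (hπ.associated_of_dvd X_prime h0).symm.dvd.trans h1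
    simp [X_dvd_X] at this)
  by_contra h
  push Not at h
  have h1 : Ideal.span (Set.range fun b : Fin u ⊕ Fin u → Inv A =>
      jac fun i => (b i : MvPolynomial (Fin u ⊕ Fin u) k)) ≤ Ideal.span {π} :=
    Ideal.span_le.2 (by
      rintro _ ⟨b, rfl⟩
      exact Ideal.mem_span_singleton.2 (h b))
  have h2 := h1 (jac_clause a)
  rw [Ideal.mem_span_singleton, ← Mpoly_eq] at h2
  exact ha ((hz _).2 (hπ.dvd_of_dvd_pow h2))

end Pool.Agent.MP_536a45_ag
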