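import Pool.Agent.Mg.F536a45a.Gf5ff52
import Pool.Agent.Mg.F536a45a.Gda2d92
import Pool.Agent.MP_536a45_ag.Omega
import Pool.Agent.MP_536a45_ag.Cls
import Pool.Agent.Mg.F536a45a.G762d4f
import Pool.Agent.Mg.F536a45a.G71d92b
import Pool.Agent.MP_536a45_ag.Dim
import Pool.Agent.MP_536a45_ag.Setup
import Pool.Agent.Mg.F536a45a.G3a35f9
import Pool.Agent.Mg.F536a45a.G0b2ed2
import Pool.Agent.MP_536a45_ag.Stringy

set_option linter.all false

section

/-!
# Arcs of the quotient and twisted arcs of the affine space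
-/

open MvPolynomial HahnSeries

namespace Pool.Agent.MP_536a45_ag

variable {u : ℕ} {A : Fin 3 → Matrix (Fin u) (Fin u) kk} {N : ℕ}

/-- The Jacobian determinant of the generators `f (J i)`. -/
noncomputable def Dl (f : Fin N → Inv A) (J : Fin u ⊕ Fin u → Fin N) : Inv A :=
  ⟨jac fun i => (f (J i) : MvPolynomial (Fin u ⊕ Fin u) kk), jac_mem_Inv fun i => f (J i)⟩

/-- The Jacobian ideal. -/
noncomputable def II (f : Fin N → Inv A) : Ideal (Inv A) := Ideal.span (Set.range (Dl f))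

/-- Evaluation of invariants at a point of `Ω^σ`. -/
noncomputable def ev (A : Fin 3 → Matrix (Fin u) (Fin u) kk) (x : Fin u ⊕ Fin u → Om) :
    Inv A →ₐ[kk] Om := (aeval x).comp (Inv A).val

theorem ev_apply (x : Fin u ⊕ Fin u → Om) (a : Inv A) :
    ev A x a = aeval x (a : MvPolynomial (Fin u ⊕ Fin u) kk) := rfl

/-- The point `x` of `𝔸^σ(Ω)` lifts the arc `γ`. -/
def Lifts (x : Fin u ⊕ Fin u → Om) (γ : Inv A →ₐ[kk] PowerSeries kk) : Prop :=
  ∀ a, io (γ a) = ev A x a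

/-- The Jacobian ideal has order `s` at `β`. -/
def OrdEq (f : Fin N → Inv A) (β : Inv A →ₐ[kk] Om) (s : ℕ) : Prop :=
  (∀ J, β (Dl f J) ∈ VG s) ∧ ∃ J, (β (Dl f J)).coeff s ≠ 0

theorem le_arcOrd_iff (f : Fin N → Inv A) (γ : Inv A →ₐ[kk] PowerSeries kk) (s : ℕ) :
    (s : ℕ∞) ≤ arcOrd (II f) γ ↔ ∀ J, io (γ (Dl f J)) ∈ VG s := by
  simp only [arcOrd, le_iInf_iff, ← io_mem_VG_iff_order]
  refine ⟨fun h J => h _ (Ideal.subset_span ⟨J, rfl⟩), fun h a ha => ?_⟩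
  induction ha using Submodule.span_induction with
  | mem q hq => obtain ⟨J, rfl⟩ := hq; exact h J
  | zero => simp
  | add p q _ _ hp hq => rw [map_add, map_add]; exact (VG _).add_mem hp hq
  | smul c q _ hq =>
    rw [smul_eq_mul, map_mul, map_mul]; exact VG_mul_of_le (io_mem_VG_zero _) hq (by simp)

theorem arcOrd_eq_iff (f : Fin N → Inv A) (γ : Inv A →ₐ[kk] PowerSeries kk) (s : ℕ) :
    arcOrd (II f) γ = s ↔ OrdEq f (io.comp γ) s := by
  have h1 := le_arcOrd_iff f γ s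
  have h2 := le_arcOrd_iff f γ (s + 1)
  constructor
  · intro h
    refine ⟨h1.1 h.ge, ?_⟩
    by_contra hn
    push Not at hn
    have : ((s + 1 : ℕ) : ℕ∞) ≤ arcOrd (II f) γ := by
      refine h2.2 fun J => io_mem_VG_iff.2 fun i hi => ?_
      rcases Nat.lt_succ_iff_lt_or_eq.1 hi with hi | rfl
      · exact io_mem_VG_iff.1 (h1.1 h.ge J) i hi
      · rw [← io_coeff]; exact hn J
    rw [h] at this
    exact absurd (by exact_mod_cast this) (Nat.not_succ_le_self s)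
  · rintro ⟨ha, J, hJ⟩
    refine le_antisymm ?_ (h1.2 ha)
    by_contra hn
    have : ((s + 1 : ℕ) : ℕ∞) ≤ arcOrd (II f) γ := by
      push_cast; exact Order.add_one_le_of_lt (not_le.1 hn)
    exact hJ (h2.1 this J _ (by push_cast; linarith))

theorem Lifts.comp_eq {x : Fin u ⊕ Fin u → Om} {γ : Inv A →ₐ[kk] PowerSeries kk}
    (h : Lifts x γ) : io.comp γ = ev A x := AlgHom.ext h

theorem OrdEq.of_close {f : Fin N → Inv A} (hf : Algebra.adjoin kk (Set.range f) = ⊤)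
    {α β : Inv A →ₐ[kk] Om} {s : ℕ} (hs : OrdEq f β s) {t : ℚ} (ht : s < t)
    (hβ : ∀ j, β (f j) ∈ VG 0) (h : ∀ j, α (f j) - β (f j) ∈ VG t) : OrdEq f α s := by
  have h0 : (0 : ℚ) ≤ t := (Nat.cast_nonneg s).trans ht.le
  have key := algHom_sub_mem hf α β h0 hβ h
  refine ⟨fun J => ?_, ?_⟩
  · simpa using (VG s).add_mem (VG_mono (key (Dl f J)) ht.le) (hs.1 J)
  · obtain ⟨J, hJ⟩ := hs.2
    refine ⟨J, ?_⟩
    have := key (Dl f J) s ht
    rw [HahnSeries.coeff_sub, sub_eq_zero] at this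
    rwa [this]

/-- The vector of Artin–Schreier roots. -/
noncomputable def th (J : ℕ) (b : Fin 3 → ℕ → kk) : Fin 3 → Om := fun l => theta J (b l)

/-- Admissible data: `ξ = (w, y)` is a vector of power series and `A(θ) w` is integral. -/
structure Good (A : Fin 3 → Matrix (Fin u) (Fin u) kk) (θ : Fin 3 → Om)
    (ξ : Fin u ⊕ Fin u → Om) : Prop where
  inK : ∀ m, ξ m ∈ KK
  vg : ∀ m, ξ m ∈ VG 0
  adm : ∀ i, Aop A θ (fun j => ξ (Sum.inl j)) i ∈ VG 0

theorem Good.px_mem {θ : Fin 3 → Om} {ξ : Fin u ⊕ Fin u → Om} (h : Good A θ ξ) (m) :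
    px A θ ξ m ∈ VG 0 := by
  rcases m with i | i
  · exact h.vg _
  · exact (VG 0).add_mem (h.vg _) (h.adm i)

theorem ev_mem_KK {J : ℕ} {b : Fin 3 → ℕ → kk} {ξ : Fin u ⊕ Fin u → Om} (h : ∀ m, ξ m ∈ KK)
    (a : Inv A) : ev A (px A (th J b) ξ) a ∈ KK := by
  obtain ⟨q, hq⟩ := exists_sharp a.2
  rw [ev_apply, px, (hq Om _ _ _).1]
  refine aeval_mem_KK ?_ q
  rintro ((i | i) | l)
  · exact h _
  · exact h _
  · simp only [Sum.elim_inr, th, theta_sq_add]; exact asPoly_mem_KK _ _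

theorem exists_arc (β : Inv A →ₐ[kk] Om) (h1 : ∀ a, β a ∈ KK) (h2 : ∀ a, β a ∈ VG 0) :
    ∃ γ : Inv A →ₐ[kk] PowerSeries kk, ∀ a, io (γ a) = β a := by
  let e := AlgEquiv.ofInjective io io_injective
  refine ⟨(e.symm : io.range →ₐ[kk] PowerSeries kk).comp (β.codRestrict io.range fun a => ?_),
    fun a => ?_⟩
  · exact exists_io (h1 a) (h2 a)
  · have : ∀ y : io.range, io (e.symm y) = y := fun y => by
      have := congrArg Subtype.val (e.apply_symm_apply y)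
      rwa [AlgEquiv.ofInjective_apply] at this
    exact this _

theorem Good.exists_lifts {J : ℕ} {b : Fin 3 → ℕ → kk} {ξ : Fin u ⊕ Fin u → Om}
    (h : Good A (th J b) ξ) : ∃ γ : Inv A →ₐ[kk] PowerSeries kk, Lifts (px A (th J b) ξ) γ :=
  exists_arc _ (ev_mem_KK h.inK) fun _ => aeval_mem_VG h.px_mem _

theorem Aop_mem_VG {θ : Fin 3 → Om} {w : Fin u → Om} {a b : ℚ} (hθ : ∀ l, θ l ∈ VG a)
    (hw : ∀ j, w j ∈ VG b) (i : Fin u) : Aop A θ w i ∈ VG (a + b) :=
  tay_Aop_mem A _ (fun l j => VG_mul (hθ l) (hw j)) i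

theorem Aop_mem_KK {θ : Fin 3 → Om} {w : Fin u → Om} (hθ : ∀ l, θ l ∈ KK)
    (hw : ∀ j, w j ∈ KK) (i : Fin u) : Aop A θ w i ∈ KK :=
  tay_Aop_mem A (Subalgebra.toSubmodule KA) (fun l j => KK.mul_mem (hθ l) (hw j)) i

theorem Aop_th_mem_NK {J : ℕ} {b : Fin 3 → ℕ → kk} {w : Fin u → Om}
    (hw : ∀ j, w j ∈ KK) (i : Fin u) : Aop A (th J b) w i ∈ NK :=
  tay_Aop_mem A _ (fun _ j => NK_mul (theta_mem_NK _ _) (hw j)) i

theorem Aop_th_mem_VG {J : ℕ} {b : Fin 3 → ℕ → kk} {w : Fin u → Om} {a : ℚ}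
    (hw : ∀ j, w j ∈ VG a) (i : Fin u) : Aop A (th J b) w i ∈ VG (a - J) := by
  have := Aop_mem_VG (A := A) (fun l => theta_mem_VG J (b l)) hw i
  rwa [neg_add_eq_sub] at this

theorem px_th_mem_VG {J : ℕ} {b : Fin 3 → ℕ → kk} {δ : Fin u ⊕ Fin u → Om} {a : ℚ}
    (hδ : ∀ j, δ j ∈ VG a) (m) : px A (th J b) δ m ∈ VG (a - J) := by
  have hJ : a - J ≤ a := by linarith [Nat.cast_nonneg (α := ℚ) J]
  rcases m with i | i
  · exact VG_mono (hδ _) hJ
  · exact (VG _).add_mem (VG_mono (hδ _) hJ) (Aop_th_mem_VG (fun j => hδ _) i)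

theorem coeff_Aop (θ : Fin 3 → Om) (w : Fin u → Om) (g : ℚ) (c : Fin 3 → kk) (v : Fin u → kk)
    (h : ∀ l j, (θ l * w j).coeff g = c l * v j) (i : Fin u) :
    (Aop A θ w i).coeff g = Aop A c v i := by
  simp [Aop, HahnSeries.coeff_sum, h]

theorem coeff_Aop_const (c : Fin 3 → kk) (w : Fin u → Om) (g : ℚ) (i : Fin u) :
    (Aop A (fun l => algebraMap kk Om (c l)) w i).coeff g = Aop A c (fun j => (w j).coeff g) i :=
  coeff_Aop _ _ _ _ _ (fun l j => by rw [← Algebra.smul_def]; simp) i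

/-- The vector `w` has valuation exactly `r`. -/
def ExV (r : ℕ) (w : Fin u → Om) : Prop :=
  (∀ i, w i ∈ VG r) ∧ (fun i => (w i).coeff r) ≠ 0

theorem exists_ExV {w : Fin u → Om} (h0 : w ≠ 0) (hK : ∀ i, w i ∈ KK) (hV : ∀ i, w i ∈ VG 0) :
    ∃ r, ExV r w := by
  classical
  have hex : ∃ r : ℕ, (fun i => (w i).coeff r) ≠ 0 := by
    obtain ⟨i, hi⟩ := Function.ne_iff.1 h0
    obtain ⟨a, ha⟩ := exists_Ex hi
    obtain ⟨z, rfl⟩ := ha.int (hK i)
    have hz : 0 ≤ z := by exact_mod_cast ha.le (hV i)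
    lift z to ℕ using hz
    exact ⟨z, Function.ne_iff.2 ⟨i, by simpa using ha.2⟩⟩
  refine ⟨Nat.find hex, fun i => mem_VG_of_KK (hK i) fun z hz => ?_, Nat.find_spec hex⟩
  by_cases h : z < 0
  · exact hV i _ (by exact_mod_cast h)
  · lift z to ℕ using not_lt.1 h
    have := Nat.find_min hex (m := z) (by exact_mod_cast hz)
    simpa using congrFun (not_not.1 this) i

theorem ExV.le {r : ℕ} {w : Fin u → Om} (h : ExV r w) {a : ℚ} (ha : ∀ i, w i ∈ VG a) : a ≤ r :=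
  not_lt.1 fun hlt => h.2 (funext fun i => ha i _ hlt)

theorem rt_sq (n : ℕ) (β : kk) : rt (n + 1) β ^ 2 = rt n β := by
  apply (iterateFrobeniusEquiv kk 2 n).injective
  have h1 : (iterateFrobeniusEquiv kk 2 n) (rt n β) = β := RingEquiv.apply_symm_apply _ _
  have h2 : (iterateFrobeniusEquiv kk 2 (n + 1)) (rt (n + 1) β) = β :=
    RingEquiv.apply_symm_apply _ _
  rw [h1]
  rw [iterateFrobeniusEquiv_def] at h2 ⊢
  rw [← pow_mul, ← pow_succ', h2]

theorem rt_one_sq (β : kk) : rt 1 β ^ 2 = β := by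
  rw [rt_sq]
  have h1 : (iterateFrobeniusEquiv kk 2 0) (rt 0 β) = β := RingEquiv.apply_symm_apply _ _
  rwa [iterateFrobeniusEquiv_def, pow_zero, pow_one] at h1

theorem coeff_Aop_th {J j n : ℕ} {b : Fin 3 → ℕ → kk} (hj : j < J)
    (hb : ∀ l j', j < j' → b l j' = 0) (hn : 0 < n) {w : Fin u → Om} (hK : ∀ i, w i ∈ KK)
    {r : ℕ} (hw : ∀ i, w i ∈ VG r) (i : Fin u) :
    (Aop A (th J b) w i).coeff (r - (2 * j + 1 : ℚ) / 2 ^ n) =
      Aop A (fun l => rt n (b l j)) (fun i => (w i).coeff r) i :=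
  coeff_Aop _ _ _ _ _ (fun l i => by
    simpa [th] using coeff_theta_mul (r := r) hj (hb l) hn (hK i) (by simpa using hw i)) i

/-- The pole order of the Artin–Schreier data is bounded by the valuation of `w`. -/
theorem b_eq_zero (hA : H1 A) {J : ℕ} {b : Fin 3 → ℕ → kk} (hb : ∀ l j, J ≤ j → b l j = 0)
    {w : Fin u → Om} (hK : ∀ i, w i ∈ KK) {r : ℕ} (hw : ExV r w) {a : ℚ}
    (ha : ∀ i, Aop A (th J b) w i ∈ VG a) (l : Fin 3) (j : ℕ)
    (hj : (r : ℚ) - (2 * j + 1) / 4 < a) : b l j = 0 := by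
  classical
  by_contra hne
  let P : ℕ → Prop := fun j => ∃ l, b l j ≠ 0
  have hjJ : j < J := not_le.1 fun h => hne (hb l j h)
  set j₀ := Nat.findGreatest P J with hj₀
  have h1 : j ≤ j₀ := Nat.le_findGreatest hjJ.le ⟨l, hne⟩
  obtain ⟨l₀, hl₀⟩ : P j₀ := Nat.findGreatest_spec (m := j) hjJ.le ⟨l, hne⟩
  have h2 : j₀ < J := not_le.1 fun h => hl₀ (hb l₀ j₀ h)
  have h3 : ∀ l j', j₀ < j' → b l j' = 0 := by
    intro l j' hj'
    by_cases h : j' ≤ J
    · by_contra hc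
      exact Nat.findGreatest_is_greatest hj' h ⟨l, hc⟩
    · exact hb l j' (not_le.1 h).le
  have h1' : (j : ℚ) ≤ j₀ := by exact_mod_cast h1
  have h0 : (0 : ℚ) ≤ j₀ := Nat.cast_nonneg _
  refine hw.2 (hA (fun l => rt 2 (b l j₀)) _ ?_ ?_ ?_)
  · intro h
    have := congrFun h l₀
    simp only [Pi.zero_apply, map_eq_zero] at this
    exact hl₀ this
  · funext i
    rw [← coeff_Aop_th h2 h3 two_pos hK hw.1]
    exact ha i _ (by norm_num; linarith)
  · funext i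
    simp only [rt_sq]
    rw [← coeff_Aop_th h2 h3 one_pos hK hw.1]
    exact ha i _ (by norm_num; linarith)

theorem Dl_mem_span (hA : H1 A) (hu : 0 < u) (f : Fin N → Inv A) (J : Fin u ⊕ Fin u → Fin N) :
    (Dl f J : MvPolynomial (Fin u ⊕ Fin u) kk) ∈
      Ideal.span (Set.range fun j : Fin u => (X (Sum.inl j) : MvPolynomial (Fin u ⊕ Fin u) kk)) :=
  det_mem_of_col _ _ (Sum.inr ⟨0, hu⟩) fun i => pderiv_inr_mem hA (f (J i)).2 _

theorem le_of_ordEq (hA : H1 A) (hu : 0 < u) {f : Fin N → Inv A} {x : Fin u ⊕ Fin u → Om}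
    (hx : ∀ m, x m ∈ VG 0) {s : ℕ} (hs : OrdEq f (ev A x) s) {r : ℚ}
    (hr : ∀ i, x (Sum.inl i) ∈ VG r) : r ≤ s := by
  obtain ⟨J, hJ⟩ := hs.2
  refine not_lt.1 fun hlt => hJ ?_
  exact aeval_mem_VG_of_span hx (fun j => by simpa using hr j) (Dl_mem_span hA hu f J) _ hlt

theorem w_ne_zero (hA : H1 A) (hu : 0 < u) {f : Fin N → Inv A} {β : Inv A →ₐ[kk] Om} {s : ℕ}
    (hs : OrdEq f β s) : (fun i => β ⟨X (Sum.inl i), X_inl_mem i⟩) ≠ 0 := by
  intro h0
  obtain ⟨J, hJ⟩ := hs.2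
  have := isIntegral_Inv (A := A)
  have hP : (RingHom.ker β).IsPrime := RingHom.ker_isPrime _
  obtain ⟨Q, -, -, hQ⟩ := Ideal.exists_ideal_over_prime_of_isIntegral (RingHom.ker β)
    (⊥ : Ideal (MvPolynomial (Fin u ⊕ Fin u) kk)) (by
      intro a ha
      have : a = 0 := Subtype.ext (by simpa using ha)
      rw [this]; exact zero_mem _)
  have h1 : Ideal.span (Set.range fun j : Fin u =>
      (X (Sum.inl j) : MvPolynomial (Fin u ⊕ Fin u) kk)) ≤ Q := by
    rw [Ideal.span_le]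
    rintro _ ⟨j, rfl⟩
    have : (⟨X (Sum.inl j), X_inl_mem j⟩ : Inv A) ∈ RingHom.ker β := congrFun h0 j
    rw [← hQ] at this
    exact this
  have h2 : Dl f J ∈ RingHom.ker β := by
    rw [← hQ]; exact h1 (Dl_mem_span hA hu f J)
  rw [RingHom.mem_ker] at h2
  exact hJ (by rw [show β (Dl f J) = 0 from h2]; rfl)

theorem mem_VG_of_ev {x : Fin u ⊕ Fin u → Om} (h : ∀ a, ev A x a ∈ VG 0) (m) : x m ∈ VG 0 := by
  have := isIntegral_Inv (A := A)
  obtain ⟨p, hp, hp0⟩ := Algebra.IsIntegral.isIntegral (R := Inv A)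
    (X m : MvPolynomial (Fin u ⊕ Fin u) kk)
  refine mem_VR_of_monic (p.map (ev A x : Inv A →+* Om)) (hp.map _) (fun i => ?_) ?_
  · rw [Polynomial.coeff_map]; exact h _
  · have := congrArg (aeval x) hp0
    rw [map_zero, ← RingHom.coe_coe, Polynomial.hom_eval₂] at this
    rw [Polynomial.eval_map]
    simp only [RingHom.coe_coe, aeval_X] at this
    exact this

theorem good_of_ev {J : ℕ} {b : Fin 3 → ℕ → kk} {ξ : Fin u ⊕ Fin u → Om} (hK : ∀ m, ξ m ∈ KK)
    (h : ∀ a, ev A (px A (th J b) ξ) a ∈ VG 0) : Good A (th J b) ξ := by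
  have h1 := mem_VG_of_ev h
  have h2 : ∀ i, _ := fun i => VG_sep (hK (Sum.inr i)) (Aop_th_mem_NK (fun j => hK _) i)
    (h1 (Sum.inr i))
  refine ⟨hK, ?_, fun i => (h2 i).2⟩
  rintro (i | i)
  · exact h1 (Sum.inl i)
  · exact (h2 i).1

end Pool.Agent.MP_536a45_ag

end

section

/-!
# Lifting of arcs, uniqueness of lifts up to the group, and first-order deformations
-/

open MvPolynomial HahnSeries

namespace Pool.Agent.MP_536a45_ag

variable {u : ℕ} {A : Fin 3 → Matrix (Fin u) (Fin u) kk} {N : ℕ}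

/-- A finite family of charts covering the free locus. -/
structure Charts (A : Fin 3 → Matrix (Fin u) (Fin u) kk) where
  Λ : Finset kk
  card : 7 * u < Λ.card
  M : kk → Inv A
  F : kk → Fin 3 → Inv A
  Y : kk → Fin u → Inv A
  Θ : kk → Fin 3 → MvPolynomial (Fin u ⊕ Fin u) kk
  h : kk → Fin u ⊕ Fin u → Inv A
  E : ℕ
  hM : ∀ a, (M a : MvPolynomial (Fin u ⊕ Fin u) kk) = Mpoly A a
  hF : ∀ a l, (F a l : MvPolynomial (Fin u ⊕ Fin u) kk) =
    Θ a l ^ 2 + (M a : MvPolynomial (Fin u ⊕ Fin u) kk) * Θ a l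
  hY : ∀ a i, (Y a i : MvPolynomial (Fin u ⊕ Fin u) kk) =
    (M a : MvPolynomial (Fin u ⊕ Fin u) kk) * X (Sum.inr i) +
      Aop A (Θ a) (fun j => X (Sum.inl j)) i
  hMh : ∀ a, M a ∈ Algebra.adjoin kk (Set.range (h a))
  chart : ∀ a (p : Inv A), ∃ n : ℕ, M a ^ n * p ∈ Algebra.adjoin kk (Set.range (h a))
  hE : ∀ a ∈ Λ, (M a : MvPolynomial (Fin u ⊕ Fin u) kk) ^ E ∈ Ideal.span (Set.range
    fun b : Fin u ⊕ Fin u → Inv A => jac fun i => (b i : MvPolynomial (Fin u ⊕ Fin u) kk))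
  lift : ∀ a (γ : Inv A →ₐ[kk] Om) (θ : Fin 3 → Om) (y : Fin u → Om),
    γ (M a) ≠ 0 → (∀ l, γ (M a) ^ 2 * (θ l ^ 2 + θ l) = γ (F a l)) →
    (∀ i, γ (M a) * y i = γ (Y a i)) →
    ∀ p : Inv A, γ p = aeval (pt A θ (fun i => γ ⟨X (Sum.inl i), X_inl_mem i⟩) y)
      (p : MvPolynomial (Fin u ⊕ Fin u) kk)

theorem nonempty_charts (hu : 0 < u) : Nonempty (Charts A) := by
  choose M F Y Θ h e h1 h2 h3 h4 h5 h6 h7 using exists_chart (A := A) hu
  obtain ⟨Λ, hΛ⟩ := Infinite.exists_subset_card_eq kk (7 * u + 1)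
  refine ⟨⟨Λ, by omega, M, F, Y, Θ, h, Λ.sup e, h1, h2, h3, h4, h5, fun a ha => ?_,
    fun a => h7 a Om⟩⟩
  obtain ⟨d, hd⟩ := Nat.exists_eq_add_of_le (Finset.le_sup (f := e) ha)
  rw [hd, _root_.pow_add]
  exact Ideal.mul_mem_right _ _ (h6 a)

theorem Charts.M_eval (C : Charts A) (β : Inv A →ₐ[kk] Om) (a : kk) :
    β (C.M a) = ∏ c ∈ bitsNZ kk, vand a (Aop A (fun l => algebraMap kk Om (c l))
      fun i => β ⟨X (Sum.inl i), X_inl_mem i⟩) := by
  have : C.M a = ∏ c ∈ bitsNZ kk, vand a (Aop A (fun l => algebraMap kk (Inv A) (c l))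
      fun i => (⟨X (Sum.inl i), X_inl_mem i⟩ : Inv A)) := by
    apply Subtype.ext
    rw [C.hM, ← Subalgebra.coe_val, map_prod, Mpoly]
    refine Finset.prod_congr rfl fun c _ => ?_
    rw [tay_map_vand]
    congr 1
    funext i
    rw [tay_map_Aop]
    simp only [AlgHom.commutes, Subalgebra.coe_val, algebraMap_eq]
  rw [this, map_prod]
  refine Finset.prod_congr rfl fun c _ => ?_
  rw [tay_map_vand]
  congr 1
  funext i
  rw [tay_map_Aop]
  simp

theorem Aop_ne_zero (hA : H1 A) {c : Fin 3 → kk} (hc : c ∈ bits kk) (hc0 : c ≠ 0)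
    {v : Fin u → kk} (hv : v ≠ 0) : Aop A c v ≠ 0 := fun h =>
  hv (hA c v hc0 h (by rw [show (fun l => c l ^ 2) = c from funext hc]; exact h))

theorem Charts.exists_Ex (C : Charts A) (hA : H1 A) (β : Inv A →ₐ[kk] Om) {r : ℕ}
    (hw : ExV r fun i => β ⟨X (Sum.inl i), X_inl_mem i⟩) :
    ∃ a ∈ C.Λ, Ex (7 * r) (β (C.M a)) := by
  obtain ⟨a, ha, h⟩ := exists_vand (D := kk) C.Λ (bitsNZ kk)
    (fun c => Aop A c fun i => (β ⟨X (Sum.inl i), X_inl_mem i⟩).coeff r)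
    (fun c hc => Aop_ne_zero hA (mem_bitsNZ.1 hc).2 (mem_bitsNZ.1 hc).1 hw.2)
    (by rw [card_bitsNZ]; exact C.card)
  refine ⟨a, ha, ?_⟩
  rw [C.M_eval]
  have := Ex.prod (bitsNZ kk) (a := r) (x := fun c => vand a (Aop A
    (fun l => algebraMap kk Om (c l)) fun i => β ⟨X (Sum.inl i), X_inl_mem i⟩)) fun c hc => ⟨?_, ?_⟩
  · rwa [card_bitsNZ] at this
  · refine Submodule.sum_mem _ fun i _ => Submodule.smul_mem _ _ ?_
    simpa using Aop_mem_VG (A := A) (fun l => algebraMap_mem_VG (c l)) hw.1 i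
  · have h1 := h c hc
    simp only [vand, smul_eq_mul] at h1
    simpa only [vand, HahnSeries.coeff_sum, HahnSeries.coeff_smul, coeff_Aop_const, smul_eq_mul]
      using h1

theorem ev_X_inl (x : Fin u ⊕ Fin u → Om) (i : Fin u) :
    ev A x ⟨X (Sum.inl i), X_inl_mem i⟩ = x (Sum.inl i) := by simp [ev_apply]

theorem ev_mem_VG {x : Fin u ⊕ Fin u → Om} (hx : ∀ m, x m ∈ VG 0) (a : Inv A) :
    ev A x a ∈ VG 0 := aeval_mem_VG hx _

theorem Charts.le_of_all (C : Charts A) (hA : H1 A) {f : Fin N → Inv A}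
    (hf : Algebra.adjoin kk (Set.range f) = ⊤) {x : Fin u ⊕ Fin u → Om} (hx : ∀ m, x m ∈ VG 0)
    {r : ℕ} (hw : ExV r fun i => x (Sum.inl i)) {t : ℚ} (ht : ∀ J, ev A x (Dl f J) ∈ VG t) :
    t ≤ 7 * r * C.E := by
  obtain ⟨a, ha, h⟩ := C.exists_Ex hA (ev A x) (r := r) (by simpa only [ev_X_inl] using hw)
  have h1 := h.pow C.E
  rw [ev_apply, ← map_pow] at h1
  have h2 := aeval_mem_VG_of_span hx (t := t) (fun b => ?_) (C.hE a ha)
  · have := h1.le h2
    linarith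
  · have hb := jac_mem_span (Inv A) jac_mem_Inv f hf b
    change ev A x ⟨_, jac_mem_Inv b⟩ ∈ _
    generalize (⟨_, jac_mem_Inv b⟩ : Inv A) = q at hb
    induction hb using Submodule.span_induction with
    | mem q hq => obtain ⟨J, rfl⟩ := hq; exact ht J
    | zero => simp
    | add p q _ _ hp hq => rw [map_add]; exact (VG _).add_mem hp hq
    | smul c q _ hq =>
      rw [smul_eq_mul, map_mul]; exact VG_mul_of_le (aeval_mem_VG hx _) hq (by simp)

theorem th_congr {J J' : ℕ} {b : Fin 3 → ℕ → kk} {n : ℕ} (hb : ∀ l j, n ≤ j → b l j = 0)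
    (h : n ≤ J) (h' : n ≤ J') : th J b = th J' b :=
  funext fun l => theta_congr (fun _ _ _ => rfl) (fun j hj _ => hb l j (h'.trans hj))
    fun j hj _ => hb l j (h.trans hj)

/-- Every arc of finite order lifts to a twisted arc. -/
theorem Charts.exists_lift (C : Charts A) (hA : H1 A) (hu : 0 < u) {f : Fin N → Inv A}
    (γ : Inv A →ₐ[kk] PowerSeries kk) {s : ℕ} (hs : OrdEq f (io.comp γ) s) {J : ℕ}
    (hJ : 2 * s ≤ J) : ∃ (b : Fin 3 → ℕ → kk) (ξ : Fin u ⊕ Fin u → Om),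
      (∀ l j, J ≤ j → b l j = 0) ∧ Good A (th J b) ξ ∧ Lifts (px A (th J b) ξ) γ := by
  set β := io.comp γ with hβ
  have hβK : ∀ a, β a ∈ KK := fun a => io_mem_KK _
  have hβV : ∀ a, β a ∈ VG 0 := fun a => io_mem_VG_zero _
  obtain ⟨r, hr⟩ := exists_ExV (w_ne_zero hA hu hs) (fun i => hβK _) fun i => hβV _
  obtain ⟨a, -, ha⟩ := C.exists_Ex hA β hr
  have hM := ha.ne_zero
  choose J₀ b h hh hb hφ using fun l => exists_normal_form
    (KK.div_mem (hβK (C.F a l)) (KK.pow_mem (hβK (C.M a)) 2))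
  set J₁ := Finset.univ.sup J₀ with hJ₁
  have hb₁ : ∀ l j, J₁ ≤ j → b l j = 0 := fun l j hj =>
    hb l j ((Finset.le_sup (f := J₀) (Finset.mem_univ l)).trans hj)
  have hth : ∀ l, theta (J₀ l) (b l) = th J₁ b l := fun l =>
    theta_congr (fun _ _ _ => rfl) (fun j hj _ => hb₁ l j hj) fun j hj _ => hb l j hj
  set w : Fin u → Om := fun i => β ⟨X (Sum.inl i), X_inl_mem i⟩ with hw
  set y₀ : Fin u → Om := fun i => β (C.Y a i) / β (C.M a) with hy₀
  have hlift := C.lift a β (h + th J₁ b) y₀ hM (fun l => by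
    rw [Pi.add_apply, CharTwo.add_sq, ← hth, show h l ^ 2 + theta (J₀ l) (b l) ^ 2 +
      (h l + theta (J₀ l) (b l)) = h l ^ 2 + h l + (theta (J₀ l) (b l) ^ 2 + theta (J₀ l) (b l))
      by ring, theta_sq_add, ← hφ, mul_div_cancel₀ _ (pow_ne_zero 2 hM)])
    fun i => mul_div_cancel₀ _ hM
  set ξ : Fin u ⊕ Fin u → Om := Sum.elim w (y₀ + Aop A h w) with hξ
  have hx : pt A (h + th J₁ b) w y₀ = px A (th J₁ b) ξ := by
    funext m
    rcases m with i | i
    · simp only [pt, Sum.elim_inl, px_inl, hξ]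
    · simp only [pt, Sum.elim_inr, px_inr, hξ, Sum.elim_inl, tay_Aop_add_left, Pi.add_apply]
      ring
  have hL : ∀ p, β p = ev A (px A (th J₁ b) ξ) p := fun p => by rw [hlift p, ev_apply, ← hx]
  have hξK : ∀ m, ξ m ∈ KK := by
    rintro (i | i)
    · exact hβK _
    · exact KK.add_mem (KK.div_mem (hβK _) (hβK _)) (Aop_mem_KK hh (fun j => hβK _) i)
  have hG : Good A (th J₁ b) ξ := good_of_ev hξK fun p => hL p ▸ hβV p
  have hb₂ : ∀ l j, 2 * r ≤ j → b l j = 0 := fun l j hj =>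
    b_eq_zero hA hb₁ (fun i => hβK _) hr hG.adm l j (by
      have : (2 * r : ℚ) ≤ j := by exact_mod_cast hj
      linarith)
  have hrs : r ≤ s := by
    have := le_of_ordEq hA hu hG.px_mem (f := f) (s := s) (by
      rwa [show ev A (px A (th J₁ b) ξ) = β from (AlgHom.ext hL).symm]) hr.1
    exact_mod_cast this
  have e : th J₁ b = th J b := by
    funext l
    exact theta_congr (fun _ _ _ => rfl) (fun j hj _ => hb₂ l j (by omega))
      fun j hj _ => hb₁ l j hj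
  exact ⟨b, ξ, fun l j hj => hb₂ l j (by omega), e ▸ hG, e ▸ hL⟩

theorem div_sub_div_mem {a a' M M' : Om} {ν t : ℚ} (hν : 0 ≤ ν) (ha : a ∈ VG 0)
    (haa : a' - a ∈ VG t) (hM : Ex ν M) (hM' : Ex ν M') (hMM : M' - M ∈ VG t) :
    a' / M' - a / M ∈ VG (t - 2 * ν) := by
  have e : a' / M' - a / M = (a' - a) * M'⁻¹ - a * (M' - M) * (M⁻¹ * M'⁻¹) := by
    have := hM.ne_zero
    have := hM'.ne_zero
    field_simp
    ring
  rw [e]
  exact (VG _).sub_mem (VG_mul_of_le haa hM'.inv.1 (by linarith))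
    (VG_mul_of_le (VG_mul ha hMM) (hM.inv.mul hM'.inv).1 (by linarith))

/-- Two integral points with close invariants are close up to the group action. -/
theorem Charts.close_pt (C : Charts A) (hA : H1 A) {x x' : Fin u ⊕ Fin u → Om}
    (hx : ∀ m, x m ∈ VG 0) (hx' : ∀ m, x' m ∈ VG 0) {r : ℕ} (hw : ExV r fun i => x (Sum.inl i))
    {t : ℚ} (ht : ∀ a, ev A x' a - ev A x a ∈ VG t) (hrt : 7 * r < t) :
    ∃ c ∈ bits kk, ∀ m, x' m - px A (fun l => algebraMap kk Om (c l)) x m ∈ VG (t - 28 * r) := by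
  obtain ⟨a, -, hM⟩ := C.exists_Ex hA (ev A x) (r := r) (by simpa only [ev_X_inl] using hw)
  have hr0 : (0 : ℚ) ≤ r := Nat.cast_nonneg r
  have hM' : Ex (7 * r) (ev A x' (C.M a)) := by
    simpa using hM.add_of_lt (ht (C.M a)) hrt
  set M := ev A x (C.M a) with hMd
  set M' := ev A x' (C.M a) with hMd'
  set θ : Fin 3 → Om := fun l => aeval x (C.Θ a l) / M with hθ
  set θ' : Fin 3 → Om := fun l => aeval x' (C.Θ a l) / M' with hθ'
  have hF : ∀ (x : Fin u ⊕ Fin u → Om) l, ev A x (C.M a) ≠ 0 →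
      ev A x (C.F a l) / ev A x (C.M a ^ 2) =
      (aeval x (C.Θ a l) / ev A x (C.M a)) ^ 2 + aeval x (C.Θ a l) / ev A x (C.M a) := by
    intro x l h0
    rw [map_pow, ev_apply x (C.F a l), C.hF, map_add, map_pow, map_mul, ← ev_apply]
    field_simp
  have hY : ∀ (x : Fin u ⊕ Fin u → Om) i, ev A x (C.M a) ≠ 0 →
      ev A x (C.Y a i) / ev A x (C.M a) = x (Sum.inr i) +
      Aop A (fun l => aeval x (C.Θ a l) / ev A x (C.M a)) (fun j => x (Sum.inl j)) i := by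
    intro x i h0
    rw [ev_apply x (C.Y a i), C.hY, map_add, map_mul, ← ev_apply, tay_map_Aop, aeval_X]
    simp only [aeval_X, div_eq_inv_mul, tay_Aop_mul_left]
    field_simp
  have hη : ∀ l, ∃ c : kk, c ^ 2 = c ∧ θ' l - θ l + algebraMap kk Om c ∈ VG (t - 28 * r) := by
    intro l
    have h1 := div_sub_div_mem (ν := 2 * (7 * r)) (by linarith) (ev_mem_VG hx _)
      (ht (C.F a l)) (by rw [map_pow]; exact_mod_cast hM.pow 2)
      (by rw [map_pow]; exact_mod_cast hM'.pow 2) (ht (C.M a ^ 2))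
    rw [hF x l hM.ne_zero, hF x' l hM'.ne_zero] at h1
    have h2 : (θ' l - θ l) ^ 2 + (θ' l - θ l) ∈ VG (t - 28 * r) := by
      have e : (θ' l - θ l) ^ 2 + (θ' l - θ l) = θ' l ^ 2 + θ' l - (θ l ^ 2 + θ l) := by
        simp only [CharTwo.sub_eq_add, CharTwo.add_sq]; ring
      rw [e]
      exact VG_mono h1 (by linarith)
    rcases mem_VG_of_sq_add h2 with h | h
    · exact ⟨0, by simp, by simpa using h⟩
    · exact ⟨1, by simp, by simpa using h⟩
  choose c hc hcη using hη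
  have hww : ∀ i, x' (Sum.inl i) - x (Sum.inl i) ∈ VG t := fun i => by
    simpa only [ev_X_inl] using ht ⟨X (Sum.inl i), X_inl_mem i⟩
  refine ⟨c, hc, ?_⟩
  rintro (i | i)
  · exact VG_mono (hww i) (by linarith)
  · have h1 := div_sub_div_mem (ν := 7 * r) (by linarith) (ev_mem_VG hx _)
      (ht (C.Y a i)) hM hM' (ht (C.M a))
    rw [hY x i hM.ne_zero, hY x' i hM'.ne_zero] at h1
    have hθ'V : ∀ l, θ' l ∈ VG (-(7 * r)) := fun l =>
      VG_mul_of_le (aeval_mem_VG hx' _) hM'.inv.1 (by simp)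
    have h2 := Aop_mem_VG (A := A) hθ'V hww i
    have h3 := Aop_mem_VG (A := A) hcη (fun j => hx (Sum.inl j)) i
    have h4 := (VG (t - 28 * r)).sub_mem ((VG _).sub_mem (VG_mono h1 (by linarith))
      (VG_mono h2 (by linarith))) (VG_mono h3 (by linarith))
    convert h4 using 1
    have e1 := congrFun (tay_Aop_sub_right A θ' (fun j => x' (Sum.inl j))
      fun j => x (Sum.inl j)) i
    have e2 := congrFun (tay_Aop_add_left A (θ' - θ) (fun l => algebraMap kk Om (c l))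
      fun j => x (Sum.inl j)) i
    rw [tay_Aop_sub_left] at e2
    simp only [Pi.add_apply, Pi.sub_apply] at e1 e2
    change _ = _ - Aop A θ' ((fun j => x' (Sum.inl j)) - fun j => x (Sum.inl j)) i -
      Aop A ((θ' - θ) + fun l => algebraMap kk Om (c l)) (fun j => x (Sum.inl j)) i
    rw [e1, e2, px_inr]
    ring

theorem th_sub (J : ℕ) (b b' : Fin 3 → ℕ → kk) : th J (b' - b) = th J b' - th J b := by
  funext l
  have := theta_add J ((b' - b) l) (b l)
  rw [show (b' - b) l + b l = b' l by simp] at this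
  simp only [th, Pi.sub_apply] at this ⊢
  rw [this]; ring

/-- Two twisted arcs with close invariants have the same Artin–Schreier data and are close up to
the group action. -/
theorem Charts.close (C : Charts A) (hA : H1 A) {J : ℕ} {b b' : Fin 3 → ℕ → kk}
    (hb : ∀ l j, J ≤ j → b l j = 0) (hb' : ∀ l j, J ≤ j → b' l j = 0)
    {ξ ξ' : Fin u ⊕ Fin u → Om} (hG : Good A (th J b) ξ) (hG' : Good A (th J b') ξ') {r : ℕ}
    (hw : ExV r fun i => ξ (Sum.inl i)) {t n₂ : ℚ}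
    (ht : ∀ a, ev A (px A (th J b') ξ') a - ev A (px A (th J b) ξ) a ∈ VG t)
    (h1 : n₂ ≤ t - 28 * r) (h2 : n₂ ≤ t - J) (h3 : r < n₂) :
    b' = b ∧ ∃ c ∈ bits kk, ∀ m, ξ' m - px A (fun l => algebraMap kk Om (c l)) ξ m ∈ VG n₂ := by
  have hr0 : (0 : ℚ) ≤ r := Nat.cast_nonneg r
  have hJ0 : (0 : ℚ) ≤ J := Nat.cast_nonneg J
  obtain ⟨c, hc, hcl⟩ := C.close_pt hA hG.px_mem hG'.px_mem (r := r) hw ht (by linarith)
  have hww : ∀ i, ξ' (Sum.inl i) - ξ (Sum.inl i) ∈ VG t := fun i => by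
    simpa only [ev_X_inl, px_inl] using ht ⟨X (Sum.inl i), X_inl_mem i⟩
  have key : ∀ i, ξ' (Sum.inr i) - px A (fun l => algebraMap kk Om (c l)) ξ (Sum.inr i) ∈ VG n₂ ∧
      Aop A (th J (b' - b)) (fun j => ξ (Sum.inl j)) i ∈ VG n₂ := by
    intro i
    refine VG_sep (KK.sub_mem (hG'.inK _) (KK.add_mem (hG.inK _)
      (Aop_mem_KK (fun l => algebraMap_mem_KK _) (fun j => hG.inK _) i)))
      (Aop_th_mem_NK (fun j => hG.inK _) i) ?_
    have h4 := (VG n₂).sub_mem (VG_mono (hcl (Sum.inr i)) h1)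
      (VG_mono (Aop_th_mem_VG (A := A) (J := J) (b := b') hww i) h2)
    convert h4 using 1
    have e1 := congrFun (tay_Aop_sub_right A (th J b') (fun j => ξ' (Sum.inl j))
      fun j => ξ (Sum.inl j)) i
    change _ = _ - Aop A (th J b') ((fun j => ξ' (Sum.inl j)) - fun j => ξ (Sum.inl j)) i
    rw [e1, th_sub, tay_Aop_sub_left]
    simp only [px_inr, px_inl, Pi.sub_apply]
    ring
  refine ⟨?_, c, hc, ?_⟩
  · funext l j
    have := b_eq_zero hA (b := b' - b) (fun l j hj => by simp [hb l j hj, hb' l j hj])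
      (fun i => hG.inK _) hw (fun i => (key i).2) l j (by
        have : (0 : ℚ) ≤ j := Nat.cast_nonneg j
        linarith)
    exact sub_eq_zero.1 this
  · rintro (i | i)
    · exact VG_mono (hww i) (by linarith)
    · exact (key i).1

end Pool.Agent.MP_536a45_ag

end

section

/-!
# First-order deformations of twisted arcs
-/

open MvPolynomial HahnSeries Matrix

namespace Pool.Agent.MP_536a45_ag

variable {u : ℕ} {A : Fin 3 → Matrix (Fin u) (Fin u) kk} {N : ℕ}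

/-- The Jacobian matrix of the generators at a point. -/
noncomputable def Dm (f : Fin N → Inv A) (x : Fin u ⊕ Fin u → Om) :
    Matrix (Fin N) (Fin u ⊕ Fin u) Om :=
  Matrix.of fun j m => aeval x (pderiv m (f j : MvPolynomial (Fin u ⊕ Fin u) kk))

theorem ev_Dl (f : Fin N → Inv A) (x : Fin u ⊕ Fin u → Om) (J : Fin u ⊕ Fin u → Fin N) :
    ev A x (Dl f J) = ((Dm f x).submatrix J id).det := by
  change aeval x (Matrix.det _) = _
  rw [AlgHom.map_det]
  congr 1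

theorem cramer_row {R : Type*} [CommRing R] {σ τ : Type*} [Fintype σ] [DecidableEq σ]
    (D : Matrix τ σ R) (J : σ → τ) (Δ : σ → R) (j : τ) :
    (D.submatrix J id).det * (D *ᵥ Δ) j =
      ∑ i, (D.submatrix (Function.update J i j) id).det * (D *ᵥ Δ) (J i) := by
  set B := D.submatrix J id with hB
  have h1 := Matrix.mulVec_cramer Bᵀ (D j)
  have h2 : ∀ i, cramer Bᵀ (D j) i = (D.submatrix (Function.update J i j) id).det := by
    intro i
    rw [cramer_transpose_apply]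
    congr 1
    ext a m
    by_cases h : a = i
    · subst h; simp
    · simp [hB, Matrix.updateRow_ne h, Function.update_of_ne h]
  have h3 := congrArg (fun v => v ⬝ᵥ Δ) h1
  simp only [det_transpose, smul_dotProduct, smul_eq_mul] at h3
  rw [mulVec_transpose, ← dotProduct_mulVec] at h3
  change _ * (D j ⬝ᵥ Δ) = _
  rw [← h3, dotProduct]
  exact Finset.sum_congr rfl fun i _ => by rw [h2]; rfl

theorem lin_mem_of_minor {f : Fin N → Inv A} {x : Fin u ⊕ Fin u → Om} {s : ℕ}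
    (hs : ∀ J, ev A x (Dl f J) ∈ VG s) {J₀ : Fin u ⊕ Fin u → Fin N}
    (hJ₀ : (ev A x (Dl f J₀)).coeff s ≠ 0) {Δ : Fin u ⊕ Fin u → Om} {t : ℚ}
    (h : ∀ i, (Dm f x *ᵥ Δ) (J₀ i) ∈ VG t) (j : Fin N) : (Dm f x *ᵥ Δ) j ∈ VG t := by
  refine VG_of_mul (⟨hs J₀, hJ₀⟩ : Ex s _) ?_
  rw [ev_Dl, cramer_row]
  exact Submodule.sum_mem _ fun i _ => VG_mul (by rw [← ev_Dl]; exact hs _) (h i)

theorem mem_VG_of_lin {f : Fin N → Inv A} {x : Fin u ⊕ Fin u → Om} (hx : ∀ m, x m ∈ VG 0)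
    {s : ℕ} {J₀ : Fin u ⊕ Fin u → Fin N} (hJ₀ : Ex s (ev A x (Dl f J₀)))
    {Δ : Fin u ⊕ Fin u → Om} {t : ℚ} (h : ∀ i, (Dm f x *ᵥ Δ) (J₀ i) ∈ VG t) (m) :
    Δ m ∈ VG (t - s) := by
  refine VG_of_mul hJ₀ ?_
  set B := (Dm f x).submatrix J₀ id with hB
  have h1 : ev A x (Dl f J₀) * Δ m = (B.adjugate *ᵥ (B *ᵥ Δ)) m := by
    rw [mulVec_mulVec, adjugate_mul, ev_Dl, smul_mulVec, one_mulVec]; rfl
  rw [h1, add_sub_cancel]
  refine Submodule.sum_mem _ fun i _ => VG_mul_of_le (a := 0) ?_ (h i) (by simp)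
  rw [adjugate_apply]
  refine det_mem_subring VR.toSubring _ fun a c => ?_
  by_cases ha : a = i
  · subst ha
    rw [updateRow_self, Pi.single_apply]
    split_ifs
    · exact one_mem _
    · exact zero_mem _
  · rw [updateRow_ne ha]; exact aeval_mem_VG hx _

theorem mem_VG_of_px {J : ℕ} {b : Fin 3 → ℕ → kk} {δ : Fin u ⊕ Fin u → Om} {t : ℚ}
    (h : ∀ m, px A (th J b) δ m ∈ VG t) (m) : δ m ∈ VG (t - J) := by
  have hJ : t - J ≤ t := by linarith [Nat.cast_nonneg (α := ℚ) J]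
  rcases m with i | i
  · exact VG_mono (h (Sum.inl i)) hJ
  · simpa using (VG _).sub_mem (VG_mono (h (Sum.inr i)) hJ)
      (Aop_th_mem_VG (A := A) (J := J) (b := b) (fun j => h (Sum.inl j)) i)

theorem lin_mem_KK (f : Fin N → Inv A) {J : ℕ} {b : Fin 3 → ℕ → kk} {ξ δ : Fin u ⊕ Fin u → Om}
    (hξ : ∀ m, ξ m ∈ KK) (hδ : ∀ m, δ m ∈ KK) (j : Fin N) :
    (Dm f (px A (th J b) ξ) *ᵥ px A (th J b) δ) j ∈ KK := by
  obtain ⟨q, hq⟩ := exists_sharp (f j).2
  have := (hq Om (th J b) (fun i => ξ (Sum.inl i)) fun i => ξ (Sum.inr i)).2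
    (fun i => δ (Sum.inl i)) fun i => δ (Sum.inr i)
  change ∑ m, aeval (px A (th J b) ξ) (pderiv m (f j : MvPolynomial (Fin u ⊕ Fin u) kk)) *
    px A (th J b) δ m ∈ KK
  rw [px, px, this]
  refine KK.sum_mem fun m _ => KK.mul_mem (aeval_mem_KK ?_ _) ?_
  · rintro ((i | i) | l)
    · exact hξ _
    · exact hξ _
    · simp only [Sum.elim_inr, th, theta_sq_add]; exact asPoly_mem_KK _ _
  · rcases m with i | i
    · exact hδ _
    · exact hδ _

theorem Good.add {J : ℕ} {b : Fin 3 → ℕ → kk} {ξ δ : Fin u ⊕ Fin u → Om}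
    (hG : Good A (th J b) ξ) (hδ : ∀ m, δ m ∈ KK) {a : ℚ} (ha : J ≤ a) (hδV : ∀ m, δ m ∈ VG a) :
    Good A (th J b) (ξ + δ) := by
  have hJ0 : (0 : ℚ) ≤ J := Nat.cast_nonneg J
  refine ⟨fun m => KK.add_mem (hG.inK m) (hδ m),
    fun m => (VG 0).add_mem (hG.vg m) (VG_mono (hδV m) (by linarith)), fun i => ?_⟩
  have := congrFun (tay_Aop_add_right A (th J b) (fun j => ξ (Sum.inl j)) fun j => δ (Sum.inl j)) i
  change Aop A (th J b) ((fun j => ξ (Sum.inl j)) + fun j => δ (Sum.inl j)) i ∈ _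
  rw [this]
  exact (VG 0).add_mem (hG.adm i)
    (VG_mono (Aop_th_mem_VG (fun j => hδV (Sum.inl j)) i) (by linarith))

theorem Good.sub_mem {J : ℕ} {b : Fin 3 → ℕ → kk} {ξ δ : Fin u ⊕ Fin u → Om}
    (hG : Good A (th J b) ξ) {a : ℚ} (ha : J ≤ a) (hδV : ∀ m, δ m ∈ VG a) (p : Inv A) :
    ev A (px A (th J b) (ξ + δ)) p - ev A (px A (th J b) ξ) p ∈ VG (a - J) := by
  rw [px_add]
  exact aeval_sub_mem (by linarith) hG.px_mem (px_th_mem_VG hδV) _

theorem Good.taylor (f : Fin N → Inv A) {J : ℕ} {b : Fin 3 → ℕ → kk} {ξ δ : Fin u ⊕ Fin u → Om}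
    (hG : Good A (th J b) ξ) {a : ℚ} (ha : J ≤ a) (hδV : ∀ m, δ m ∈ VG a) (j : Fin N) :
    ev A (px A (th J b) (ξ + δ)) (f j) - ev A (px A (th J b) ξ) (f j) -
      (Dm f (px A (th J b) ξ) *ᵥ px A (th J b) δ) j ∈ VG (2 * (a - J)) := by
  rw [px_add]
  exact Pool.Agent.MP_536a45_ag.taylor (by linarith) hG.px_mem (px_th_mem_VG hδV) _

theorem jet_eq_iff {S : Type} [CommRing S] [Algebra kk S] (f : Fin N → S) (n : ℕ)
    (γ γ' : S →ₐ[kk] PowerSeries kk) :
    jet f n γ' = jet f n γ ↔ ∀ j, io (γ' (f j)) - io (γ (f j)) ∈ VG (n + 1 : ℕ) := by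
  simp only [← map_sub io, io_mem_VG_iff]
  simp only [map_sub, sub_eq_zero]
  exact ⟨fun h j i hi => congrFun h (j, ⟨i, hi⟩), fun h => funext fun p => h p.1 p.2 p.2.2⟩

/-- The next coefficients of the `d` distinguished generators can be prescribed. -/
theorem Charts.surj (C : Charts A) (hA : H1 A) (hu : 0 < u) (f : Fin N → Inv A) {s n : ℕ}
    (hn : 10 * s ≤ n) (γ : Inv A →ₐ[kk] PowerSeries kk) (hs : arcOrd (II f) γ = s)
    (J₀ : Fin u ⊕ Fin u → Fin N) (hJ₀ : (γ (Dl f J₀)).order = s) (v : Fin u ⊕ Fin u → kk) :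
    ∃ γ' : Inv A →ₐ[kk] PowerSeries kk, jet f n γ' = jet f n γ ∧
      ∀ i, PowerSeries.coeff (n + 1) (γ' (f (J₀ i))) = v i := by
  rw [arcOrd_eq_iff] at hs
  obtain ⟨b, ξ, -, hG, hL⟩ := C.exists_lift hA hu γ hs le_rfl
  rw [hL.comp_eq] at hs
  set θ := th (2 * s) b with hθ
  set x := px A θ ξ with hx
  have hEx : Ex s (ev A x (Dl f J₀)) := by rw [← hL]; exact Ex_io_iff.2 hJ₀
  set B := (Dm f x).submatrix J₀ id * Emat A θ with hB
  have hdet : B.det = ev A x (Dl f J₀) := by rw [hB, det_mul, det_Emat, mul_one, ev_Dl]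
  have hBv : ∀ δ i, (B *ᵥ δ) i = (Dm f x *ᵥ px A θ δ) (J₀ i) := fun δ i => by
    rw [hB, ← mulVec_mulVec, Emat_mulVec]; rfl
  have hBK : ∀ i m, B i m ∈ KK := fun i m => by
    have := lin_mem_KK f (J := 2 * s) (b := b) hG.inK (δ := Pi.single m 1) (fun m' => by
      rw [Pi.single_apply]; split_ifs
      · exact one_mem _
      · exact zero_mem _) (J₀ i)
    rwa [← hBv, mulVec_single_one] at this
  set c : Fin u ⊕ Fin u → Om := fun i =>
    single ((n + 1 : ℕ) : ℚ) (v i - PowerSeries.coeff (n + 1) (γ (f (J₀ i)))) with hc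
  set δ : Fin u ⊕ Fin u → Om := B.det⁻¹ • cramer B c with hδ
  have hδK : ∀ m, δ m ∈ KK := fun m => by
    refine KK.mul_mem (KK.inv_mem (det_mem_subring KK.toSubring _ hBK)) ?_
    rw [cramer_apply]
    refine det_mem_subring KK.toSubring _ fun a e => ?_
    rw [updateCol_apply]
    split_ifs
    · exact single_nat_mem_KK _ _
    · exact hBK _ _
  have hBδ : ∀ i, (Dm f x *ᵥ px A θ δ) (J₀ i) = c i := fun i => by
    rw [← hBv, hδ, mulVec_smul, mulVec_cramer, smul_smul,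
      inv_mul_cancel₀ (hdet ▸ hEx.ne_zero), one_smul]
  have hcV : ∀ i, (Dm f x *ᵥ px A θ δ) (J₀ i) ∈ VG (n + 1 : ℕ) := fun i => by
    rw [hBδ]; exact single_mem_VG _ _
  have hδV := mem_VG_of_px (mem_VG_of_lin hG.px_mem hEx hcV)
  have hn' : (10 * s : ℚ) ≤ n := by exact_mod_cast hn
  have hs0 : (0 : ℚ) ≤ s := Nat.cast_nonneg s
  have ha : ((2 * s : ℕ) : ℚ) ≤ (n + 1 : ℕ) - s - (2 * s : ℕ) := by push_cast; linarith
  obtain ⟨γ', hγ'⟩ := (hG.add hδK ha hδV).exists_lifts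
  have hT := fun j => VG_mono (hG.taylor f ha hδV j) (b := (n + 1 : ℕ) + 1) (by push_cast; linarith)
  refine ⟨γ', (jet_eq_iff f n γ γ').2 fun j => ?_, fun i => ?_⟩
  · rw [hγ', hL]
    have := (VG _).add_mem (VG_mono (hT j) (b := (n + 1 : ℕ)) (by linarith))
      (lin_mem_of_minor hs.1 hEx.2 hcV j)
    rwa [sub_add_cancel] at this
  · have := hT (J₀ i) (n + 1 : ℕ) (by linarith)
    rw [hBδ, ← hγ', ← hL, HahnSeries.coeff_sub, HahnSeries.coeff_sub, io_coeff, io_coeff, hc,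
      coeff_single_same] at this
    linear_combination this

end Pool.Agent.MP_536a45_ag

end

section

open MvPolynomial

namespace Pool.Agent.MP_536a45_ag

section

variable {k : Type} [Field k] {ι κ : Type}

theorem Chevalley_mem (x : ι → k) (p : MvPolynomial ι k) :
    p ∈ (pointToPoint (k := k) x).asIdeal ↔ eval x p = 0 := by
  change p ∈ vanishingIdeal k {x} ↔ _
  rw [mem_vanishingIdeal_singleton_iff, aeval_eq_eval]

theorem Chevalley_inj {x y : ι → k}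
    (h : (pointToPoint (k := k) x).asIdeal ≤ (pointToPoint (k := k) y).asIdeal) : x = y := by
  funext i
  have h1 : (X i - C (x i) : MvPolynomial ι k) ∈ (pointToPoint (k := k) x).asIdeal := by
    rw [Chevalley_mem]; simp
  have h2 := (Chevalley_mem y _).1 (h h1)
  simp only [map_sub, eval_X, eval_C] at h2
  exact (sub_eq_zero.1 h2).symm

theorem Chevalley_comap (F : κ → MvPolynomial ι k) (x : ι → k) :
    PrimeSpectrum.comap (aeval F : MvPolynomial κ k →ₐ[k] MvPolynomial ι k).toRingHom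
      (pointToPoint (k := k) x) = pointToPoint (k := k) (polyMap F x) := by
  ext p
  rw [Chevalley_mem, eval_polyMap, PrimeSpectrum.comap_asIdeal, Ideal.mem_comap, Chevalley_mem]
  rfl

theorem Chevalley_down [Finite ι] {s : Set (PrimeSpectrum (MvPolynomial ι k))}
    (hs : Topology.IsConstructible s) : IsConstr (pointToPoint (k := k) ⁻¹' s : Set (ι → k)) := by
  induction hs using Topology.IsConstructible.empty_union_induction with
  | open_retrocompact U hU _ =>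
    obtain ⟨t, ht⟩ := (PrimeSpectrum.isOpen_iff U).1 hU
    have h1 : (pointToPoint (k := k) ⁻¹' U : Set (ι → k)) =
        {x : ι → k | ∀ a : t, eval x (a : MvPolynomial ι k) = 0}ᶜ := by
      ext x
      have : pointToPoint (k := k) x ∈ Uᶜ ↔ ∀ a : t, eval x (a : MvPolynomial ι k) = 0 := by
        rw [ht, PrimeSpectrum.mem_zeroLocus]
        constructor
        · intro h a; exact (Chevalley_mem x _).1 (h a.2)
        · intro h a ha; exact (Chevalley_mem x _).2 (h ⟨a, ha⟩)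
      rw [Set.mem_preimage, Set.mem_compl_iff, Set.mem_ofPred_eq, ← this, Set.mem_compl_iff,
        not_not]
    rw [h1]
    exact (isConstr_zeros _).compl
  | union s _ t _ hs ht => exact hs.union ht
  | compl s _ hs => exact hs.compl

theorem Chevalley_up {A : Set (ι → k)} (h : IsConstr A) :
    ∃ s : Set (PrimeSpectrum (MvPolynomial ι k)), Topology.IsConstructible s ∧
      pointToPoint (k := k) ⁻¹' s = A ∧
      ∀ q : PrimeSpectrum (MvPolynomial ι k), ∃ g, g ∉ q.asIdeal ∧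
        ∀ q' : PrimeSpectrum (MvPolynomial ι k), q.asIdeal ≤ q'.asIdeal → g ∉ q'.asIdeal →
          (q' ∈ s ↔ q ∈ s) := by
  refine IsConstr.induction (P := fun A => ∃ s : Set (PrimeSpectrum (MvPolynomial ι k)),
    Topology.IsConstructible s ∧ pointToPoint (k := k) ⁻¹' s = A ∧
      ∀ q : PrimeSpectrum (MvPolynomial ι k), ∃ g, g ∉ q.asIdeal ∧
        ∀ q' : PrimeSpectrum (MvPolynomial ι k), q.asIdeal ≤ q'.asIdeal → g ∉ q'.asIdeal →
          (q' ∈ s ↔ q ∈ s)) ?_ ?_ ?_ ?_ h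
  · intro p
    refine ⟨{q | p ∈ q.asIdeal}, ?_, ?_, ?_⟩
    · rw [← Topology.isConstructible_compl]
      exact PrimeSpectrum.isConstructible_basicOpen (f := p)
    · ext x; exact Chevalley_mem x p
    · intro q
      by_cases hp : p ∈ q.asIdeal
      · exact ⟨1, (Ideal.ne_top_iff_one _).1 q.isPrime.ne_top, fun q' h1 _ =>
          ⟨fun _ => hp, fun _ => h1 hp⟩⟩
      · exact ⟨p, hp, fun q' _ h2 => ⟨fun h => (h2 h).elim, fun h => (hp h).elim⟩⟩
  · exact ⟨∅, .empty, rfl, fun q => ⟨1, (Ideal.ne_top_iff_one _).1 q.isPrime.ne_top,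
      fun _ _ _ => Iff.rfl⟩⟩
  · rintro A B _ _ ⟨s, hs, rfl, h1⟩ ⟨t, ht, rfl, h2⟩
    refine ⟨s ∪ t, hs.union ht, rfl, fun q => ?_⟩
    obtain ⟨g, hg, h3⟩ := h1 q
    obtain ⟨g', hg', h4⟩ := h2 q
    refine ⟨g * g', fun h => (q.isPrime.mem_or_mem h).elim hg hg', fun q' hq hn => ?_⟩
    rw [Set.mem_union, Set.mem_union, h3 q' hq fun h => hn (Ideal.mul_mem_right _ _ h),
      h4 q' hq fun h => hn (Ideal.mul_mem_left _ _ h)]
  · rintro A _ ⟨s, hs, rfl, h1⟩
    refine ⟨sᶜ, Topology.isConstructible_compl.2 hs, rfl, fun q => ?_⟩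
    obtain ⟨g, hg, h3⟩ := h1 q
    exact ⟨g, hg, fun q' hq hn => not_congr (h3 q' hq hn)⟩

end

/-- Chevalley's theorem for `k`-points. -/
theorem IsConstr.image {k : Type} [Field k] [IsAlgClosed k] {ι κ : Type} [Finite ι] [Finite κ]
    (F : κ → MvPolynomial ι k) {A : Set (ι → k)} (h : IsConstr A) :
    IsConstr (polyMap F '' A) := by
  obtain ⟨s, hs, rfl, hloc⟩ := Chevalley_up h
  have hf : (aeval F : MvPolynomial κ k →ₐ[k] MvPolynomial ι k).toRingHom.FinitePresentation := by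
    apply RingHom.FinitePresentation.of_finiteType.1
    have : (aeval F : MvPolynomial κ k →ₐ[k] MvPolynomial ι k).FiniteType := by
      apply AlgHom.FiniteType.of_comp_finiteType (f := Algebra.ofId k (MvPolynomial κ k))
      have e : (aeval F : MvPolynomial κ k →ₐ[k] MvPolynomial ι k).comp
          (Algebra.ofId k (MvPolynomial κ k)) = Algebra.ofId k (MvPolynomial ι k) :=
        Subsingleton.elim _ _
      rw [e]
      exact RingHom.finiteType_algebraMap.2 inferInstance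
    exact this
  have h1 := Chevalley_down (PrimeSpectrum.isConstructible_comap_image hf hs)
  convert h1 using 1
  ext z
  constructor
  · rintro ⟨x, hx, rfl⟩
    exact ⟨_, hx, Chevalley_comap F x⟩
  · rintro ⟨q, hq, hz⟩
    obtain ⟨g, hg, h2⟩ := hloc q
    have hj : q.asIdeal.jacobson = q.asIdeal := IsJacobsonRing.out inferInstance q.isPrime.isRadical
    rw [← hj, Ideal.jacobson, Ideal.mem_sInf] at hg
    push Not at hg
    obtain ⟨M, ⟨hqM, hM⟩, hgM⟩ := hg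
    obtain ⟨x, rfl⟩ := isMaximal_iff_eq_vanishingIdeal_singleton.1 hM
    refine ⟨x, (h2 (pointToPoint (k := k) x) hqM hgM).2 hq, ?_⟩
    symm
    apply Chevalley_inj (k := k)
    rw [← hz, ← Chevalley_comap]
    exact Ideal.comap_mono hqM

end Pool.Agent.MP_536a45_ag

end

section

/-!
# The finite-dimensional parameter spaces of truncated twisted arcs
-/

open MvPolynomial HahnSeries Matrix

namespace Pool.Agent.MP_536a45_ag

variable {u : ℕ} {A : Fin 3 → Matrix (Fin u) (Fin u) kk} {N J n' : ℕ}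

/-- The vector of polynomials in `t` with given coefficients. -/
noncomputable def serL (σ : Type) (n' : ℕ) : (σ × Fin n' → kk) →ₗ[kk] (σ → Om) where
  toFun δ m := ∑ t : Fin n', single ((t : ℕ) : ℚ) (δ (m, t))
  map_add' δ δ' := by funext m; simp [Finset.sum_add_distrib]
  map_smul' c δ := by
    funext m
    simp only [Pi.smul_apply, smul_eq_mul, RingHom.id_apply, Finset.smul_sum]
    refine Finset.sum_congr rfl fun t _ => ?_
    ext g
    by_cases h : g = ((t : ℕ) : ℚ) <;> simp [h]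

/-- The vector `(w, y)` of a parameter. -/
noncomputable def ser : (PI J u n' → kk) →ₗ[kk] (Fin u ⊕ Fin u → Om) :=
  (serL _ n').comp (LinearMap.funLeft kk kk Sum.inr)

theorem ser_apply (p : PI J u n' → kk) (m) :
    ser p m = ∑ t : Fin n', single ((t : ℕ) : ℚ) (p (Sum.inr (m, t))) := rfl

theorem ser_coeff (p : PI J u n' → kk) (m) (i : ℕ) : (ser p m).coeff i = xco p m i := by
  rw [ser_apply, HahnSeries.coeff_sum, xco]
  split_ifs with h
  · rw [Finset.sum_eq_single ⟨i, h⟩]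
    · simp
    · intro t _ ht
      exact coeff_single_of_ne fun e => ht (Fin.ext (by exact_mod_cast e.symm))
    · simp
  · refine Finset.sum_eq_zero fun t _ => coeff_single_of_ne fun e => h ?_
    have : i = t := by exact_mod_cast e
    rw [this]; exact t.2

theorem ser_mem_KK (p : PI J u n' → kk) (m) : ser p m ∈ KK := by
  rw [ser_apply]; exact KK.sum_mem fun _ _ => single_nat_mem_KK _ _

theorem ser_mem_VG_zero (p : PI J u n' → kk) (m) : ser p m ∈ VG 0 := by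
  rw [ser_apply]
  exact Submodule.sum_mem _ fun _ _ => VG_mono (single_mem_VG _ _) (Nat.cast_nonneg _)

theorem mem_VG_nat_iff {x : Om} (hK : x ∈ KK) (h0 : x ∈ VG 0) {a : ℕ} :
    x ∈ VG a ↔ ∀ i < a, x.coeff (i : ℕ) = 0 := by
  obtain ⟨p, rfl⟩ := exists_io hK h0
  simp only [io_mem_VG_iff, io_coeff]

theorem ser_mem_VG_iff (p : PI J u n' → kk) (m) {a : ℕ} :
    ser p m ∈ VG a ↔ ∀ i < a, xco p m i = 0 := by
  simp only [mem_VG_nat_iff (ser_mem_KK p m) (ser_mem_VG_zero p m), ser_coeff]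

theorem bco_vanish (p : PI J u n' → kk) (l : Fin 3) (j : ℕ) (h : J ≤ j) : bco p l j = 0 := by
  simp [bco, not_lt.2 h]

theorem ser_Tw (τ : Fin 3 → kk) (p : PI J u n' → kk) :
    ser (Tw A τ p) = px A (fun l => algebraMap kk Om (τ l)) (ser p) := by
  funext m
  rcases m with i | i
  · rfl
  · obtain ⟨q, hq⟩ := exists_io (ser_mem_KK (Tw A τ p) (Sum.inr i)) (ser_mem_VG_zero _ _)
    obtain ⟨q', hq'⟩ := exists_io (x := px A (fun l => algebraMap kk Om (τ l)) (ser p) (Sum.inr i))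
      (KK.add_mem (ser_mem_KK _ _)
        (Aop_mem_KK (fun l => algebraMap_mem_KK _) (fun j => ser_mem_KK _ _) i))
      ((VG 0).add_mem (ser_mem_VG_zero _ _) (by
        simpa using Aop_mem_VG (A := A) (fun l => algebraMap_mem_VG (τ l))
          (fun j => ser_mem_VG_zero p (Sum.inl j)) i))
    rw [← hq, ← hq']
    congr 1
    ext t
    rw [← io_coeff, ← io_coeff, hq, hq', px_inr, HahnSeries.coeff_add, coeff_Aop_const]
    simp only [ser_coeff, xco]
    split_ifs with h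
    · rfl
    · rw [show (fun _ : Fin u => (0 : kk)) = 0 from rfl, tay_Aop_zero_right]; simp

theorem ser_frob (m : ℕ) (p : PI J u n' → kk) (a) : ser (frob m p) a = fr m (ser p a) := by
  simp [ser_apply, map_sum, fr_single, frob]

theorem bco_frob (m : ℕ) (p : PI J u n' → kk) (l : Fin 3) :
    bco (frob m p) l = fun j => bco p l j ^ 2 ^ m := by
  funext j
  simp only [bco, frob]
  split_ifs <;> simp

theorem fr_Aop {m : ℕ} (hA : ∀ l i j, A l i j ^ 2 ^ m = A l i j) (θ : Fin 3 → Om)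
    (w : Fin u → Om) (i : Fin u) :
    fr m (Aop A θ w i) = Aop A (fun l => fr m (θ l)) (fun j => fr m (w j)) i := by
  simp [Aop, map_sum, fr_smul, hA]

/-- The twisted arc of a parameter. -/
noncomputable def xp (A : Fin 3 → Matrix (Fin u) (Fin u) kk) (p : PI J u n' → kk) :
    Fin u ⊕ Fin u → Om := px A (th J (bco p)) (ser p)

theorem th_frob (m : ℕ) (p : PI J u n' → kk) (l : Fin 3) :
    th J (bco (frob m p)) l = fr m (th J (bco p) l) := by
  rw [th, th, fr_theta, bco_frob]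

theorem xp_frob {m : ℕ} (hA : ∀ l i j, A l i j ^ 2 ^ m = A l i j) (p : PI J u n' → kk) :
    xp A (frob m p) = fun a => fr m (xp A p a) := by
  funext a
  rcases a with i | i
  · exact ser_frob m p _
  · simp only [xp, px_inr, map_add, fr_Aop hA, ser_frob, ← th_frob]

theorem ev_xp_frob {m : ℕ} (hA : ∀ l i j, A l i j ^ 2 ^ m = A l i j) (p : PI J u n' → kk)
    {a : Inv A} (ha : Fixed m (a : MvPolynomial (Fin u ⊕ Fin u) kk)) :
    ev A (xp A (frob m p)) a = fr m (ev A (xp A p) a) := by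
  rw [ev_apply, ev_apply, fr_aeval ha, xp_frob hA]

theorem ev_xp_Tw {c : Fin 3 → kk} (hc : c ∈ bits kk) (p : PI J u n' → kk) :
    ev A (xp A (Tw A c p)) = ev A (xp A p) := by
  refine AlgHom.ext fun a => ?_
  have e : px A (th J (bco p)) (px A (fun l => algebraMap kk Om (c l)) (ser p)) =
      pt A (th J (bco p)) (fun i => ser p (Sum.inl i)) ((fun i => ser p (Sum.inr i)) +
        Aop A (fun l => algebraMap kk Om (c l)) fun i => ser p (Sum.inl i)) := by
    funext m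
    rcases m with i | i
    · simp only [px_inl, pt, Sum.elim_inl]
    · simp only [px_inr, px_inl, pt, Sum.elim_inr, Pi.add_apply]
  rw [ev_apply, ev_apply, xp, xp, est_bco, ser_Tw, e, aeval_pt_shift a.2 hc, px]

theorem ev_xp_mem_PF (a : Inv A) : (fun p : PI J u n' → kk => ev A (xp A p) a) ∈ PF _ := by
  obtain ⟨q, hq⟩ := exists_sharp a.2
  have h1 : ∀ m, (fun p : PI J u n' → kk => ser p m) ∈ PF _ := fun m => by
    have := (PF (PI J u n')).sum_mem (t := Finset.univ) fun (t : Fin n') _ =>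
      single_mem_PF ((t : ℕ) : ℚ) (X (Sum.inr (m, t)))
    convert this using 1
    funext p
    simp [ser_apply]
  have h2 : ∀ l, (fun p : PI J u n' → kk => asPoly J (bco p l)) ∈ PF _ := fun l => by
    have := (PF (PI J u n')).sum_mem (t := Finset.univ) fun (j : Fin J) _ =>
      single_mem_PF (-(2 * (j : ℕ) + 1 : ℚ)) (X (Sum.inl (l, j)))
    convert this using 1
    funext p
    rw [asPoly, Finset.sum_range]
    simp [bco]
  have := aeval_mem_PF (I := PI J u n') (x := Sum.elim (fun m p => ser p m)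
    fun l p => asPoly J (bco p l)) (by rintro (m | l); exacts [h1 m, h2 l]) q
  convert this using 2 with p
  rw [ev_apply, xp, px, (hq Om _ _ _).1]
  congr 2
  funext a
  rcases a with (i | i) | l
  · rfl
  · rfl
  · simp only [Sum.elim_inr, th, theta_sq_add]

theorem isConstr_VG {I : Type} [Finite I] {g : (I → kk) → Om} (hg : g ∈ PF I) (a : ℚ) :
    IsConstr {p | g p ∈ VG a} := by
  choose c hc using PF_coeff hg
  convert isConstr_zeros fun γ : {γ : ℚ // γ < a} => c γ using 2 with p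
  simp only [mem_VG, hc, Subtype.forall]

theorem isConstr_coeff_ne {I : Type} {g : (I → kk) → Om} (hg : g ∈ PF I) (a : ℚ) :
    IsConstr {p | (g p).coeff a ≠ 0} := by
  obtain ⟨c, hc⟩ := PF_coeff hg a
  simpa only [hc] using isConstr_ne c

/-- The admissible parameters along which the Jacobian ideal has order `s`. -/
def PP (f : Fin N → Inv A) (J n' s : ℕ) : Set (PI J u n' → kk) :=
  {p | Good A (th J (bco p)) (ser p) ∧ OrdEq f (ev A (xp A p)) s}

/-- The `n`-jet of the arc of a parameter. -/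
noncomputable def πn (f : Fin N → Inv A) (n : ℕ) (p : PI J u n' → kk) :
    Fin N × Fin (n + 1) → kk := fun q => (ev A (xp A p) (f q.1)).coeff (q.2 : ℕ)

theorem exists_πn_eq (f : Fin N → Inv A) (n : ℕ) :
    ∃ F : Fin N × Fin (n + 1) → MvPolynomial (PI J u n') kk, πn f n = polyMap F := by
  choose c hc using fun q : Fin N × Fin (n + 1) =>
    PF_coeff (ev_xp_mem_PF (J := J) (n' := n') (f q.1)) (q.2 : ℕ)
  exact ⟨c, funext fun p => funext fun q => hc q p⟩

theorem isConstr_PP {f : Fin N → Inv A} (hf : Algebra.adjoin kk (Set.range f) = ⊤) (s : ℕ) :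
    IsConstr (PP f J n' s) := by
  have : PP f J n' s = (⋂ j, {p | ev A (xp A p) (f j) ∈ VG 0}) ∩
      ((⋂ J₀, {p | ev A (xp A p) (Dl f J₀) ∈ VG s}) ∩
        ⋃ J₀, {p | (ev A (xp A p) (Dl f J₀)).coeff s ≠ 0}) := by
    ext p
    simp only [PP, OrdEq, Set.mem_ofPred_eq, Set.mem_inter_iff, Set.mem_iInter, Set.mem_iUnion]
    refine and_congr_left fun _ => ⟨fun h j => ev_mem_VG h.px_mem _, fun h => ?_⟩
    exact good_of_ev (ser_mem_KK p) (algHom_mem_VG hf _ h)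
  rw [this]
  exact (isConstr_iInter fun j => isConstr_VG (ev_xp_mem_PF _) _).inter
    ((isConstr_iInter fun j => isConstr_VG (ev_xp_mem_PF _) _).inter
      (isConstr_iUnion fun j => isConstr_coeff_ne (ev_xp_mem_PF _) _))

theorem πn_eq_iff (f : Fin N → Inv A) (n : ℕ) {p p' : PI J u n' → kk}
    (hp : Good A (th J (bco p)) (ser p)) (hp' : Good A (th J (bco p')) (ser p')) :
    πn f n p' = πn f n p ↔ ∀ j, ev A (xp A p') (f j) - ev A (xp A p) (f j) ∈ VG (n + 1 : ℕ) := by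
  have h : ∀ j, _ := fun j => mem_VG_nat_iff (a := n + 1)
    (KK.sub_mem (ev_mem_KK hp'.inK (f j)) (ev_mem_KK hp.inK (f j)))
    ((VG 0).sub_mem (ev_mem_VG hp'.px_mem (f j)) (ev_mem_VG hp.px_mem (f j)))
  simp only [xp, h, HahnSeries.coeff_sub, sub_eq_zero]
  exact ⟨fun h j i hi => congrFun h (j, ⟨i, hi⟩), fun h => funext fun p => h p.1 p.2 p.2.2⟩

theorem Charts.jetSet_eq (C : Charts A) (hA : H1 A) (hu : 0 < u) {f : Fin N → Inv A}
    (hf : Algebra.adjoin kk (Set.range f) = ⊤) {s n : ℕ} (hJ : 2 * s ≤ J) (hs : s ≤ n)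
    (hn : n + 1 + J ≤ n') : jetSet (k := kk) f (II f) s n = πn f n '' PP f J n' s := by
  ext z
  constructor
  · rintro ⟨γ, hγ, rfl⟩
    rw [Set.mem_ofPred_eq, arcOrd_eq_iff] at hγ
    obtain ⟨b, ξ, hb, hG, hL⟩ := C.exists_lift hA hu γ hγ hJ
    rw [hL.comp_eq] at hγ
    set p : PI J u n' → kk := Sum.elim (fun a => b a.1 a.2) fun a => (ξ a.1).coeff (a.2 : ℕ)
      with hp
    have hbp : bco p = b := by
      funext l j
      rw [bco]
      split_ifs with h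
      · rfl
      · exact (hb l j (not_lt.1 h)).symm
    have hδK : ∀ m, (ser p - ξ) m ∈ KK := fun m => KK.sub_mem (ser_mem_KK p m) (hG.inK m)
    have hδV : ∀ m, (ser p - ξ) m ∈ VG n' := fun m => by
      refine (mem_VG_nat_iff (hδK m) ((VG 0).sub_mem (ser_mem_VG_zero p m) (hG.vg m))).2
        fun i hi => ?_
      rw [Pi.sub_apply, HahnSeries.coeff_sub, ser_coeff, xco, dif_pos hi]
      exact sub_self _
    have hn' : ((n + 1 : ℕ) : ℚ) + J ≤ n' := by exact_mod_cast hn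
    have ha : (J : ℚ) ≤ n' := by exact_mod_cast (by omega : J ≤ n')
    have hG' := hG.add hδK ha hδV
    have hsub := fun a => VG_mono (hG.sub_mem ha hδV a) (b := (n + 1 : ℕ)) (by linarith)
    rw [add_sub_cancel] at hG' hsub
    refine ⟨p, ⟨hbp ▸ hG', ?_⟩, ?_⟩
    · rw [xp, hbp]
      exact hγ.of_close hf (t := (n + 1 : ℕ)) (by exact_mod_cast Nat.lt_succ_of_le hs)
        (fun j => ev_mem_VG hG.px_mem _) fun j => hsub _
    · funext q
      have := hsub (f q.1) (q.2 : ℕ) (by exact_mod_cast q.2.2)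
      rw [HahnSeries.coeff_sub, sub_eq_zero, ← hL, io_coeff] at this
      rw [πn, xp, hbp, this, jet]
  · rintro ⟨p, ⟨hG, hs⟩, rfl⟩
    obtain ⟨γ, hγ⟩ := hG.exists_lifts
    refine ⟨γ, ?_, ?_⟩
    · rw [Set.mem_ofPred_eq, arcOrd_eq_iff, hγ.comp_eq]; exact hs
    · funext q
      rw [jet, ← io_coeff, hγ]; rfl

theorem Charts.isConstr_jetSet (C : Charts A) (hA : H1 A) (hu : 0 < u) {f : Fin N → Inv A}
    (hf : Algebra.adjoin kk (Set.range f) = ⊤) {s n : ℕ} (hs : s ≤ n) :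
    IsConstr (jetSet (k := kk) f (II f) s n) := by
  rw [C.jetSet_eq hA hu hf (J := 2 * s) (n' := n + 1 + 2 * s) le_rfl hs le_rfl]
  obtain ⟨F, hF⟩ := exists_πn_eq (J := 2 * s) (n' := n + 1 + 2 * s) f n
  rw [hF]
  exact (isConstr_PP hf s).image F

theorem frob_mem_PP {f : Fin N → Inv A} {m : ℕ} (hA : ∀ l i j, A l i j ^ 2 ^ m = A l i j)
    (hD : ∀ J₀, Fixed m (Dl f J₀ : MvPolynomial (Fin u ⊕ Fin u) kk)) {s : ℕ}
    {p : PI J u n' → kk} (hp : p ∈ PP f J n' s) : frob m p ∈ PP f J n' s := by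
  refine ⟨⟨ser_mem_KK _, ser_mem_VG_zero _, fun i => ?_⟩, fun J₀ => ?_, ?_⟩
  · have := (fr_mem_VG (m := m)).2 (hp.1.adm i)
    rw [fr_Aop hA] at this
    simpa only [ser_frob, ← th_frob] using this
  · rw [ev_xp_frob hA p (hD J₀)]; exact fr_mem_VG.2 (hp.2.1 J₀)
  · obtain ⟨J₀, h⟩ := hp.2.2
    exact ⟨J₀, by rw [ev_xp_frob hA p (hD J₀), fr_coeff]; exact pow_ne_zero _ h⟩

theorem Tw_mem_PP {f : Fin N → Inv A} {c : Fin 3 → kk} (hc : c ∈ bits kk) {s : ℕ}
    {p : PI J u n' → kk} (hp : p ∈ PP f J n' s) : Tw A c p ∈ PP f J n' s :=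
  ⟨⟨ser_mem_KK _, ser_mem_VG_zero _, hp.1.adm⟩, by rw [ev_xp_Tw hc]; exact hp.2⟩

theorem πn_frob {f : Fin N → Inv A} {m : ℕ} (hA : ∀ l i j, A l i j ^ 2 ^ m = A l i j)
    (hD : ∀ j, Fixed m (f j : MvPolynomial (Fin u ⊕ Fin u) kk)) (n : ℕ) (p : PI J u n' → kk) :
    πn f n (frob m p) = frob m (πn f n p) := by
  funext q
  rw [πn, ev_xp_frob hA p (hD _)]; rfl

theorem πn_Tw {f : Fin N → Inv A} {c : Fin 3 → kk} (hc : c ∈ bits kk) (n : ℕ)
    (p : PI J u n' → kk) : πn f n (Tw A c p) = πn f n p := by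
  funext q
  rw [πn, ev_xp_Tw hc]; rfl

/-- Small deformations of the parameters. -/
def UU (J u n' n₂ : ℕ) : Submodule kk (PI J u n' → kk) where
  carrier := {δ | (∀ a, δ (Sum.inl a) = 0) ∧ ∀ m, ser δ m ∈ VG n₂}
  add_mem' := fun {x y} hx hy => ⟨fun a => by simp [hx.1 a, hy.1 a],
    fun m => by rw [map_add]; exact (VG _).add_mem (hx.2 m) (hy.2 m)⟩
  zero_mem' := ⟨fun _ => rfl, fun m => by rw [map_zero]; exact zero_mem _⟩
  smul_mem' := fun c x hx => ⟨fun a => by simp [hx.1 a],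
    fun m => by rw [map_smul]; exact (VG _).smul_mem c (hx.2 m)⟩

theorem frob_mem_UU {m n₂ : ℕ} {δ : PI J u n' → kk} (h : δ ∈ UU J u n' n₂) :
    frob m δ ∈ UU J u n' n₂ :=
  ⟨fun a => by simp [frob, h.1 a], fun a => by rw [ser_frob]; exact fr_mem_VG.2 (h.2 a)⟩

theorem Tw_mem_UU {n₂ : ℕ} (τ : Fin 3 → kk) {δ : PI J u n' → kk} (h : δ ∈ UU J u n' n₂) :
    Tw A τ δ ∈ UU J u n' n₂ := by
  refine ⟨h.1, ?_⟩
  rw [ser_Tw]
  rintro (i | i)
  · exact h.2 _
  · exact (VG _).add_mem (h.2 _) (by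
      simpa using Aop_mem_VG (A := A) (fun l => algebraMap_mem_VG (τ l))
        (fun j => h.2 (Sum.inl j)) i)

theorem bco_add_of_UU {n₂ : ℕ} (p : PI J u n' → kk) {δ : PI J u n' → kk}
    (h : δ ∈ UU J u n' n₂) : bco (p + δ) = bco p := by
  funext l j
  simp [bco, h.1]

theorem PP.exists_ExV (hA : H1 A) (hu : 0 < u) {f : Fin N → Inv A} {s : ℕ}
    {p : PI J u n' → kk} (hp : p ∈ PP f J n' s) :
    ∃ r ≤ s, ExV r fun i => ser p (Sum.inl i) := by
  obtain ⟨r, hr⟩ := Pool.Agent.MP_536a45_ag.exists_ExV (w := fun i => ser p (Sum.inl i))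
    (by simpa only [ev_X_inl, xp, px_inl] using w_ne_zero hA hu hp.2) (fun i => ser_mem_KK _ _)
    fun i => ser_mem_VG_zero _ _
  exact ⟨r, by exact_mod_cast le_of_ordEq hA hu hp.1.px_mem hp.2 hr.1, hr⟩

theorem Charts.F1 (C : Charts A) (hA : H1 A) (hu : 0 < u) {f : Fin N → Inv A}
    (hf : Algebra.adjoin kk (Set.range f) = ⊤) {s n n₂ : ℕ} (h1 : n₂ + 28 * s ≤ n + 1)
    (h2 : n₂ + J ≤ n + 1) (h3 : s < n₂) {p p' : PI J u n' → kk} (hp : p ∈ PP f J n' s)
    (hp' : p' ∈ PP f J n' s) (h : πn f n p = πn f n p') :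
    ∃ c ∈ bits kk, Tw A c p' - p ∈ UU J u n' n₂ := by
  obtain ⟨r, hrs, hr⟩ := PP.exists_ExV hA hu hp'
  have hrs' : (r : ℚ) ≤ s := by exact_mod_cast hrs
  have h1' : (n₂ : ℚ) + 28 * s ≤ (n + 1 : ℕ) := by exact_mod_cast h1
  have h2' : (n₂ : ℚ) + J ≤ (n + 1 : ℕ) := by exact_mod_cast h2
  have h3' : (s : ℚ) < n₂ := by exact_mod_cast h3
  obtain ⟨hb, c, hc, hcl⟩ := C.close hA (bco_vanish p') (bco_vanish p) hp'.1 hp.1 hr
    (t := (n + 1 : ℕ)) (n₂ := n₂) (algHom_sub_mem hf _ _ (Nat.cast_nonneg _)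
      (fun j => ev_mem_VG hp'.1.px_mem _) ((πn_eq_iff f n hp'.1 hp.1).1 h))
    (by linarith) (by linarith) (by linarith)
  refine ⟨c, hc, fun a => ?_, fun m => ?_⟩
  · have := congrFun (congrFun hb a.1) a.2
    simp only [bco, a.2.2, dif_pos] at this
    exact sub_eq_zero.2 this.symm
  · rw [map_sub, ser_Tw]
    simpa using (VG _).neg_mem (hcl m)

theorem F3 (hA : H1 A) (hu : 0 < u) {f : Fin N → Inv A} {s n₂ : ℕ} (h3 : s < n₂)
    {p : PI J u n' → kk} (hp : p ∈ PP f J n' s) {c : Fin 3 → kk} (hc : c ∈ bits kk)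
    (h : Tw A c p - p ∈ UU J u n' n₂) : c = 0 := by
  obtain ⟨r, hrs, hr⟩ := PP.exists_ExV hA hu hp
  by_contra hc0
  refine Aop_ne_zero hA hc hc0 hr.2 (funext fun i => ?_)
  have := h.2 (Sum.inr i) r (by exact_mod_cast hrs.trans_lt h3)
  rw [map_sub, ser_Tw, Pi.sub_apply, px_inr, add_sub_cancel_left, coeff_Aop_const] at this
  exact this

end Pool.Agent.MP_536a45_ag

end

section

/-!
# Fibres of the jet map, dimension bounds and point counts
-/

open MvPolynomial HahnSeries Matrix Module Filter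

namespace Pool.Agent.MP_536a45_ag

variable {u : ℕ} {A : Fin 3 → Matrix (Fin u) (Fin u) kk} {N J n' : ℕ}

theorem io_monomial (t : ℕ) (c : kk) : io (PowerSeries.monomial t c) = single (t : ℚ) c := by
  obtain ⟨q, hq⟩ := exists_io (single_nat_mem_KK t c)
    (VG_mono (single_mem_VG _ _) (Nat.cast_nonneg _))
  rw [← hq]
  congr 1
  ext i
  rw [← io_coeff q, hq, PowerSeries.coeff_monomial, coeff_single]
  simp

theorem Ex_single (a : ℚ) : Ex a (single a (1 : kk)) := ⟨single_mem_VG _ _, by simp⟩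

theorem finrank_lin {σ : Type} [Fintype σ] [DecidableEq σ] (B : Matrix σ σ Om)
    (hK : ∀ i m, B i m ∈ KK) {J s n n' : ℕ} (hV : ∀ i m, B i m ∈ VG (-J)) (hdet : Ex s B.det)
    (h1 : s + Fintype.card σ * J ≤ n + 1 + J) (h2 : n + 1 + J ≤ n')
    (Y : Submodule kk (σ × Fin n' → kk))
    (hY : ∀ δ, δ ∈ Y ↔ ∀ i, (B *ᵥ serL σ n' δ) i ∈ VG (n + 1 : ℕ)) :
    finrank kk Y = Fintype.card σ * (n' - (n + 1)) + s := by
  choose B' hB' using fun i m => exists_io (KK.mul_mem (single_nat_mem_KK J 1) (hK i m))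
    (VG_mul_of_le (single_mem_VG _ _) (hV i m) (by simp))
  have hmap : io.mapMatrix (Matrix.of B') = (single (J : ℚ) (1 : kk) : Om) • B := by
    ext1 i m; exact hB' i m
  have hd : (Matrix.of B').det.order = (s + Fintype.card σ * J : ℕ) := by
    rw [← Ex_io_iff, AlgHom.map_det, hmap, det_smul]
    have := ((Ex_single J).pow (Fintype.card σ)).mul hdet
    push_cast
    rwa [add_comm]
  rw [finrank_ker_trunc (Matrix.of B') _ (n + 1 + J) n' hd h1 h2 Y fun δ => ?_]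
  · obtain ⟨e, rfl⟩ := Nat.exists_eq_add_of_le h2
    rw [show n + 1 + J + e - (n + 1 + J) = e by omega,
      show n + 1 + J + e - (n + 1) = e + J by omega]
    ring
  · rw [hY]
    refine forall_congr' fun i => ?_
    rw [← io_mem_VG_iff_order]
    have e : io ((Matrix.of B' *ᵥ fun m => ∑ t : Fin n', PowerSeries.monomial (t : ℕ) (δ (m, t))) i)
        = single (J : ℚ) (1 : kk) * (B *ᵥ serL σ n' δ) i := by
      simp only [mulVec, dotProduct, map_sum, map_mul, of_apply, hB', io_monomial, Finset.mul_sum,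
        mul_assoc]
      refine Finset.sum_congr rfl fun m _ => ?_
      rw [← Finset.mul_sum, ← Finset.mul_sum]
      rfl
    rw [e]
    exact ⟨fun h => VG_mul_of_le (single_mem_VG _ _) h (by push_cast; linarith),
      fun h => VG_of_mul (Ex_single J) (VG_mono h (by push_cast; linarith))⟩

theorem F2 {f : Fin N → Inv A} (hf : Algebra.adjoin kk (Set.range f) = ⊤) {s n n₂ : ℕ}
    (h1 : s + 2 * u * J ≤ n + 1 + J) (h2 : n + 1 + J ≤ n') (h3 : n₂ + s + J ≤ n + 1)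
    (h4 : n + 1 + 2 * J ≤ 2 * n₂) (h5 : s ≤ n) {p : PI J u n' → kk} (hp : p ∈ PP f J n' s) :
    ∃ Y : Submodule kk (PI J u n' → kk), finrank kk Y = 2 * u * (n' - (n + 1)) + s ∧
      ∀ δ, δ ∈ Y ↔ δ ∈ UU J u n' n₂ ∧ p + δ ∈ PP f J n' s ∧ πn f n (p + δ) = πn f n p := by
  obtain ⟨hG, hs, J₀, hJ₀⟩ := hp
  have hEx : Ex s (ev A (xp A p) (Dl f J₀)) := ⟨hs J₀, hJ₀⟩
  set B := (Dm f (xp A p)).submatrix J₀ id * Emat A (th J (bco p)) with hB
  have hdet : B.det = ev A (xp A p) (Dl f J₀) := by rw [hB, det_mul, det_Emat, mul_one, ev_Dl]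
  have hBv : ∀ δ i, (B *ᵥ δ) i = (Dm f (xp A p) *ᵥ px A (th J (bco p)) δ) (J₀ i) := fun δ i => by
    rw [hB, ← mulVec_mulVec, Emat_mulVec]; rfl
  have hs1 : ∀ m m' : Fin u ⊕ Fin u, (Pi.single m 1 : Fin u ⊕ Fin u → Om) m' ∈ KK ∧
      (Pi.single m 1 : Fin u ⊕ Fin u → Om) m' ∈ VG 0 := fun m m' => by
    rw [Pi.single_apply]; split_ifs
    · exact ⟨one_mem _, one_mem_VG⟩
    · exact ⟨zero_mem _, zero_mem _⟩
  have hBK : ∀ i m, B i m ∈ KK := fun i m => by
    have := lin_mem_KK f (J := J) (b := bco p) hG.inK (fun m' => (hs1 m m').1) (J₀ i)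
    rwa [← xp, ← hBv, mulVec_single_one] at this
  have hBV : ∀ i m, B i m ∈ VG (-J) := fun i m => by
    have : (B *ᵥ Pi.single m 1) i ∈ VG (-J) := by
      rw [hBv]
      exact Submodule.sum_mem _ fun m' _ => VG_mul_of_le (aeval_mem_VG hG.px_mem _)
        (px_th_mem_VG (fun m' => (hs1 m m').2) m') (by simp)
    rwa [mulVec_single_one] at this
  let Y' : Submodule kk ((Fin u ⊕ Fin u) × Fin n' → kk) := ⨅ i, (VG (n + 1 : ℕ)).comap
    ((LinearMap.proj i : (Fin u ⊕ Fin u → Om) →ₗ[kk] Om) ∘ₗ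
      (B.mulVecLin.restrictScalars kk) ∘ₗ serL _ n')
  have hY' : ∀ δ, δ ∈ Y' ↔ ∀ i, (B *ᵥ serL _ n' δ) i ∈ VG (n + 1 : ℕ) := fun δ => by
    simp only [Y', Submodule.mem_iInf, Submodule.mem_comap]; rfl
  have hrank := finrank_lin B hBK hBV (hdet ▸ hEx) (by simpa [two_mul] using h1) h2 Y' hY'
  let e : ((Fin u ⊕ Fin u) × Fin n' → kk) →ₗ[kk] (PI J u n' → kk) :=
    { toFun := fun δ => Sum.elim 0 δ
      map_add' := fun δ δ' => by funext a; rcases a with a | a <;> simp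
      map_smul' := fun c δ => by funext a; rcases a with a | a <;> simp }
  have he : Function.Injective e := fun δ δ' h => funext fun a => congrFun h (Sum.inr a)
  have hmem : ∀ δ, δ ∈ Y'.map e ↔ (∀ a, δ (Sum.inl a) = 0) ∧
      ∀ i, (Dm f (xp A p) *ᵥ px A (th J (bco p)) (ser δ)) (J₀ i) ∈ VG (n + 1 : ℕ) := by
    intro δ
    constructor
    · rintro ⟨δ', h, rfl⟩
      exact ⟨fun a => rfl, fun i => by rw [← hBv]; exact (hY' δ').1 h i⟩
    · rintro ⟨h0, h⟩
      refine ⟨δ ∘ Sum.inr, (hY' _).2 fun i => by rw [hBv]; exact h i, ?_⟩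
      funext a
      rcases a with a | a
      · exact (h0 a).symm
      · rfl
  refine ⟨Y'.map e, ?_, fun δ => ?_⟩
  · rw [← (Submodule.equivMapOfInjective e he Y').finrank_eq, hrank]
    simp [two_mul]
  have h3' : (n₂ : ℚ) + s + J ≤ (n + 1 : ℕ) := by exact_mod_cast h3
  have h4' : ((n + 1 : ℕ) : ℚ) + 2 * J ≤ 2 * n₂ := by exact_mod_cast h4
  have ha : (J : ℚ) ≤ n₂ := by exact_mod_cast (by omega : J ≤ n₂)
  have key : δ ∈ UU J u n' n₂ → Good A (th J (bco (p + δ))) (ser (p + δ)) ∧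
      ∀ j, ev A (xp A (p + δ)) (f j) - ev A (xp A p) (f j) -
        (Dm f (xp A p) *ᵥ px A (th J (bco p)) (ser δ)) j ∈ VG (n + 1 : ℕ) := fun hU => by
    rw [xp, bco_add_of_UU p hU, map_add]
    exact ⟨hG.add (ser_mem_KK δ) ha hU.2,
      fun j => VG_mono (hG.taylor f ha hU.2 j) (by linarith)⟩
  rw [hmem]
  constructor
  · rintro ⟨h0, h⟩
    have hU : δ ∈ UU J u n' n₂ :=
      ⟨h0, fun m => VG_mono (mem_VG_of_px (mem_VG_of_lin hG.px_mem hEx h) m) (by linarith)⟩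
    obtain ⟨hG', hT⟩ := key hU
    have hcl : ∀ j, ev A (xp A (p + δ)) (f j) - ev A (xp A p) (f j) ∈ VG (n + 1 : ℕ) := fun j => by
      have := (VG _).add_mem (hT j) (lin_mem_of_minor hs hJ₀ h j)
      rwa [sub_add_cancel] at this
    exact ⟨hU, ⟨hG', OrdEq.of_close hf ⟨hs, J₀, hJ₀⟩ (by exact_mod_cast Nat.lt_succ_of_le h5)
      (fun j => ev_mem_VG hG.px_mem _) hcl⟩, (πn_eq_iff f n hG hG').2 hcl⟩
  · rintro ⟨hU, hP, hπ⟩
    refine ⟨hU.1, fun i => ?_⟩
    have := (VG _).sub_mem ((πn_eq_iff f n hG hP.1).1 hπ (J₀ i)) ((key hU).2 (J₀ i))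
    rwa [sub_sub_cancel] at this

theorem Charts.exists_ordEq (C : Charts A) (hA : H1 A) {f : Fin N → Inv A}
    (hf : Algebra.adjoin kk (Set.range f) = ⊤) {p : PI J u n' → kk}
    (hG : Good A (th J (bco p)) (ser p)) {r : ℕ} (hr : ExV r fun i => ser p (Sum.inl i)) :
    ∃ s ≤ 7 * r * C.E, p ∈ PP f J n' s := by
  obtain ⟨γ, hγ⟩ := hG.exists_lifts
  have hne : arcOrd (II f) γ ≠ ⊤ := fun h => by
    have h1 := (le_arcOrd_iff f γ (7 * r * C.E + 1)).1 (h ▸ le_top)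
    have := C.le_of_all hA hf hG.px_mem hr fun J₀ => hγ (Dl f J₀) ▸ h1 J₀
    push_cast at this
    linarith
  obtain ⟨s, hs⟩ := ENat.ne_top_iff_exists.1 hne
  have hs' := (arcOrd_eq_iff f γ s).1 hs.symm
  rw [hγ.comp_eq] at hs'
  exact ⟨s, by exact_mod_cast C.le_of_all hA hf hG.px_mem hr hs'.1, hG, hs'⟩

theorem ExV_ser_iff {p : PI J u n' → kk} {r : ℕ} : (ExV r fun i => ser p (Sum.inl i)) ↔
    (∀ i t, t < r → xco p (Sum.inl i) t = 0) ∧ (fun i => xco p (Sum.inl i) r) ≠ 0 := by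
  simp only [ExV, ser_mem_VG_iff, ser_coeff]

theorem Charts.main_subset (C : Charts A) (hA : H1 A) {f : Fin N → Inv A}
    (hf : Algebra.adjoin kk (Set.range f) = ⊤) {S : ℕ} (hS : 7 * C.E ≤ S) (hJ : 2 ≤ J) :
    MainSet A J n' ⊆ ⋃ s ∈ Finset.range (S + 1), PP f J n' s := by
  have key : ∀ (p : PI J u n' → kk) (r : ℕ), r ≤ 1 → Good A (th J (bco p)) (ser p) →
      (ExV r fun i => ser p (Sum.inl i)) → p ∈ ⋃ s ∈ Finset.range (S + 1), PP f J n' s := by
    intro p r hr1 hG hr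
    obtain ⟨s, hs, hp⟩ := C.exists_ordEq hA hf hG hr
    have : 7 * r * C.E ≤ 7 * 1 * C.E := by gcongr
    exact Set.mem_biUnion (Finset.mem_range.2 (by omega)) hp
  rintro p (⟨hb, hw⟩ | ⟨hb, hw0, hw1, β, hβ, hβw⟩)
  · refine key p 0 zero_le_one ⟨ser_mem_KK _, ser_mem_VG_zero _, fun i => ?_⟩
      (ExV_ser_iff.2 ⟨fun _ _ h => absurd h (Nat.not_lt_zero _), hw⟩)
    have : th J (bco p) = 0 := funext fun l => by
      rw [th, show bco p l = 0 from funext (hb l), theta_zero]; rfl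
    rw [this, tay_Aop_zero_left]; exact zero_mem _
  · have hE : ExV 1 fun i => ser p (Sum.inl i) := ExV_ser_iff.2 ⟨fun i t ht => by
      obtain rfl : t = 0 := by omega
      exact congrFun hw0 i, hw1⟩
    refine key p 1 le_rfl ⟨ser_mem_KK _, ser_mem_VG_zero _, fun i => ?_⟩ hE
    set σβ : Fin 3 → Om := fun l => single (-3 / 2) (β l) with hσβ
    set w₁ : Fin u → Om := fun j => single 1 (xco p (Sum.inl j) 1) with hw₁
    have h1 : ∀ l, (th J (bco p) - σβ) l ∈ VG (-1) := fun l => by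
      have := theta_sub_mem hJ (hb l)
      rwa [show rt 1 (bco p l 1) = β l from est_sq_inj (by rw [rt_one_sq, hβ])] at this
    have h2 : ∀ j, ((fun j => ser p (Sum.inl j)) - w₁) j ∈ VG 2 := fun j => by
      have := (mem_VG_nat_iff (a := 2) (KK.sub_mem (ser_mem_KK p (Sum.inl j))
        (single_nat_mem_KK 1 (xco p (Sum.inl j) 1))) ((VG 0).sub_mem (ser_mem_VG_zero _ _)
          (VG_mono (single_mem_VG _ _) (by simp)))).2 fun t ht => by
        rw [HahnSeries.coeff_sub, ser_coeff]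
        interval_cases t
        · rw [coeff_single_of_ne (by simp), sub_zero]; exact congrFun hw0 j
        · simp
      simpa using this
    have h3 : Aop A σβ w₁ i ∈ VG 0 := fun g _ => by
      rw [coeff_Aop σβ w₁ g (if g = -1 / 2 then β else 0) (fun j => xco p (Sum.inl j) 1)]
      · split_ifs
        · exact congrFun hβw i
        · exact congrFun (tay_Aop_zero_left A _) i
      · intro l j
        simp only [hσβ, hw₁, single_mul_single, show (-3 / 2 + 1 : ℚ) = -1 / 2 by norm_num]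
        split_ifs with h
        · rw [h, coeff_single_same]
        · rw [coeff_single_of_ne h]; simp
    have h4 := (VG 0).add_mem ((VG 0).add_mem
      (VG_mono (Aop_mem_VG (A := A) h1 hE.1 i) (by simp))
      (VG_mono (Aop_mem_VG (A := A) (θ := σβ) (fun l => single_mem_VG _ _) h2 i) (by norm_num))) h3
    rw [tay_Aop_sub_left, tay_Aop_sub_right] at h4
    simpa using h4

theorem Charts.mem_box (C : Charts A) (hA : H1 A) (hu : 0 < u) {f : Fin N → Inv A}
    (hf : Algebra.adjoin kk (Set.range f) = ⊤) {s : ℕ} {p : PI J u n' → kk}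
    (hp : p ∈ PP f J n' s) : ∃ r ≤ s, s ≤ 7 * r * C.E ∧ (ExV r fun i => ser p (Sum.inl i)) ∧
      p ∈ Box J u n' r := by
  obtain ⟨r, hrs, hr⟩ := PP.exists_ExV hA hu hp
  refine ⟨r, hrs, by exact_mod_cast C.le_of_all hA hf hp.1.px_mem hr hp.2.1, hr,
    fun l j hj => ?_, (ExV_ser_iff.1 hr).1⟩
  exact b_eq_zero hA (bco_vanish p) (fun i => ser_mem_KK _ _) hr hp.1.adm l j (by
    have : (2 * r : ℚ) ≤ j := by exact_mod_cast hj
    linarith)

theorem Charts.subset_main (C : Charts A) (hA : H1 A) (hu : 0 < u) {f : Fin N → Inv A}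
    (hf : Algebra.adjoin kk (Set.range f) = ⊤) {S s : ℕ} (hs : s ≤ S) (hJ : 2 ≤ J) :
    PP f J n' s ⊆ MainSet A J n' ∪ ⋃ r ∈ Finset.Icc 2 S, Box J u n' r := by
  intro p hp
  obtain ⟨r, hrs, -, hr, hbox⟩ := C.mem_box hA hu hf hp
  rcases (by omega : r = 0 ∨ r = 1 ∨ 2 ≤ r) with rfl | rfl | h
  · exact Or.inl (Or.inl ⟨fun l j => hbox.1 l j (by omega), (ExV_ser_iff.1 hr).2⟩)
  · refine Or.inl (Or.inr ⟨hbox.1, funext fun i => hbox.2 i 0 one_pos, (ExV_ser_iff.1 hr).2,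
      fun l => rt 1 (bco p l 1), fun l => rt_one_sq _, funext fun i => ?_⟩)
    have := coeff_Aop_th (A := A) (j := 1) (n := 1) (by omega : 1 < J)
      (fun l j' hj' => hbox.1 l j' (by omega)) one_pos (fun i => ser_mem_KK p (Sum.inl i)) hr.1 i
    simp only [ser_coeff] at this
    rw [← this]
    exact hp.1.adm i _ (by norm_num)
  · exact Or.inr (Set.mem_biUnion (Finset.mem_Icc.2 ⟨h, hrs.trans hs⟩) hbox)

end Pool.Agent.MP_536a45_ag

end

section

open Filter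

namespace Pool.Agent.MP_536a45_ag

open Polynomial Topology Ell in
/-- A pencil whose degeneracy locus is an ordinary elliptic curve. -/
theorem exists_data : ∃ A : Fin 3 → Matrix (Fin 27) (Fin 27) kk, H1 A ∧
    ∀ (ρ : ℕ), 0 < ρ → ∀ (P Q : Polynomial ℤ), Q ≠ 0 → ∀ (N : ℕ → ℝ) (C : ℝ),
      (∀ᶠ m : ℕ in dv, |N m - (((2 : ℝ) ^ m) ^ 54 - (2 ^ m) ^ 27 + (2 ^ m) ^ 3 * Zc A m)| ≤
        C * ((2 : ℝ) ^ m) ^ 12) →
      (∀ᶠ m : ℕ in dv, |Polynomial.aeval ((2 : ℝ) ^ ((m : ℝ) / ρ)) Q * N m -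
        Polynomial.aeval ((2 : ℝ) ^ ((m : ℝ) / ρ)) P| ≤ C) → False := by
  refine ⟨AA, h1_AA, fun ρ hρ P Q hQ N C hA hB => ?_⟩
  obtain ⟨b, hb, hAB⟩ := eventually_dv.mp (hA.and hB)
  set a := 2 * b with ha
  have ha0 : 0 < a := by omega
  have hX : ∀ n : ℕ, 0 < n → (X ^ n - 1 : ℤ[X]) ≠ 0 := fun n hn =>
    X_pow_sub_C_ne_zero hn 1
  have hQ1 : Q * ((X ^ ρ) ^ 3 * (X ^ ρ - 1) * ((X ^ ρ) ^ 9 - 1)) ≠ 0 := by
    refine mul_ne_zero hQ (mul_ne_zero (mul_ne_zero (by simp) (hX _ hρ)) ?_)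
    rw [← pow_mul]; exact hX _ (by omega)
  obtain ⟨D, R, hD, hT⟩ := num_div
    (P - Q * ((X ^ ρ) ^ 54 - (X ^ ρ) ^ 27 + (X ^ ρ) ^ 30 - (X ^ ρ) ^ 3)) _ hQ1
  simp only [map_sub, map_mul, map_add, map_pow, aeval_X, map_one] at hT
  have hn : Tendsto (fun s : ℕ => (2 : ℝ) ^ (a * s)) atTop atTop :=
    (tendsto_pow_atTop_atTop_of_one_lt one_lt_two).comp (tendsto_id.const_mul_atTop' ha0)
  have hn' : Tendsto (fun s : ℕ => ((2 : ℝ) ^ (a * s)) ^ ρ) atTop atTop :=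
    (tendsto_pow_atTop hρ.ne').comp hn
  have hcast : ∀ (F : ℤ[X]) (t : ℕ), aeval ((2 : ℝ) ^ t) F = ((F.eval (2 ^ t) : ℤ) : ℝ) := by
    intro F t
    have := aeval_algebraMap_apply ℝ ((2 : ℤ) ^ t) F
    simpa using this
  have hQn : ∀ᶠ s : ℕ in atTop, 1 ≤ |aeval ((2 : ℝ) ^ (a * s)) Q| := by
    have := hn.eventually (eventually_atTop_not_isRoot (Q.map (algebraMap ℤ ℝ))
      ((Polynomial.map_ne_zero_iff (algebraMap ℤ ℝ).injective_int).mpr hQ))
    filter_upwards [this] with s hs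
    rw [IsRoot.def, eval_map_algebraMap, hcast] at hs
    rw [hcast]
    exact_mod_cast Int.one_le_abs (by exact_mod_cast hs)
  set E : ℕ → ℤ := fun s => (aff (a * s * ρ)).ncard + 1 with hE
  have hE0 : Tendsto (fun s : ℕ => (E s : ℝ) - (fun x : ℝ => (aeval x P - aeval x Q *
      ((x ^ ρ) ^ 54 - (x ^ ρ) ^ 27 + (x ^ ρ) ^ 30 - (x ^ ρ) ^ 3)) / (aeval x Q *
      ((x ^ ρ) ^ 3 * (x ^ ρ - 1) * ((x ^ ρ) ^ 9 - 1)))) (2 ^ (a * s))) atTop (𝓝 0) := by
    refine squeeze_zero_norm' ?_ (hn'.const_div_atTop (8 * C))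
    filter_upwards [hQn, eventually_gt_atTop 0] with s h1 h2
    have hm : 0 < a * s * ρ := by positivity
    obtain ⟨k1, k2⟩ := hAB (a * s * ρ) hm ⟨2 * s * ρ, by rw [ha]; ring⟩
    have e1 : (2 : ℝ) ^ (((a * s * ρ : ℕ) : ℝ) / ρ) = 2 ^ (a * s) := by
      rw [Nat.cast_mul, mul_div_cancel_right₀ _ (by positivity), Real.rpow_natCast]
    have e2 := congrArg (Int.cast : ℤ → ℝ) (Zc_eq hm ⟨b * s * ρ, by rw [ha]; ring⟩)
    push_cast at e2
    rw [e1] at k2
    rw [e2, pow_mul] at k1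
    refine num_bound ?_ h1 (by simpa [hE] using k1) k2
    rw [← pow_mul]
    exact le_self_pow₀ one_le_two hm.ne'
  have h3 := (hE0.const_mul (D : ℝ)).add (hT.comp hn)
  rw [mul_zero, add_zero] at h3
  refine num_val R hD E ha0 ?_ fun s hs => ?_
  · filter_upwards [h3.eventually (Ioo_mem_nhds (show (-1 : ℝ) < 0 by norm_num) one_pos)] with s hs
    simp only [Function.comp, hcast R] at hs
    have b1 : ((-1 : ℤ) : ℝ) < ((D * E s - R.eval (2 ^ (a * s)) : ℤ) : ℝ) := by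
      push_cast; linarith [hs.1]
    have b2 : ((D * E s - R.eval (2 ^ (a * s)) : ℤ) : ℝ) < ((1 : ℤ) : ℝ) := by
      push_cast; linarith [hs.2]
    rw [Int.cast_lt] at b1 b2
    omega
  · have hm : 0 < a * s * ρ := by positivity
    have := val_aff (a * s * ρ) (aff_finite hm) (aff_finite (by omega))
    simpa only [hE, show a * (2 * s) * ρ = 2 * (a * s * ρ) by ring] using this

end Pool.Agent.MP_536a45_ag

end

section

/-!
# Convergence and irrationality of the stringy motive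
-/

open MvPolynomial Module Filter Topology

namespace Pool.Agent.MP_536a45_ag

variable {A : Fin 3 → Matrix (Fin 27) (Fin 27) kk} {N : ℕ}

theorem dim_le_of_cover {k : Type} [Field k] {I κ : Type} [Fintype I] [Finite κ]
    (F : κ → MvPolynomial I k) (P : Set (κ → k)) (D : ℕ)
    (h : ∀ z ∈ P, ∃ Z : Finset I, Fintype.card I ≤ D + Z.card ∧
      z ∈ polyMap F '' {x | ∀ i ∈ Z, x i = 0}) : dim P ≤ D := by
  classical
  refine (dim_mono (B := ⋃ Z ∈ (Finset.univ.filter fun Z : Finset I =>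
    Fintype.card I ≤ D + Z.card), polyMap F '' {x | ∀ i ∈ Z, x i = 0}) fun z hz => ?_).trans
    (dim_biUnion_le _ _ D fun Z hZ => (dim_image_le F Z).trans ?_)
  · obtain ⟨Z, h1, h2⟩ := h z hz
    exact Set.mem_biUnion (x := Z) (by simpa using h1) h2
  · exact_mod_cast Nat.sub_le_iff_le_add.2 (Finset.mem_filter.1 hZ).2

theorem Charts.dim_jetSet (C : Charts A) (hA : H1 A) {f : Fin N → Inv A}
    (hf : Algebra.adjoin kk (Set.range f) = ⊤) {s n R D : ℕ} (hn : 110 * s ≤ n)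
    (hR : 7 * R * C.E < s) (hD : 54 * (n + 1) ≤ D + s + 21 * R) :
    dim (jetSet (k := kk) f (II f) s n) ≤ D := by
  classical
  rw [C.jetSet_eq hA (by norm_num) hf (J := 2 * s) (n' := n + 1 + 2 * s) le_rfl (by omega) le_rfl]
  obtain ⟨F, hF⟩ := exists_πn_eq (J := 2 * s) (n' := n + 1 + 2 * s) f n
  refine dim_le_of_cover F _ D ?_
  · rintro _ ⟨p, hp, rfl⟩
    obtain ⟨r, hrs, hsr, -, hbox⟩ := C.mem_box hA (by norm_num) hf hp
    have hRr : R < r := by
      by_contra h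
      have : 7 * r * C.E ≤ 7 * R * C.E := by gcongr; omega
      omega
    obtain ⟨Y, hYd, hY⟩ := F2 hf (n := n) (n₂ := n + 1 - 30 * s) (by omega) le_rfl (by omega)
      (by omega) (by omega) hp
    have hYZ : ∀ δ ∈ Y, ∀ i ∈ estZ (2 * s) 27 (n + 1 + 2 * s) (2 * r) r, δ i = 0 := by
      intro δ hδ
      have hU := ((hY δ).1 hδ).1
      refine (estZ_iff δ).2 ⟨fun l j _ => by simp [bco, hU.1], fun i t ht => ?_⟩
      exact (ser_mem_VG_iff δ _).1 (hU.2 _) t (by omega)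
    obtain ⟨Cs, hCc, hCd, hC⟩ := exists_coord_compl Y _ hYZ
    obtain ⟨δ, ⟨hδ, hδC⟩, -⟩ := hC (-p)
    refine ⟨Cs ∪ estZ (2 * s) 27 (n + 1 + 2 * s) (2 * r) r, ?_, p + δ, fun i hi => ?_, ?_⟩
    · have h1 := estZ_card (J := 2 * s) (u := 27) (n' := n + 1 + 2 * s) (a := 2 * r) (r := r)
        (by omega) (by omega)
      rw [Finset.card_union_of_disjoint hCd, hCc, hYd, est_card]
      omega
    · rcases Finset.mem_union.1 hi with hi | hi
      · simp [hδC i hi]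
      · rw [Pi.add_apply, hYZ δ hδ i hi, (estZ_iff p).2 hbox i hi, add_zero]
    · rw [← hF]; exact ((hY δ).1 hδ).2.2

theorem Charts.count_estimate (C : Charts A) (hA : H1 A) {f : Fin N → Inv A}
    (hf : Algebra.adjoin kk (Set.range f) = ⊤) {S n : ℕ} (hS : 2 ≤ S) (hSE : 7 * C.E ≤ S)
    (hn : 110 * S ≤ n) : ∀ᶠ m : ℕ in dv,
    |(∑ s ∈ Finset.range (S + 1), (cnt m (jetSet (k := kk) f (II f) s n) : ℝ) * (2 ^ m) ^ s) /
      (2 ^ m) ^ (54 * n) - (((2 : ℝ) ^ m) ^ 54 - (2 ^ m) ^ 27 + (2 ^ m) ^ 3 * Zc A m)| ≤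
      S * ((2 : ℝ) ^ m) ^ 12 := by
  have e0 : ∀ᶠ m : ℕ in dv, 0 < m := eventually_dv.2 ⟨1, one_pos, fun m hm _ => hm⟩
  have e1 : ∀ᶠ m : ℕ in dv, ∀ l i j, A l i j ^ 2 ^ m = A l i j := by
    simp only [eventually_all]; exact fun l i j => eventually_fixed_elt _
  have e2 : ∀ᶠ m : ℕ in dv, ∀ j, Fixed m (f j : MvPolynomial (Fin 27 ⊕ Fin 27) kk) := by
    simp only [eventually_all]; exact fun j => eventually_Fixed _
  have e3 : ∀ᶠ m : ℕ in dv, ∀ J₀, Fixed m (Dl f J₀ : MvPolynomial (Fin 27 ⊕ Fin 27) kk) := by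
    simp only [eventually_all]; exact fun j => eventually_Fixed _
  filter_upwards [e0, e1, e2, e3] with m hm h1 h2 h3
  refine estimate A S n (n + 1 + 2 * S) m hm h1 hS (by omega) (by omega)
    (fun s => PP f (2 * S) (n + 1 + 2 * S) s) (fun s s' hne => ?_)
    (C.main_subset hA hf hSE (by omega))
    (fun s hs => C.subset_main hA (by norm_num) hf (by simpa [Nat.lt_succ_iff] using hs) (by omega))
    _ fun s hs => ?_
  · refine Set.disjoint_left.2 fun p hp hp' => hne ?_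
    obtain ⟨J₀, h₀⟩ := hp.2.2
    obtain ⟨J₁, h₁⟩ := hp'.2.2
    have a1 := Ex.le ⟨hp.2.1 J₀, h₀⟩ (hp'.2.1 J₀)
    have a2 := Ex.le ⟨hp'.2.1 J₁, h₁⟩ (hp.2.1 J₁)
    exact_mod_cast le_antisymm a2 a1
  · have hs' : s ≤ S := by simpa [Nat.lt_succ_iff] using hs
    rw [C.jetSet_eq hA (by norm_num) hf (J := 2 * S) (n' := n + 1 + 2 * S) (by omega) (by omega)
      le_rfl]
    exact pairs_count (Tw A) hm (Tw_zero A) (Tw_add A) (Tw_frob A h1) _ (πn f n)
      (UU _ _ _ (n + 1 - 30 * S)) _ (fun p hp => frob_mem_PP h1 h3 hp)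
      (fun c hc p hp => Tw_mem_PP hc hp) (fun p _ => πn_frob h1 h2 n p)
      (fun c hc p _ => πn_Tw hc n p) (fun δ hδ => frob_mem_UU hδ) (fun τ δ hδ => Tw_mem_UU τ hδ)
      (fun p hp p' hp' h => C.F1 hA (by norm_num) hf (by omega) (by omega) (by omega) hp hp' h)
      (fun p hp => F2 hf (by omega) le_rfl (by omega) (by omega) (by omega) hp)
      fun p hp c hc h => F3 hA (by norm_num) (by omega) hp hc h

theorem Charts.stable (C : Charts A) (hA : H1 A) {f : Fin N → Inv A}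
    (hf : Algebra.adjoin kk (Set.range f) = ⊤) (s : ℕ) :
    ∀ᶠ n in atTop, cls (jetSet (k := kk) f (II f) s (n + 1)) =
      cls (jetSet (k := kk) f (II f) s n) * cls (Set.univ : Set (Unit → kk)) ^ 54 := by
  have := cls_jetSet_succ (Inv A) jac_mem_Inv (Λ := C.Λ) (fun a => C.M a) (fun a => C.h a)
    (fun a => C.hMh a) (fun a => C.chart a) f hf (II f) rfl s (7 * s) (10 * s) (fun γ hγ => ?_)
    (fun n hn γ hγ J hJ v => C.surj hA (by norm_num) f hn γ hγ J hJ v)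
    fun n hn => C.isConstr_jetSet hA (by norm_num) hf (by omega)
  · simpa using this
  rw [arcOrd_eq_iff] at hγ
  obtain ⟨r, hr⟩ := exists_ExV (w_ne_zero hA (by norm_num) hγ) (fun i => io_mem_KK _)
    fun i => io_mem_VG_zero _
  obtain ⟨a, ha, hM⟩ := C.exists_Ex hA _ hr
  obtain ⟨b, ξ, -, hG, hL⟩ := C.exists_lift hA (by norm_num) γ hγ le_rfl
  rw [hL.comp_eq] at hγ hr
  have hrs : r ≤ s := by
    exact_mod_cast le_of_ordEq hA (by norm_num) hG.px_mem hγ (r := r)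
      (by simpa only [ev_X_inl] using hr.1)
  refine ⟨⟨a, ha⟩, ?_⟩
  rw [Ex_io_iff.1 (show Ex ((7 * r : ℕ) : ℚ) (io (γ (C.M a))) by exact_mod_cast hM)]
  exact_mod_cast (by omega : 7 * r ≤ 7 * s)

theorem Charts.exists_measure (C : Charts A) (hA : H1 A) {f : Fin N → Inv A}
    (hf : Algebra.adjoin kk (Set.range f) = ⊤) (ρ s : ℕ) :
    ∃ μ : Mot kk ρ, ∀ᶠ n in atTop,
      μ * lef kk ρ ^ (n * 54) = toMot kk ρ (cls (jetSet (k := kk) f (II f) s n)) := by
  obtain ⟨n₀, h₀⟩ := eventually_atTop.1 (C.stable hA hf s)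
  refine ⟨toMot kk ρ (cls (jetSet (k := kk) f (II f) s n₀)) *
    (((rootL kk ρ ^ ρ) ^ (n₀ * 54))⁻¹ : (Mot kk ρ)ˣ), eventually_atTop.2 ⟨n₀, fun n hn => ?_⟩⟩
  induction n, hn using Nat.le_induction with
  | base =>
    rw [← rootL_pow, mul_assoc, ← Units.val_pow_eq_pow_val, ← Units.val_pow_eq_pow_val,
      Units.inv_mul, mul_one]
  | succ n hn ih =>
    rw [h₀ n hn, map_mul, map_pow, ← ih, add_mul, one_mul, pow_add, ← mul_assoc]; rfl

theorem Charts.measure_mem_filt (C : Charts A) (hA : H1 A) {f : Fin N → Inv A}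
    (hf : Algebra.adjoin kk (Set.range f) = ⊤) {ρ : ℕ} (hρ : 0 < ρ) {μ : ℕ → Mot kk ρ}
    (hμ : ∀ s, ∀ᶠ n in atTop,
      μ s * lef kk ρ ^ (n * 54) = toMot kk ρ (cls (jetSet (k := kk) f (II f) s n))) (j : ℤ) :
    ∀ᶠ s in atTop, μ s * lef kk ρ ^ s ∈ filt kk ρ j := by
  filter_upwards [eventually_gt_atTop (7 * (j.toNat + 3) * C.E)] with s hs
  obtain ⟨n, h1, h2, h3⟩ := ((hμ s).and ((eventually_ge_atTop (110 * s)).and
    (eventually_ge_atTop (j.toNat + 3)))).exists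
  refine AddSubgroup.subset_closure ⟨_, inferInstance, jetSet (k := kk) f (II f) s n,
    54 * (n + 1) - s - 21 * (j.toNat + 3), ρ * s - ρ * (n * 54),
    C.isConstr_jetSet hA (by norm_num) hf (by omega), C.dim_jetSet hA hf h2 hs (by omega), ?_, ?_⟩
  · have e : ((54 * (n + 1) - s - 21 * (j.toNat + 3) : ℕ) : ℤ) =
        54 * (n + 1) - s - 21 * (j.toNat + 3) := by omega
    have h4 : j ≤ j.toNat := Int.self_le_toNat j
    have h5 : (1 : ℤ) ≤ ρ := by exact_mod_cast hρ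
    have h6 : (0 : ℤ) ≤ j.toNat := Int.natCast_nonneg _
    rw [e]
    nlinarith
  · rw [← h1, ← rootL_pow, mul_assoc, ← pow_mul, ← pow_mul, ← Units.val_pow_eq_pow_val,
      ← Units.val_pow_eq_pow_val, ← Units.val_mul, ← zpow_natCast, ← zpow_natCast, ← zpow_add]
    congr 3
    push_cast
    ring

theorem exists_limit {k : Type} [Field k] {ρ : ℕ} {a : ℕ → Mot k ρ}
    (h : ∀ j, ∀ᶠ s in atTop, a s ∈ filt k ρ j) : ∃ M : MotHat k ρ,
      Tendsto (fun m => ((∑ s ∈ Finset.range m, a s : Mot k ρ) : MotHat k ρ)) atTop (𝓝 M) := by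
  refine cauchySeq_tendsto_of_complete
    ((UniformSpace.Completion.uniformContinuous_coe _).comp_cauchySeq ?_)
  rw [(filt_basis k ρ).hasBasis_nhds_zero.uniformity_of_nhds_zero.cauchySeq_iff']
  intro j _
  obtain ⟨s₀, hs₀⟩ := eventually_atTop.1 (h j)
  refine ⟨s₀, fun n hn => ?_⟩
  change ∑ s ∈ Finset.range s₀, a s - ∑ s ∈ Finset.range n, a s ∈ filt k ρ j
  induction n, hn using Nat.le_induction with
  | base => rw [sub_self]; exact zero_mem _
  | succ n hn ih => rw [Finset.sum_range_succ, ← sub_sub]; exact sub_mem ih (hs₀ n hn)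

theorem eventually_mem_filt {k : Type} [Field k] {ρ : ℕ} {a : ℕ → Mot k ρ}
    (h : Tendsto (fun m => (a m : MotHat k ρ)) atTop (𝓝 0)) : ∀ᶠ m in atTop, a m ∈ filt k ρ 0 := by
  have h1 : Tendsto a atTop (𝓝 0) := by
    rw [(UniformSpace.Completion.isUniformInducing_coe (Mot k ρ)).isInducing.tendsto_nhds_iff]
    exact h
  exact h1 ((filt_basis k ρ).hasBasis_nhds_zero.mem_of_mem (i := 0) trivial)

theorem ringHom_aeval {R R' : Type*} [CommRing R] [CommRing R'] (g : R →+* R') (x : R)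
    (P : Polynomial ℤ) : g (Polynomial.aeval x P) = Polynomial.aeval (g x) P :=
  (Polynomial.aeval_algHom_apply g.toIntAlgHom x P).symm

theorem germ_aeval (g : ℕ → ℝ) (P : Polynomial ℤ) : Polynomial.aeval (g : Germ dv ℝ) P =
    ((fun m => Polynomial.aeval (g m) P : ℕ → ℝ) : Germ dv ℝ) := by
  have h1 := Polynomial.aeval_algHom_apply (Germ.coeRingHom (R := ℝ) dv).toIntAlgHom g P
  refine h1.trans (congrArg _ (funext fun m => ?_))
  exact (Polynomial.aeval_algHom_apply (Pi.evalRingHom (fun _ : ℕ => ℝ) m).toIntAlgHom g P).symm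

theorem main_integral (hA : H1 A)
    (hnr : ∀ (ρ : ℕ), 0 < ρ → ∀ (P Q : Polynomial ℤ), Q ≠ 0 → ∀ (N : ℕ → ℝ) (C : ℝ),
      (∀ᶠ m : ℕ in dv, |N m - (((2 : ℝ) ^ m) ^ 54 - (2 ^ m) ^ 27 + (2 ^ m) ^ 3 * Zc A m)| ≤
        C * ((2 : ℝ) ^ m) ^ 12) →
      (∀ᶠ m : ℕ in dv, |Polynomial.aeval ((2 : ℝ) ^ ((m : ℝ) / ρ)) Q * N m -
        Polynomial.aeval ((2 : ℝ) ^ ((m : ℝ) / ρ)) P| ≤ C) → False)
    {f : Fin N → Inv A} (hf : Algebra.adjoin kk (Set.range f) = ⊤) {ρ : ℕ} (hρ : 0 < ρ) :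
    ∃ M : MotHat kk ρ, IsMotivicIntegral f 54 (II f) ρ M ∧ ¬ IsRationalFunction (rootHat kk ρ) M := by
  obtain ⟨C⟩ := nonempty_charts (A := A) (by norm_num)
  choose μ hμ using C.exists_measure hA hf ρ
  obtain ⟨M, hM⟩ := exists_limit (C.measure_mem_filt hA hf hρ hμ)
  refine ⟨M, ⟨μ, fun s => ?_, hM⟩, ?_⟩
  · filter_upwards [hμ s, eventually_ge_atTop s] with n h1 h2
    exact ⟨C.isConstr_jetSet hA (by norm_num) hf h2, h1⟩
  rintro ⟨P, Q, hQ, hPQ⟩
  obtain ⟨χ, hχ1, hχ2, hχ3⟩ := exists_realization ρ hρ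
  set T : Mot kk ρ := ((rootL kk ρ : (Mot kk ρ)ˣ) : Mot kk ρ) with hT
  have hρ' : (ρ : ℝ) ≠ 0 := by exact_mod_cast hρ.ne'
  have hL : χ (lef kk ρ) = ((fun m : ℕ => (2 : ℝ) ^ m : ℕ → ℝ) : Germ dv ℝ) := by
    rw [← rootL_pow, map_pow, hχ2, ← Germ.coe_pow]
    congr 1
    funext m
    rw [Pi.pow_apply, ← Real.rpow_natCast, ← Real.rpow_mul (by norm_num), div_mul_cancel₀ _ hρ',
      Real.rpow_natCast]
  have hQ0 : Q ≠ 0 := by
    rintro rfl
    rw [map_zero, isUnit_zero_iff] at hQ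
    have : Subsingleton (MotHat kk ρ) := subsingleton_of_zero_eq_one hQ
    have h1 := (eventually_mem_filt (a := fun _ => lef kk ρ)
      (by rw [Subsingleton.elim (0 : MotHat kk ρ) (lef kk ρ)]; exact tendsto_const_nhds)).exists
    obtain ⟨-, h1⟩ := h1
    obtain ⟨c, hc⟩ := hχ3 _ h1 _ hL
    obtain ⟨a, ha, h⟩ := eventually_dv.1 hc
    obtain ⟨n, hn⟩ := pow_unbounded_of_one_lt c (one_lt_two (α := ℝ))
    have h2 := h (a * (n + 1)) (by positivity) (Dvd.intro _ rfl)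
    rw [abs_of_pos (by positivity)] at h2
    have h3 : (2 : ℝ) ^ n ≤ 2 ^ (a * (n + 1)) := pow_le_pow_right₀ one_le_two (by nlinarith)
    linarith
  have hev := eventually_mem_filt (a := fun m => (∑ s ∈ Finset.range m, μ s * lef kk ρ ^ s) *
      Polynomial.aeval T Q - Polynomial.aeval T P) (by
    have h1 := ringHom_aeval
      (UniformSpace.Completion.coeRingHom : Mot kk ρ →+* MotHat kk ρ) T
    change ∀ P, ((Polynomial.aeval T P : Mot kk ρ) : MotHat kk ρ) = _ at h1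
    simp only [UniformSpace.Completion.coe_sub, UniformSpace.Completion.coe_mul, h1]
    rw [← sub_eq_zero.2 hPQ]
    exact (hM.mul_const _).sub_const _)
  obtain ⟨S, hS1, hS2, hS3⟩ := (((tendsto_add_atTop_nat 1).eventually hev).and
    ((eventually_ge_atTop 2).and (eventually_ge_atTop (7 * C.E)))).exists
  obtain ⟨n, hn1, hn2⟩ := (((eventually_all_finset (Finset.range (S + 1))).2 fun s _ => hμ s).and
    (eventually_ge_atTop (110 * S))).exists
  set Nf : ℕ → ℝ := fun m => (∑ s ∈ Finset.range (S + 1),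
    (cnt m (jetSet (k := kk) f (II f) s n) : ℝ) * (2 ^ m) ^ s) / (2 ^ m) ^ (54 * n) with hNf
  have hχN : χ (∑ s ∈ Finset.range (S + 1), μ s * lef kk ρ ^ s) = (Nf : Germ dv ℝ) := by
    have h1 : ∀ s ∈ Finset.range (S + 1), χ (μ s * lef kk ρ ^ s) = Germ.coeRingHom dv
        fun m : ℕ => (cnt m (jetSet (k := kk) f (II f) s n) : ℝ) * (2 ^ m) ^ s /
          (2 ^ m) ^ (54 * n) := by
      intro s hs
      have hsn : s ≤ n := by have := Finset.mem_range.1 hs; omega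
      have h2 := congrArg χ (hn1 s hs)
      rw [map_mul, map_pow, hL, hχ1 _ _ (C.isConstr_jetSet hA (by norm_num) hf hsn)] at h2
      obtain ⟨g, hg⟩ : ∃ g : ℕ → ℝ, χ (μ s) = (g : Germ dv ℝ) :=
        Germ.inductionOn (χ (μ s)) fun g => ⟨g, rfl⟩
      rw [hg, ← Germ.coe_pow, ← Germ.coe_mul, Germ.coe_eq] at h2
      rw [map_mul, map_pow, hL, hg, ← Germ.coe_pow, ← Germ.coe_mul, Germ.coe_coeRingHom,
        Germ.coe_eq]
      filter_upwards [h2] with m hm
      simp only [Pi.mul_apply, Pi.pow_apply] at hm ⊢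
      rw [← hm, mul_comm n 54]
      field_simp
    rw [map_sum, Finset.sum_congr rfl h1, ← map_sum, Germ.coe_coeRingHom]
    congr 1
    funext m
    simp only [Finset.sum_apply, hNf, Finset.sum_div]
  obtain ⟨c, hc⟩ := hχ3 _ hS1 (fun m => Nf m * Polynomial.aeval ((2 : ℝ) ^ ((m : ℝ) / ρ)) Q -
      Polynomial.aeval ((2 : ℝ) ^ ((m : ℝ) / ρ)) P) (by
    have h1 : ∀ P : Polynomial ℤ, χ (Polynomial.aeval T P) = Polynomial.aeval (χ T) P := fun P =>
      (Polynomial.aeval_algHom_apply χ.toIntAlgHom T P).symm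
    rw [map_sub, map_mul, hχN, h1, h1, hχ2, germ_aeval, germ_aeval]
    rfl)
  refine hnr ρ hρ P Q hQ0 Nf (max c S) ?_ ?_
  · filter_upwards [C.count_estimate hA hf hS2 hS3 hn2] with m hm
    exact hm.trans (by gcongr; exact le_max_right _ _)
  · filter_upwards [hc] with m hm
    rw [mul_comm]; exact hm.trans (le_max_left _ _)

theorem main_gen {u : ℕ} [NeZero u] (hu : 2 ≤ u) (A : Fin 3 → Matrix (Fin u) (Fin u) kk)
    (hA : H1 A) (H : ∀ (N : ℕ) (f : Fin N → Inv A), Algebra.adjoin kk (Set.range f) = ⊤ →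
      ∀ ρ, 0 < ρ → ∃ M : MotHat kk ρ, IsMotivicIntegral f (2 * u) (II f) ρ M ∧
        ¬ IsRationalFunction (rootHat kk ρ) M) :
    ∃ (k : Type) (_ : Field k) (_ : IsAlgClosed k) (σ : Type) (_ : Fintype σ)
    (_ : DecidableEq σ) (G : Subgroup (GL σ k)), Nonempty σ ∧ Finite G ∧ NoPseudoReflection G ∧
    IrrationalStringyMotive k (invariants G) (Fintype.card σ) := by
  obtain ⟨C⟩ := nonempty_charts (A := A) (by omega)
  obtain ⟨a, ha⟩ := exists_Mpoly_ne_zero hA (by omega)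
  have hfin := finite_Grp (A := A)
  obtain ⟨h1, h2⟩ := omega_ident (Inv A) jac_mem_Inv mem_Inv_of_mul (C.M a)
    (fun h => ha (by rw [← C.hM, h]; rfl)) (C.h a) (C.hMh a) (C.chart a)
    (exists_not_dvd_jac hA hu)
  refine ⟨kk, _, inferInstance, Fin u ⊕ Fin u, _, _, Grp A, inferInstance, hfin,
    noPseudoReflection hA hu, exists_generators, h1, fun N f hf e ρ hρ => ?_⟩
  have hc : Fintype.card (Fin u ⊕ Fin u) = 2 * u := by
    rw [Fintype.card_sum, Fintype.card_fin, two_mul]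
  have := H N f hf ρ hρ
  rw [← hc] at this
  rw [show evalIdeal e = formIdeal e from rfl, h2 e N f hf]
  exact this

end Pool.Agent.MP_536a45_ag

end
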