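import Pool.Agent.MP_536a45_ag.Setup

set_option linter.all false

section

/-!
# The parameter space of truncated twisted arcs
-/

open MvPolynomial

namespace Pool.Agent.MP_536a45_ag

open Classical in
/-- The vectors with entries in `𝔽_2`, as a finite set. -/
noncomputable def bitsF (k : Type) [Field k] : Finset (Fin 3 → k) :=
  Fintype.piFinset fun _ => {0, 1}

theorem mem_bitsF {k : Type} [Field k] {c : Fin 3 → k} : c ∈ bitsF k ↔ c ∈ bits k := by
  classical
  simp only [bitsF, Fintype.mem_piFinset, bits, Set.mem_ofPred_eq, Finset.mem_insert,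
    Finset.mem_singleton]
  refine forall_congr' fun l => ⟨?_, fun h => ?_⟩
  · rintro (h | h) <;> simp [h]
  · by_cases h0 : c l = 0
    · exact Or.inl h0
    · exact Or.inr (mul_left_cancel₀ h0 (by rw [← sq, h, mul_one]))

theorem card_bitsF (k : Type) [Field k] : (bitsF k).card = 8 := by
  classical
  simp [bitsF, Fintype.card_piFinset]

theorem coe_bitsF (k : Type) [Field k] : (bitsF k : Set (Fin 3 → k)) = bits k := by
  ext c; exact mem_bitsF

open Classical in
/-- The nonzero vectors with entries in `𝔽_2`. -/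
noncomputable def bitsNZ (k : Type) [Field k] : Finset (Fin 3 → k) := (bitsF k).erase 0

theorem mem_bitsNZ {k : Type} [Field k] {c : Fin 3 → k} : c ∈ bitsNZ k ↔ c ≠ 0 ∧ c ∈ bits k := by
  classical
  simp [bitsNZ, mem_bitsF]

theorem card_bitsNZ (k : Type) [Field k] : (bitsNZ k).card = 7 := by
  classical
  rw [bitsNZ, Finset.card_erase_of_mem (mem_bitsF.2 zero_mem_bits), card_bitsF]

/-- Pairs `(c, p)` with `p ∈ P` and `Frob p = T c p`. -/
def pairs {I : Type} (T : (Fin 3 → kk) → (I → kk) →ₗ[kk] (I → kk)) (m : ℕ) (P : Set (I → kk)) :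
    Set ((Fin 3 → kk) × (I → kk)) :=
  {cp | cp.1 ∈ bits kk ∧ cp.2 ∈ P ∧ frob m cp.2 = T cp.1 cp.2}

/-- Index set of the parameters: Artin–Schreier coefficients and coefficients of `(w, y)`. -/
abbrev PI (J u n' : ℕ) : Type := (Fin 3 × Fin J) ⊕ ((Fin u ⊕ Fin u) × Fin n')

variable {J u n' : ℕ}

/-- The coefficient of `t^{-(2j+1)}` in the `l`-th Artin–Schreier equation. -/
noncomputable def bco (p : PI J u n' → kk) (l : Fin 3) (j : ℕ) : kk :=
  if h : j < J then p (Sum.inl (l, ⟨j, h⟩)) else 0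

/-- The coefficient of `t^i` in the coordinate `m` of `(w, y)`. -/
noncomputable def xco (p : PI J u n' → kk) (m : Fin u ⊕ Fin u) (i : ℕ) : kk :=
  if h : i < n' then p (Sum.inr (m, ⟨i, h⟩)) else 0

/-- The twist `(b, w, y) ↦ (b, w, y + A(τ) w)`. -/
noncomputable def Tw (A : Fin 3 → Matrix (Fin u) (Fin u) kk) (τ : Fin 3 → kk) :
    (PI J u n' → kk) →ₗ[kk] (PI J u n' → kk) where
  toFun p := Sum.elim (fun a => p (Sum.inl a)) fun mt =>
    pt A τ (fun j => p (Sum.inr (Sum.inl j, mt.2))) (fun j => p (Sum.inr (Sum.inr j, mt.2))) mt.1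
  map_add' p q := by
    funext a
    rcases a with a | ⟨m | m, t⟩
    · rfl
    · rfl
    · simp only [Sum.elim_inr, pt, Pi.add_apply, Aop, mul_add, smul_add, Finset.sum_add_distrib]
      ring
  map_smul' c p := by
    funext a
    rcases a with a | ⟨m | m, t⟩
    · rfl
    · rfl
    · simp only [Sum.elim_inr, pt, Pi.add_apply, Aop, Pi.smul_apply, smul_eq_mul, RingHom.id_apply,
        mul_add, Finset.mul_sum]
      congr 1
      exact Finset.sum_congr rfl fun l _ => Finset.sum_congr rfl fun j _ => by ring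

/-- Parameters with `b_j = 0` for `j ≥ 2 r` and `w ≡ 0 mod t^r`. -/
def Box (J u n' r : ℕ) : Set (PI J u n' → kk) :=
  {p | (∀ l j, 2 * r ≤ j → bco p l j = 0) ∧ ∀ i t, t < r → xco p (Sum.inl i) t = 0}

/-- The admissible parameters with `ord w ≤ 1`. -/
def MainSet (A : Fin 3 → Matrix (Fin u) (Fin u) kk) (J n' : ℕ) : Set (PI J u n' → kk) :=
  {p | (∀ l j, bco p l j = 0) ∧ (fun i => xco p (Sum.inl i) 0) ≠ 0} ∪
  {p | (∀ l j, 2 ≤ j → bco p l j = 0) ∧ (fun i => xco p (Sum.inl i) 0) = 0 ∧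
    (fun i => xco p (Sum.inl i) 1) ≠ 0 ∧
    ∃ β : Fin 3 → kk, (∀ l, β l ^ 2 = bco p l 1) ∧ Aop A β (fun i => xco p (Sum.inl i) 1) = 0}

end Pool.Agent.MP_536a45_ag

end

section

open MvPolynomial

namespace Pool.Agent.MP_536a45_ag

section general

variable {k : Type} [Field k] {u : ℕ} {A : Fin 3 → Matrix (Fin u) (Fin u) k}

theorem StructA_map_Aop {Ω Ω' : Type} [CommRing Ω] [Algebra k Ω] [CommRing Ω'] [Algebra k Ω']
    (φ : Ω →ₐ[k] Ω') (c : Fin 3 → Ω) (w : Fin u → Ω) (i : Fin u) :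
    φ (Aop A c w i) = Aop A (fun l => φ (c l)) (fun j => φ (w j)) i := by
  simp [Aop, map_sum]

theorem StructA_Aop_add_left {Ω : Type} [CommRing Ω] [Algebra k Ω] (c c' : Fin 3 → Ω)
    (w : Fin u → Ω) : Aop A (c + c') w = Aop A c w + Aop A c' w := by
  funext i
  simp [Aop, add_mul, smul_add, Finset.sum_add_distrib]

theorem StructA_Aop_add_right {Ω : Type} [CommRing Ω] [Algebra k Ω] (c : Fin 3 → Ω)
    (w w' : Fin u → Ω) : Aop A c (w + w') = Aop A c w + Aop A c w' := by
  funext i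
  simp [Aop, mul_add, smul_add, Finset.sum_add_distrib]

theorem StructA_Aop_zero_left {Ω : Type} [CommRing Ω] [Algebra k Ω] (w : Fin u → Ω) :
    Aop A (0 : Fin 3 → Ω) w = 0 := by
  funext i
  simp [Aop]

theorem StructA_Aop_const {Ω : Type} [CommRing Ω] [Algebra k Ω] (c : Fin 3 → k) (w : Fin u → Ω)
    (i : Fin u) :
    Aop A (fun l => algebraMap k Ω (c l)) w i = ∑ j, (∑ l, c l • A l) i j • w j := by
  simp only [Aop, Matrix.sum_apply, Matrix.smul_apply, smul_eq_mul, Finset.sum_smul]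
  rw [Finset.sum_comm]
  refine Finset.sum_congr rfl fun j _ => Finset.sum_congr rfl fun l _ => ?_
  rw [← Algebra.smul_def, smul_smul, mul_comm]

theorem StructA_map_pt {Ω Ω' : Type} [CommRing Ω] [Algebra k Ω] [CommRing Ω'] [Algebra k Ω']
    (φ : Ω →ₐ[k] Ω') (θ : Fin 3 → Ω) (w y : Fin u → Ω) (m : Fin u ⊕ Fin u) :
    φ (pt A θ w y m) = pt A (fun l => φ (θ l)) (fun j => φ (w j)) (fun j => φ (y j)) m := by
  rcases m with m | m
  · rfl
  · simp [pt, StructA_map_Aop]

theorem StructA_map_aeval_pt {Ω Ω' : Type} [CommRing Ω] [Algebra k Ω] [CommRing Ω'] [Algebra k Ω']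
    (φ : Ω →ₐ[k] Ω') (θ : Fin 3 → Ω) (w y : Fin u → Ω) (p : MvPolynomial (Fin u ⊕ Fin u) k) :
    φ (aeval (pt A θ w y) p) =
      aeval (pt A (fun l => φ (θ l)) (fun j => φ (w j)) (fun j => φ (y j))) p := by
  rw [← AlgHom.comp_apply, comp_aeval]
  congr 2
  funext m
  exact StructA_map_pt φ θ w y m

theorem StructA_linSubst_gmat (c : Fin 3 → k) :
    linSubst (gmat A c) = aeval (pt A (fun l => (C (c l) : MvPolynomial (Fin u ⊕ Fin u) k))
      (fun i => X (Sum.inl i)) (fun i => X (Sum.inr i))) := by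
  unfold linSubst
  congr 1
  funext m
  rcases m with m | m
  · simp [gmat, pt, Fintype.sum_sum_type, Matrix.one_apply, ite_smul]
  · have h := StructA_Aop_const (A := A) (Ω := MvPolynomial (Fin u ⊕ Fin u) k) c
      (fun i => X (Sum.inl i)) m
    simp only [algebraMap_eq] at h
    simp [gmat, pt, Fintype.sum_sum_type, Matrix.one_apply, ite_smul, h, add_comm]

theorem StructA_linSubst_mul {σ : Type} [Fintype σ] (g h : Matrix σ σ k) (p : MvPolynomial σ k) :
    linSubst h (linSubst g p) = linSubst (g * h) p := by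
  rw [← AlgHom.comp_apply]
  congr 1
  refine algHom_ext fun i => ?_
  simp only [linSubst, AlgHom.comp_apply, aeval_X, map_sum, map_smul, Matrix.mul_apply,
    Finset.sum_smul, Finset.smul_sum, smul_smul]
  exact Finset.sum_comm

theorem StructA_linSubst_one {σ : Type} [Fintype σ] [DecidableEq σ] (p : MvPolynomial σ k) :
    linSubst (1 : Matrix σ σ k) p = p := by
  have : linSubst (1 : Matrix σ σ k) = AlgHom.id k _ := by
    refine algHom_ext fun i => ?_
    simp [linSubst, Matrix.one_apply, ite_smul]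
  rw [this]; rfl

/-- Chain rule for a linear substitution. -/
theorem StructA_pderiv_linSubst {σ : Type} [Fintype σ] [DecidableEq σ] (g : Matrix σ σ k)
    (p : MvPolynomial σ k) (m : σ) :
    pderiv m (linSubst g p) = ∑ n, linSubst g (pderiv n p) * C (g n m) := by
  induction p using MvPolynomial.induction_on with
  | C a => simp [linSubst]
  | add p q hp hq => simp [hp, hq, add_mul, Finset.sum_add_distrib]
  | mul_X p i hp =>
    have hX : pderiv m (linSubst g (X i)) = C (g i m) := by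
      simp [linSubst, map_sum, pderiv_X, Pi.single_apply, smul_eq_C_mul]
    have h1 : ∀ n, linSubst g (pderiv n (p * X i)) * C (g n m) =
        (if i = n then linSubst g p * C (g n m) else 0) +
          linSubst g (X i) * (linSubst g (pderiv n p) * C (g n m)) := by
      intro n
      rw [Derivation.leibniz, pderiv_X, Pi.single_apply, smul_eq_mul, smul_eq_mul, map_add,
        map_mul, map_mul]
      split_ifs
      · rw [map_one]; ring
      · rw [map_zero]; ring
    rw [map_mul, Derivation.leibniz, hp, hX, smul_eq_mul, smul_eq_mul]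
    simp only [h1, Finset.sum_add_distrib, Finset.sum_ite_eq, Finset.mem_univ, if_true,
      Finset.mul_sum]

/-- Descent along an Artin–Schreier extension. -/
theorem StructA_descent {R : Type} [CommRing R] [Algebra k R] (S : Subalgebra k R) (t : R)
    (ht : t ^ 2 + t ∈ S) (s : R →ₐ[k] R) (hs : ∀ x ∈ S, s x = x) (hst : s t = t + 1) {x : R}
    (hx : x ∈ Algebra.adjoin k (insert t (S : Set R))) (hinv : s x = x) : x ∈ S := by
  have key : ∃ a ∈ S, ∃ b ∈ S, x = a + b * t := by
    clear hinv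
    induction hx using Algebra.adjoin_induction with
    | mem x hx =>
      rcases hx with rfl | hx
      · exact ⟨0, S.zero_mem, 1, S.one_mem, by ring⟩
      · exact ⟨x, hx, 0, S.zero_mem, by ring⟩
    | algebraMap r => exact ⟨_, S.algebraMap_mem r, 0, S.zero_mem, by ring⟩
    | add x y _ _ hx hy =>
      obtain ⟨a, ha, b, hb, rfl⟩ := hx
      obtain ⟨a', ha', b', hb', rfl⟩ := hy
      exact ⟨a + a', S.add_mem ha ha', b + b', S.add_mem hb hb', by ring⟩
    | mul x y _ _ hx hy =>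
      obtain ⟨a, ha, b, hb, rfl⟩ := hx
      obtain ⟨a', ha', b', hb', rfl⟩ := hy
      exact ⟨a * a' + b * b' * (t ^ 2 + t), S.add_mem (S.mul_mem ha ha')
        (S.mul_mem (S.mul_mem hb hb') ht), a * b' + a' * b - b * b',
        S.sub_mem (S.add_mem (S.mul_mem ha hb') (S.mul_mem ha' hb)) (S.mul_mem hb hb'), by ring⟩
  obtain ⟨a, ha, b, hb, rfl⟩ := key
  rw [map_add, map_mul, hs a ha, hs b hb, hst] at hinv
  have hb0 : b = 0 := by linear_combination hinv
  rw [hb0]
  simpa using ha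

theorem StructA_fix_adjoin {R : Type} [CommRing R] [Algebra k R] (S : Subalgebra k R) (t : R)
    (s : R →ₐ[k] R) (hs : ∀ x ∈ S, s x = x) (hst : s t = t) :
    ∀ x ∈ Algebra.adjoin k (insert t (S : Set R)), s x = x := by
  intro x hx
  have : Algebra.adjoin k (insert t (S : Set R)) ≤ AlgHom.equalizer s (AlgHom.id k R) := by
    refine Algebra.adjoin_le ?_
    rintro y (rfl | hy)
    · exact hst
    · exact hs y hy
  exact this hx

/-- First-order Taylor expansion in the dual numbers. -/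
theorem StructA_snd_aeval {σ : Type} [Fintype σ] [DecidableEq σ] {Ω : Type} [CommRing Ω]
    [Algebra k Ω] (x : σ → TrivSqZeroExt Ω Ω) (p : MvPolynomial σ k) :
    (aeval x p).fst = aeval (fun m => (x m).fst) p ∧
      (aeval x p).snd = ∑ m, aeval (fun m => (x m).fst) (pderiv m p) * (x m).snd := by
  induction p using MvPolynomial.induction_on with
  | C a => simp [TrivSqZeroExt.algebraMap_eq_inl']
  | add p q hp hq => simp [hp.1, hp.2, hq.1, hq.2, add_mul, Finset.sum_add_distrib]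
  | mul_X p i hp =>
    refine ⟨by simp [hp.1], ?_⟩
    simp only [map_mul, aeval_X, TrivSqZeroExt.snd_mul, hp.1, hp.2, Derivation.leibniz,
      smul_eq_mul, map_add, add_mul, Finset.sum_add_distrib, pderiv_X, Pi.single_apply,
      MulOpposite.smul_eq_mul_unop, MulOpposite.unop_op, Finset.sum_mul]
    congr 1
    · rw [Finset.sum_eq_single i]
      · simp
      · intro b _ hb
        simp [Ne.symm hb]
      · simp
    · exact Finset.sum_congr rfl fun n _ => by ring

theorem StructA_isUnit (hA : H1 A) {c : Fin 3 → k} (hc : c ∈ bits k) (hc0 : c ≠ 0) :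
    IsUnit (∑ l, c l • A l).det := by
  rw [isUnit_iff_ne_zero, Ne, ← Matrix.exists_mulVec_eq_zero_iff]
  rintro ⟨v, hv, h⟩
  have h1 : Aop A c v = 0 := by
    funext i
    have := StructA_Aop_const (A := A) (Ω := k) c v i
    simp only [Algebra.algebraMap_self, RingHom.id_apply, smul_eq_mul] at this
    rw [this]
    exact congrFun h i
  refine hv (hA c v hc0 h1 ?_)
  rw [show (fun l => c l ^ 2) = c from funext hc]
  exact h1

end general

variable {k : Type} [Field k] [CharP k 2] {u : ℕ} {A : Fin 3 → Matrix (Fin u) (Fin u) k}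

theorem StructA_mem_Inv {p : MvPolynomial (Fin u ⊕ Fin u) k} :
    p ∈ Inv A ↔ ∀ c ∈ bits k, linSubst (gmat A c) p = p := by
  simp only [Inv, invariants, Algebra.mem_iInf, AlgHom.mem_equalizer, AlgHom.id_apply]
  constructor
  · intro h c hc
    have h1 : gmat A c * gmat A c = 1 := by
      rw [gmat_mul, show c + c = 0 from funext fun l => CharTwo.add_self_eq_zero _, gmat_zero]
    exact h ⟨gmat A c, gmat A c, h1, h1⟩ ⟨c, hc, rfl⟩
  · rintro h g ⟨c, hc, e⟩
    rw [e]
    exact h c hc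

theorem mem_Inv_iff {p : MvPolynomial (Fin u ⊕ Fin u) k} :
    p ∈ Inv A ↔ ∀ c ∈ bits k,
      aeval (pt A (fun l => (C (c l) : MvPolynomial (Fin u ⊕ Fin u) k))
        (fun i => X (Sum.inl i)) (fun i => X (Sum.inr i))) p = p := by
  simp only [StructA_mem_Inv, StructA_linSubst_gmat]

theorem aeval_pt_shift {p : MvPolynomial (Fin u ⊕ Fin u) k} (hp : p ∈ Inv A) {c : Fin 3 → k}
    (hc : c ∈ bits k) {Ω : Type} [CommRing Ω] [Algebra k Ω] (θ : Fin 3 → Ω) (w y : Fin u → Ω) :
    aeval (pt A θ w (y + Aop A (fun l => algebraMap k Ω (c l)) w)) p = aeval (pt A θ w y) p := by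
  conv_rhs => rw [← mem_Inv_iff.1 hp c hc, StructA_map_aeval_pt]
  congr 2
  funext m
  rcases m with m | m
  · simp [pt]
  · simp only [pt, Sum.elim_inr, Pi.add_apply, aeval_X, Sum.elim_inl, aeval_C]
    ring

theorem StructA_sharp {σ : Type} (P : MvPolynomial (σ ⊕ Fin 3) k)
    (hP : ∀ c ∈ bits k, aeval (Sum.elim (fun m => X (Sum.inl m))
      fun l => (X (Sum.inr l) + C (c l) : MvPolynomial (σ ⊕ Fin 3) k)) P = P) :
    ∃ q : MvPolynomial (σ ⊕ Fin 3) k, aeval (Sum.elim (fun m => X (Sum.inl m))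
      fun l => (X (Sum.inr l) ^ 2 + X (Sum.inr l) : MvPolynomial (σ ⊕ Fin 3) k)) q = P := by
  classical
  let AS : (MvPolynomial (σ ⊕ Fin 3) k) →ₐ[k] (MvPolynomial (σ ⊕ Fin 3) k) := aeval (Sum.elim (fun m => X (Sum.inl m))
      fun l => (X (Sum.inr l) ^ 2 + X (Sum.inr l) : (MvPolynomial (σ ⊕ Fin 3) k)))
  let s : Fin 3 → ((MvPolynomial (σ ⊕ Fin 3) k) →ₐ[k] (MvPolynomial (σ ⊕ Fin 3) k)) := fun l => aeval (Sum.elim (fun m => X (Sum.inl m))
      fun l' => (X (Sum.inr l') + C ((Pi.single l 1 : Fin 3 → k) l') : (MvPolynomial (σ ⊕ Fin 3) k)))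
  have hbit : ∀ l : Fin 3, (Pi.single l 1 : Fin 3 → k) ∈ bits k := fun l l' => by
    by_cases h : l' = l
    · subst h; simp
    · simp [h]
  have hsP : ∀ l, s l P = P := fun l => hP _ (hbit l)
  have hs1 : ∀ l, s l (X (Sum.inr l)) = X (Sum.inr l) + 1 := fun l => by simp [s]
  have hs2 : ∀ l l', l' ≠ l → s l (X (Sum.inr l')) = X (Sum.inr l') := fun l l' h => by
    simp [s, h]
  have h2 : (2 : (MvPolynomial (σ ⊕ Fin 3) k)) = 0 := CharTwo.two_eq_zero
  have hs3 : ∀ l, ∀ x ∈ AS.range, s l x = x := by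
    rintro l _ ⟨q, rfl⟩
    have : (s l).comp AS = AS := by
      refine algHom_ext fun m => ?_
      rcases m with m | m
      · simp [s, AS]
      · simp only [AS, AlgHom.comp_apply, aeval_X, Sum.elim_inr, map_add, map_pow]
        by_cases h : m = l
        · subst h
          rw [hs1]
          linear_combination (X (Sum.inr m) + 1 : (MvPolynomial (σ ⊕ Fin 3) k)) * h2
        · rw [hs2 l m h]
    exact DFunLike.congr_fun this q
  have hAS : ∀ l, (X (Sum.inr l) ^ 2 + X (Sum.inr l) : (MvPolynomial (σ ⊕ Fin 3) k)) ∈ AS.range := fun l =>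
    ⟨X (Sum.inr l), by simp [AS]⟩
  let S2 := Algebra.adjoin k (insert (X (Sum.inr 2) : (MvPolynomial (σ ⊕ Fin 3) k)) (AS.range : Set (MvPolynomial (σ ⊕ Fin 3) k)))
  let S1 := Algebra.adjoin k (insert (X (Sum.inr 1) : (MvPolynomial (σ ⊕ Fin 3) k)) (S2 : Set (MvPolynomial (σ ⊕ Fin 3) k)))
  let S0 := Algebra.adjoin k (insert (X (Sum.inr 0) : (MvPolynomial (σ ⊕ Fin 3) k)) (S1 : Set (MvPolynomial (σ ⊕ Fin 3) k)))
  have l32 : ∀ x ∈ AS.range, x ∈ S2 := fun x hx =>
    Algebra.subset_adjoin (Set.mem_insert_of_mem _ hx)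
  have l21 : ∀ x ∈ S2, x ∈ S1 := fun x hx => Algebra.subset_adjoin (Set.mem_insert_of_mem _ hx)
  have l10 : ∀ x ∈ S1, x ∈ S0 := fun x hx => Algebra.subset_adjoin (Set.mem_insert_of_mem _ hx)
  have h0 : P ∈ S0 := by
    have : Algebra.adjoin k (Set.range (X : σ ⊕ Fin 3 → (MvPolynomial (σ ⊕ Fin 3) k))) ≤ S0 := by
      refine Algebra.adjoin_le ?_
      rintro _ ⟨m, rfl⟩
      rcases m with m | m
      · exact l10 _ (l21 _ (l32 _ ⟨X (Sum.inl m), by simp [AS]⟩))
      · fin_cases m
        · exact Algebra.subset_adjoin (Set.mem_insert _ _)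
        · exact l10 _ (Algebra.subset_adjoin (Set.mem_insert _ _))
        · exact l10 _ (l21 _ (Algebra.subset_adjoin (Set.mem_insert _ _)))
    rw [adjoin_range_X] at this
    exact this Algebra.mem_top
  have h1 : P ∈ S1 := StructA_descent S1 _ (l21 _ (l32 _ (hAS 0))) (s 0)
    (StructA_fix_adjoin S2 _ _ (StructA_fix_adjoin _ _ _ (hs3 0) (hs2 0 2 (by decide)))
      (hs2 0 1 (by decide))) (hs1 0) h0 (hsP 0)
  have h2' : P ∈ S2 := StructA_descent S2 _ (l32 _ (hAS 1)) (s 1)
    (StructA_fix_adjoin _ _ _ (hs3 1) (hs2 1 2 (by decide))) (hs1 1) h1 (hsP 1)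
  exact StructA_descent AS.range _ (hAS 2) (s 2) (hs3 2) (hs1 2) h2' (hsP 2)

/-- An invariant evaluated at `(w, y + A(θ) w)` is a polynomial in `w`, `y`, `θ² + θ`. -/
theorem exists_sharp {p : MvPolynomial (Fin u ⊕ Fin u) k} (hp : p ∈ Inv A) :
    ∃ q : MvPolynomial ((Fin u ⊕ Fin u) ⊕ Fin 3) k,
      ∀ (Ω : Type) [CommRing Ω] [Algebra k Ω] (θ : Fin 3 → Ω) (w y : Fin u → Ω),
        aeval (pt A θ w y) p = aeval (Sum.elim (Sum.elim w y) fun l => θ l ^ 2 + θ l) q ∧
        ∀ δw δy : Fin u → Ω,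
          ∑ m, aeval (pt A θ w y) (pderiv m p) * pt A θ δw δy m =
          ∑ m, aeval (Sum.elim (Sum.elim w y) fun l => θ l ^ 2 + θ l) (pderiv (Sum.inl m) q) *
            Sum.elim δw δy m := by
  obtain ⟨q, hq⟩ := StructA_sharp (k := k) (σ := Fin u ⊕ Fin u)
    (aeval (pt A (fun l => X (Sum.inr l)) (fun i => X (Sum.inl (Sum.inl i)))
      (fun i => X (Sum.inl (Sum.inr i)))) p) (by
    intro c hc
    rw [StructA_map_aeval_pt, ← aeval_pt_shift hp hc (fun l => X (Sum.inr l))]
    congr 2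
    funext m
    rcases m with m | m
    · simp [pt]
    · have := congrFun (StructA_Aop_add_left (A := A)
        (Ω := MvPolynomial ((Fin u ⊕ Fin u) ⊕ Fin 3) k) (fun l => X (Sum.inr l))
        (fun l => C (c l)) (fun i => X (Sum.inl (Sum.inl i)))) m
      simp only [Pi.add_apply] at this
      simp only [pt, Sum.elim_inr, Pi.add_apply, aeval_X, Sum.elim_inl, algebraMap_eq]
      rw [add_assoc, add_comm (Aop A _ _ m), ← this]
      rfl)
  have first : ∀ (Ω : Type) [CommRing Ω] [Algebra k Ω] (θ : Fin 3 → Ω) (w y : Fin u → Ω),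
      aeval (pt A θ w y) p = aeval (Sum.elim (Sum.elim w y) fun l => θ l ^ 2 + θ l) q := by
    intro Ω _ _ θ w y
    have := congrArg (aeval (Sum.elim (Sum.elim w y) θ)) hq
    rw [StructA_map_aeval_pt, ← AlgHom.comp_apply, comp_aeval] at this
    simp only [aeval_X, Sum.elim_inr, Sum.elim_inl] at this
    rw [← this]
    congr 2
    funext m
    rcases m with m | m <;> simp
  refine ⟨q, fun Ω _ _ θ w y => ⟨first Ω θ w y, fun δw δy => ?_⟩⟩
  let W : Fin u → TrivSqZeroExt Ω Ω := fun i => TrivSqZeroExt.inl (w i) + TrivSqZeroExt.inr (δw i)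
  let Y : Fin u → TrivSqZeroExt Ω Ω := fun i => TrivSqZeroExt.inl (y i) + TrivSqZeroExt.inr (δy i)
  let T : Fin 3 → TrivSqZeroExt Ω Ω := fun l => TrivSqZeroExt.inl (θ l)
  have h := congrArg TrivSqZeroExt.snd (first (TrivSqZeroExt Ω Ω) T W Y)
  rw [(StructA_snd_aeval _ p).2, (StructA_snd_aeval _ q).2, Fintype.sum_sum_type (α₂ := Fin 3)] at h
  have e1 : (fun m => (pt A T W Y m).fst) = pt A θ w y := by
    funext m
    rcases m with m | m
    · simp [pt, W]
    · simp [pt, Aop, TrivSqZeroExt.fst_sum, T, W, Y]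
  have e2 : ∀ m, (pt A T W Y m).snd = pt A θ δw δy m := by
    intro m
    rcases m with m | m
    · simp [pt, W]
    · simp [pt, Aop, TrivSqZeroExt.snd_sum, T, W, Y]
  have e3 : (fun m => TrivSqZeroExt.fst (Sum.elim (Sum.elim W Y) (fun l => T l ^ 2 + T l) m)) =
      Sum.elim (Sum.elim w y) fun l => θ l ^ 2 + θ l := by
    funext m
    rcases m with (m | m) | m <;> simp [T, W, Y]
  rw [e1, e3] at h
  simp only [e2] at h
  rw [h]
  have e4 : ∀ l, (T l ^ 2 + T l).snd = 0 := fun l => by simp [sq, T]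
  simp only [Sum.elim_inr, e4, mul_zero, Finset.sum_const_zero, add_zero, Sum.elim_inl]
  refine Finset.sum_congr rfl fun m _ => ?_
  rcases m with m | m <;> simp [W, Y]

theorem X_inl_mem (i : Fin u) : (X (Sum.inl i) : MvPolynomial (Fin u ⊕ Fin u) k) ∈ Inv A :=
  mem_Inv_iff.2 fun c _ => by simp [pt]

theorem jac_mem_Inv (a : Fin u ⊕ Fin u → Inv A) :
    jac (fun i => (a i : MvPolynomial (Fin u ⊕ Fin u) k)) ∈ Inv A := by
  refine StructA_mem_Inv.2 fun c hc => ?_
  set J : Matrix (Fin u ⊕ Fin u) (Fin u ⊕ Fin u) (MvPolynomial (Fin u ⊕ Fin u) k) :=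
    Matrix.of fun i m => pderiv m (a i : MvPolynomial (Fin u ⊕ Fin u) k) with hJ
  have h : J = (linSubst (gmat A c)).toRingHom.mapMatrix J *
      (C : k →+* MvPolynomial (Fin u ⊕ Fin u) k).mapMatrix (gmat A c) := by
    ext1 i m
    have := StructA_pderiv_linSubst (gmat A c) (a i : MvPolynomial (Fin u ⊕ Fin u) k) m
    rw [StructA_mem_Inv.1 (a i).2 c hc] at this
    simpa [hJ, Matrix.mul_apply] using this
  have hd : (gmat A c).det = 1 := by simp [gmat]
  have h2 := congrArg Matrix.det h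
  rw [Matrix.det_mul, ← RingHom.map_det, ← RingHom.map_det, hd, map_one, mul_one] at h2
  exact h2.symm

theorem mem_Inv_of_mul (r : MvPolynomial (Fin u ⊕ Fin u) k) (a b : Inv A) (hb : b ≠ 0)
    (h : r * b = a) : r ∈ Inv A := by
  refine StructA_mem_Inv.2 fun c hc => ?_
  have h1 := congrArg (linSubst (gmat A c)) h
  rw [map_mul, StructA_mem_Inv.1 a.2 c hc, StructA_mem_Inv.1 b.2 c hc, ← h] at h1
  exact mul_right_cancel₀ (fun e => hb (Subtype.ext e)) h1

theorem isIntegral_Inv : Algebra.IsIntegral (Inv A) (MvPolynomial (Fin u ⊕ Fin u) k) := by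
  classical
  refine ⟨fun x => ?_⟩
  set P : Polynomial (MvPolynomial (Fin u ⊕ Fin u) k) :=
    ∏ c ∈ bitsF k, (Polynomial.X - Polynomial.C (linSubst (gmat A c) x)) with hP
  have hm : P.Monic := Polynomial.monic_prod_of_monic _ _ fun c _ => Polynomial.monic_X_sub_C _
  have hl : P ∈ Polynomial.lifts (algebraMap (Inv A) (MvPolynomial (Fin u ⊕ Fin u) k)) := by
    rw [Polynomial.lifts_iff_coeff_lifts]
    intro n
    refine ⟨⟨P.coeff n, StructA_mem_Inv.2 fun c' hc' => ?_⟩, rfl⟩
    have : P.map (linSubst (gmat A c')).toRingHom = P := by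
      rw [hP, Polynomial.map_prod]
      refine Finset.prod_nbij' (fun c => c + c') (fun c => c + c') ?_ ?_ ?_ ?_ ?_
      · exact fun c hc => mem_bitsF.2 (add_mem_bits (mem_bitsF.1 hc) hc')
      · exact fun c hc => mem_bitsF.2 (add_mem_bits (mem_bitsF.1 hc) hc')
      · intro c _
        funext l
        simp [add_assoc, CharTwo.add_self_eq_zero]
      · intro c _
        funext l
        simp [add_assoc, CharTwo.add_self_eq_zero]
      · intro c _
        simp [StructA_linSubst_mul, gmat_mul]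
    have h2 := congrArg (fun Q => Polynomial.coeff Q n) this
    simpa using h2
  obtain ⟨Q, hQ, -, hQm⟩ := Polynomial.lifts_and_degree_eq_and_monic hl hm
  refine ⟨Q, hQm, ?_⟩
  rw [← Polynomial.eval_map, hQ, hP, Polynomial.eval_prod]
  exact Finset.prod_eq_zero (mem_bitsF.2 zero_mem_bits)
    (by simp [gmat_zero, StructA_linSubst_one])

theorem exists_generators :
    ∃ (N : ℕ) (f : Fin N → Inv A), Algebra.adjoin k (Set.range f) = ⊤ := by
  have := isIntegral_Inv (A := A)
  have : Algebra.FiniteType (Inv A) (MvPolynomial (Fin u ⊕ Fin u) k) :=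
    Algebra.FiniteType.of_restrictScalars_finiteType k _ _
  have : Module.Finite (Inv A) (MvPolynomial (Fin u ⊕ Fin u) k) := Algebra.IsIntegral.finite
  obtain ⟨s, hs⟩ := fg_of_fg_of_fg k (Inv A) (MvPolynomial (Fin u ⊕ Fin u) k)
    Algebra.FiniteType.out Module.Finite.fg_top Subtype.val_injective
  refine ⟨s.card, fun i => (s.equivFin.symm i : Inv A), ?_⟩
  rw [← hs]
  congr 1
  ext x
  constructor
  · rintro ⟨i, rfl⟩
    exact (s.equivFin.symm i).2
  · intro hx
    exact ⟨s.equivFin ⟨x, hx⟩, by simp⟩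

theorem finite_Grp : Finite (Grp A) := by
  have h : (gmat A '' bits k).Finite := by
    rw [← coe_bitsF]
    exact (bitsF k).finite_toSet.image _
  have h2 := h.preimage (f := (Units.val : GL (Fin u ⊕ Fin u) k → _)) Units.val_injective.injOn
  refine (h2.subset ?_).to_subtype
  rintro g ⟨c, hc, e⟩
  exact ⟨c, hc, e.symm⟩

omit [CharP k 2] in
/-- `A(c)` is invertible for `c ∈ 𝔽_2³ ∖ 0`. -/
theorem mem_of_Aop_mem (hA : H1 A) {c : Fin 3 → k} (hc : c ∈ bits k) (hc0 : c ≠ 0) {Ω : Type}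
    [CommRing Ω] [Algebra k Ω] (W : Submodule k Ω) (w : Fin u → Ω)
    (h : ∀ i, Aop A (fun l => algebraMap k Ω (c l)) w i ∈ W) (i : Fin u) : w i ∈ W := by
  set M := ∑ l, c l • A l with hM
  have h1 : M⁻¹ * M = 1 := Matrix.nonsing_inv_mul _ (StructA_isUnit hA hc hc0)
  have h2 : w i = ∑ j, M⁻¹ i j • Aop A (fun l => algebraMap k Ω (c l)) w j := by
    simp only [StructA_Aop_const, ← hM, Finset.smul_sum, smul_smul]
    rw [Finset.sum_comm]
    simp only [← Finset.sum_smul, ← Matrix.mul_apply, h1, Matrix.one_apply, ite_smul]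
    simp
  rw [h2]
  exact W.sum_mem fun j _ => W.smul_mem _ (h j)

theorem StructA_codim (hA : H1 A) (hu : 2 ≤ u) : ∀ g ∈ Grp A,
    Module.finrank k (LinearMap.ker (Matrix.toLin'
      ((g : Matrix (Fin u ⊕ Fin u) (Fin u ⊕ Fin u) k) - 1))) + 1 ≠
      Fintype.card (Fin u ⊕ Fin u) := by
  rintro g ⟨c, hc, e⟩
  rw [e]
  by_cases hc0 : c = 0
  · rw [hc0, gmat_zero, sub_self, map_zero, LinearMap.ker_zero, finrank_top,
      Module.finrank_fintype_fun_eq_card]
    omega
  · have hinj : Function.Injective ((LinearMap.funLeft k k (Sum.inr : Fin u → Fin u ⊕ Fin u)) ∘ₗ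
        (LinearMap.ker (Matrix.toLin' (gmat A c - 1))).subtype) := by
      rw [← LinearMap.ker_eq_bot, LinearMap.ker_eq_bot']
      rintro ⟨v, hv⟩ h0
      refine Subtype.ext (funext fun m => ?_)
      rcases m with m | m
      · refine mem_of_Aop_mem hA hc hc0 (Ω := k) ⊥ (fun j => v (Sum.inl j)) (fun i => ?_) m
        have := congrFun (LinearMap.mem_ker.1 hv) (Sum.inr i)
        rw [StructA_Aop_const]
        simpa [gmat, Matrix.mulVec, dotProduct, Fintype.sum_sum_type, Matrix.one_apply] using this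
      · exact congrFun h0 m
    have := LinearMap.finrank_le_finrank_of_injective hinj
    rw [Module.finrank_fintype_fun_eq_card, Fintype.card_fin] at this
    rw [Fintype.card_sum, Fintype.card_fin]
    omega

theorem noPseudoReflection (hA : H1 A) (hu : 2 ≤ u) : NoPseudoReflection (Grp A) := by
  intro g hg h
  apply StructA_codim hA hu g hg
  have := LinearMap.finrank_range_add_finrank_ker
    (Matrix.toLin' ((g : Matrix (Fin u ⊕ Fin u) (Fin u ⊕ Fin u) k) - 1))
  rw [Module.finrank_fintype_fun_eq_card] at this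
  rw [← this, add_comm, ← h]
  rfl

theorem pderiv_inr_mem (hA : H1 A) {p : MvPolynomial (Fin u ⊕ Fin u) k} (hp : p ∈ Inv A)
    (i : Fin u) : pderiv (Sum.inr i) p ∈
      Ideal.span (Set.range fun j : Fin u => (X (Sum.inl j) : MvPolynomial (Fin u ⊕ Fin u) k)) := by
  set I := Ideal.span
    (Set.range fun j : Fin u => (X (Sum.inl j) : MvPolynomial (Fin u ⊕ Fin u) k)) with hI
  have hc : (fun _ => 1 : Fin 3 → k) ∈ bits k := fun l => by simp
  have hc0 : (fun _ => 1 : Fin 3 → k) ≠ 0 := fun h => one_ne_zero (congrFun h 0)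
  generalize (fun _ => 1 : Fin 3 → k) = c at hc hc0
  set M := ∑ l, c l • A l with hM
  have h1 : M * M⁻¹ = 1 := Matrix.mul_nonsing_inv _ (StructA_isUnit hA hc hc0)
  have hX : ∀ j, Ideal.Quotient.mkₐ k I (X (Sum.inl j)) = 0 := fun j =>
    Ideal.Quotient.eq_zero_iff_mem.2 (Ideal.subset_span ⟨j, rfl⟩)
  have hφ : ∀ x, Ideal.Quotient.mkₐ k I (linSubst (gmat A c) x) = Ideal.Quotient.mkₐ k I x := by
    have : (Ideal.Quotient.mkₐ k I).comp (linSubst (gmat A c)) = Ideal.Quotient.mkₐ k I := by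
      refine algHom_ext fun m => ?_
      rw [StructA_linSubst_gmat, AlgHom.comp_apply, aeval_X, StructA_map_pt]
      rcases m with m | m
      · rfl
      · simp only [pt, Sum.elim_inr, Pi.add_apply, hX, Aop, mul_zero, smul_zero,
          Finset.sum_const_zero, add_zero]
    exact fun x => DFunLike.congr_fun this x
  have h2 : ∀ j, ∑ n, M n j • Ideal.Quotient.mkₐ k I (pderiv (Sum.inr n) p) = 0 := by
    intro j
    have := StructA_pderiv_linSubst (gmat A c) p (Sum.inl j)
    rw [StructA_mem_Inv.1 hp c hc, Fintype.sum_sum_type] at this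
    have h3 := congrArg (Ideal.Quotient.mkₐ k I) this
    simp only [map_add, map_sum, mul_comm _ (C _), ← smul_eq_C_mul, map_smul, hφ] at h3
    simp only [gmat, Matrix.fromBlocks_apply₁₁, Matrix.fromBlocks_apply₂₁, Matrix.one_apply, ite_smul,
      one_smul, zero_smul, Finset.sum_ite_eq', Finset.mem_univ, if_true, ← hM] at h3
    exact left_eq_add.1 h3
  refine Ideal.Quotient.eq_zero_iff_mem.1 ?_
  change Ideal.Quotient.mkₐ k I _ = 0
  have h4 : ∑ j, M⁻¹ j i • ∑ n, M n j • Ideal.Quotient.mkₐ k I (pderiv (Sum.inr n) p) = 0 := by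
    simp only [h2, smul_zero, Finset.sum_const_zero]
  simp only [Finset.smul_sum, smul_smul] at h4
  rw [Finset.sum_comm] at h4
  simp only [← Finset.sum_smul, mul_comm (M⁻¹ _ i), ← Matrix.mul_apply, h1, Matrix.one_apply,
    ite_smul] at h4
  simpa using h4

end Pool.Agent.MP_536a45_ag

end
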