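import Pool.Agent.Mg.F536a45a.G6d882a
import Pool.Agent.Mg.F536a45a.G0b2ed2
import Pool.Agent.Mg.F536a45a.G71d92b
import Pool.Agent.MP_536a45_ag.Tr.Defs

set_option linter.all false

/-!
# Algebraic independence of a family of stringy motives
-/

open Filter Topology

namespace Pool.Agent.MP_536a45_ag.Tr

theorem card_Grp {u : ℕ} [NeZero u] {A : Fin 3 → Matrix (Fin u) (Fin u) kk} (hA : H1 A) :
    Nat.card (Grp A) = 8 := by
  rw [← card_bitsF kk, ← Set.ncard_coe_finset, coe_bitsF, ← Nat.card_coe_set_eq]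
  have hg : ∀ c : Fin 3 → kk, gmat A c * gmat A c = 1 := fun c => by
    rw [gmat_mul, show c + c = 0 from funext fun l => CharTwo.add_self_eq_zero _, gmat_zero]
  symm
  refine Nat.card_congr (Equiv.ofBijective
    (fun c => ⟨⟨gmat A c.1, gmat A c.1, hg _, hg _⟩, c.1, c.2, rfl⟩) ⟨fun c c' h => ?_, ?_⟩)
  · have h1 : gmat A c.1 = gmat A c'.1 := congrArg (fun g : Grp A => g.1.1) h
    have h2 := hg c'.1
    nth_rewrite 1 [← h1] at h2
    rw [gmat_mul, ← gmat_zero A] at h2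
    have h3 := (Matrix.fromBlocks_inj.1 h2).2.2.1
    by_contra hne
    have h4 := StructA_isUnit hA (add_mem_bits c.2 c'.2) fun e => hne (Subtype.ext (funext fun l =>
      CharTwo.add_eq_zero.1 (congrFun e l)))
    rw [h3] at h4
    simp at h4
  · rintro ⟨g, c, hc, e⟩
    exact ⟨⟨c, hc⟩, Subtype.ext (Units.ext e.symm)⟩

theorem sq_Grp {u : ℕ} {A : Fin 3 → Matrix (Fin u) (Fin u) kk} : ∀ g ∈ Grp A, g ^ 2 = 1 := by
  rintro g ⟨c, -, e⟩
  refine Units.ext ?_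
  rw [sq, Units.val_mul, e, gmat_mul, show c + c = 0 from funext fun l =>
    CharTwo.add_self_eq_zero _, gmat_zero, Units.val_one]

theorem exists_approx {A : Fin 3 → Matrix (Fin 27) (Fin 27) kk} {N : ℕ} (hA : H1 A)
    {f : Fin N → Inv A} (hf : Algebra.adjoin kk (Set.range f) = ⊤) {ρ : ℕ} (hρ : 0 < ρ)
    (χ : Mot kk ρ →+* Germ dv ℝ)
    (hχ1 : ∀ (ι : Type) [Finite ι] (A : Set (ι → kk)), IsConstr A →
      χ (toMot kk ρ (cls A)) = ((fun m => (cnt m A : ℝ) : ℕ → ℝ) : Germ dv ℝ))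
    (hL : χ (lef kk ρ) = ((fun m : ℕ => (2 : ℝ) ^ m : ℕ → ℝ) : Germ dv ℝ)) :
    ∃ (M : MotHat kk ρ) (p : ℕ → Mot kk ρ), IsMotivicIntegral f 54 (II f) ρ M ∧
      Tendsto (fun j => (p j : MotHat kk ρ)) atTop (𝓝 M) ∧
      ∀ j, ∃ (Nf : ℕ → ℝ) (c : ℝ), χ (p j) = (Nf : Germ dv ℝ) ∧ ∀ᶠ m : ℕ in dv,
        |Nf m - (((2 : ℝ) ^ m) ^ 54 - (2 ^ m) ^ 27 + (2 ^ m) ^ 3 * Zc A m)| ≤
          c * ((2 : ℝ) ^ m) ^ 12 := by
  obtain ⟨C⟩ := nonempty_charts (A := A) (by norm_num)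
  choose μ hμ using C.exists_measure hA hf ρ
  obtain ⟨M, hM⟩ := exists_limit (C.measure_mem_filt hA hf hρ hμ)
  refine ⟨M, fun j => ∑ s ∈ Finset.range (j + (7 * C.E + 2) + 1), μ s * lef kk ρ ^ s,
    ⟨μ, fun s => ?_, hM⟩, hM.comp ((tendsto_add_atTop_nat 1).comp (tendsto_add_atTop_nat _)),
    fun j => ?_⟩
  · filter_upwards [hμ s, eventually_ge_atTop s] with n h1 h2
    exact ⟨C.isConstr_jetSet hA (by norm_num) hf h2, h1⟩
  beta_reduce
  generalize hS : j + (7 * C.E + 2) = S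
  obtain ⟨n, hn1, hn2⟩ := (((eventually_all_finset (Finset.range (S + 1))).2 fun s _ => hμ s).and
    (eventually_ge_atTop (110 * S))).exists
  refine ⟨_, S, ?_, C.count_estimate hA hf (by omega) (by omega) hn2⟩
  have h1 : ∀ s ∈ Finset.range (S + 1), χ (μ s * lef kk ρ ^ s) = Germ.coeRingHom dv
      fun m : ℕ => (cnt m (jetSet (k := kk) f (II f) s n) : ℝ) * (2 ^ m) ^ s /
        (2 ^ m) ^ (54 * n) := by
    intro s hs
    have hsn : s ≤ n := by have := Finset.mem_range.1 hs; omega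
    have h2 := congrArg χ (hn1 s hs)
    rw [map_mul, map_pow, hL, hχ1 _ _ (C.isConstr_jetSet hA (by norm_num) hf hsn)] at h2
    obtain ⟨g, hg⟩ : ∃ g : ℕ → ℝ, χ (μ s) = (g : Germ dv ℝ) :=
      Germ.inductionOn (χ (μ s)) fun g => ⟨g, rfl⟩
    rw [hg, ← Germ.coe_pow, ← Germ.coe_mul, Germ.coe_eq] at h2
    rw [map_mul, map_pow, hL, hg, ← Germ.coe_pow, ← Germ.coe_mul, Germ.coe_coeRingHom,
      Germ.coe_eq]
    filter_upwards [h2] with m hm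
    simp only [Pi.mul_apply, Pi.pow_apply] at hm ⊢
    rw [← hm, mul_comm n 54]
    field_simp
  rw [map_sum, Finset.sum_congr rfl h1, ← map_sum, Germ.coe_coeRingHom]
  congr 1
  funext m
  simp only [Finset.sum_apply, Finset.sum_div]

theorem two_re {z : ℂ} (h : ‖z‖ = 1) : ((2 * z.re : ℝ) : ℂ) = z + z⁻¹ := by
  rw [Complex.inv_eq_conj h, Complex.add_conj]

theorem exists_family : ∃ (A : ℕ → Fin 3 → Matrix (Fin 27) (Fin 27) kk) (γ : ℕ → ℂ),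
    (∀ s, H1 (A s)) ∧ (∀ s, ‖γ s‖ = 1) ∧
    (∀ (S : Finset ℕ) (e : ℕ → ℤ), ∏ s ∈ S, γ s ^ e s = 1 → ∀ s ∈ S, e s = 0) ∧
    ∀ s, ∀ᶠ m : ℕ in dv, 2 ^ (s + 2) ∣ m ∧ (Zc (A s) m : ℝ) = (2 ^ m) ^ 27 - 1 + (2 ^ m - 1) *
      (2 ^ m + 1 - √(2 ^ m) * (2 * (γ s ^ (m / 2 ^ (s + 2))).re)) * ((2 ^ m) ^ 9 - 1) := by
  choose a ha ha0 h5 hlt using exists_param
  choose u hu using exists_shift
  obtain ⟨γ, hγ, hind⟩ := exists_gamma _ h5 hlt
  refine ⟨fun s => AA (a s) (u (a s)), γ, fun s => h1_AA (hu _), fun s => (hγ s).1, hind,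
    fun s => ?_⟩
  have hc : 0 < 2 ^ (s + 2) := by positivity
  filter_upwards [Count_pos, Count_fix (a s), Count_fix Ell.om, Count_fix (u (a s)),
    eventually_dv.2 ⟨_, hc, fun m _ h => h⟩] with m hm h1 h2 h3 h4
  refine ⟨h4, ?_⟩
  have e1 := congrArg (Int.cast : ℤ → ℝ) (Zc_eq hm (ha0 s) h1 h2 h3)
  obtain ⟨n, rfl⟩ := h4
  obtain ⟨n, rfl⟩ := Nat.exists_eq_succ_of_ne_zero (show n ≠ 0 by rintro rfl; simp at hm)
  have e : rr s ^ 2 = 2 ^ 2 ^ (s + 2) := by rw [rr, ← pow_mul, ← pow_succ]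
  have e2 := seqA_eq (fun h => by simpa [h] using (hγ s).1) (hγ s).2 (n + 1)
  rw [← two_re (by rw [norm_pow, (hγ s).1, one_pow]), e] at e2
  have e3 : (seqA (-Kl (2 ^ (s + 2)) (a s)) (2 ^ 2 ^ (s + 2)) (n + 1) : ℝ) =
      (rr s : ℝ) ^ (n + 1) * (2 * (γ s ^ (n + 1)).re) := by exact_mod_cast e2
  have e4 : √(2 ^ (2 ^ (s + 2) * (n + 1))) = (rr s : ℝ) ^ (n + 1) := by
    rw [Real.sqrt_eq_iff_mul_self_eq (by positivity) (by unfold rr; positivity), ← mul_pow, ← sq,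
      pow_mul]
    exact_mod_cast congrArg (· ^ (n + 1)) e.symm
  rw [Nat.succ_eq_add_one, Kl_eq hc (ha s) (ha0 s)] at e1
  push_cast at e1
  rw [Nat.succ_eq_add_one, e1, e3, e4, Nat.mul_div_cancel_left _ hc]
  ring

theorem hom_aeval {ι R S : Type*} [CommRing R] [CommRing S] [Algebra ℤ R] [Algebra ℤ S]
    (g : R →+* S) (x : ι → R) (P : MvPolynomial ι ℤ) :
    g (MvPolynomial.aeval x P) = MvPolynomial.aeval (fun i => g (x i)) P := by
  rw [MvPolynomial.map_aeval, MvPolynomial.aeval_def, RingHom.ext_int (g.comp _) (algebraMap ℤ S)]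
  rfl

theorem germ_mv {ι : Type} (g : ι → ℕ → ℝ) (P : MvPolynomial ι ℤ) :
    MvPolynomial.aeval (fun i => (g i : Germ dv ℝ)) P =
      ((fun m => MvPolynomial.aeval (fun i => g i m) P : ℕ → ℝ) : Germ dv ℝ) := by
  refine (hom_aeval (Germ.coeRingHom (R := ℝ) dv) g P).symm.trans
    (congrArg _ (funext fun m => ?_))
  exact hom_aeval (Pi.evalRingHom (fun _ : ℕ => ℝ) m) g P

theorem close_aux {q w F N τ c : ℝ} (hq : 2 ≤ q) (hw : 1 ≤ w)
    (h : |N - (F - q ^ 3 * (q - 1) * (q ^ 9 - 1) * w * τ)| ≤ c * q ^ 12) :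
    |(F - N) / (q ^ 3 * (q - 1) * (q ^ 9 - 1) * w) - τ| ≤ 4 * c / q := by
  have h0 : 0 < q := by linarith
  have h1 : 2 ≤ q ^ 9 := hq.trans (le_self_pow₀ (by linarith) (by norm_num))
  have h2 : q ^ 3 * (q / 2) * (q ^ 9 / 2) * 1 ≤ q ^ 3 * (q - 1) * (q ^ 9 - 1) * w := by
    have : 0 ≤ q - 1 := by linarith
    have : 0 ≤ q ^ 9 - 1 := by linarith
    gcongr <;> linarith
  have h3 : 0 < q ^ 3 * (q / 2) * (q ^ 9 / 2) * 1 := by positivity
  have h4 : 0 ≤ c * q ^ 12 := (abs_nonneg _).trans h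
  generalize q ^ 3 * (q - 1) * (q ^ 9 - 1) * w = G at *
  have h5 : 0 < G := h3.trans_le h2
  rw [show (F - N) / G - τ = -(N - (F - G * τ)) / G by field_simp; ring, abs_div, abs_neg,
    abs_of_pos h5]
  calc _ ≤ c * q ^ 12 / (q ^ 3 * (q / 2) * (q ^ 9 / 2) * 1) := by gcongr
    _ = 4 * c / q := by field_simp; ring

open Polynomial in
theorem indep_num {K ρ : ℕ} (hρ : 0 < ρ) (γ : ℕ → ℂ) (h1 : ∀ s, ‖γ s‖ = 1)
    (hind : ∀ (S : Finset ℕ) (e : ℕ → ℤ), ∏ s ∈ S, γ s ^ e s = 1 → ∀ s ∈ S, e s = 0)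
    (Z : ℕ → ℕ → ℝ) (hZ : ∀ s, ∀ᶠ m : ℕ in dv, 2 ^ (s + 2) ∣ m ∧ Z s m = (2 ^ m) ^ 27 - 1 +
      (2 ^ m - 1) * (2 ^ m + 1 - √(2 ^ m) * (2 * (γ s ^ (m / 2 ^ (s + 2))).re)) * ((2 ^ m) ^ 9 - 1))
    (Nf : ℕ → ℕ → ℝ) (c : ℕ → ℝ) (hN : ∀ s, ∀ᶠ m : ℕ in dv,
      |Nf s m - (((2 : ℝ) ^ m) ^ 54 - (2 ^ m) ^ 27 + (2 ^ m) ^ 3 * Z s m)| ≤
        c s * ((2 : ℝ) ^ m) ^ 12) (P : MvPolynomial (Option (Fin K)) ℤ) (C : ℝ)
    (hP : ∀ᶠ m : ℕ in dv, |(2 : ℝ) ^ ((m : ℝ) / ρ) * MvPolynomial.aeval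
      (fun o : Option (Fin K) => o.elim ((2 : ℝ) ^ ((m : ℝ) / ρ)) fun i => Nf i m) P| ≤ C) :
    P = 0 := by
  obtain ⟨b, hb, h⟩ := eventually_dv.1
    ((eventually_all.2 fun i : Fin K => (hZ i).and (hN i)).and hP)
  have hm : ∀ n, 0 < n → 0 < 2 * ρ * b * n ∧ b ∣ 2 * ρ * b * n := fun n hn =>
    ⟨by positivity, ⟨2 * ρ * n, by ring⟩⟩
  have hd : ∀ i : Fin K, 2 ^ ((i : ℕ) + 2) ∣ 2 * ρ * b := fun i => by
    simpa using ((h _ (hm 1 one_pos).1 (hm 1 one_pos).2).1 i).1.1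
  choose k hk using hd
  have hk0 : ∀ i, k i ≠ 0 := fun i e => by
    have := hk i
    rw [e, mul_zero] at this
    exact absurd this (by positivity)
  have hu : Tendsto (fun n : ℕ => (2 : ℝ) ^ (b * n)) atTop atTop :=
    (tendsto_pow_atTop_atTop_of_one_lt one_lt_two).comp (tendsto_id.const_mul_atTop' hb)
  have hG : ∀ v : ℝ, 1 < v →
      0 < (v ^ (2 * ρ)) ^ 3 * (v ^ (2 * ρ) - 1) * ((v ^ (2 * ρ)) ^ 9 - 1) * v ^ ρ := by
    intro v hv
    have e1 : 1 < v ^ (2 * ρ) := one_lt_pow₀ hv (by omega)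
    have e2 : 1 < (v ^ (2 * ρ)) ^ 9 := one_lt_pow₀ e1 (by omega)
    have e3 : 0 < v := by linarith
    have := sub_pos.2 e1
    have := sub_pos.2 e2
    positivity
  have hu1 : ∀ n, 0 < n → (1 : ℝ) < 2 ^ (b * n) := fun n hn =>
    one_lt_pow₀ one_lt_two (by positivity)
  have hq : ∀ n, (2 : ℝ) ^ (2 * ρ * b * n) = (2 ^ (b * n)) ^ (2 * ρ) := fun n => by
    rw [← pow_mul]; congr 1; ring
  refine ana (fun i : Fin K => γ i ^ k i) (fun i => by rw [norm_pow, h1, one_pow]) (fun e he => ?_)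
    ((X ^ (2 * ρ)) ^ 54 - (X ^ (2 * ρ)) ^ 27 + (X ^ (2 * ρ)) ^ 3 * ((X ^ (2 * ρ)) ^ 27 - 1 +
      (X ^ (2 * ρ) - 1) * (X ^ (2 * ρ) + 1) * ((X ^ (2 * ρ)) ^ 9 - 1)))
    ((X ^ (2 * ρ)) ^ 3 * (X ^ (2 * ρ) - 1) * ((X ^ (2 * ρ)) ^ 9 - 1) * X ^ ρ)
    (fun v hv => by
      simpa only [eval_mul, eval_sub, eval_pow, eval_X, eval_one] using (hG v hv).ne') _ hu
    (fun n i => (fun v : ℝ => ((v ^ (2 * ρ)) ^ 54 - (v ^ (2 * ρ)) ^ 27 + (v ^ (2 * ρ)) ^ 3 *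
      ((v ^ (2 * ρ)) ^ 27 - 1 + (v ^ (2 * ρ) - 1) * (v ^ (2 * ρ) + 1) * ((v ^ (2 * ρ)) ^ 9 - 1)) -
        Nf i (2 * ρ * b * n)) /
      ((v ^ (2 * ρ)) ^ 3 * (v ^ (2 * ρ) - 1) * ((v ^ (2 * ρ)) ^ 9 - 1) * v ^ ρ)) (2 ^ (b * n)))
    (fun n i => 2 * ((γ i ^ k i) ^ n).re)
    (fun n i => two_re (by rw [norm_pow, norm_pow, h1, one_pow, one_pow])) (fun i => ?_) P ?_
  · funext i
    have := hind (Finset.range K) (fun s => if h : s < K then k ⟨s, h⟩ * e ⟨s, h⟩ else 0) (by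
      rw [← he, Finset.prod_range]
      exact Finset.prod_congr rfl fun j _ => by simp [zpow_mul]) i (Finset.mem_range.2 i.2)
    simpa [hk0] using this
  · refine squeeze_zero_norm' ?_ (((tendsto_pow_atTop (show 2 * ρ ≠ 0 by omega)).comp
      hu).const_div_atTop (4 * c i))
    filter_upwards [eventually_gt_atTop 0] with n hn
    obtain ⟨⟨-, e1⟩, e2⟩ := (h _ (hm n hn).1 (hm n hn).2).1 i
    have e3 : √(2 ^ (2 * ρ * b * n)) = (2 ^ (b * n)) ^ ρ := by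
      rw [Real.sqrt_eq_iff_mul_self_eq (by positivity) (by positivity), hq, two_mul, pow_add]
    have e4 : 2 * ρ * b * n / 2 ^ ((i : ℕ) + 2) = k i * n := by
      rw [hk i, mul_assoc, Nat.mul_div_cancel_left _ (by positivity)]
    rw [e1, e3, e4, hq, pow_mul (γ i)] at e2
    refine close_aux ?_ (one_le_pow₀ (hu1 n hn).le) (le_of_eq_of_le (congrArg abs (by ring)) e2)
    rw [← hq]
    exact le_self_pow₀ one_le_two (hm n hn).1.ne'
  · refine squeeze_zero_norm' ?_ (((tendsto_pow_atTop two_ne_zero).comp hu).const_div_atTop C)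
    filter_upwards [eventually_gt_atTop 0] with n hn
    have e1 := (h _ (hm n hn).1 (hm n hn).2).2
    have e2 : (2 : ℝ) ^ (((2 * ρ * b * n : ℕ) : ℝ) / ρ) = (2 ^ (b * n)) ^ 2 := by
      rw [← pow_mul, ← Real.rpow_natCast]
      congr 1
      push_cast
      field_simp
    rw [e2, abs_mul, abs_of_pos (by positivity)] at e1
    rw [Function.comp, le_div_iff₀' (by positivity)]
    refine le_of_eq_of_le ?_ e1
    congr 4
    funext o
    rcases o with _ | i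
    · rfl
    · simp only [Option.elim, eval_mul, eval_sub, eval_add, eval_pow, eval_X, eval_one]
      rw [mul_div_cancel₀ _ (hG _ (hu1 n hn)).ne', sub_sub_cancel]

theorem main_indep : ∃ A : ℕ → Fin 3 → Matrix (Fin 27) (Fin 27) kk, (∀ s, H1 (A s)) ∧
    ∀ (N : ℕ → ℕ) (f : ∀ s, Fin (N s) → Inv (A s)),
      (∀ s, Algebra.adjoin kk (Set.range (f s)) = ⊤) → ∀ ρ : ℕ, 0 < ρ →
      ∃ M : ℕ → MotHat kk ρ, (∀ s, IsMotivicIntegral (f s) 54 (II (f s)) ρ (M s)) ∧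
        AlgebraicIndependent ℤ fun o : Option ℕ => o.elim (rootHat kk ρ) M := by
  classical
  obtain ⟨A, γ, hA, h1, hind, hZ⟩ := exists_family
  refine ⟨A, hA, fun N f hf ρ hρ => ?_⟩
  obtain ⟨χ, hχ1, hχ2, hχ3⟩ := exists_realization ρ hρ
  set T : Mot kk ρ := ((rootL kk ρ : (Mot kk ρ)ˣ) : Mot kk ρ) with hT
  have hρ' : (ρ : ℝ) ≠ 0 := by exact_mod_cast hρ.ne'
  have hL : χ (lef kk ρ) = ((fun m : ℕ => (2 : ℝ) ^ m : ℕ → ℝ) : Germ dv ℝ) := by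
    rw [← rootL_pow, map_pow, hχ2, ← Germ.coe_pow]
    congr 1
    funext m
    rw [Pi.pow_apply, ← Real.rpow_natCast, ← Real.rpow_mul (by norm_num), div_mul_cancel₀ _ hρ',
      Real.rpow_natCast]
  choose M p hM hp Nf c hχ hN using fun s => exists_approx (hA s) (hf s) hρ χ hχ1 hL
  refine ⟨M, hM, algebraicIndependent_iff.2 fun P hP => ?_⟩
  obtain ⟨K, hK⟩ := (P.vars.image fun o => o.elim 0 id).bddAbove
  obtain ⟨Q, rfl⟩ := MvPolynomial.exists_rename_eq_of_vars_subset_range P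
    (Option.map (Fin.val : Fin (K + 1) → ℕ)) (Option.map_injective Fin.val_injective) (by
      rintro (_ | s) ho
      · exact ⟨none, rfl⟩
      · have : s ≤ K := hK (Finset.mem_coe.2 (Finset.mem_image.2 ⟨some s, ho, rfl⟩))
        exact ⟨some ⟨s, by omega⟩, rfl⟩)
  rw [MvPolynomial.aeval_rename] at hP
  have hev := eventually_mem_filt (a := fun j => T * MvPolynomial.aeval
      (fun o : Option (Fin (K + 1)) => o.elim T fun i => p i j) Q) (by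
    have h2 : Tendsto (fun j (o : Option (Fin (K + 1))) =>
        ((o.elim T fun i => p i j : Mot kk ρ) : MotHat kk ρ)) atTop
        (𝓝 ((fun o : Option ℕ => o.elim (rootHat kk ρ) M) ∘ Option.map Fin.val)) := by
      refine tendsto_pi_nhds.2 ?_
      rintro (_ | i)
      · exact tendsto_const_nhds
      · exact hp i
    have h3 := (((Q.map (algebraMap ℤ (MotHat kk ρ))).continuous_eval.tendsto _).comp
      h2).const_mul (T : MotHat kk ρ)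
    rw [MvPolynomial.eval_map, ← MvPolynomial.aeval_def, hP, mul_zero] at h3
    refine h3.congr fun j => ?_
    rw [Function.comp, MvPolynomial.eval_map, ← MvPolynomial.aeval_def,
      UniformSpace.Completion.coe_mul]
    exact congrArg _ (hom_aeval (UniformSpace.Completion.coeRingHom : Mot kk ρ →+* MotHat kk ρ)
      (fun o : Option (Fin (K + 1)) => o.elim T fun i => p i j) Q).symm)
  obtain ⟨j, hj⟩ := hev.exists
  obtain ⟨C, hC⟩ := hχ3 _ hj (fun m => (2 : ℝ) ^ ((m : ℝ) / ρ) * MvPolynomial.aeval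
      (fun o : Option (Fin (K + 1)) => o.elim ((2 : ℝ) ^ ((m : ℝ) / ρ)) fun i => Nf i j m) Q) (by
    have h2 := hom_aeval χ (fun o : Option (Fin (K + 1)) => o.elim T fun i => p i j) Q
    have h3 := germ_mv (fun (o : Option (Fin (K + 1))) (m : ℕ) =>
      o.elim ((2 : ℝ) ^ ((m : ℝ) / ρ)) fun i => Nf i j m) Q
    rw [map_mul, hχ2]
    refine congrArg₂ (· * ·) rfl (h2.trans (Eq.trans ?_ h3))
    congr 2
    funext o
    rcases o with _ | i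
    · exact hχ2
    · exact hχ i j)
  rw [indep_num hρ γ h1 hind (fun s m => Zc (A s) m) hZ (fun s => Nf s j) (fun s => c s j)
    (fun s => hN s j) Q C hC, map_zero]

theorem omega_A {u : ℕ} [NeZero u] (hu : 2 ≤ u) {A : Fin 3 → Matrix (Fin u) (Fin u) kk}
    (hA : H1 A) :
    Nonempty (canonicalModule kk (Inv A) (Fintype.card (Fin u ⊕ Fin u)) ≃ₗ[Inv A] Inv A) ∧
      ∀ (e : canonicalModule kk (Inv A) (Fintype.card (Fin u ⊕ Fin u)) ≃ₗ[Inv A] Inv A) (N : ℕ)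
        (f : Fin N → Inv A), Algebra.adjoin kk (Set.range f) = ⊤ → evalIdeal e = II f := by
  obtain ⟨C⟩ := nonempty_charts (A := A) (by omega)
  obtain ⟨a, ha⟩ := exists_Mpoly_ne_zero hA (by omega)
  obtain ⟨h1, h2⟩ := omega_ident (Inv A) jac_mem_Inv mem_Inv_of_mul (C.M a)
    (fun h => ha (by rw [← C.hM, h]; rfl)) (C.h a) (C.hMh a) (C.chart a)
    (exists_not_dvd_jac hA hu)
  exact ⟨h1, fun e N f hf => h2 e N f hf⟩

theorem final_gen {u d : ℕ} [NeZero u] (hu : 2 ≤ u) (hd : 2 * u = d)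
    (A : ℕ → Fin 3 → Matrix (Fin u) (Fin u) kk) (hA : ∀ s, H1 (A s))
    (h : ∀ (N : ℕ → ℕ) (f : ∀ s, Fin (N s) → Inv (A s)),
      (∀ s, Algebra.adjoin kk (Set.range (f s)) = ⊤) → ∀ ρ : ℕ, 0 < ρ →
      ∃ M : ℕ → MotHat kk ρ, (∀ s, IsMotivicIntegral (f s) d (II (f s)) ρ (M s)) ∧
        AlgebraicIndependent ℤ fun o : Option ℕ => o.elim (rootHat kk ρ) M) :
    ∃ (k : Type) (_ : Field k) (_ : IsAlgClosed k) (_ : CharP k 2) (σ : Type)
    (_ : Fintype σ) (_ : DecidableEq σ) (G : ℕ → Subgroup (GL σ k)), Fintype.card σ = d ∧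
    (∀ s, Nat.card (G s) = 8 ∧ (∀ g ∈ G s, g ^ 2 = 1) ∧ NoPseudoReflection (G s) ∧
      Nonempty (Pres k (invariants (G s)) d)) ∧
    ∀ (P : ∀ s, Pres k (invariants (G s)) d) (ρ : ℕ), 0 < ρ →
      ∃ M : ℕ → MotHat k ρ, (∀ s, (P s).IsStringy ρ (M s)) ∧
        AlgebraicIndependent ℤ fun o : Option ℕ => o.elim (rootHat k ρ) M := by
  have hc : Fintype.card (Fin u ⊕ Fin u) = d := by
    rw [Fintype.card_sum, Fintype.card_fin, ← two_mul, hd]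
  have ho := fun s => omega_A hu (hA s)
  clear hd
  subst hc
  refine ⟨kk, _, inferInstance, inferInstance, Fin u ⊕ Fin u, _, _, fun s => Grp (A s), rfl,
    fun s => ⟨card_Grp (hA s), sq_Grp, noPseudoReflection (hA s) hu, ?_⟩, fun P ρ hρ => ?_⟩
  · obtain ⟨N, f, hf⟩ := exists_generators (A := A s)
    obtain ⟨e⟩ := (ho s).1
    exact ⟨⟨N, f, hf, e⟩⟩
  obtain ⟨M, h1, h2⟩ := h _ (fun s => (P s).f) (fun s => (P s).gen) ρ hρ
  refine ⟨M, fun s => ?_, h2⟩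
  have := h1 s
  rw [← (ho s).2 (P s).e _ _ (P s).gen] at this
  exact this

end Pool.Agent.MP_536a45_ag.Tr
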