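import Pool.Agent.MP_536a45_ag.Setup
import Pool.Agent.Mg.F536a45a.Gad8181

set_option linter.all false

section

/-!
# Hahn series: valuation calculus, Laurent series and power series inside `Ω = k((t^ℚ))`
-/

open HahnSeries

namespace Pool.Agent.MP_536a45_ag

/-- The field of Hahn series with rational exponents. -/
abbrev Om : Type := HahnSeries ℚ kk

noncomputable instance (priority := 10000) omAlgebra : Algebra kk Om := HahnSeries.instAlgebra

instance : CharP Om 2 := charP_of_injective_algebraMap (algebraMap kk Om).injective 2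

theorem algebraMap_Om (c : kk) : algebraMap kk Om c = single 0 c := rfl

/-- Series of valuation at least `a`. -/
def VG (a : ℚ) : Submodule kk Om where
  carrier := {x | ∀ g < a, x.coeff g = 0}
  add_mem' := fun {x y} hx hy g hg => by simp [hx g hg, hy g hg]
  zero_mem' := fun g _ => rfl
  smul_mem' := fun c x hx g hg => by simp [hx g hg]

theorem mem_VG {a : ℚ} {x : Om} : x ∈ VG a ↔ ∀ g < a, x.coeff g = 0 := Iff.rfl

theorem VG_mono {a b : ℚ} {x : Om} (hx : x ∈ VG a) (h : b ≤ a) : x ∈ VG b :=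
  fun g hg => hx g (hg.trans_le h)

theorem coeff_mul_eq_zero {x y : Om} {g : ℚ}
    (h : ∀ a b, a + b = g → x.coeff a = 0 ∨ y.coeff b = 0) : (x * y).coeff g = 0 := by
  rw [coeff_mul]
  refine Finset.sum_eq_zero fun p hp => ?_
  rcases h p.1 p.2 (Finset.mem_antidiagonal.1 hp).2.2 with h | h <;> simp [h]

theorem coeff_mul_eq_single {x y : Om} (a b : ℚ)
    (h : ∀ a' b', a' + b' = a + b → a' ≠ a → x.coeff a' = 0 ∨ y.coeff b' = 0) :
    (x * y).coeff (a + b) = x.coeff a * y.coeff b := by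
  rw [coeff_mul, Finset.sum_eq_single (a, b)]
  · rintro ⟨a', b'⟩ hp hne
    have h1 : a' + b' = a + b := (Finset.mem_antidiagonal.1 hp).2.2
    have h2 : a' ≠ a := by
      rintro rfl
      exact hne (by rw [add_left_cancel h1])
    rcases h a' b' h1 h2 with h | h <;> simp [h]
  · intro hn
    by_contra hne
    exact hn (Finset.mem_antidiagonal.2 ⟨left_ne_zero_of_mul hne, right_ne_zero_of_mul hne, rfl⟩)

theorem VG_mul {a b : ℚ} {x y : Om} (hx : x ∈ VG a) (hy : y ∈ VG b) : x * y ∈ VG (a + b) := by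
  intro g hg
  refine coeff_mul_eq_zero fun a' b' e => ?_
  by_cases h : a' < a
  · exact Or.inl (hx _ h)
  · exact Or.inr (hy _ (by linarith))

theorem VG_mul_of_le {a b c : ℚ} {x y : Om} (hx : x ∈ VG a) (hy : y ∈ VG b) (h : c ≤ a + b) :
    x * y ∈ VG c := VG_mono (VG_mul hx hy) h

theorem coeff_mul_of_VG {a b : ℚ} {x y : Om} (hx : x ∈ VG a) (hy : y ∈ VG b) :
    (x * y).coeff (a + b) = x.coeff a * y.coeff b := by
  refine coeff_mul_eq_single a b fun a' b' e hne => ?_
  rcases lt_or_gt_of_ne hne with h | h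
  · exact Or.inl (hx _ h)
  · exact Or.inr (hy _ (by linarith))

theorem single_mem_VG (a : ℚ) (c : kk) : (single a c : Om) ∈ VG a := fun g hg => by
  rw [coeff_single_of_ne hg.ne]

theorem algebraMap_mem_VG (c : kk) : algebraMap kk Om c ∈ VG 0 := single_mem_VG 0 c

theorem one_mem_VG : (1 : Om) ∈ VG 0 := by simpa using algebraMap_mem_VG 1

theorem VG_pow {a : ℚ} {x : Om} (hx : x ∈ VG a) (n : ℕ) : x ^ n ∈ VG (n * a) := by
  induction n with
  | zero => simpa using one_mem_VG
  | succ n ih => rw [pow_succ]; exact VG_mul_of_le ih hx (by push_cast; linarith)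

/-- The valuation ring. -/
def VR : Subalgebra kk Om where
  carrier := VG 0
  mul_mem' := fun hx hy => VG_mul_of_le hx hy (by simp)
  add_mem' := fun hx hy => (VG 0).add_mem hx hy
  algebraMap_mem' := algebraMap_mem_VG

theorem mem_VR {x : Om} : x ∈ VR ↔ x ∈ VG 0 := Iff.rfl

/-- `x` has valuation exactly `a`. -/
def Ex (a : ℚ) (x : Om) : Prop := x ∈ VG a ∧ x.coeff a ≠ 0

theorem exists_Ex {x : Om} (hx : x ≠ 0) : ∃ a, Ex a x :=
  ⟨x.order, fun _ hg => coeff_eq_zero_of_lt_order hg, fun h => hx (coeff_order_eq_zero.1 h)⟩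

theorem Ex.ne_zero {a : ℚ} {x : Om} (h : Ex a x) : x ≠ 0 := by
  rintro rfl; exact h.2 rfl

theorem Ex.le {a b : ℚ} {x : Om} (h : Ex a x) (hb : x ∈ VG b) : b ≤ a :=
  not_lt.1 fun hlt => h.2 (hb a hlt)

theorem Ex.mul {a b : ℚ} {x y : Om} (hx : Ex a x) (hy : Ex b y) : Ex (a + b) (x * y) :=
  ⟨VG_mul hx.1 hy.1, by rw [coeff_mul_of_VG hx.1 hy.1]; exact mul_ne_zero hx.2 hy.2⟩

theorem Ex_one : Ex 0 (1 : Om) := ⟨one_mem_VG, by simp⟩

theorem Ex.pow {a : ℚ} {x : Om} (hx : Ex a x) (n : ℕ) : Ex (n * a) (x ^ n) := by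
  induction n with
  | zero => simpa using Ex_one
  | succ n ih =>
    rw [pow_succ, show ((n + 1 : ℕ) : ℚ) * a = n * a + a by push_cast; ring]
    exact ih.mul hx

theorem Ex.prod {α : Type*} (s : Finset α) {a : ℚ} {x : α → Om} (hx : ∀ i ∈ s, Ex a (x i)) :
    Ex (s.card * a) (∏ i ∈ s, x i) := by
  classical
  induction s using Finset.induction_on with
  | empty => simpa using Ex_one
  | insert i s hi ih =>
    rw [Finset.prod_insert hi, Finset.card_insert_of_notMem hi,
      show ((s.card + 1 : ℕ) : ℚ) * a = a + s.card * a by push_cast; ring]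
    exact (hx i (by simp)).mul (ih fun j hj => hx j (by simp [hj]))

theorem Ex.add_of_lt {a b : ℚ} {x y : Om} (hx : Ex a x) (hy : y ∈ VG b) (h : a < b) :
    Ex a (x + y) :=
  ⟨(VG a).add_mem hx.1 (VG_mono hy h.le), by simpa [hy a h] using hx.2⟩

theorem VG_of_mul {a b : ℚ} {x y : Om} (hx : Ex a x) (h : x * y ∈ VG (a + b)) : y ∈ VG b := by
  by_cases hy : y = 0
  · rw [hy]; exact zero_mem _
  obtain ⟨c, hc⟩ := exists_Ex hy
  have := (hx.mul hc).le h
  exact VG_mono hc.1 (by linarith)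

theorem Ex.inv {a : ℚ} {x : Om} (hx : Ex a x) : Ex (-a) x⁻¹ := by
  obtain ⟨c, hc⟩ := exists_Ex (inv_ne_zero hx.ne_zero)
  have h1 := hx.mul hc
  rw [mul_inv_cancel₀ hx.ne_zero] at h1
  have h2 := h1.le one_mem_VG
  have h3 := Ex_one.le h1.1
  obtain rfl : c = -a := by linarith
  exact hc

theorem mem_VG_of_sq_add {a : ℚ} {x : Om} (h : x ^ 2 + x ∈ VG a) :
    x ∈ VG a ∨ x + 1 ∈ VG a := by
  by_cases hx : x = 0
  · left; rw [hx]; exact zero_mem _
  obtain ⟨c, hc⟩ := exists_Ex hx
  by_cases h0 : 0 < c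
  · left
    have h1 : Ex 0 (1 + x) := Ex_one.add_of_lt hc.1 h0
    exact VG_of_mul h1 (by rw [zero_add, show (1 + x) * x = x ^ 2 + x by ring]; exact h)
  · right
    refine VG_mono (VG_of_mul (b := a - c) hc ?_) (by linarith)
    rw [show c + (a - c) = a by ring, show x * (x + 1) = x ^ 2 + x by ring]; exact h

theorem mem_VR_of_monic {x : Om} (p : Polynomial Om) (hp : p.Monic) (hc : ∀ i, p.coeff i ∈ VG 0)
    (hx : p.eval x = 0) : x ∈ VG 0 := by
  by_cases h0 : x = 0
  · rw [h0]; exact zero_mem _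
  obtain ⟨c, hc'⟩ := exists_Ex h0
  by_contra hn
  have hneg : c < 0 := not_le.1 fun h => hn (VG_mono hc'.1 h)
  rw [hp.as_sum, Polynomial.eval_add, Polynomial.eval_pow, Polynomial.eval_X,
    Polynomial.eval_finsetSum] at hx
  have h1 : (∑ i ∈ Finset.range p.natDegree,
      Polynomial.eval x (Polynomial.C (p.coeff i) * Polynomial.X ^ i)) ∈
      VG ((p.natDegree - 1 : ℚ) * c) := by
    refine Submodule.sum_mem _ fun i hi => ?_
    rw [Polynomial.eval_mul, Polynomial.eval_C, Polynomial.eval_pow, Polynomial.eval_X]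
    refine VG_mul_of_le (hc i) (VG_pow hc'.1 i) ?_
    have : (i : ℚ) + 1 ≤ p.natDegree := by exact_mod_cast Finset.mem_range.1 hi
    nlinarith
  have h2 := ((hc'.pow p.natDegree).add_of_lt h1 (by linarith)).ne_zero
  exact h2 hx

/-- The embedding of Laurent series. -/
noncomputable def laur : HahnSeries ℤ kk →+* Om :=
  embDomainRingHom (Int.castAddHom ℚ) Int.cast_injective fun _ _ => Int.cast_le

theorem laur_coeff (x : HahnSeries ℤ kk) (z : ℤ) : (laur x).coeff (z : ℚ) = x.coeff z :=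
  embDomain_coeff (f := ⟨⟨Int.castAddHom ℚ, Int.cast_injective⟩, Int.cast_le⟩)

theorem laur_coeff_of_not (x : HahnSeries ℤ kk) {g : ℚ} (h : ∀ z : ℤ, g ≠ z) :
    (laur x).coeff g = 0 :=
  embDomain_of_notMem_range (f := ⟨⟨Int.castAddHom ℚ, Int.cast_injective⟩, Int.cast_le⟩)
    (by rintro ⟨z, hz⟩; exact h z hz.symm)

/-- The field `k((t))` inside `Ω`. -/
noncomputable def KK : Subfield Om := laur.fieldRange

theorem mem_KK {x : Om} : x ∈ KK ↔ ∀ g : ℚ, (∀ z : ℤ, g ≠ z) → x.coeff g = 0 := by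
  constructor
  · rintro ⟨y, rfl⟩ g hg
    exact laur_coeff_of_not y hg
  · intro h
    refine ⟨⟨fun z => x.coeff z, ?_⟩, ?_⟩
    · refine Set.IsWF.isPWO ?_
      rw [Set.isWF_iff_no_descending_seq]
      intro f hf hm
      refine (Set.isWF_iff_no_descending_seq.1 x.isWF_support) (fun n => (f n : ℚ))
        (fun a b hab => show (f b : ℚ) < f a by exact_mod_cast hf hab) fun n => hm n
    · ext g
      by_cases hg : ∃ z : ℤ, g = z
      · obtain ⟨z, rfl⟩ := hg
        rw [laur_coeff]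
      · push Not at hg
        rw [laur_coeff_of_not _ hg, h g hg]

theorem single_mem_KK (z : ℤ) (c : kk) : (single (z : ℚ) c : Om) ∈ KK :=
  mem_KK.2 fun _ hg => coeff_single_of_ne (hg z)

theorem single_nat_mem_KK (n : ℕ) (c : kk) : (single (n : ℚ) c : Om) ∈ KK := by
  simpa using single_mem_KK n c

theorem algebraMap_mem_KK (c : kk) : algebraMap kk Om c ∈ KK := by
  simpa [algebraMap_Om] using single_mem_KK 0 c

theorem smul_mem_KK (c : kk) {x : Om} (hx : x ∈ KK) : c • x ∈ KK := by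
  rw [Algebra.smul_def]; exact KK.mul_mem (algebraMap_mem_KK c) hx

/-- `k((t))` as a subalgebra. -/
noncomputable def KA : Subalgebra kk Om :=
  { KK.toSubring.toSubsemiring with algebraMap_mem' := algebraMap_mem_KK }

theorem mem_KA {x : Om} : x ∈ KA ↔ x ∈ KK := Iff.rfl

theorem Ex.int {a : ℚ} {x : Om} (h : Ex a x) (hx : x ∈ KK) : ∃ z : ℤ, a = z := by
  by_contra hn
  push Not at hn
  exact h.2 (mem_KK.1 hx a hn)

/-- Series with no integral exponent. -/
def NK : Submodule kk Om where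
  carrier := {x | ∀ z : ℤ, x.coeff z = 0}
  add_mem' := fun {x y} hx hy g => by simp [hx g, hy g]
  zero_mem' := fun g => rfl
  smul_mem' := fun c x hx g => by simp [hx g]

theorem NK_mul {x y : Om} (hx : x ∈ NK) (hy : y ∈ KK) : x * y ∈ NK := by
  intro z
  refine coeff_mul_eq_zero fun a b e => ?_
  by_cases hb : ∃ z' : ℤ, b = z'
  · obtain ⟨z', rfl⟩ := hb
    left
    have : a = ((z - z' : ℤ) : ℚ) := by push_cast; linarith
    rw [this]; exact hx _
  · push Not at hb
    exact Or.inr (mem_KK.1 hy b hb)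

theorem VG_sep {a : ℚ} {y z : Om} (hy : y ∈ KK) (hz : z ∈ NK) (h : y + z ∈ VG a) :
    y ∈ VG a ∧ z ∈ VG a := by
  have h1 : y ∈ VG a := by
    intro g hg
    by_cases hb : ∃ z' : ℤ, g = z'
    · obtain ⟨z', rfl⟩ := hb
      simpa [hz z'] using h _ hg
    · push Not at hb
      exact mem_KK.1 hy g hb
  exact ⟨h1, by simpa using (VG a).sub_mem h h1⟩

/-- The embedding of power series. -/
noncomputable def io : PowerSeries kk →ₐ[kk] Om := ofPowerSeriesAlg ℚ kk

theorem io_coeff (p : PowerSeries kk) (n : ℕ) : (io p).coeff (n : ℚ) = PowerSeries.coeff n p :=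
  ofPowerSeries_apply_coeff (Γ := ℚ) p n

theorem io_coeff_of_not (p : PowerSeries kk) {g : ℚ} (h : ∀ n : ℕ, g ≠ n) : (io p).coeff g = 0 :=
  embDomain_of_notMem_range (f := (Nat.castOrderEmbedding : ℕ ↪o ℚ))
    (by rintro ⟨z, hz⟩; exact h z hz.symm)

theorem io_injective : Function.Injective io := ofPowerSeries_injective (Γ := ℚ)

theorem io_mem_KK (p : PowerSeries kk) : io p ∈ KK :=
  mem_KK.2 fun _ hg => io_coeff_of_not p fun n e => hg n (by simpa using e)

theorem io_mem_VG_iff {p : PowerSeries kk} {n : ℕ} :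
    io p ∈ VG n ↔ ∀ i < n, PowerSeries.coeff i p = 0 := by
  constructor
  · intro h i hi
    rw [← io_coeff]; exact h _ (by exact_mod_cast hi)
  · intro h g hg
    by_cases hb : ∃ i : ℕ, g = i
    · obtain ⟨i, rfl⟩ := hb
      rw [io_coeff]; exact h i (by exact_mod_cast hg)
    · push Not at hb
      exact io_coeff_of_not p hb

theorem io_mem_VG_zero (p : PowerSeries kk) : io p ∈ VG 0 := by
  have := (io_mem_VG_iff (p := p) (n := 0)).2 (by simp)
  simpa using this

theorem io_mem_VG_iff_order {p : PowerSeries kk} {n : ℕ} :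
    io p ∈ VG n ↔ (n : ℕ∞) ≤ p.order := by
  rw [io_mem_VG_iff]
  exact ⟨fun h => PowerSeries.nat_le_order p n h, fun h i hi =>
    PowerSeries.coeff_of_lt_order i (lt_of_lt_of_le (by exact_mod_cast hi) h)⟩

theorem Ex_io_iff {p : PowerSeries kk} {n : ℕ} : Ex n (io p) ↔ p.order = n := by
  rw [Ex, io_mem_VG_iff, io_coeff, PowerSeries.order_eq_nat, and_comm]

theorem exists_io {x : Om} (hK : x ∈ KK) (h0 : x ∈ VG 0) : ∃ p, io p = x := by
  refine ⟨PowerSeries.mk fun n => x.coeff n, ?_⟩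
  ext g
  by_cases hb : ∃ i : ℕ, g = i
  · obtain ⟨i, rfl⟩ := hb
    rw [io_coeff, PowerSeries.coeff_mk]
  · push Not at hb
    rw [io_coeff_of_not _ hb]
    by_cases hg : g < 0
    · exact (h0 g hg).symm
    · refine (mem_KK.1 hK g fun z hz => hb z.toNat ?_).symm
      have : 0 ≤ z := by exact_mod_cast hz ▸ not_lt.1 hg
      rw [hz]
      exact_mod_cast (Int.toNat_of_nonneg this).symm

/-- An element of `k((t))` whose coefficients vanish at the integers below `a` lies in `VG a`. -/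
theorem mem_VG_of_KK {x : Om} (hK : x ∈ KK) {a : ℚ} (h : ∀ z : ℤ, (z : ℚ) < a → x.coeff z = 0) :
    x ∈ VG a := by
  intro g hg
  by_cases hb : ∃ z : ℤ, g = z
  · obtain ⟨z, rfl⟩ := hb
    exact h z hg
  · push Not at hb
    exact mem_KK.1 hK g hb

/-- Coefficientwise Frobenius on `Ω`. -/
noncomputable def fr (m : ℕ) : Om →+* Om where
  toFun x := x.map (iterateFrobenius kk 2 m)
  map_one' := by ext g; by_cases h : g = 0 <;> simp [h]
  map_mul' x y := HahnSeries.map_mul (iterateFrobenius kk 2 m).toNonUnitalRingHom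
  map_zero' := by ext g; simp
  map_add' x y := by ext g; simp

theorem fr_coeff (m : ℕ) (x : Om) (g : ℚ) : (fr m x).coeff g = x.coeff g ^ 2 ^ m := rfl

theorem fr_single (m : ℕ) (g : ℚ) (c : kk) : fr m (single g c) = single g (c ^ 2 ^ m) := by
  ext g'
  by_cases h : g' = g <;> simp [fr_coeff, h]

theorem fr_smul (m : ℕ) (c : kk) (x : Om) : fr m (c • x) = c ^ 2 ^ m • fr m x := by
  ext g; simp [fr_coeff, mul_pow]

theorem fr_mem_VG {m : ℕ} {a : ℚ} {x : Om} : fr m x ∈ VG a ↔ x ∈ VG a := by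
  simp [mem_VG, fr_coeff]

end Pool.Agent.MP_536a45_ag

end

section

/-!
# Taylor expansion, polynomial functions, and the bilinear map `Aop`
-/

open MvPolynomial HahnSeries

namespace Pool.Agent.MP_536a45_ag

section AopLemmas

variable {k : Type} [Field k] {u : ℕ} (A : Fin 3 → Matrix (Fin u) (Fin u) k) {Ω Ω' : Type}
  [CommRing Ω] [Algebra k Ω] [CommRing Ω'] [Algebra k Ω']

theorem tay_map_Aop (g : Ω →ₐ[k] Ω') (c : Fin 3 → Ω) (w : Fin u → Ω) (i : Fin u) :
    g (Aop A c w i) = Aop A (fun l => g (c l)) (fun j => g (w j)) i := by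
  simp [Aop, map_sum]

theorem tay_map_vand (g : Ω →ₐ[k] Ω') (a : k) (v : Fin u → Ω) :
    g (vand a v) = vand a fun i => g (v i) := by
  simp [vand, map_sum]

theorem tay_Aop_add_left (c c' : Fin 3 → Ω) (w : Fin u → Ω) :
    Aop A (c + c') w = Aop A c w + Aop A c' w := by
  funext i; simp [Aop, add_mul, Finset.sum_add_distrib]

theorem tay_Aop_add_right (c : Fin 3 → Ω) (w w' : Fin u → Ω) :
    Aop A c (w + w') = Aop A c w + Aop A c w' := by
  funext i; simp [Aop, mul_add, Finset.sum_add_distrib]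

theorem tay_Aop_sub_right (c : Fin 3 → Ω) (w w' : Fin u → Ω) :
    Aop A c (w - w') = Aop A c w - Aop A c w' := by
  funext i; simp [Aop, mul_sub, smul_sub, Finset.sum_sub_distrib]

theorem tay_Aop_sub_left (c c' : Fin 3 → Ω) (w : Fin u → Ω) :
    Aop A (c - c') w = Aop A c w - Aop A c' w := by
  funext i; simp [Aop, sub_mul, smul_sub, Finset.sum_sub_distrib]

theorem tay_Aop_zero_left (w : Fin u → Ω) : Aop A (0 : Fin 3 → Ω) w = 0 := by
  funext i; simp [Aop]

theorem tay_Aop_zero_right (c : Fin 3 → Ω) : Aop A c (0 : Fin u → Ω) = 0 := by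
  funext i; simp [Aop]

theorem tay_Aop_mul_left (a : Ω) (c : Fin 3 → Ω) (w : Fin u → Ω) (i : Fin u) :
    Aop A (fun l => a * c l) w i = a * Aop A c w i := by
  simp [Aop, Finset.mul_sum, mul_assoc]

theorem tay_Aop_mem (W : Submodule k Ω) {c : Fin 3 → Ω} {w : Fin u → Ω}
    (h : ∀ l j, c l * w j ∈ W) (i : Fin u) : Aop A c w i ∈ W :=
  W.sum_mem fun l _ => W.sum_mem fun j _ => W.smul_mem _ (h l j)

/-- The point `(w, y + A(θ) w)` for `ξ = (w, y)`. -/
def px (θ : Fin 3 → Ω) (ξ : Fin u ⊕ Fin u → Ω) : Fin u ⊕ Fin u → Ω :=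
  pt A θ (fun i => ξ (Sum.inl i)) fun i => ξ (Sum.inr i)

@[simp] theorem px_inl (θ : Fin 3 → Ω) (ξ : Fin u ⊕ Fin u → Ω) (i : Fin u) :
    px A θ ξ (Sum.inl i) = ξ (Sum.inl i) := rfl

@[simp] theorem px_inr (θ : Fin 3 → Ω) (ξ : Fin u ⊕ Fin u → Ω) (i : Fin u) :
    px A θ ξ (Sum.inr i) = ξ (Sum.inr i) + Aop A θ (fun j => ξ (Sum.inl j)) i := rfl

theorem px_add (θ : Fin 3 → Ω) (ξ ξ' : Fin u ⊕ Fin u → Ω) :
    px A θ (ξ + ξ') = px A θ ξ + px A θ ξ' := by
  funext m
  rcases m with i | i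
  · rfl
  · have := congrFun (tay_Aop_add_right A θ (fun j => ξ (Sum.inl j)) fun j => ξ' (Sum.inl j)) i
    simp only [px_inr, Pi.add_apply] at this ⊢
    rw [show (fun j => ξ (Sum.inl j) + ξ' (Sum.inl j)) =
      (fun j => ξ (Sum.inl j)) + fun j => ξ' (Sum.inl j) from rfl, this]
    ring

theorem px_px (θ θ' : Fin 3 → Ω) (ξ : Fin u ⊕ Fin u → Ω) :
    px A θ (px A θ' ξ) = px A (θ + θ') ξ := by
  funext m
  rcases m with i | i
  · rfl
  · simp only [px_inr, px_inl, tay_Aop_add_left, Pi.add_apply]; ring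

/-- The matrix of `px A θ`. -/
def Emat (θ : Fin 3 → Ω) : Matrix (Fin u ⊕ Fin u) (Fin u ⊕ Fin u) Ω :=
  Matrix.fromBlocks 1 0 (Matrix.of fun i j => ∑ l, A l i j • θ l) 1

theorem det_Emat (θ : Fin 3 → Ω) : (Emat A θ).det = 1 := by
  simp [Emat]

theorem Emat_mulVec (θ : Fin 3 → Ω) (ξ : Fin u ⊕ Fin u → Ω) :
    (Emat A θ).mulVec ξ = px A θ ξ := by
  funext m
  rcases m with i | i
  · simp [Emat, Matrix.mulVec, dotProduct, Matrix.one_apply]
  · simp only [Emat, Matrix.mulVec, dotProduct, Fintype.sum_sum_type, Matrix.fromBlocks_apply₂₁,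
      Matrix.of_apply, Matrix.fromBlocks_apply₂₂, Matrix.one_apply, ite_mul, one_mul, zero_mul,
      Finset.sum_ite_eq, Finset.mem_univ, if_true, px_inr, Aop, Finset.sum_mul, smul_mul_assoc]
    rw [add_comm, Finset.sum_comm]

end AopLemmas

theorem det_mem_of_col {R : Type*} [CommRing R] {σ : Type*} [Fintype σ] [DecidableEq σ]
    (I : Ideal R) (B : Matrix σ σ R) (j : σ) (h : ∀ i, B i j ∈ I) : B.det ∈ I := by
  rw [Matrix.det_apply']
  refine I.sum_mem fun π _ => I.mul_mem_left _ ?_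
  rw [← Finset.mul_prod_erase Finset.univ _ (Finset.mem_univ j)]
  exact I.mul_mem_right _ (h _)

theorem det_mem_subring {R : Type*} [CommRing R] {σ : Type*} [Fintype σ] [DecidableEq σ]
    (T : Subring R) (B : Matrix σ σ R) (h : ∀ i j, B i j ∈ T) : B.det ∈ T := by
  rw [Matrix.det_apply']
  exact T.sum_mem fun π _ => T.mul_mem (intCast_mem T _) (T.prod_mem fun i _ => h _ _)

section Taylor

variable {τ : Type}

theorem aeval_mem_subalgebra (T : Subalgebra kk Om) {x : τ → Om} (hx : ∀ i, x i ∈ T)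
    (p : MvPolynomial τ kk) : aeval x p ∈ T := by
  induction p using MvPolynomial.induction_on with
  | C a => rw [algHom_C]; exact T.algebraMap_mem a
  | add p q hp hq => rw [map_add]; exact T.add_mem hp hq
  | mul_X p i hp => rw [map_mul, aeval_X]; exact T.mul_mem hp (hx i)

theorem aeval_mem_VG {x : τ → Om} (hx : ∀ i, x i ∈ VG 0) (p : MvPolynomial τ kk) :
    aeval x p ∈ VG 0 := aeval_mem_subalgebra VR hx p

theorem aeval_mem_KK {x : τ → Om} (hx : ∀ i, x i ∈ KK) (p : MvPolynomial τ kk) :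
    aeval x p ∈ KK := aeval_mem_subalgebra KA hx p

theorem aeval_sub_mem {x δ : τ → Om} {a : ℚ} (ha : 0 ≤ a) (hx : ∀ i, x i ∈ VG 0)
    (hδ : ∀ i, δ i ∈ VG a) (p : MvPolynomial τ kk) : aeval (x + δ) p - aeval x p ∈ VG a := by
  have hx' : ∀ i, (x + δ) i ∈ VG 0 := fun i => (VG 0).add_mem (hx i) (VG_mono (hδ i) ha)
  induction p using MvPolynomial.induction_on with
  | C c => simp
  | add p q hp hq =>
    rw [map_add, map_add, add_sub_add_comm]; exact (VG a).add_mem hp hq
  | mul_X p i hp =>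
    rw [map_mul, map_mul, aeval_X, aeval_X, show aeval (x + δ) p * (x + δ) i - aeval x p * x i =
      (aeval (x + δ) p - aeval x p) * (x + δ) i + aeval x p * δ i by simp only [Pi.add_apply]; ring]
    exact (VG a).add_mem (VG_mul_of_le hp (hx' i) (by simp))
      (VG_mul_of_le (aeval_mem_VG hx p) (hδ i) (by simp))

theorem taylor [Fintype τ] [DecidableEq τ] {x δ : τ → Om} {a : ℚ} (ha : 0 ≤ a)
    (hx : ∀ i, x i ∈ VG 0) (hδ : ∀ i, δ i ∈ VG a) (p : MvPolynomial τ kk) :
    aeval (x + δ) p - aeval x p - ∑ m, aeval x (pderiv m p) * δ m ∈ VG (2 * a) := by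
  induction p using MvPolynomial.induction_on with
  | C c => simp
  | add p q hp hq =>
    have := (VG (2 * a)).add_mem hp hq
    convert this using 1
    simp only [map_add, add_mul, Finset.sum_add_distrib]; ring
  | mul_X p i hp =>
    have h1 : ∑ m, aeval x (pderiv m (p * X i)) * δ m =
        (∑ m, aeval x (pderiv m p) * δ m) * x i + aeval x p * δ i := by
      simp only [Derivation.leibniz, pderiv_X, smul_eq_mul, map_add, map_mul, aeval_X, add_mul,
        Finset.sum_add_distrib, Finset.sum_mul]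
      rw [add_comm]
      congr 1
      · exact Finset.sum_congr rfl fun m _ => by ring
      · rw [Finset.sum_eq_single i]
        · simp
        · intro m _ hm; simp [hm.symm]
        · simp
    rw [h1, map_mul, map_mul, aeval_X, aeval_X,
      show aeval (x + δ) p * (x + δ) i - aeval x p * x i -
        ((∑ m, aeval x (pderiv m p) * δ m) * x i + aeval x p * δ i) =
      (aeval (x + δ) p - aeval x p - ∑ m, aeval x (pderiv m p) * δ m) * x i +
        (aeval (x + δ) p - aeval x p) * δ i by simp only [Pi.add_apply]; ring]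
    exact (VG _).add_mem (VG_mul_of_le hp (hx i) (by simp))
      (VG_mul_of_le (aeval_sub_mem ha hx hδ p) (hδ i) (by linarith))

/-- Two integral points of a finitely generated algebra that are close on generators are close. -/
theorem algHom_sub_mem {S : Type} [CommRing S] [Algebra kk S] {N : ℕ} {f : Fin N → S}
    (hf : Algebra.adjoin kk (Set.range f) = ⊤) (α β : S →ₐ[kk] Om) {t : ℚ} (ht : 0 ≤ t)
    (hβ : ∀ j, β (f j) ∈ VG 0) (h : ∀ j, α (f j) - β (f j) ∈ VG t) (a : S) :
    α a - β a ∈ VG t := by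
  have ha : a ∈ Algebra.adjoin kk (Set.range f) := hf ▸ Algebra.mem_top
  rw [Algebra.adjoin_range_eq_range_aeval] at ha
  obtain ⟨p, rfl⟩ := ha
  have e1 : α (aeval f p) = aeval ((fun j => β (f j)) + fun j => α (f j) - β (f j)) p := by
    rw [← AlgHom.comp_apply, comp_aeval]; congr 2; funext j; simp
  have e2 : β (aeval f p) = aeval (fun j => β (f j)) p := by
    rw [← AlgHom.comp_apply, comp_aeval]
  change α (aeval f p) - β (aeval f p) ∈ _
  rw [e1, e2]
  exact aeval_sub_mem ht hβ h p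

theorem algHom_mem_VG {S : Type} [CommRing S] [Algebra kk S] {N : ℕ} {f : Fin N → S}
    (hf : Algebra.adjoin kk (Set.range f) = ⊤) (β : S →ₐ[kk] Om)
    (hβ : ∀ j, β (f j) ∈ VG 0) (a : S) : β a ∈ VG 0 := by
  have ha : a ∈ Algebra.adjoin kk (Set.range f) := hf ▸ Algebra.mem_top
  rw [Algebra.adjoin_range_eq_range_aeval] at ha
  obtain ⟨p, rfl⟩ := ha
  change β (aeval f p) ∈ _
  rw [← AlgHom.comp_apply, comp_aeval]
  exact aeval_mem_VG hβ p

theorem aeval_mem_VG_of_span {x : τ → Om} (hx : ∀ i, x i ∈ VG 0) {α : Type}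
    {g : α → MvPolynomial τ kk} {t : ℚ} (hg : ∀ a, aeval x (g a) ∈ VG t) {p : MvPolynomial τ kk}
    (hp : p ∈ Ideal.span (Set.range g)) : aeval x p ∈ VG t := by
  induction hp using Submodule.span_induction with
  | mem q hq => obtain ⟨a, rfl⟩ := hq; exact hg a
  | zero => simp
  | add p q _ _ hp hq => rw [map_add]; exact (VG t).add_mem hp hq
  | smul c q _ hq =>
    rw [smul_eq_mul, map_mul]; exact VG_mul_of_le (aeval_mem_VG hx c) hq (by simp)

/-- The coefficients of `p` lie in `𝔽_{2^m}`. -/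
def Fixed (m : ℕ) (p : MvPolynomial τ kk) : Prop :=
  MvPolynomial.map (iterateFrobenius kk 2 m) p = p

theorem fr_aeval {m : ℕ} {p : MvPolynomial τ kk} (hp : Fixed m p) (x : τ → Om) :
    fr m (aeval x p) = aeval (fun i => fr m (x i)) p := by
  conv_rhs => rw [← hp]
  clear hp
  induction p using MvPolynomial.induction_on with
  | C c => simp only [algHom_C, MvPolynomial.map_C, algebraMap_Om, fr_single]; rfl
  | add p q hp hq => simp [hp, hq]
  | mul_X p i hp => simp [hp]

theorem eventually_fixed_elt (a : kk) : ∀ᶠ m in dv, a ^ 2 ^ m = a := by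
  have hint : IsIntegral (ZMod 2) a := Algebra.IsIntegral.isIntegral a
  have : FiniteDimensional (ZMod 2) (IntermediateField.adjoin (ZMod 2) {a}) :=
    IntermediateField.adjoin.finiteDimensional hint
  have : Finite (IntermediateField.adjoin (ZMod 2) {a}) := Module.finite_of_finite (ZMod 2)
  let _ := Fintype.ofFinite (IntermediateField.adjoin (ZMod 2) {a})
  obtain ⟨n, -, hn⟩ := FiniteField.card (IntermediateField.adjoin (ZMod 2) {a}) 2
  refine eventually_dv.2 ⟨n, n.pos, ?_⟩
  rintro m - ⟨j, rfl⟩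
  have := FiniteField.pow_card_pow (K := IntermediateField.adjoin (ZMod 2) {a}) j
    ⟨a, IntermediateField.mem_adjoin_simple_self _ _⟩
  rw [hn, ← pow_mul] at this
  exact congrArg Subtype.val this

theorem eventually_Fixed (p : MvPolynomial τ kk) : ∀ᶠ m in dv, Fixed m p := by
  induction p using MvPolynomial.induction_on with
  | C c => filter_upwards [eventually_fixed_elt c] with m hm; simp [Fixed, iterateFrobenius_def, hm]
  | add p q hp hq =>
    filter_upwards [hp, hq] with m h1 h2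
    unfold Fixed at *; rw [map_add, h1, h2]
  | mul_X p i hp =>
    filter_upwards [hp] with m h1
    unfold Fixed at *; rw [map_mul, h1, map_X]

end Taylor

section PolyFun

variable {I : Type}

/-- Families of Hahn series with finite support and polynomial coefficients. -/
noncomputable def PF (I : Type) : Subalgebra kk ((I → kk) → Om) :=
  (Submodule.span kk {g : (I → kk) → Om | ∃ (γ : ℚ) (a : MvPolynomial I kk),
    g = fun p => single γ (eval p a)}).toSubalgebra
    (Submodule.subset_span ⟨0, 1, by funext p; simp⟩) (by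
      intro x y hx hy
      have := Submodule.mul_mem_mul hx hy
      rw [Submodule.span_mul_span] at this
      refine Submodule.span_mono ?_ this
      rintro _ ⟨_, ⟨γ, a, rfl⟩, _, ⟨γ', a', rfl⟩, rfl⟩
      exact ⟨γ + γ', a * a', by funext p; simp [single_mul_single]⟩)

theorem single_mem_PF (γ : ℚ) (a : MvPolynomial I kk) :
    (fun p => (single γ (eval p a) : Om)) ∈ PF I := Submodule.subset_span ⟨γ, a, rfl⟩

theorem PF_coeff {g : (I → kk) → Om} (hg : g ∈ PF I) (γ : ℚ) :
    ∃ a : MvPolynomial I kk, ∀ p, (g p).coeff γ = eval p a := by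
  change g ∈ Submodule.span kk _ at hg
  induction hg using Submodule.span_induction with
  | mem q hq =>
    obtain ⟨γ', a, rfl⟩ := hq
    by_cases h : γ = γ'
    · exact ⟨a, fun p => by simp [h]⟩
    · exact ⟨0, fun p => by simp [coeff_single_of_ne h]⟩
  | zero => exact ⟨0, fun p => by simp⟩
  | add x y _ _ hx hy =>
    obtain ⟨a, ha⟩ := hx
    obtain ⟨b, hb⟩ := hy
    exact ⟨a + b, fun p => by simp [ha, hb]⟩
  | smul c x _ hx =>
    obtain ⟨a, ha⟩ := hx
    exact ⟨MvPolynomial.C c * a, fun p => by simp [ha]⟩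

theorem aeval_mem_PF {τ : Type} {x : τ → (I → kk) → Om} (hx : ∀ i, x i ∈ PF I)
    (q : MvPolynomial τ kk) : (fun p => aeval (fun i => x i p) q) ∈ PF I := by
  induction q using MvPolynomial.induction_on with
  | C a => simp only [algHom_C]; exact (PF I).algebraMap_mem a
  | add p q hp hq => simp only [map_add]; exact (PF I).add_mem hp hq
  | mul_X p i hp => simp only [map_mul, aeval_X]; exact (PF I).mul_mem hp (hx i)

end PolyFun

end Pool.Agent.MP_536a45_ag

end

section

open HahnSeries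

namespace Pool.Agent.MP_536a45_ag

/-- The `2 ^ n`-th root. -/
noncomputable def rt (n : ℕ) : kk →+* kk := (iterateFrobeniusEquiv kk 2 n).symm

/-- The right-hand side `∑_{j < J} b_j t^{-(2j+1)}` of an Artin–Schreier equation in normal
form. -/
noncomputable def asPoly (J : ℕ) (b : ℕ → kk) : Om :=
  ∑ j ∈ Finset.range J, single (-(2 * j + 1 : ℚ)) (b j)

theorem theta_rt_pow (n : ℕ) (β : kk) : rt n β ^ 2 ^ n = β :=
  (iterateFrobeniusEquiv kk 2 n).apply_symm_apply β

theorem theta_rt_succ (n : ℕ) (β : kk) : rt (n + 1) β ^ 2 = rt n β := by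
  apply (iterateFrobeniusEquiv kk 2 n).injective
  change (rt (n + 1) β ^ 2) ^ 2 ^ n = rt n β ^ 2 ^ n
  rw [← pow_mul, ← pow_succ', theta_rt_pow, theta_rt_pow]

theorem theta_rt_zero (β : kk) : rt 0 β = β := by simpa using theta_rt_pow 0 β

theorem theta_coeff_sq (x : Om) (g : ℚ) : (x ^ 2).coeff g = x.coeff (g / 2) ^ 2 := by
  classical
  rw [sq, coeff_mul, ← Finset.sum_filter_add_sum_filter_not _ fun p : ℚ × ℚ => p.1 = p.2]
  have h2 : ∑ p ∈ (Finset.antidiagonal x.isPWO_support x.isPWO_support g).filter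
      (fun p : ℚ × ℚ => ¬ p.1 = p.2), x.coeff p.1 * x.coeff p.2 = 0 := by
    refine Finset.sum_involution (fun p _ => p.swap) (fun p _ => ?_) (fun p hp _ e => ?_)
      (fun p hp => ?_) fun p _ => rfl
    · rw [Prod.fst_swap, Prod.snd_swap, mul_comm (x.coeff p.2)]
      exact CharTwo.add_self_eq_zero _
    · exact (Finset.mem_filter.1 hp).2 (congrArg Prod.snd e)
    · rw [Finset.mem_filter, Finset.mem_antidiagonal] at hp ⊢
      exact ⟨⟨hp.1.2.1, hp.1.1, (add_comm _ _).trans hp.1.2.2⟩, fun e => hp.2 e.symm⟩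
  rw [h2, add_zero, Finset.sum_eq_single (g / 2, g / 2), sq]
  · rintro ⟨a, b⟩ hp hne
    rw [Finset.mem_filter, Finset.mem_antidiagonal] at hp
    have h1 : a + b = g := hp.1.2.2
    have h3 : a = b := hp.2
    exact absurd (Prod.ext (by simp only; linarith) (by simp only; linarith)) hne
  · intro hn
    by_contra hne
    exact hn (Finset.mem_filter.2 ⟨Finset.mem_antidiagonal.2
      ⟨left_ne_zero_of_mul hne, right_ne_zero_of_mul hne, by simp⟩, rfl⟩)

theorem theta_arith_lt {z : ℤ} {j j' n n' : ℕ}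
    (h : (z : ℚ) = (2 * j + 1 : ℚ) / 2 ^ n - (2 * j' + 1 : ℚ) / 2 ^ n') (hlt : n' < n) : False := by
  obtain ⟨d, rfl⟩ := Nat.exists_eq_add_of_lt hlt
  have e : (2 : ℚ) * (z * 2 ^ (n' + d) + (2 * j' + 1) * 2 ^ d) = 2 * j + 1 := by
    rw [h]
    field_simp
    ring
  have e' : (2 : ℤ) * (z * 2 ^ (n' + d) + (2 * j' + 1) * 2 ^ d) = 2 * j + 1 := by exact_mod_cast e
  omega

theorem theta_arith {z : ℤ} {j j' n n' : ℕ}
    (h : (z : ℚ) = (2 * j + 1 : ℚ) / 2 ^ n - (2 * j' + 1 : ℚ) / 2 ^ n') : n = n' := by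
  rcases lt_trichotomy n n' with a | a | a
  · exact (theta_arith_lt (z := -z) (j := j') (j' := j) (n := n') (n' := n)
      (by push_cast; linarith) a).elim
  · exact a
  · exact (theta_arith_lt h a).elim

theorem theta_exp_inj {j n n' : ℕ} (h : -(2 * j + 1 : ℚ) / 2 ^ n = -(2 * j + 1 : ℚ) / 2 ^ n') :
    n = n' :=
  theta_arith (z := 0) (j := j) (j' := j) (by rw [neg_div, neg_div] at h; push_cast; linarith)

open Classical in
/-- The explicit series. -/
noncomputable def thetaSer (j : ℕ) (β : kk) : Om where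
  coeff g := if h : ∃ n : ℕ, 0 < n ∧ g = -(2 * j + 1 : ℚ) / 2 ^ n then rt h.choose β else 0
  isPWO_support' := by
    have hm : Monotone fun n : ℕ => -(2 * j + 1 : ℚ) / 2 ^ n := fun a b hab => by
      simp only [neg_div, neg_le_neg_iff]
      exact div_le_div_of_nonneg_left (by positivity) (by positivity)
        (pow_le_pow_right₀ (by norm_num) hab)
    refine ((Set.isPWO_of_wellQuasiOrderedLE (Set.univ : Set ℕ)).image_of_monotone hm).mono ?_
    intro g hg
    by_contra hn
    refine hg (dif_neg ?_)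
    rintro ⟨n, -, e⟩
    exact hn ⟨n, trivial, e.symm⟩

theorem thetaSer_coeff (j : ℕ) (β : kk) {n : ℕ} (hn : 0 < n) :
    (thetaSer j β).coeff (-(2 * j + 1 : ℚ) / 2 ^ n) = rt n β := by
  have h : ∃ n' : ℕ, 0 < n' ∧ -(2 * j + 1 : ℚ) / 2 ^ n = -(2 * j + 1 : ℚ) / 2 ^ n' := ⟨n, hn, rfl⟩
  refine (dif_pos h).trans ?_
  rw [← theta_exp_inj h.choose_spec.2]

theorem thetaSer_coeff_of_not (j : ℕ) (β : kk) {g : ℚ}
    (h : ∀ n : ℕ, 0 < n → g ≠ -(2 * j + 1 : ℚ) / 2 ^ n) : (thetaSer j β).coeff g = 0 :=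
  dif_neg fun ⟨n, hn, e⟩ => h n hn e

/-- There is a canonical additive root `θ(b)` of `θ² + θ = ∑ b_j t^{-(2j+1)}`, namely
`∑_j ∑_{n ≥ 1} b_j^{1/2^n} t^{-(2j+1)/2^n}`. -/
theorem exists_theta1 : ∃ th : ℕ → kk → Om,
    (∀ (j : ℕ) (β : kk), th j β ^ 2 + th j β = single (-(2 * j + 1 : ℚ)) β) ∧
    (∀ (j : ℕ) (β : kk) (n : ℕ), 0 < n → (th j β).coeff (-(2 * j + 1 : ℚ) / 2 ^ n) = rt n β) ∧
    ∀ (j : ℕ) (β : kk) (g : ℚ), (∀ n : ℕ, 0 < n → g ≠ -(2 * j + 1 : ℚ) / 2 ^ n) → (th j β).coeff g = 0 := by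
  refine ⟨thetaSer, fun j β => ?_, fun j β n hn => thetaSer_coeff j β hn,
    fun j β g h => thetaSer_coeff_of_not j β h⟩
  ext g
  rw [coeff_add, theta_coeff_sq]
  by_cases hg : ∃ n : ℕ, g = -(2 * j + 1 : ℚ) / 2 ^ n
  · obtain ⟨n, rfl⟩ := hg
    rw [div_div, ← pow_succ, thetaSer_coeff j β (Nat.succ_pos n), theta_rt_succ]
    rcases Nat.eq_zero_or_pos n with rfl | hn
    · rw [thetaSer_coeff_of_not j β fun n' hn' e => hn'.ne (theta_exp_inj e), theta_rt_zero]
      simp
    · rw [thetaSer_coeff j β hn, CharTwo.add_self_eq_zero, coeff_single_of_ne]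
      intro e
      exact hn.ne' (theta_exp_inj (j := j) (n' := 0) (by simpa using e))
  · push Not at hg
    rw [thetaSer_coeff_of_not j β fun n _ => hg n, thetaSer_coeff_of_not j β, coeff_single_of_ne]
    · simp
    · simpa using hg 0
    · intro n hn e
      obtain ⟨n, rfl⟩ := Nat.exists_eq_add_of_lt hn
      refine hg n ?_
      rw [zero_add, pow_succ, ← div_div] at e
      linarith

/-- The root of `θ² + θ = β t^{-(2j+1)}`. -/
noncomputable def theta1 : ℕ → kk → Om := Classical.choose exists_theta1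

/-- The root of `θ² + θ = asPoly J b`. -/
noncomputable def theta (J : ℕ) (b : ℕ → kk) : Om := ∑ j ∈ Finset.range J, theta1 j (b j)

theorem theta1_sq_add (j : ℕ) (β : kk) :
    theta1 j β ^ 2 + theta1 j β = single (-(2 * j + 1 : ℚ)) β :=
  (Classical.choose_spec exists_theta1).1 j β

theorem theta1_coeff (j : ℕ) (β : kk) {n : ℕ} (hn : 0 < n) :
    (theta1 j β).coeff (-(2 * j + 1 : ℚ) / 2 ^ n) = rt n β :=
  (Classical.choose_spec exists_theta1).2.1 j β n hn

theorem theta1_coeff_of_not (j : ℕ) (β : kk) {g : ℚ}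
    (h : ∀ n : ℕ, 0 < n → g ≠ -(2 * j + 1 : ℚ) / 2 ^ n) : (theta1 j β).coeff g = 0 :=
  (Classical.choose_spec exists_theta1).2.2 j β g h

theorem theta1_cases (j : ℕ) (g : ℚ) : (∃ n : ℕ, 0 < n ∧ g = -(2 * j + 1 : ℚ) / 2 ^ n) ∨
    ∀ β, (theta1 j β).coeff g = 0 := by
  by_cases h : ∃ n : ℕ, 0 < n ∧ g = -(2 * j + 1 : ℚ) / 2 ^ n
  · exact Or.inl h
  · exact Or.inr fun β => theta1_coeff_of_not j β fun n hn e => h ⟨n, hn, e⟩

theorem theta1_add (j : ℕ) (β β' : kk) : theta1 j (β + β') = theta1 j β + theta1 j β' := by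
  ext g
  rw [coeff_add]
  rcases theta1_cases j g with ⟨n, hn, rfl⟩ | h
  · rw [theta1_coeff j _ hn, theta1_coeff j _ hn, theta1_coeff j _ hn, map_add]
  · rw [h, h, h, add_zero]

theorem theta1_zero (j : ℕ) : theta1 j 0 = 0 := by
  have := theta1_add j 0 0
  rw [add_zero] at this
  exact left_eq_add.1 this

theorem theta_sq_add (J : ℕ) (b : ℕ → kk) : theta J b ^ 2 + theta J b = asPoly J b := by
  rw [theta, CharTwo.sum_sq, ← Finset.sum_add_distrib, asPoly]
  exact Finset.sum_congr rfl fun j _ => theta1_sq_add j (b j)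

theorem theta_add (J : ℕ) (b b' : ℕ → kk) : theta J (b + b') = theta J b + theta J b' := by
  simp only [theta, Pi.add_apply, theta1_add, Finset.sum_add_distrib]

theorem theta_zero (J : ℕ) : theta J 0 = 0 := by
  simp [theta, theta1_zero]

theorem theta_congr {J J' : ℕ} {b b' : ℕ → kk} (h : ∀ j, j < J → j < J' → b j = b' j)
    (h1 : ∀ j, J' ≤ j → j < J → b j = 0) (h2 : ∀ j, J ≤ j → j < J' → b' j = 0) :
    theta J b = theta J' b' := by
  have e1 : theta (min J J') b = theta J b :=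
    Finset.sum_subset (Finset.range_mono (min_le_left _ _)) fun j hj hj' => by
      rw [Finset.mem_range] at hj hj'
      rw [h1 j (by omega) hj, theta1_zero]
  have e2 : theta (min J J') b' = theta J' b' :=
    Finset.sum_subset (Finset.range_mono (min_le_right _ _)) fun j hj hj' => by
      rw [Finset.mem_range] at hj hj'
      rw [h2 j (by omega) hj, theta1_zero]
  rw [← e1, ← e2]
  refine Finset.sum_congr rfl fun j hj => ?_
  rw [Finset.mem_range] at hj
  rw [h j (by omega) (by omega)]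

theorem theta_exp_ge (j : ℕ) {n k : ℕ} (hn : k ≤ n) :
    -(2 * j + 1 : ℚ) / 2 ^ k ≤ -(2 * j + 1 : ℚ) / 2 ^ n := by
  simp only [neg_div, neg_le_neg_iff]
  exact div_le_div_of_nonneg_left (by positivity) (by positivity)
    (pow_le_pow_right₀ (by norm_num) hn)

theorem theta_mem_VG (J : ℕ) (b : ℕ → kk) : theta J b ∈ VG (-J) := by
  refine Submodule.sum_mem _ fun j hj g hg => theta1_coeff_of_not j _ fun n hn e => ?_
  have a := theta_exp_ge j (k := 1) hn
  have c : (j : ℚ) + 1 ≤ J := by exact_mod_cast Finset.mem_range.1 hj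
  rw [← e] at a
  linarith

theorem theta_mem_NK (J : ℕ) (b : ℕ → kk) : theta J b ∈ NK := by
  refine Submodule.sum_mem _ fun j _ z => theta1_coeff_of_not j _ fun n hn e => ?_
  refine hn.ne' (theta_arith (z := -z - 1) (j := j) (j' := 0) (n' := 0) ?_)
  rw [neg_div] at e
  push_cast
  linarith

theorem theta_single_mem (j : ℕ) (c : kk) : (single (-(2 * j + 1 : ℚ)) c : Om) ∈ KK := by
  have := single_mem_KK (-(2 * j + 1 : ℤ)) c
  push_cast at this
  exact this

theorem asPoly_mem_KK (J : ℕ) (b : ℕ → kk) : asPoly J b ∈ KK :=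
  KK.sum_mem fun j _ => theta_single_mem j (b j)

theorem fr_theta (m J : ℕ) (b : ℕ → kk) :
    fr m (theta J b) = theta J fun j => b j ^ 2 ^ m := by
  rw [theta, map_sum]
  refine Finset.sum_congr rfl fun j _ => ?_
  ext g
  rw [fr_coeff]
  rcases theta1_cases j g with ⟨n, hn, rfl⟩ | h
  · rw [theta1_coeff j _ hn, theta1_coeff j _ hn, map_pow]
  · rw [h, h, zero_pow (by positivity)]

/-- The leading terms of `θ(b) w`. -/
theorem coeff_theta_mul {J j n : ℕ} {b : ℕ → kk} (hj : j < J) (hb : ∀ j', j < j' → b j' = 0)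
    (hn : 0 < n) {w : Om} (hK : w ∈ KK) {r : ℤ} (hw : w ∈ VG r) :
    (theta J b * w).coeff (r - (2 * j + 1 : ℚ) / 2 ^ n) = rt n (b j) * w.coeff r := by
  have key : ∀ (j' : ℕ) (a c : ℚ), a + c = r - (2 * j + 1 : ℚ) / 2 ^ n →
      a ≠ -(2 * j' + 1 : ℚ) / 2 ^ n → (theta1 j' (b j')).coeff a = 0 ∨ w.coeff c = 0 := by
    intro j' a c e hne
    rcases theta1_cases j' a with ⟨n', -, rfl⟩ | h
    · refine Or.inr (mem_KK.1 hK c ?_)
      rintro z rfl
      have : n = n' := theta_arith (z := r - z) (j := j) (j' := j')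
        (by rw [neg_div] at e; push_cast; linarith)
      exact hne (by rw [this])
    · exact Or.inl (h _)
  rw [theta, Finset.sum_mul, coeff_sum, Finset.sum_eq_single j]
  · rw [show (r : ℚ) - (2 * j + 1 : ℚ) / 2 ^ n = -(2 * j + 1 : ℚ) / 2 ^ n + r by ring,
      coeff_mul_eq_single _ _ fun a c e hne => key j a c (by rw [e]; ring) hne,
      theta1_coeff j _ hn]
  · intro j' _ hne
    rcases lt_or_gt_of_ne hne with a | a
    · refine coeff_mul_eq_zero fun x c e => ?_
      by_cases hx : x = -(2 * j' + 1 : ℚ) / 2 ^ n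
      · refine Or.inr (hw c ?_)
        have a1 : (j' : ℚ) < j := by exact_mod_cast a
        have a2 : (2 * j' + 1 : ℚ) / 2 ^ n < (2 * j + 1 : ℚ) / 2 ^ n :=
          div_lt_div_of_pos_right (by linarith) (by positivity)
        rw [neg_div] at hx
        linarith
      · exact key j' x c e hx
    · rw [hb j' a, theta1_zero, zero_mul, coeff_zero]
  · intro h
    exact absurd (Finset.mem_range.2 hj) h

theorem theta_sub_mem {J : ℕ} {b : ℕ → kk} (hJ : 2 ≤ J) (hb : ∀ j, 2 ≤ j → b j = 0) :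
    theta J b - single (-3 / 2) (rt 1 (b 1)) ∈ VG (-1) := by
  rw [theta_congr (J := J) (J' := 2) (b := b) (b' := b) (fun _ _ _ => rfl)
    (fun j h _ => hb j h) (fun j h h' => by omega)]
  intro g hg
  rw [theta, Finset.sum_range_succ, Finset.sum_range_one, coeff_sub, coeff_add,
    theta1_coeff_of_not 0 _ fun n hn e => by
      have a := theta_exp_ge 0 (k := 1) hn
      rw [← e] at a
      norm_num at a
      linarith, zero_add]
  by_cases h : g = -3 / 2
  · have a := theta1_coeff 1 (b 1) Nat.one_pos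
    norm_num at a
    rw [h, coeff_single_same, sub_eq_zero, ← a]
    norm_num
  · rw [coeff_single_of_ne h, sub_zero]
    refine theta1_coeff_of_not 1 _ fun n hn e => ?_
    rcases Nat.lt_or_ge n 2 with c | c
    · obtain rfl : n = 1 := by omega
      exact h (by rw [e]; norm_num)
    · have a := theta_exp_ge 1 c
      rw [← e] at a
      norm_num at a
      linarith

/-- Elements having a normal form. -/
def ThetaNF (φ : Om) : Prop :=
  ∃ (J : ℕ) (b : ℕ → kk) (h : Om), h ∈ KK ∧ (∀ j, J ≤ j → b j = 0) ∧ φ = h ^ 2 + h + asPoly J b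

theorem theta_asPoly_mono {J J' : ℕ} {b : ℕ → kk} (hb : ∀ j, J ≤ j → b j = 0) (h : J ≤ J') :
    asPoly J b = asPoly J' b :=
  Finset.sum_subset (Finset.range_mono h) fun j _ hj => by
    rw [Finset.mem_range] at hj
    rw [hb j (by omega), map_zero]

theorem ThetaNF.add {x y : Om} (hx : ThetaNF x) (hy : ThetaNF y) : ThetaNF (x + y) := by
  obtain ⟨J, b, h, a1, a2, rfl⟩ := hx
  obtain ⟨J', b', h', c1, c2, rfl⟩ := hy
  refine ⟨max J J', b + b', h + h', KK.add_mem a1 c1, fun j hj => ?_, ?_⟩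
  · rw [Pi.add_apply, a2 j (le_of_max_le_left hj), c2 j (le_of_max_le_right hj), add_zero]
  · rw [theta_asPoly_mono a2 (le_max_left J J'), theta_asPoly_mono c2 (le_max_right J J'),
      CharTwo.add_sq]
    simp only [asPoly, Pi.add_apply, single_add, Finset.sum_add_distrib]
    ring

theorem thetaNF_sq_add {h : Om} (hh : h ∈ KK) : ThetaNF (h ^ 2 + h) :=
  ⟨0, 0, h, hh, fun _ _ => rfl, by simp [asPoly]⟩

theorem thetaNF_single (e : ℕ) : ∀ c : kk, ThetaNF (single (-(e : ℚ)) c) := by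
  induction e using Nat.strong_induction_on with
  | _ e ih =>
    intro c
    rcases Nat.even_or_odd' e with ⟨j, rfl | rfl⟩
    · rcases Nat.eq_zero_or_pos j with rfl | hj
      · obtain ⟨a, ha⟩ := IsAlgClosed.exists_root
          (Polynomial.X ^ 2 + Polynomial.X - Polynomial.C c : Polynomial kk) (by
            rw [show (Polynomial.X ^ 2 + Polynomial.X - Polynomial.C c : Polynomial kk).degree = 2
              by compute_degree!]
            decide)
        have ha' : a ^ 2 + a = c := by simpa [sub_eq_zero] using ha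
        have := thetaNF_sq_add (algebraMap_mem_KK a)
        rw [← map_pow, ← map_add, ha', algebraMap_Om] at this
        simpa using this
      · have h1 : (single (-(j : ℚ)) (rt 1 c) : Om) ∈ KK := by
          simpa using single_mem_KK (-(j : ℤ)) (rt 1 c)
        have := (thetaNF_sq_add h1).add (ih j (by omega) (rt 1 c))
        rw [add_assoc, CharTwo.add_self_eq_zero, add_zero, single_pow] at this
        have e1 : rt 1 c ^ 2 = c := by simpa using theta_rt_pow 1 c
        rw [e1] at this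
        convert this using 3
        push_cast
        simp
    · refine ⟨j + 1, Pi.single j c, 0, KK.zero_mem, fun i hi => Pi.single_eq_of_ne (by omega) _, ?_⟩
      rw [asPoly, Finset.sum_eq_single j]
      · simp
      · intro i _ hi
        rw [Pi.single_eq_of_ne hi, map_zero]
      · simp

theorem thetaNF_pos {x : Om} (hK : x ∈ KK) (hx : x ∈ VG 1) : ThetaNF x := by
  obtain ⟨p, rfl⟩ := exists_io hK (VG_mono hx zero_le_one)
  have h0 : PowerSeries.constantCoeff p = 0 := by
    have := (io_mem_VG_iff (p := p) (n := 1)).1 (by simpa using hx) 0 Nat.one_pos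
    simpa using this
  obtain ⟨a, ha, -⟩ := HenselianRing.is_henselian
    (I := (Ideal.span {PowerSeries.X} : Ideal (PowerSeries kk)))
    (Polynomial.X ^ 2 + Polynomial.X - Polynomial.C p) (by monicity!) 0
    (by
      rw [Ideal.mem_span_singleton]
      simpa [PowerSeries.X_dvd_iff] using h0)
    (by simp)
  have ha' : a ^ 2 + a = p := by simpa [sub_eq_zero] using ha
  have := thetaNF_sq_add (io_mem_KK a)
  rwa [← map_pow, ← map_add, ha'] at this

theorem thetaNF_of (N : ℕ) : ∀ x : Om, x ∈ KK → x ∈ VG (1 - N) → ThetaNF x := by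
  induction N with
  | zero => exact fun x hK hx => thetaNF_pos hK (by simpa using hx)
  | succ N ih =>
    intro x hK hx
    have h1 : (single (-(N : ℚ)) (x.coeff (-(N : ℚ))) : Om) ∈ KK := by
      simpa using single_mem_KK (-(N : ℤ)) (x.coeff (-(N : ℚ)))
    have h2 := KK.sub_mem hK h1
    have := (ih _ h2 (mem_VG_of_KK h2 fun z hz => ?_)).add (thetaNF_single N (x.coeff (-(N : ℚ))))
    · rwa [sub_add_cancel] at this
    · rw [coeff_sub]
      by_cases e : (z : ℚ) = -(N : ℚ)
      · rw [e, coeff_single_same, sub_self]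
      · rw [coeff_single_of_ne e, sub_zero]
        refine hx _ ?_
        have a1 : z < 1 - (N : ℤ) := by exact_mod_cast hz
        have a2 : z ≠ -(N : ℤ) := fun a => e (by exact_mod_cast a)
        have a3 : z < -(N : ℤ) := by omega
        have a4 : (z : ℚ) < -(N : ℚ) := by exact_mod_cast a3
        push_cast
        linarith

/-- Artin–Schreier normal form in `k((t))`. -/
theorem exists_normal_form {φ : Om} (hφ : φ ∈ KK) :
    ∃ (J : ℕ) (b : ℕ → kk) (h : Om), h ∈ KK ∧ (∀ j, J ≤ j → b j = 0) ∧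
      φ = h ^ 2 + h + asPoly J b := by
  obtain ⟨N, hN⟩ := exists_nat_ge (1 - φ.order)
  exact thetaNF_of N φ hφ fun g hg => coeff_eq_zero_of_lt_order (by linarith)

end Pool.Agent.MP_536a45_ag

end
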